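import Pool.Agent.H8.TAK.LegA

/-!
# Legendre duality: supergradients
-/

namespace H8TAK

open Set

/-- concavity of the growth exponent -/
theorem GG_concave : ConcaveOn ℝ (Icc (0 : ℝ) (1 / 2)) GG :=
  ff_concave.congr (fun _ hx => ff_eq hx)

/-- supergradients: for `α < 1/2` the infimum is attained -/
theorem exists_supergradient {α : ℝ} (h0 : 0 ≤ α) (h1 : α < 1 / 2) :
    ∃ q : ℝ, 1 ≤ q ∧ PP q ≤ GG α + q * α := by
  rcases h0.eq_or_lt with rfl | h0
  · refine ⟨1, le_rfl, PP_le_of zero_le_one fun x hx => ?_⟩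
    rw [GG_zero]
    linarith [GG_le hx.2]
  · -- the three chord inequality
    have hchord : ∀ x z : ℝ, 0 ≤ x → x < α → α < z → z ≤ 1 / 2 →
        (GG x - GG α) / (α - x) ≤ (GG α - GG z) / (z - α) := by
      intro x z hx0 hxα hαz hz
      have h2 := GG_concave.slope_anti_adjacent (x := x) (y := α) (z := z)
        ⟨hx0, by linarith⟩ ⟨by linarith, hz⟩ hxα hαz
      have e1 : (GG z - GG α) / (z - α) = -((GG α - GG z) / (z - α)) := by
        rw [← neg_div, neg_sub]
      have e2 : (GG α - GG x) / (α - x) = -((GG x - GG α) / (α - x)) := by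
        rw [← neg_div, neg_sub]
      rw [e1, e2] at h2
      linarith
    set s : Set ℝ := (fun x : ℝ => (GG x - GG α) / (α - x)) '' Ico 0 α with hs
    have hbdd : BddAbove s := by
      refine ⟨(GG α - GG (1 / 2)) / (1 / 2 - α), ?_⟩
      rintro _ ⟨x, hx, rfl⟩
      exact hchord x (1 / 2) hx.1 hx.2 h1 le_rfl
    have hne : s.Nonempty := ⟨_, 0, ⟨le_rfl, h0⟩, rfl⟩
    have hlow : ∀ x : ℝ, 0 ≤ x → x < α → (GG x - GG α) / (α - x) ≤ sSup s := fun x hx0 hx =>
      le_csSup hbdd ⟨x, ⟨hx0, hx⟩, rfl⟩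
    have hhigh : ∀ z : ℝ, α < z → z ≤ 1 / 2 → sSup s ≤ (GG α - GG z) / (z - α) := by
      intro z hz1 hz2
      apply csSup_le hne
      rintro _ ⟨x, hx, rfl⟩
      exact hchord x z hx.1 hx.2 hz1 hz2
    have hq1 : 1 ≤ sSup s := by
      refine le_trans ?_ (hlow 0 le_rfl h0)
      rw [sub_zero, le_div_iff₀ h0, GG_zero]
      linarith [GG_le h1.le]
    refine ⟨sSup s, hq1, PP_le_of (by linarith) fun x hx => ?_⟩
    rcases lt_trichotomy x α with h | h | h
    · have h2 := hlow x hx.1 h
      rw [div_le_iff₀ (by linarith)] at h2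
      nlinarith
    · rw [h]
    · have h2 := hhigh x h hx.2
      rw [le_div_iff₀ (by linarith)] at h2
      nlinarith

theorem legendre {α : ℝ} (h0 : 0 ≤ α) (h1 : α ≤ 1 / 2) :
    IsGLB ((fun q : ℝ => PP q - q * α) '' Ici 1) (GG α) := by
  constructor
  · rintro _ ⟨q, hq, rfl⟩
    have hq' : (1 : ℝ) ≤ q := hq
    have := GG_add_le_PP h0 h1 (by linarith : (0 : ℝ) ≤ q)
    simp only
    linarith
  · intro b hb
    have hb' : ∀ q : ℝ, 1 ≤ q → b ≤ PP q - q * α := fun q hq => hb ⟨q, hq, rfl⟩
    rcases h1.lt_or_eq with h1 | h1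
    · obtain ⟨q, hq, hPP⟩ := exists_supergradient h0 h1
      have := hb' q hq
      linarith
    · subst h1
      rw [GG_half]
      by_contra hpos
      push Not at hpos
      obtain ⟨β, hβ0, hβ1, hβ, -⟩ := GG_near_half (half_pos hpos)
      set q : ℝ := max 1 (1 / (1 / 2 - β)) with hq
      have hq1 : 1 ≤ q := le_max_left _ _
      have hq2 : 1 ≤ q * (1 / 2 - β) := by
        have h2 : 1 / (1 / 2 - β) ≤ q := le_max_right _ _
        rwa [div_le_iff₀ (by linarith)] at h2
      have hPP : PP q ≤ q / 2 + b / 2 := by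
        refine PP_le_of (by linarith) fun x hx => ?_
        rcases le_or_gt β x with h | h
        · have h2 := GG_anti h hx.2
          have h3 : q * x ≤ q * (1 / 2) := mul_le_mul_of_nonneg_left hx.2 (by linarith)
          linarith
        · have h2 := GG_le hx.2
          have h3 : q * x ≤ q * β := mul_le_mul_of_nonneg_left h.le (by linarith)
          have h4 := hx.1
          nlinarith
      have := hb' q hq1
      linarith

end H8TAK
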