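import Pool.Agent.H8.TAK.PressDefs

/-!
# Pressure: comparison and growth of the path counts
-/

namespace H8TAK

theorem PressB_UU_nonneg {x : ℝ} (hx : 0 ≤ x) (n : ℕ) : ∀ (d : ℕ) (R : ℤ), 0 ≤ UU x n d R := by
  induction n with
  | zero =>
    intro d R
    cases d with
    | zero =>
      simp only [UU]
      split_ifs <;> norm_num
    | succ d => simp [UU]
  | succ n ih =>
    intro d R
    cases d with
    | zero =>
      simp only [UU]
      exact mul_nonneg (by positivity) (ih 1 R)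
    | succ d =>
      simp only [UU]
      exact add_nonneg (ih _ _) (ih _ _)

theorem UU_le_pow {q : ℝ} (hq : 1 ≤ q) (n d : ℕ) (R : ℤ) :
    UU (2 ^ (q - 1)) n d R ≤ (UU 1 n d R) ^ q := by
  have hq0 : q ≠ 0 := by linarith
  induction n generalizing d R with
  | zero =>
    cases d with
    | zero =>
      simp only [UU]
      split_ifs
      · rw [Real.one_rpow]
      · rw [Real.zero_rpow hq0]
    | succ d =>
      simp only [UU]
      rw [Real.zero_rpow hq0]
  | succ n ih =>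
    cases d with
    | zero =>
      simp only [UU]
      have h1 := ih 1 R
      have h2 := PressB_UU_nonneg (x := 1) zero_le_one n 1 R
      rw [mul_one, Real.mul_rpow (by norm_num) h2]
      have h3 : (2 : ℝ) * 2 ^ (q - 1) = 2 ^ q := by
        rw [Real.rpow_sub (by norm_num), Real.rpow_one]
        field_simp
      rw [h3]
      exact mul_le_mul_of_nonneg_left h1 (Real.rpow_nonneg (by norm_num) _)
    | succ d =>
      simp only [UU]
      refine (add_le_add (ih (d + 2) R) (ih d (R - 2 ^ n * (d + 2)))).trans ?_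
      exact Real.add_rpow_le_rpow_add (PressB_UU_nonneg zero_le_one n _ _)
        (PressB_UU_nonneg zero_le_one n _ _) hq

theorem TT_le {a : ℝ} (ha : 2 ≤ a) (n d : ℕ) :
    TT a n d ≤ (a / √(a - 1)) ^ n * (1 / √(a - 1)) ^ d := by
  have hs2 : √(a - 1) ^ 2 = a - 1 := Real.sq_sqrt (by linarith)
  have hs : 0 < √(a - 1) := Real.sqrt_pos.2 (by linarith)
  set s := √(a - 1) with hsdef
  have ha0 : 0 < a := by linarith
  have hlam : 1 / s + s = a / s := by
    field_simp
    linarith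
  induction n generalizing d with
  | zero =>
    cases d with
    | zero => simp [TT]
    | succ d =>
      simp only [TT]
      positivity
  | succ n ih =>
    cases d with
    | zero =>
      simp only [TT]
      have h1 := mul_le_mul_of_nonneg_left (ih 1) ha0.le
      refine h1.trans (le_of_eq ?_)
      rw [pow_succ (a / s) n]
      ring
    | succ d =>
      simp only [TT]
      refine (add_le_add (ih (d + 2)) (ih d)).trans (le_of_eq ?_)
      have e1 : (a / s) ^ (n + 1) * (1 / s) ^ (d + 1) =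
          (a / s) ^ n * (1 / s) ^ (d + 1) * (a / s) := by
        rw [pow_succ]
        ring
      have e2 : (1 / s) ^ d = (1 / s) ^ (d + 1) * s := by
        rw [pow_succ]
        field_simp
      rw [e1, e2, show d + 2 = (d + 1) + 1 from rfl, pow_succ (1 / s) (d + 1)]
      calc (a / s) ^ n * ((1 / s) ^ (d + 1) * (1 / s)) + (a / s) ^ n * ((1 / s) ^ (d + 1) * s) =
            (a / s) ^ n * (1 / s) ^ (d + 1) * (1 / s + s) := by ring
        _ = _ := by rw [hlam]

theorem PressB_TT_nonneg {a : ℝ} (ha : 0 ≤ a) (n : ℕ) : ∀ d : ℕ, 0 ≤ TT a n d := by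
  induction n with
  | zero =>
    intro d
    cases d with
    | zero => simp [TT]
    | succ d => simp [TT]
  | succ n ih =>
    intro d
    cases d with
    | zero =>
      simp only [TT]
      exact mul_nonneg ha (ih 1)
    | succ d =>
      simp only [TT]
      exact add_nonneg (ih _) (ih _)

theorem PressB_TT_one {a : ℝ} (ha : 1 ≤ a) (k : ℕ) : ∀ d : ℕ, 1 ≤ TT a (d + 2 * k) d := by
  induction k with
  | zero =>
    intro d
    induction d with
    | zero => simp [TT]
    | succ d ihd =>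
      have e : d + 1 + 2 * 0 = d + 1 := by ring
      rw [mul_zero, add_zero] at ihd
      rw [e]
      simp only [TT]
      have := PressB_TT_nonneg (a := a) (by linarith) d (d + 2)
      linarith
  | succ k ih =>
    intro d
    induction d with
    | zero =>
      have e : 0 + 2 * (k + 1) = (1 + 2 * k) + 1 := by ring
      rw [e]
      simp only [TT]
      have := ih 1
      nlinarith
    | succ d ihd =>
      have e : d + 1 + 2 * (k + 1) = (d + 2 * (k + 1)) + 1 := by ring
      rw [e]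
      simp only [TT]
      have := PressB_TT_nonneg (a := a) (by linarith) (d + 2 * (k + 1)) (d + 2)
      linarith

theorem PressB_TT_odd (a : ℝ) (n : ℕ) : ∀ d : ℕ, (n + d) % 2 = 1 → TT a n d = 0 := by
  induction n with
  | zero =>
    intro d h
    cases d with
    | zero => omega
    | succ d => simp [TT]
  | succ n ih =>
    intro d h
    cases d with
    | zero =>
      simp only [TT]
      rw [ih 1 (by omega), mul_zero]
    | succ d =>
      simp only [TT]
      rw [ih (d + 2) (by omega), ih d (by omega), add_zero]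

theorem TT_growth {a μ : ℝ} (ha : 2 < a) (hμ0 : 0 < μ) (hμ : μ < a / √(a - 1)) :
    ∃ m : ℕ, 1 ≤ m ∧ μ ^ (2 * m) < TT a (2 * m) 0 := by
  have hs2 : √(a - 1) ^ 2 = a - 1 := Real.sq_sqrt (by linarith)
  have hs1 : 1 < √(a - 1) := by
    rw [Real.lt_sqrt (by norm_num)]
    linarith
  set s := √(a - 1) with hsdef
  have hs : 0 < s := by linarith
  have ha0 : 0 < a := by linarith
  have hlam : s⁻¹ + s = a / s := by
    field_simp
    linarith
  have hlam2 : 2 < a / s := by
    rw [lt_div_iff₀ hs]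
    nlinarith [sq_nonneg (s - 1)]
  -- choice of `ν`
  obtain ⟨ν, hν1, hν2⟩ := exists_between (max_lt hμ hlam2)
  have hνμ : μ < ν := lt_of_le_of_lt (le_max_left _ _) hν1
  have hν : 2 < ν := lt_of_le_of_lt (le_max_right _ _) hν1
  -- choice of `ρ`
  have hdisc : 0 < ν ^ 2 - 4 := by nlinarith
  set t := √(ν ^ 2 - 4) with ht
  have ht2 : t ^ 2 = ν ^ 2 - 4 := Real.sq_sqrt hdisc.le
  have ht0 : 0 < t := Real.sqrt_pos.2 hdisc
  have htν : t < ν := by nlinarith
  obtain ⟨ρ, hρdef⟩ : ∃ ρ : ℝ, ρ = (ν - t) / 2 := ⟨_, rfl⟩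
  have hρ0 : 0 < ρ := by rw [hρdef]; linarith
  have hρeq : ρ ^ 2 + 1 = ν * ρ := by
    rw [hρdef]
    nlinarith
  have hρ1 : ρ < 1 := by
    by_contra hcon
    push Not at hcon
    have h1 : ν / 2 ≤ ρ → False := by
      intro h
      rw [hρdef] at h
      linarith
    apply h1
    nlinarith
  have hρinv : ρ + ρ⁻¹ = ν := by
    field_simp
    linarith
  have hrρ : s⁻¹ < ρ := by
    by_contra hcon
    push Not at hcon
    have hr1 : s⁻¹ < 1 := inv_lt_one_of_one_lt₀ hs1
    have hr0 : 0 < s⁻¹ := inv_pos.2 hs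
    have h2 : s⁻¹ * s = 1 := inv_mul_cancel₀ hs.ne'
    have h3 : s⁻¹ ^ 2 + 1 = (a / s) * s⁻¹ := by
      rw [← hlam]
      nlinarith
    have h4 : ν * s⁻¹ < (a / s) * s⁻¹ := mul_lt_mul_of_pos_right hν2 hr0
    -- `f(r) > 0` and `ρ ≤ r < 1`
    have h5 : 0 < s⁻¹ ^ 2 - ν * s⁻¹ + 1 := by linarith
    have h6 : s⁻¹ ^ 2 - ν * s⁻¹ + 1 = (s⁻¹ - ρ) * (s⁻¹ - ρ⁻¹) := by
      have : ρ * ρ⁻¹ = 1 := mul_inv_cancel₀ hρ0.ne'
      rw [← hρinv]
      nlinarith
    have h7 : (1 : ℝ) < ρ⁻¹ := (one_lt_inv₀ hρ0).2 hρ1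
    have h8 : (s⁻¹ - ρ) * (s⁻¹ - ρ⁻¹) ≤ 0 :=
      mul_nonpos_of_nonneg_of_nonpos (by linarith) (by linarith)
    linarith
  have haρ : ν < a * ρ := by
    have h1 : a * s⁻¹ < a * ρ := mul_lt_mul_of_pos_left hrρ ha0
    have h2 : a * s⁻¹ = a / s := by rw [div_eq_mul_inv]
    linarith
  -- choice of `ε`
  obtain ⟨ε, hεdef⟩ : ∃ ε : ℝ, ε = min (1 / 2) ((a * ρ - ν) * ρ / a) := ⟨_, rfl⟩
  have hε0 : 0 < ε := by
    rw [hεdef]
    apply lt_min (by norm_num)
    apply div_pos (mul_pos (by linarith) hρ0) ha0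
  have hε1 : ε ≤ 1 / 2 := by rw [hεdef]; exact min_le_left _ _
  have hε2 : ε * (a / ρ) ≤ a * ρ - ν := by
    have h1 : ε ≤ (a * ρ - ν) * ρ / a := by rw [hεdef]; exact min_le_right _ _
    have h2 : 0 < a / ρ := div_pos ha0 hρ0
    refine (mul_le_mul_of_nonneg_right h1 h2.le).trans (le_of_eq ?_)
    field_simp
  set g : ℕ → ℝ := fun d => ρ ^ d - ε * (ρ⁻¹) ^ d with hg
  set ψ : ℕ → ℝ := fun d => max (g d) 0 with hψ
  have hgrec : ∀ d : ℕ, ν * g (d + 1) = g (d + 2) + g d := by
    intro d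
    have hi : ρ * ρ⁻¹ = 1 := mul_inv_cancel₀ hρ0.ne'
    simp only [hg]
    rw [← hρinv]
    have e1 : ρ⁻¹ * ρ ^ (d + 1) = ρ ^ d := by
      rw [pow_succ, mul_comm, mul_assoc, hi, mul_one]
    have e2 : ρ * ρ⁻¹ ^ (d + 1) = ρ⁻¹ ^ d := by
      rw [pow_succ]
      calc ρ * (ρ⁻¹ ^ d * ρ⁻¹) = ρ⁻¹ ^ d * (ρ * ρ⁻¹) := by ring
        _ = ρ⁻¹ ^ d := by rw [hi, mul_one]
    have e3 : ρ * ρ ^ (d + 1) = ρ ^ (d + 2) := by ring
    have e4 : ρ⁻¹ * ρ⁻¹ ^ (d + 1) = ρ⁻¹ ^ (d + 2) := by ring
    calc (ρ + ρ⁻¹) * (ρ ^ (d + 1) - ε * ρ⁻¹ ^ (d + 1)) =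
        ρ * ρ ^ (d + 1) + ρ⁻¹ * ρ ^ (d + 1) - ε * (ρ * ρ⁻¹ ^ (d + 1)) -
          ε * (ρ⁻¹ * ρ⁻¹ ^ (d + 1)) := by ring
      _ = _ := by
        rw [e1, e2, e3, e4]
        ring
  have hψ0 : ∀ d, 0 ≤ ψ d := fun d => le_max_right _ _
  have hψrec : ∀ d : ℕ, ν * ψ (d + 1) ≤ ψ (d + 2) + ψ d := by
    intro d
    rcases le_total (g (d + 1)) 0 with h | h
    · have : ψ (d + 1) = 0 := max_eq_right h
      rw [this, mul_zero]
      exact add_nonneg (hψ0 _) (hψ0 _)
    · have : ψ (d + 1) = g (d + 1) := max_eq_left h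
      rw [this, hgrec]
      exact add_le_add (le_max_left _ _) (le_max_left _ _)
  have hψz : ψ 0 = 1 - ε := by
    have : g 0 = 1 - ε := by simp [hg]
    simp only [hψ]
    rw [this, max_eq_left (by linarith)]
  have hψground : ν * ψ 0 ≤ a * ψ 1 := by
    have h1 : g 1 ≤ ψ 1 := le_max_left _ _
    have h2 : g 1 = ρ - ε * ρ⁻¹ := by simp [hg]
    rw [hψz]
    have h3 : a * (ρ - ε * ρ⁻¹) ≤ a * ψ 1 := by
      rw [← h2]
      exact mul_le_mul_of_nonneg_left h1 ha0.le
    have h4 : ε * (a / ρ) = a * (ε * ρ⁻¹) := by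
      rw [div_eq_mul_inv]
      ring
    rw [h4] at hε2
    nlinarith
  obtain ⟨L, hL⟩ := exists_pow_lt_of_lt_one hε0 (show ρ ^ 2 < 1 by nlinarith)
  have hψL : ∀ d, L ≤ d → ψ d = 0 := by
    intro d hd
    apply max_eq_right
    simp only [hg]
    have h1 : (ρ ^ 2) ^ d ≤ (ρ ^ 2) ^ L :=
      pow_le_pow_of_le_one (by positivity) (by nlinarith) hd
    have h2 : (ρ ^ 2) ^ d ≤ ε := by linarith
    have h3 : ρ ^ d * ρ⁻¹ ^ d = 1 := by
      rw [← mul_pow, mul_inv_cancel₀ hρ0.ne', one_pow]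
    have h4 : 0 < ρ⁻¹ ^ d := by positivity
    have h5 : (ρ ^ 2) ^ d = ρ ^ d * ρ ^ d := by
      rw [← pow_mul, ← pow_add]
      congr 1
      ring
    have h6 : ρ ^ d = (ρ ^ 2) ^ d * ρ⁻¹ ^ d := by
      rw [h5, mul_assoc, h3, mul_one]
    have h7 : (ρ ^ 2) ^ d * ρ⁻¹ ^ d ≤ ε * ρ⁻¹ ^ d := mul_le_mul_of_nonneg_right h2 h4.le
    linarith
  have hψone : ∀ d, ψ d ≤ 1 := by
    intro d
    apply max_le _ zero_le_one
    simp only [hg]
    have h1 : ρ ^ d ≤ 1 := pow_le_one₀ hρ0.le hρ1.le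
    have h4 : 0 < ρ⁻¹ ^ d := by positivity
    have h5 : 0 ≤ ε * ρ⁻¹ ^ d := by positivity
    linarith
  -- the sums of two consecutive terms
  have hTn : ∀ n d, 0 ≤ TT a n d := fun n d => PressB_TT_nonneg ha0.le n d
  have hbase : ∀ d, ψ d ≤ TT a L d + TT a (L + 1) d := by
    intro d
    rcases le_total L d with h | h
    · rw [hψL d h]
      exact add_nonneg (hTn _ _) (hTn _ _)
    · refine (hψone d).trans ?_
      rcases Nat.even_or_odd (L - d) with ⟨k, hk⟩ | ⟨k, hk⟩
      · have e : L = d + 2 * k := by omega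
        have := PressB_TT_one (a := a) (by linarith) k d
        rw [← e] at this
        have := hTn (L + 1) d
        linarith
      · have e : L + 1 = d + 2 * (k + 1) := by omega
        have h1 := PressB_TT_one (a := a) (by linarith) (k + 1) d
        rw [← e] at h1
        have := hTn L d
        linarith
  have hmain : ∀ n d, ν ^ n * ψ d ≤ TT a (L + n) d + TT a (L + n + 1) d := by
    intro n
    induction n with
    | zero =>
      intro d
      simpa using hbase d
    | succ n ih =>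
      intro d
      have hνn : 0 ≤ ν ^ n := by positivity
      cases d with
      | zero =>
        have h1 := ih 1
        have e1 : TT a (L + (n + 1)) 0 = a * TT a (L + n) 1 := by
          rw [← add_assoc]
          simp only [TT]
        have e2 : TT a (L + (n + 1) + 1) 0 = a * TT a (L + n + 1) 1 := by
          rw [← add_assoc]
          simp only [TT]
        rw [e1, e2, pow_succ, mul_assoc]
        calc ν ^ n * (ν * ψ 0) ≤ ν ^ n * (a * ψ 1) := mul_le_mul_of_nonneg_left hψground hνn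
          _ = a * (ν ^ n * ψ 1) := by ring
          _ ≤ a * (TT a (L + n) 1 + TT a (L + n + 1) 1) := mul_le_mul_of_nonneg_left h1 ha0.le
          _ = _ := by ring
      | succ d =>
        have h1 := ih (d + 2)
        have h2 := ih d
        have e1 : TT a (L + (n + 1)) (d + 1) = TT a (L + n) (d + 2) + TT a (L + n) d := by
          rw [← add_assoc]
          simp only [TT]
        have e2 : TT a (L + (n + 1) + 1) (d + 1) =
            TT a (L + n + 1) (d + 2) + TT a (L + n + 1) d := by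
          rw [← add_assoc]
          simp only [TT]
        rw [e1, e2, pow_succ, mul_assoc]
        calc ν ^ n * (ν * ψ (d + 1)) ≤ ν ^ n * (ψ (d + 2) + ψ d) :=
              mul_le_mul_of_nonneg_left (hψrec d) hνn
          _ = ν ^ n * ψ (d + 2) + ν ^ n * ψ d := by ring
          _ ≤ _ := by linarith
  -- conclusion
  have hν0 : 0 < ν := by linarith
  have hfin : ∀ m : ℕ, L ≤ m → ν ^ (2 * m) * (1 / 2) ≤ ν ^ L * TT a (2 * m) 0 := by
    intro m hm
    have h1 := hmain (2 * m - L) 0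
    have e1 : L + (2 * m - L) = 2 * m := by omega
    rw [e1, PressB_TT_odd a (2 * m + 1) 0 (by omega), add_zero, hψz] at h1
    have e2 : ν ^ (2 * m) = ν ^ L * ν ^ (2 * m - L) := by
      rw [← pow_add, e1]
    rw [e2, mul_assoc]
    apply mul_le_mul_of_nonneg_left _ (by positivity)
    refine le_trans ?_ h1
    exact mul_le_mul_of_nonneg_left (by linarith) (by positivity)
  have hratio : 1 < (ν / μ) ^ 2 := by
    have : 1 < ν / μ := (one_lt_div hμ0).2 hνμ
    nlinarith
  obtain ⟨m₀, hm₀⟩ := pow_unbounded_of_one_lt (2 * ν ^ L) hratio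
  refine ⟨max (max m₀ L) 1, le_max_right _ _, ?_⟩
  set m := max (max m₀ L) 1 with hm
  have hmL : L ≤ m := (le_max_right _ _).trans (le_max_left _ _)
  have hm0 : m₀ ≤ m := (le_max_left _ _).trans (le_max_left _ _)
  have h1 := hfin m hmL
  have h2 : 2 * ν ^ L < ((ν / μ) ^ 2) ^ m :=
    lt_of_lt_of_le hm₀ (pow_le_pow_right₀ hratio.le hm0)
  rw [← pow_mul, div_pow, lt_div_iff₀ (by positivity)] at h2
  have h3 : ν ^ L * μ ^ (2 * m) < ν ^ L * TT a (2 * m) 0 := by
    calc ν ^ L * μ ^ (2 * m) = (2 * ν ^ L * μ ^ (2 * m)) * (1 / 2) := by ring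
      _ < ν ^ (2 * m) * (1 / 2) := mul_lt_mul_of_pos_right h2 (by norm_num)
      _ ≤ _ := h1
  exact lt_of_mul_lt_mul_left h3 (by positivity)

end H8TAK
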