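import Pool.Agent.H8.TAK.PressDefs

/-!
# Pressure: `UU_small` and `UU_holder`
-/

namespace H8TAK

private theorem nonneg_aux {x : ℝ} (hx : 0 ≤ x) (n : ℕ) :
    ∀ (d : ℕ) (R : ℤ), 0 ≤ UU x n d R := by
  induction n with
  | zero =>
    intro d R
    cases d with
    | zero =>
      rw [UU]
      split_ifs <;> norm_num
    | succ d => rw [UU]
  | succ n ih =>
    intro d R
    cases d with
    | zero =>
      rw [UU]
      exact mul_nonneg (by positivity) (ih 1 R)
    | succ d =>
      rw [UU]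
      exact add_nonneg (ih _ _) (ih _ _)

private theorem support_aux (x : ℝ) (n : ℕ) :
    ∀ (d : ℕ) (R : ℤ), UU x n d R ≠ 0 →
      0 ≤ R ∧ 3 * 2 ^ d * R ≤ 2 ^ n * (3 * 2 ^ d * (d : ℤ) + 2) := by
  induction n with
  | zero =>
    intro d R h
    cases d with
    | zero =>
      rw [UU] at h
      split_ifs at h with h0
      · rw [h0]
        norm_num
      · exact absurd rfl h
    | succ d =>
      rw [UU] at h
      exact absurd rfl h
  | succ n ih =>
    intro d R h
    have hP : (0 : ℤ) < 2 ^ n := by positivity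
    cases d with
    | zero =>
      rw [UU] at h
      obtain ⟨h1, h2⟩ := ih 1 R (right_ne_zero_of_mul h)
      refine ⟨h1, ?_⟩
      push_cast at h2 ⊢
      rw [pow_succ]
      linarith
    | succ d =>
      rw [UU] at h
      have hQ : (0 : ℤ) < 2 ^ d := by positivity
      have hd : (0 : ℤ) ≤ d := Int.natCast_nonneg d
      by_cases hu : UU x n (d + 2) R = 0
      · have hdn : UU x n d (R - 2 ^ n * (d + 2)) ≠ 0 := by
          intro h0
          exact h (by rw [hu, h0, add_zero])
        obtain ⟨h1, h2⟩ := ih d _ hdn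
        have h3 : (0 : ℤ) ≤ 2 ^ n * ((d : ℤ) + 2) := by positivity
        refine ⟨by linarith, ?_⟩
        push_cast
        rw [pow_succ, pow_succ]
        nlinarith [h2]
      · obtain ⟨h1, h2⟩ := ih (d + 2) R hu
        refine ⟨h1, ?_⟩
        push_cast at h2 ⊢
        rw [pow_succ, pow_succ]
        rw [pow_add] at h2
        have h3 : (0 : ℤ) ≤ 2 ^ n * 2 ^ d * (d : ℤ) := by positivity
        nlinarith [h2, h3]

theorem UU_small {l : ℝ} (h1 : 1 < l) (h2 : l ≤ 2) (n : ℕ) (R : ℤ) :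
    UU ((l - 1) ^ 2 / 2) n 0 R ≤ l ^ n := by
  have hl : 0 < l - 1 := by linarith
  have hx : (0 : ℝ) ≤ (l - 1) ^ 2 / 2 := by positivity
  obtain ⟨t, ht⟩ : ∃ t : ℝ, t = 1 / (l - 1) := ⟨_, rfl⟩
  obtain ⟨c, hc⟩ : ∃ c : ℝ, c = 1 / (l - 1) ^ 2 := ⟨_, rfl⟩
  have ht1 : t * (l - 1) = 1 := by rw [ht]; field_simp
  have hc1 : c * (l - 1) = t := by rw [hc, ht]; field_simp
  have hc2 : (l - 1) ^ 2 * c = 1 := by rw [hc]; field_simp
  have ht0 : 1 ≤ t := by
    rw [ht, le_div_iff₀ hl]
    linarith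
  have hct : t ≤ c := by
    have h0 : 0 < c := by rw [hc]; positivity
    nlinarith
  have hc0 : 1 ≤ c := ht0.trans hct
  have key : ∀ n : ℕ, (∀ R, UU ((l - 1) ^ 2 / 2) n 0 R ≤ l ^ n) ∧
      (∀ (d : ℕ) (R : ℤ), 2 ^ n * ((d : ℤ) + 1) ≤ R → UU ((l - 1) ^ 2 / 2) n (d + 1) R ≤ t * l ^ n) ∧
      (∀ (d : ℕ) (R : ℤ), UU ((l - 1) ^ 2 / 2) n (d + 1) R ≤ c * l ^ n) := by
    intro n
    induction n with
    | zero =>
      refine ⟨fun R => ?_, fun d R _ => ?_, fun d R => ?_⟩
      · rw [UU]
        split_ifs <;> norm_num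
      · rw [UU]
        simp only [pow_zero, mul_one]
        linarith
      · rw [UU]
        simp only [pow_zero, mul_one]
        linarith
    | succ n ih =>
      obtain ⟨hg, htt, hcc⟩ := ih
      have hln : (0 : ℝ) < l ^ n := by positivity
      have hmono : l ^ n ≤ l ^ (n + 1) := by
        rw [pow_succ]
        nlinarith
      have hP : (0 : ℤ) < 2 ^ n := by positivity
      refine ⟨fun R => ?_, fun d R hR => ?_, fun d R => ?_⟩
      · rw [UU]
        have h3 := hcc 0 R
        calc 2 * ((l - 1) ^ 2 / 2) * UU ((l - 1) ^ 2 / 2) n (0 + 1) R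
            ≤ 2 * ((l - 1) ^ 2 / 2) * (c * l ^ n) :=
              mul_le_mul_of_nonneg_left h3 (by positivity)
          _ = ((l - 1) ^ 2 * c) * l ^ n := by ring
          _ = l ^ n := by rw [hc2, one_mul]
          _ ≤ _ := hmono
      · rw [UU]
        rw [pow_succ] at hR
        cases d with
        | zero =>
          have h3 : UU ((l - 1) ^ 2 / 2) n (0 + 2) R ≤ t * l ^ n := by
            apply htt 1 R
            push_cast at hR ⊢
            linarith
          have h4 := hg (R - 2 ^ n * (((0 : ℕ) : ℤ) + 2))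
          have h5 : t * l ^ (n + 1) = (t + 1) * l ^ n := by
            rw [pow_succ]
            have : t * l = t + 1 := by linarith
            calc t * (l ^ n * l) = (t * l) * l ^ n := by ring
              _ = _ := by rw [this]
          rw [h5]
          linarith
        | succ d =>
          have hd : (0 : ℤ) ≤ d := Int.natCast_nonneg d
          have hup : UU ((l - 1) ^ 2 / 2) n (d + 1 + 2) R = 0 := by
            by_contra hne
            obtain ⟨-, h6⟩ := support_aux _ n _ R hne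
            have hQ : (0 : ℤ) < 2 ^ (d + 1 + 2) := by positivity
            have hQ1 : (1 : ℤ) ≤ 2 ^ (d + 1 + 2) := hQ
            push_cast at h6 hR
            have h7 : 3 * 2 ^ (d + 1 + 2) * (2 ^ n * 2 * ((d : ℤ) + 1 + 1)) ≤
                3 * 2 ^ (d + 1 + 2) * R := mul_le_mul_of_nonneg_left hR (by positivity)
            have h8 : (2 : ℤ) ^ n * (3 * 2 ^ (d + 1 + 2) * ((d : ℤ) + 1)) ≤ 2 ^ n * 2 := by
              nlinarith [h6, h7]
            have h9 := le_of_mul_le_mul_left h8 hP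
            nlinarith
          have h3 : UU ((l - 1) ^ 2 / 2) n (d + 1) (R - 2 ^ n * (((d + 1 : ℕ) : ℤ) + 2)) ≤
              t * l ^ n := by
            apply htt d
            push_cast at hR ⊢
            nlinarith
          rw [hup, zero_add]
          refine h3.trans ?_
          exact mul_le_mul_of_nonneg_left hmono (by linarith)
      · rw [UU]
        have h5 : c * l ^ (n + 1) = (t + c) * l ^ n := by
          rw [pow_succ]
          have : c * l = t + c := by linarith
          calc c * (l ^ n * l) = (c * l) * l ^ n := by ring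
            _ = _ := by rw [this]
        by_cases hdn : UU ((l - 1) ^ 2 / 2) n d (R - 2 ^ n * ((d : ℤ) + 2)) = 0
        · rw [hdn, add_zero]
          refine (hcc (d + 1) R).trans ?_
          exact mul_le_mul_of_nonneg_left hmono (by linarith)
        · obtain ⟨h6, -⟩ := support_aux _ n _ _ hdn
          have h7 : UU ((l - 1) ^ 2 / 2) n (d + 2) R ≤ t * l ^ n := by
            apply htt (d + 1) R
            push_cast
            linarith
          have h8 : UU ((l - 1) ^ 2 / 2) n d (R - 2 ^ n * ((d : ℤ) + 2)) ≤ c * l ^ n := by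
            cases d with
            | zero =>
              refine (hg _).trans ?_
              nlinarith
            | succ d => exact hcc d _
          rw [h5]
          linarith
  exact (key n).1 R

private theorem holder_two {q : ℝ} (hq : 1 ≤ q) {a₁ a₂ b₁ b₂ c₁ c₂ : ℝ} (ha₁ : 0 ≤ a₁)
    (ha₂ : 0 ≤ a₂) (hb₁ : 0 ≤ b₁) (hb₂ : 0 ≤ b₂) (hc₁ : 0 ≤ c₁) (hc₂ : 0 ≤ c₂)
    (h₁ : a₁ ^ q ≤ b₁ ^ (q - 1) * c₁) (h₂ : a₂ ^ q ≤ b₂ ^ (q - 1) * c₂) :
    (a₁ + a₂) ^ q ≤ (b₁ + b₂) ^ (q - 1) * (c₁ + c₂) := by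
  rcases eq_or_lt_of_le hq with h | h
  · subst h
    simp only [sub_self, Real.rpow_zero, Real.rpow_one, one_mul] at *
    linarith
  · have hq0 : 0 < q := by linarith
    have hq1 : 0 < q - 1 := by linarith
    rcases eq_or_lt_of_le hb₁ with hb | hb
    · rw [← hb, Real.zero_rpow hq1.ne', zero_mul] at h₁
      have ha : a₁ = 0 := by
        by_contra hne
        have : 0 < a₁ ^ q := Real.rpow_pos_of_pos (lt_of_le_of_ne ha₁ (Ne.symm hne)) q
        linarith
      rw [ha, ← hb, zero_add, zero_add]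
      refine h₂.trans ?_
      exact mul_le_mul_of_nonneg_left (by linarith) (Real.rpow_nonneg hb₂ _)
    · rcases eq_or_lt_of_le hb₂ with hb' | hb'
      · rw [← hb', Real.zero_rpow hq1.ne', zero_mul] at h₂
        have ha : a₂ = 0 := by
          by_contra hne
          have : 0 < a₂ ^ q := Real.rpow_pos_of_pos (lt_of_le_of_ne ha₂ (Ne.symm hne)) q
          linarith
        rw [ha, ← hb', add_zero, add_zero]
        refine h₁.trans ?_
        exact mul_le_mul_of_nonneg_left (by linarith) (Real.rpow_nonneg hb₁ _)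
      · have hs : 0 < b₁ + b₂ := by linarith
        have hx1 : a₁ / b₁ ∈ Set.Ici (0 : ℝ) := Set.mem_Ici.2 (by positivity)
        have hx2 : a₂ / b₂ ∈ Set.Ici (0 : ℝ) := Set.mem_Ici.2 (by positivity)
        have hw1 : 0 ≤ b₁ / (b₁ + b₂) := by positivity
        have hw2 : 0 ≤ b₂ / (b₁ + b₂) := by positivity
        have hw : b₁ / (b₁ + b₂) + b₂ / (b₁ + b₂) = 1 := by field_simp
        have hJ := (convexOn_rpow hq).2 hx1 hx2 hw1 hw2 hw
        simp only [smul_eq_mul] at hJ
        have e1 : b₁ / (b₁ + b₂) * (a₁ / b₁) + b₂ / (b₁ + b₂) * (a₂ / b₂) =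
            (a₁ + a₂) / (b₁ + b₂) := by field_simp
        rw [e1, Real.div_rpow (by linarith) hs.le, Real.div_rpow ha₁ hb.le,
          Real.div_rpow ha₂ hb'.le] at hJ
        have e2 : ∀ b : ℝ, 0 < b → b ^ q = b ^ (q - 1) * b := by
          intro b hb0
          rw [Real.rpow_sub_one hb0.ne']
          field_simp
        have k1 : a₁ ^ q / b₁ ^ q ≤ c₁ / b₁ := by
          rw [e2 b₁ hb, div_le_div_iff₀ (by positivity) hb]
          nlinarith [h₁, Real.rpow_pos_of_pos hb (q - 1)]
        have k2 : a₂ ^ q / b₂ ^ q ≤ c₂ / b₂ := by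
          rw [e2 b₂ hb', div_le_div_iff₀ (by positivity) hb']
          nlinarith [h₂, Real.rpow_pos_of_pos hb' (q - 1)]
        have k3 : (a₁ + a₂) ^ q / (b₁ + b₂) ^ q ≤ (c₁ + c₂) / (b₁ + b₂) := by
          refine hJ.trans ?_
          calc b₁ / (b₁ + b₂) * (a₁ ^ q / b₁ ^ q) + b₂ / (b₁ + b₂) * (a₂ ^ q / b₂ ^ q)
              ≤ b₁ / (b₁ + b₂) * (c₁ / b₁) + b₂ / (b₁ + b₂) * (c₂ / b₂) := by gcongr
            _ = (c₁ + c₂) / (b₁ + b₂) := by field_simp
        have hsq : 0 < (b₁ + b₂) ^ q := Real.rpow_pos_of_pos hs q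
        rw [div_le_div_iff₀ hsq hs] at k3
        rw [e2 _ hs] at k3
        have k4 : ((a₁ + a₂) ^ q) * (b₁ + b₂) ≤
            ((b₁ + b₂) ^ (q - 1) * (c₁ + c₂)) * (b₁ + b₂) := by
          calc ((a₁ + a₂) ^ q) * (b₁ + b₂) ≤ (c₁ + c₂) * ((b₁ + b₂) ^ (q - 1) * (b₁ + b₂)) := k3
            _ = _ := by ring
        exact le_of_mul_le_mul_right k4 hs

theorem UU_holder {q η : ℝ} (hq : 1 ≤ q) (hη : 0 < η) (n d : ℕ) (R : ℤ) :
    (UU 1 n d R) ^ q ≤ (UU η n d R) ^ (q - 1) * UU (η ^ (-(q - 1))) n d R := by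
  have hq0 : 0 < q := by linarith
  have hη' : 0 < η ^ (-(q - 1)) := Real.rpow_pos_of_pos hη _
  induction n generalizing d R with
  | zero =>
    cases d with
    | zero =>
      rw [UU, UU, UU]
      split_ifs
      · simp
      · simp [Real.zero_rpow hq0.ne']
    | succ d =>
      rw [UU, UU, UU]
      simp [Real.zero_rpow hq0.ne']
  | succ n ih =>
    cases d with
    | zero =>
      rw [UU, UU, UU]
      have ha := nonneg_aux zero_le_one n 1 R
      have hb := nonneg_aux hη.le n 1 R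
      have hc := nonneg_aux hη'.le n 1 R
      have h1 := ih 1 R
      rw [mul_one, Real.mul_rpow (by norm_num) ha, Real.mul_rpow (by positivity) hb,
        Real.mul_rpow (by norm_num) hη.le]
      have e1 : (2 : ℝ) ^ q = 2 ^ (q - 1) * 2 := by
        rw [Real.rpow_sub_one (by norm_num)]
        ring
      have e2 : η ^ (q - 1) * η ^ (-(q - 1)) = 1 := by
        rw [← Real.rpow_add hη, add_neg_cancel, Real.rpow_zero]
      calc (2 : ℝ) ^ q * UU 1 n 1 R ^ q
          ≤ 2 ^ q * ((UU η n 1 R) ^ (q - 1) * UU (η ^ (-(q - 1))) n 1 R) :=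
            mul_le_mul_of_nonneg_left h1 (by positivity)
        _ = 2 ^ (q - 1) * 2 * ((η ^ (q - 1) * η ^ (-(q - 1))) *
            ((UU η n 1 R) ^ (q - 1) * UU (η ^ (-(q - 1))) n 1 R)) := by rw [e1, e2, one_mul]
        _ = _ := by ring
    | succ d =>
      rw [UU, UU, UU]
      exact holder_two hq (nonneg_aux zero_le_one _ _ _) (nonneg_aux zero_le_one _ _ _)
        (nonneg_aux hη.le _ _ _) (nonneg_aux hη.le _ _ _) (nonneg_aux hη'.le _ _ _)
        (nonneg_aux hη'.le _ _ _) (ih _ _) (ih _ _)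

end H8TAK
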