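import Pool.Agent.H8.TAK.PressA
import Pool.Agent.H8.TAK.PressB
import Pool.Agent.H8.TAK.PressC

/-!
# Pressure: collected
-/
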