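import Pool.Agent.H8.TAK.LegB
import Pool.Agent.H8.TAK.Press

/-!
# The explicit lower bound
-/

namespace H8TAK

open Set

theorem LegC_mem_NN {m : ℕ} {S : ℤ} (h : MM (2 * m) S 0 ≠ 0) : S ∈ NN m 0 := by
  unfold NN
  rw [Finset.mem_filter]
  constructor
  · have h1 : 0 < MM (2 * m) S 0 := Nat.pos_of_ne_zero h
    unfold MM at h1
    obtain ⟨k, hk⟩ := Finset.card_pos.1 h1
    rw [Finset.mem_filter] at hk
    exact Finset.mem_image.2 ⟨k, hk.1, hk.2.1⟩
  · rw [zero_mul, Real.rpow_zero]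
    exact_mod_cast Nat.one_le_iff_ne_zero.2 h

theorem LegC_TT_le_ZZ {q : ℝ} (hq : 1 ≤ q) (m : ℕ) : TT (2 ^ q) (2 * m) 0 ≤ ZZ m q := by
  have hx : (0 : ℝ) ≤ 2 ^ (q - 1) := by positivity
  have h2 : (2 : ℝ) ^ q = 2 * 2 ^ (q - 1) := by
    rw [Real.rpow_sub_one (by norm_num)]
    ring
  have h3 : ∀ R : ℤ, UU (2 ^ (q - 1)) (2 * m) 0 R ≤ (MM (2 * m) R 0 : ℝ) ^ q := fun R => by
    rw [MM_eq_UU]
    exact UU_le_pow hq _ _ _
  rw [h2]
  refine (TT_le_sum hx (2 * m) 0).trans ?_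
  refine (Finset.sum_le_sum fun R _ => h3 R).trans ?_
  unfold ZZ
  have h4 : ∀ R : ℤ, (MM (2 * m) R 0 : ℝ) ^ q ≠ 0 → R ∈ NN m 0 := fun R hR => by
    apply LegC_mem_NN
    intro h0
    apply hR
    rw [h0, Nat.cast_zero, Real.zero_rpow (by linarith)]
  rw [← Finset.sum_filter_ne_zero]
  refine Finset.sum_le_sum_of_subset_of_nonneg ?_ ?_
  · intro R hR
    rw [Finset.mem_filter] at hR
    exact h4 R hR.2
  · intro R _ _
    positivity

theorem PP_ge {q : ℝ} (hq : 1 ≤ q) : q - Real.logb 2 (2 ^ q - 1) / 2 ≤ PP q := by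
  rcases hq.eq_or_lt with rfl | hq1
  · have h1 := GG_add_le_PP (α := 0) (q := 1) le_rfl (by norm_num) (by norm_num)
    rw [GG_zero] at h1
    have h2 : Real.logb 2 ((2 : ℝ) ^ (1 : ℝ) - 1) = 0 := by
      rw [Real.rpow_one]
      norm_num
    rw [h2]
    linarith
  · have ha : (2 : ℝ) < 2 ^ q := by
      have := Real.rpow_lt_rpow_of_exponent_lt (by norm_num : (1 : ℝ) < 2) hq1
      rwa [Real.rpow_one] at this
    have ha1 : (0 : ℝ) < 2 ^ q - 1 := by linarith
    have hs : 0 < √((2 : ℝ) ^ q - 1) := Real.sqrt_pos.2 ha1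
    have key : ∀ μ : ℝ, 0 < μ → μ < 2 ^ q / √(2 ^ q - 1) → Real.logb 2 μ ≤ PP q := by
      intro μ hμ0 hμ
      obtain ⟨m, hm, h1⟩ := TT_growth ha hμ0 hμ
      obtain ⟨m, rfl⟩ := Nat.exists_eq_add_of_le' hm
      refine le_trans ?_ (ee_le_PP (by linarith) m)
      have h2 := h1.le.trans (LegC_TT_le_ZZ hq (m + 1))
      have hm0 : (0 : ℝ) < 2 * ((m + 1 : ℕ) : ℝ) := by positivity
      rw [le_div_iff₀ hm0]
      have h3 := Real.logb_le_logb_of_le (by norm_num : (1 : ℝ) < 2) (by positivity) h2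
      rw [Real.logb_pow] at h3
      push_cast at h3 ⊢
      linarith
    have e1 : Real.logb 2 (2 ^ q / √(2 ^ q - 1)) = q - Real.logb 2 (2 ^ q - 1) / 2 := by
      rw [Real.logb_div (by positivity) hs.ne', Real.logb_rpow (by norm_num) (by norm_num),
        Real.sqrt_eq_rpow, Real.logb_rpow_eq_mul_logb_of_pos ha1]
      ring
    rw [← e1]
    by_contra hcon
    push Not at hcon
    obtain ⟨c, hc1, hc2⟩ := exists_between hcon
    have h5 := key (2 ^ c) (by positivity) (by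
      rwa [Real.lt_logb_iff_rpow_lt (by norm_num) (by positivity)] at hc2)
    rw [Real.logb_rpow (by norm_num) (by norm_num)] at h5
    linarith

/-- the explicit lower bound -/
noncomputable def hh (α : ℝ) : ℝ :=
  (1 - α) * Real.logb 2 (2 * (1 - α)) - (1 / 2 - α) * Real.logb 2 (1 - 2 * α)

theorem LegC_log {α t : ℝ} (h0 : 0 ≤ α) (h1 : α < 1 / 2) (ht : 1 < t) :
    (1 - α) * Real.log (2 * (1 - α)) - (1 / 2 - α) * Real.log (1 - 2 * α) +
      Real.log (t - 1) / 2 ≤ (1 - α) * Real.log t := by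
  have hb : 0 < 1 - α := by linarith
  have hc : 0 < 1 - 2 * α := by linarith
  have ht1 : 0 < t - 1 := by linarith
  -- the weights
  have hx : 0 < (t - 1) * (2 * (1 - α)) := by positivity
  have hy : 0 < 2 * (1 - α) / (1 - 2 * α) := by positivity
  have hw1 : 0 ≤ 1 / (2 * (1 - α)) := by positivity
  have hw2 : 0 ≤ (1 - 2 * α) / (2 * (1 - α)) := by positivity
  have hw : 1 / (2 * (1 - α)) + (1 - 2 * α) / (2 * (1 - α)) = 1 := by
    field_simp
    ring
  have hconc := strictConcaveOn_log_Ioi.concaveOn.2 (Set.mem_Ioi.2 hx) (Set.mem_Ioi.2 hy)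
    hw1 hw2 hw
  simp only [smul_eq_mul] at hconc
  have e1 : 1 / (2 * (1 - α)) * ((t - 1) * (2 * (1 - α))) +
      (1 - 2 * α) / (2 * (1 - α)) * (2 * (1 - α) / (1 - 2 * α)) = t := by
    field_simp
    ring
  rw [e1, Real.log_mul ht1.ne' (by positivity), Real.log_div (by positivity) hc.ne'] at hconc
  have h2 := mul_le_mul_of_nonneg_left hconc hb.le
  refine le_trans (le_of_eq ?_) h2
  field_simp
  ring

theorem hh_le_GG {α : ℝ} (h0 : 0 ≤ α) (h1 : α ≤ 1 / 2) : hh α ≤ GG α := by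
  rcases h1.eq_or_lt with rfl | h1
  · rw [GG_half]
    unfold hh
    norm_num
  · obtain ⟨q, hq, hle⟩ := exists_supergradient h0 h1
    have h2 := PP_ge hq
    have ha : (2 : ℝ) ≤ 2 ^ q := by
      have := Real.rpow_le_rpow_of_exponent_le (by norm_num : (1 : ℝ) ≤ 2) hq
      rwa [Real.rpow_one] at this
    have h3 := LegC_log h0 h1 (t := 2 ^ q) (by linarith)
    rw [Real.log_rpow (by norm_num)] at h3
    have hL : 0 < Real.log 2 := Real.log_pos (by norm_num)
    have h4 : hh α ≤ (1 - α) * q - Real.logb 2 (2 ^ q - 1) / 2 := by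
      unfold hh Real.logb
      have h5 : (1 - α) * (Real.log (2 * (1 - α)) / Real.log 2) -
          (1 / 2 - α) * (Real.log (1 - 2 * α) / Real.log 2) =
          ((1 - α) * Real.log (2 * (1 - α)) - (1 / 2 - α) * Real.log (1 - 2 * α)) /
            Real.log 2 := by ring
      have h6 : (1 - α) * q - Real.log (2 ^ q - 1) / Real.log 2 / 2 =
          ((1 - α) * (q * Real.log 2) - Real.log (2 ^ q - 1) / 2) / Real.log 2 := by
        field_simp
      rw [h5, h6]
      apply div_le_div_of_nonneg_right _ hL.le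
      linarith
    linarith

end H8TAK
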