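import Pool.Agent.H8.TAK.LegA
import Pool.Agent.H8.TAK.Press

/-!
# The upper bounds `PP_le` and `GG_lt`
-/

namespace H8TAK

open Set

theorem ZZ_pos_aux (m : ℕ) (q : ℝ) : 0 < ZZ m q := by
  unfold ZZ
  apply Finset.sum_pos
  · intro S hS
    apply Real.rpow_pos_of_pos
    have h := (Finset.mem_filter.mp hS).2
    have h1 : (0 : ℝ) < (4 : ℝ) ^ ((0 : ℝ) * m) := by positivity
    exact h1.trans_le h
  · exact NN_nonempty m (by norm_num)

theorem PP_le {q l : ℝ} (hq : 1 ≤ q) (h1 : 1 < l) (h2 : l ≤ 2) :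
    PP q ≤ (q - 1) * Real.logb 2 l +
      Real.logb 2 (2 * (2 / (l - 1) ^ 2) ^ (q - 1) /
        √(2 * (2 / (l - 1) ^ 2) ^ (q - 1) - 1)) := by
  have hl : 0 < l - 1 := by linarith
  have hl0 : 0 < l := by linarith
  set η : ℝ := (l - 1) ^ 2 / 2 with hη
  have hη0 : 0 < η := by positivity
  have hinv : η ^ (-(q - 1)) = (2 / (l - 1) ^ 2) ^ (q - 1) := by
    rw [Real.rpow_neg hη0.le, ← Real.inv_rpow hη0.le, hη, inv_div]
  set a : ℝ := 2 * (2 / (l - 1) ^ 2) ^ (q - 1) with ha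
  have hy : 1 ≤ 2 / (l - 1) ^ 2 := by
    rw [le_div_iff₀ (by positivity)]
    nlinarith
  have ha2 : 2 ≤ a := by
    have : 1 ≤ (2 / (l - 1) ^ 2) ^ (q - 1) := Real.one_le_rpow hy (by linarith)
    rw [ha]; linarith
  have hs : 0 < √(a - 1) := Real.sqrt_pos.mpr (by linarith)
  have hc : 0 < a / √(a - 1) := by positivity
  unfold PP
  apply ciSup_le
  intro m
  set M := m + 1 with hM
  have hMpos : (0 : ℝ) < 2 * (M : ℝ) := by positivity
  have key : ZZ M q ≤ (l ^ (2 * M)) ^ (q - 1) * (a / √(a - 1)) ^ (2 * M) := by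
    calc ZZ M q = ∑ S ∈ NN M 0, (UU 1 (2 * M) 0 S) ^ q := by
          unfold ZZ
          exact Finset.sum_congr rfl fun S _ => by rw [MM_eq_UU]
      _ ≤ ∑ S ∈ NN M 0, (l ^ (2 * M)) ^ (q - 1) * UU (η ^ (-(q - 1))) (2 * M) 0 S := by
          apply Finset.sum_le_sum
          intro S _
          refine (UU_holder hq hη0 (2 * M) 0 S).trans ?_
          apply mul_le_mul_of_nonneg_right _ (UU_nonneg (by positivity) _ _ _)
          apply Real.rpow_le_rpow (UU_nonneg hη0.le _ _ _) _ (by linarith)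
          exact UU_small h1 h2 _ _
      _ = (l ^ (2 * M)) ^ (q - 1) * ∑ S ∈ NN M 0, UU (η ^ (-(q - 1))) (2 * M) 0 S := by
          rw [Finset.mul_sum]
      _ ≤ (l ^ (2 * M)) ^ (q - 1) * TT (2 * η ^ (-(q - 1))) (2 * M) 0 := by
          apply mul_le_mul_of_nonneg_left _ (by positivity)
          exact sum_UU_le (by positivity) _ _ _
      _ ≤ (l ^ (2 * M)) ^ (q - 1) * (a / √(a - 1)) ^ (2 * M) := by
          apply mul_le_mul_of_nonneg_left _ (by positivity)
          rw [hinv, ← ha]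
          have := TT_le ha2 (2 * M) 0
          simpa using this
  rw [div_le_iff₀ hMpos]
  have hlog : Real.logb 2 ((l ^ (2 * M)) ^ (q - 1) * (a / √(a - 1)) ^ (2 * M)) =
      ((q - 1) * Real.logb 2 l + Real.logb 2 (a / √(a - 1))) * (2 * (M : ℝ)) := by
    rw [Real.logb_mul (by positivity) (by positivity),
      Real.logb_rpow_eq_mul_logb_of_pos (by positivity), Real.logb_pow, Real.logb_pow]
    push_cast
    ring
  rw [← hlog]
  exact Real.logb_le_logb_of_le (by norm_num) (ZZ_pos_aux M q) key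

theorem logb_div_sqrt_le {a : ℝ} (ha : 2 ≤ a) :
    Real.logb 2 (a / √(a - 1)) ≤ 1 + (a - 2) ^ 2 / (8 * Real.log 2) := by
  have hl2 : 0 < Real.log 2 := Real.log_pos (by norm_num)
  have h1 : 0 < a - 1 := by linarith
  have h0 : 0 < a := by linarith
  have hs : 0 < √(a - 1) := Real.sqrt_pos.mpr h1
  have hx : 0 < a / √(a - 1) := by positivity
  have hsq : (a / √(a - 1)) ^ 2 ≤ 4 * (1 + (a - 2) ^ 2 / 4) := by
    rw [div_pow, Real.sq_sqrt h1.le, div_le_iff₀ h1]
    nlinarith [mul_nonneg (sq_nonneg (a - 2)) (by linarith : (0 : ℝ) ≤ a - 2)]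
  have h2 : 2 * Real.log (a / √(a - 1)) ≤ 2 * Real.log 2 + (a - 2) ^ 2 / 4 := by
    have e : 2 * Real.log (a / √(a - 1)) = Real.log ((a / √(a - 1)) ^ 2) := by
      rw [Real.log_pow]; push_cast; ring
    rw [e]
    have h3 := Real.log_le_log (by positivity) hsq
    refine h3.trans ?_
    rw [Real.log_mul (by norm_num) (by positivity)]
    have e4 : Real.log 4 = 2 * Real.log 2 := by
      rw [show (4 : ℝ) = 2 ^ 2 by norm_num, Real.log_pow]; push_cast; ring
    rw [e4]
    have := Real.log_le_sub_one_of_pos (by positivity : (0 : ℝ) < 1 + (a - 2) ^ 2 / 4)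
    linarith
  rw [Real.logb, div_le_iff₀ hl2]
  have : (1 + (a - 2) ^ 2 / (8 * Real.log 2)) * Real.log 2 = Real.log 2 + (a - 2) ^ 2 / 8 := by
    field_simp
  rw [this]
  linarith

theorem GG_lt {α : ℝ} (h0 : 0 < α) (h1 : α ≤ 1 / 2) : GG α < 1 - α := by
  have hl2 : 0 < Real.log 2 := Real.log_pos (by norm_num)
  have hl2' : Real.log 2 < 1 := by
    have := Real.log_lt_sub_one_of_pos (by norm_num : (0 : ℝ) < 2) (by norm_num)
    linarith
  set l : ℝ := 2 ^ (α / 2) with hl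
  have hl1 : 1 < l := Real.one_lt_rpow (by norm_num) (by linarith)
  have hl2b : l ≤ 2 := by
    calc l ≤ (2 : ℝ) ^ (1 : ℝ) := Real.rpow_le_rpow_of_exponent_le (by norm_num) (by linarith)
      _ = 2 := Real.rpow_one 2
  have hlogl : Real.logb 2 l = α / 2 := Real.logb_rpow (by norm_num) (by norm_num)
  have hlp : 0 < l - 1 := by linarith
  set y : ℝ := 2 / (l - 1) ^ 2 with hy
  have hy2 : 1 < y := by
    rw [hy, lt_div_iff₀ (by positivity)]
    nlinarith
  have hy0 : 0 < y := by linarith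
  set L : ℝ := Real.log y with hL
  have hL0 : 0 < L := Real.log_pos hy2
  set u : ℝ := α * Real.log 2 / (8 * L ^ 2 + 2 * L) with hu
  have hden : 0 < 8 * L ^ 2 + 2 * L := by positivity
  have hu0 : 0 < u := by positivity
  have huL : u * L ≤ 1 / 2 := by
    rw [hu, div_mul_eq_mul_div, div_le_iff₀ hden]
    have : α * Real.log 2 ≤ 1 / 2 := by nlinarith
    nlinarith [mul_le_mul_of_nonneg_right this hL0.le, sq_nonneg L]
  have huL2 : 4 * u * L ^ 2 < α * Real.log 2 := by
    have e : u * (8 * L ^ 2 + 2 * L) = α * Real.log 2 := by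
      rw [hu]; field_simp
    nlinarith [mul_pos hu0 hL0, mul_pos hu0 (pow_pos hL0 2)]
  have hpow : y ^ u - 1 ≤ 2 * (u * L) := by
    have e : y ^ u = Real.exp (u * L) := by
      rw [Real.rpow_def_of_pos hy0, mul_comm]
    have h3 := Real.exp_bound_div_one_sub_of_interval (by positivity : 0 ≤ u * L)
      (by linarith : u * L < 1)
    have h4 : 1 / (1 - u * L) ≤ 1 + 2 * (u * L) := by
      rw [div_le_iff₀ (by linarith)]
      nlinarith [mul_nonneg (mul_nonneg hu0.le hL0.le) (by linarith : (0 : ℝ) ≤ 1 / 2 - u * L)]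
    rw [e]
    linarith
  have hpow0 : 0 ≤ y ^ u - 1 := by
    have := Real.one_le_rpow hy2.le hu0.le
    linarith
  have hsq : (y ^ u - 1) ^ 2 ≤ 4 * (u * L) ^ 2 := by nlinarith
  set a : ℝ := 2 * y ^ u with ha
  have ha2 : 2 ≤ a := by rw [ha]; linarith
  have key := GG_add_le_PP (q := 1 + u) h0.le h1 (by linarith)
  have key2 := PP_le (q := 1 + u) (by linarith) hl1 hl2b
  have e1 : (1 : ℝ) + u - 1 = u := by ring
  rw [e1, hlogl, ← hy, ← ha] at key2
  have key3 := logb_div_sqrt_le ha2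
  have e2 : (a - 2) ^ 2 / (8 * Real.log 2) = (y ^ u - 1) ^ 2 / (2 * Real.log 2) := by
    rw [ha]; field_simp; ring
  have h5 : (y ^ u - 1) ^ 2 / (2 * Real.log 2) < u * α / 2 := by
    rw [div_lt_iff₀ (by positivity)]
    have : 4 * (u * L) ^ 2 = u * (4 * u * L ^ 2) := by ring
    have h6 : u * (4 * u * L ^ 2) < u * (α * Real.log 2) := mul_lt_mul_of_pos_left huL2 hu0
    have h7 : u * α / 2 * (2 * Real.log 2) = u * (α * Real.log 2) := by ring
    rw [h7]
    linarith
  rw [e2] at key3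
  nlinarith

end H8TAK
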