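import Pool.Agent.H8.TAK.LegA
import Pool.Agent.H8.TAK.LegB
import Pool.Agent.H8.TAK.LegC
import Pool.Agent.H8.TAK.LegD

/-!
# Legendre duality and explicit bounds: collected
-/
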