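import Mathlib

/-!
# Two general facts on Hausdorff dimension of subsets of the line
-/

namespace H8TAK

open Filter

/-- Cantor type lower bound: a map from sequences which separates the cylinders of level `i`
by `c / B^i` has an image of dimension at least `log N / log B`. -/
theorem dimH_ge_of_sep {N : ℕ} (hN : 2 ≤ N) {B c : ℝ} (hB : 1 < B) (hc : 0 < c)
    (X : (ℕ → Fin N) → ℝ)
    (hX : ∀ ω ω' : ℕ → Fin N, ∀ i : ℕ, (∀ j < i, ω j = ω' j) → ω i ≠ ω' i →
      c / B ^ i ≤ |X ω - X ω'|) :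
    ENNReal.ofReal (Real.log N / Real.log B) ≤ dimH (Set.range X) := by
  have hN1 : (1 : ℝ) < N := by exact_mod_cast (by omega : 1 < N)
  have hN0 : (0 : ℝ) < N := by linarith
  have hB0 : (0 : ℝ) < B := by linarith
  have hlB : 0 < Real.log B := Real.log_pos hB
  have hlN : 0 < Real.log N := Real.log_pos hN1
  set r : ℝ := Real.log N / Real.log B with hr
  have hr0 : 0 < r := div_pos hlN hlB
  have hBr : B ^ r = N := by
    rw [Real.rpow_def_of_pos hB0, hr, mul_div_cancel₀ _ hlB.ne', Real.exp_log hN0]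
  have hfirst : ∀ ω ω' : ℕ → Fin N, ω ≠ ω' →
      ∃ i : ℕ, (∀ j < i, ω j = ω' j) ∧ ω i ≠ ω' i := by
    classical
    intro ω ω' hne
    have hex : ∃ i, ω i ≠ ω' i := Function.ne_iff.mp hne
    refine ⟨Nat.find hex, fun j hj => ?_, Nat.find_spec hex⟩
    exact not_not.mp (Nat.find_min hex hj)
  have hinj : Function.Injective X := by
    intro ω ω' heq
    by_contra hne
    obtain ⟨i, h1, h2⟩ := hfirst ω ω' hne
    have h3 := hX ω ω' i h1 h2
    rw [heq, sub_self, abs_zero] at h3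
    have h4 : 0 < c / B ^ i := by positivity
    linarith
  have : Nonempty (ℕ → Fin N) := ⟨fun _ => ⟨0, by omega⟩⟩
  set F : ℝ → ℝ := fun y => Real.ofDigits (Function.invFun X y) with hF
  have hFX : ∀ ω, F (X ω) = Real.ofDigits ω := by
    intro ω
    simp only [hF]
    rw [Function.leftInverse_invFun hinj ω]
  set rn : NNReal := ⟨r, hr0.le⟩ with hrn
  have hrn0 : 0 < rn := by
    rw [← NNReal.coe_pos]
    exact hr0
  set K : NNReal := ⟨(1 / c) ^ r, by positivity⟩ with hK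
  have hhol : HolderOnWith K rn F (Set.range X) := by
    rintro _ ⟨ω, rfl⟩ _ ⟨ω', rfl⟩
    rw [hFX, hFX]
    by_cases hne : ω = ω'
    · subst hne
      simp
    obtain ⟨i, h1, h2⟩ := hfirst ω ω' hne
    have h3 := hX ω ω' i h1 h2
    have h4 := Real.abs_ofDigits_sub_ofDigits_le h1
    have h5 : ((N : ℝ) ^ i)⁻¹ ≤ (1 / c) ^ r * |X ω - X ω'| ^ r := by
      have h6 : ((N : ℝ) ^ i)⁻¹ = (1 / c) ^ r * (c / B ^ i) ^ r := by
        rw [← Real.mul_rpow (by positivity) (by positivity)]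
        have h7 : 1 / c * (c / B ^ i) = (B ^ i)⁻¹ := by
          field_simp
        rw [h7, Real.inv_rpow (by positivity), ← Real.rpow_natCast B i, ← Real.rpow_mul hB0.le,
          mul_comm (i : ℝ) r, Real.rpow_mul hB0.le, hBr, Real.rpow_natCast]
      rw [h6]
      apply mul_le_mul_of_nonneg_left _ (by positivity)
      exact Real.rpow_le_rpow (by positivity) h3 hr0.le
    rw [edist_dist, edist_dist, Real.dist_eq, Real.dist_eq]
    have hKc : (K : ENNReal) = ENNReal.ofReal ((1 / c) ^ r) :=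
      (ENNReal.ofReal_eq_coe_nnreal (by positivity)).symm
    have hrc : ((rn : NNReal) : ℝ) = r := rfl
    rw [hKc, hrc, ENNReal.ofReal_rpow_of_nonneg (abs_nonneg _) hr0.le,
      ← ENNReal.ofReal_mul (by positivity)]
    exact ENNReal.ofReal_le_ofReal (h4.trans h5)
  have hdim := hhol.dimH_image_le hrn0
  have hsub : Set.Icc (0 : ℝ) 1 ⊆ F '' Set.range X := by
    intro y hy
    obtain ⟨ω, -, hω⟩ := Real.ofDigits_SurjOn (b := N) (by omega) hy
    exact ⟨X ω, ⟨ω, rfl⟩, by rw [hFX, hω]⟩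
  have hIcc : dimH (Set.Icc (0 : ℝ) 1) = 1 := by
    rw [Real.dimH_of_nonempty_interior, Module.finrank_self, Nat.cast_one]
    rw [interior_Icc]
    exact ⟨1 / 2, by norm_num, by norm_num⟩
  have h1 : (1 : ENNReal) ≤ dimH (Set.range X) / rn := by
    calc (1 : ENNReal) = dimH (Set.Icc (0 : ℝ) 1) := hIcc.symm
      _ ≤ dimH (F '' Set.range X) := dimH_mono hsub
      _ ≤ _ := hdim
  rw [ENNReal.le_div_iff_mul_le (Or.inl (by exact_mod_cast hrn0.ne'))
    (Or.inl ENNReal.coe_ne_top), one_mul] at h1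
  rwa [ENNReal.ofReal_eq_coe_nnreal hr0.le]

/-- The radius `C (m + 1) / 2 ^ m` is non-increasing. -/
theorem radius_antitone {C : ℝ} (hC : 0 ≤ C) :
    Antitone (fun m : ℕ => C * ((m : ℝ) + 1) / 2 ^ m) := by
  apply antitone_nat_of_succ_le
  intro m
  rw [div_le_div_iff₀ (by positivity) (by positivity)]
  push_cast
  rw [pow_succ]
  have h1 : 0 ≤ (m : ℝ) := Nat.cast_nonneg m
  have h2 : (0 : ℝ) < 2 ^ m := by positivity
  have h3 : C * ((m : ℝ) + 1 + 1) ≤ C * ((m : ℝ) + 1) * 2 := by nlinarith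
  nlinarith

/-- Covering upper bound for limsup sets. -/
theorem dimH_limsup_le {a C : ℝ} (p : ℕ) (ha : 0 ≤ a) (hC : 0 ≤ C) (E : ℕ → Finset ℝ)
    (hE : ∀ᶠ n : ℕ in atTop, ((E n).card : ℝ) ≤ C * ((n : ℝ) + 1) ^ p * 2 ^ (a * n))
    (T : Set ℝ)
    (hT : ∀ y ∈ T, ∃ᶠ n : ℕ in atTop, ∃ c ∈ E n, |y - c| ≤ C * ((n : ℝ) + 1) / 2 ^ n) :
    dimH T ≤ ENNReal.ofReal a := by
  -- the radius
  set R : ℕ → ℝ := fun m => C * ((m : ℝ) + 1) / 2 ^ m with hR
  have hR0 : ∀ m, 0 ≤ R m := fun m => by simp only [hR]; positivity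
  have hRanti : Antitone R := radius_antitone hC
  have hRlim : Tendsto R atTop (nhds 0) := by
    have h1 : Summable (fun n : ℕ => (n : ℝ) ^ 1 * (1 / 2 : ℝ) ^ n) :=
      summable_pow_mul_geometric_of_norm_lt_one 1 (by
        rw [Real.norm_of_nonneg (by norm_num)]; norm_num)
    have h2 := (summable_nat_add_iff 1).mpr h1
    have h3 := (h2.mul_left (2 * C)).tendsto_atTop_zero
    refine h3.congr (fun n => ?_)
    simp only [hR]
    push_cast
    rw [pow_one, pow_succ, one_div, inv_pow]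
    field_simp
  suffices h : ∀ e : NNReal, 0 < e → dimH T ≤ ENNReal.ofReal a + e by
    refine ENNReal.le_of_forall_pos_le_add ?_
    intro e he _
    exact h e he
  intro e he
  have he' : (0 : ℝ) < e := by exact_mod_cast he
  set s : NNReal := Real.toNNReal a + e with hs
  have hsr : (s : ℝ) = a + e := by
    rw [hs, NNReal.coe_add, Real.coe_toNNReal a ha]
  have hs0 : (0 : ℝ) < s := by rw [hsr]; linarith
  have hgoal : (s : ENNReal) = ENNReal.ofReal a + e := by
    rw [hs, ENNReal.coe_add]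
    rfl
  rw [← hgoal]
  apply dimH_le_of_hausdorffMeasure_ne_top
  -- the summable majorant
  set q : ℕ := ⌈(s : ℝ)⌉₊ with hq
  have hqs : (s : ℝ) ≤ q := Nat.le_ceil _
  set ρ : ℝ := 2 ^ (-(e : ℝ)) with hρ
  have hρ0 : 0 < ρ := by positivity
  have hρ1 : ρ < 1 := by
    rw [hρ]
    exact Real.rpow_lt_one_of_one_lt_of_neg (by norm_num) (by linarith)
  set f : ℕ → ℝ := fun m => C * ((m : ℝ) + 1) ^ p * 2 ^ (a * m) * (2 * R m) ^ (s : ℝ) with hf
  have hf0 : ∀ m, 0 ≤ f m := fun m => by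
    simp only [hf]
    have := hR0 m
    positivity
  have hfsum : Summable f := by
    have h1 : Summable (fun n : ℕ => (n : ℝ) ^ (p + q) * ρ ^ n) :=
      summable_pow_mul_geometric_of_norm_lt_one (p + q) (by
        rw [Real.norm_of_nonneg hρ0.le]; exact hρ1)
    have h2 := (summable_nat_add_iff 1).mpr h1
    have h3 := h2.mul_left (C * (2 * C) ^ (s : ℝ) * ρ⁻¹)
    refine Summable.of_nonneg_of_le hf0 (fun m => ?_) h3
    have hm1 : (1 : ℝ) ≤ (m : ℝ) + 1 := by linarith [(Nat.cast_nonneg m : (0 : ℝ) ≤ m)]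
    have h4 : (2 * R m) ^ (s : ℝ) =
        (2 * C) ^ (s : ℝ) * ((m : ℝ) + 1) ^ (s : ℝ) * 2 ^ (-((m : ℝ) * s)) := by
      have h5 : 2 * R m = (2 * C) * ((m : ℝ) + 1) * (2 : ℝ) ^ (-(m : ℝ)) := by
        simp only [hR]
        rw [Real.rpow_neg (by norm_num), Real.rpow_natCast]
        field_simp
      rw [h5, Real.mul_rpow (by positivity) (by positivity),
        Real.mul_rpow (by positivity) (by positivity), ← Real.rpow_mul (by norm_num)]
      congr 2
      ring
    have h6 : ((m : ℝ) + 1) ^ (s : ℝ) ≤ ((m : ℝ) + 1) ^ q := by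
      rw [← Real.rpow_natCast]
      exact Real.rpow_le_rpow_of_exponent_le hm1 hqs
    have h7 : (2 : ℝ) ^ (a * (m : ℝ)) * 2 ^ (-((m : ℝ) * s)) = ρ ^ m := by
      rw [← Real.rpow_add (by norm_num), hρ, ← Real.rpow_natCast, ← Real.rpow_mul (by norm_num)]
      congr 1
      rw [hsr]
      ring
    have h8 : C * (2 * C) ^ (s : ℝ) * ρ⁻¹ * (((m + 1 : ℕ) : ℝ) ^ (p + q) * ρ ^ (m + 1)) =
        C * ((m : ℝ) + 1) ^ p * ((2 * C) ^ (s : ℝ) * ((m : ℝ) + 1) ^ q) * ρ ^ m := by
      push_cast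
      rw [pow_add, pow_succ ρ]
      field_simp
    rw [h8, ← h7]
    simp only [hf]
    rw [h4]
    have h9 : C * ((m : ℝ) + 1) ^ p * 2 ^ (a * (m : ℝ)) *
        ((2 * C) ^ (s : ℝ) * ((m : ℝ) + 1) ^ (s : ℝ) * 2 ^ (-((m : ℝ) * s))) =
        C * ((m : ℝ) + 1) ^ p * ((2 * C) ^ (s : ℝ) * ((m : ℝ) + 1) ^ (s : ℝ)) *
          (2 ^ (a * (m : ℝ)) * 2 ^ (-((m : ℝ) * s))) := by ring
    rw [h9]
    gcongr
  -- the covers
  set t : ∀ n : ℕ, (Σ k : ℕ, {x : ℝ // x ∈ E (n + k)}) → Set ℝ := fun n i =>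
    Set.Icc (i.2.1 - R (n + i.1)) (i.2.1 + R (n + i.1)) with ht
  have hdiam : ∀ n i, Metric.ediam (t n i) = ENNReal.ofReal (2 * R (n + i.1)) := by
    intro n i
    simp only [ht]
    rw [Real.ediam_Icc]
    congr 1
    ring
  have hmain := MeasureTheory.Measure.hausdorffMeasure_le_liminf_tsum (s : ℝ) T (l := atTop)
    (fun n => ENNReal.ofReal (2 * R n)) (by
      have := ENNReal.tendsto_ofReal (hRlim.const_mul 2)
      simpa using this) t
    (Eventually.of_forall fun n i => by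
      rw [hdiam]
      apply ENNReal.ofReal_le_ofReal
      have := hRanti (Nat.le_add_right n i.1)
      linarith)
    (Eventually.of_forall fun n y hy => by
      obtain ⟨m, hm, c, hc, hyc⟩ := (frequently_atTop.mp (hT y hy)) n
      obtain ⟨k, rfl⟩ := Nat.exists_eq_add_of_le hm
      refine Set.mem_iUnion.mpr ⟨⟨k, ⟨c, hc⟩⟩, ?_⟩
      simp only [ht]
      have h1 : |y - c| ≤ R (n + k) := hyc
      rw [abs_le] at h1
      exact ⟨by linarith [h1.1], by linarith [h1.2]⟩)
  obtain ⟨n₀, hn₀⟩ := eventually_atTop.mp hE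
  have hbound : ∀ n ≥ n₀, ∑' i, Metric.ediam (t n i) ^ (s : ℝ) ≤ ENNReal.ofReal (∑' m, f m) := by
    intro n hn
    calc ∑' i, Metric.ediam (t n i) ^ (s : ℝ)
        = ∑' (k : ℕ), ∑' (x : {x : ℝ // x ∈ E (n + k)}),
            ENNReal.ofReal (2 * R (n + k)) ^ (s : ℝ) := by
          rw [ENNReal.tsum_sigma']
          exact tsum_congr fun k => tsum_congr fun x => by rw [hdiam]
      _ = ∑' (k : ℕ), ((E (n + k)).card : ENNReal) *
            ENNReal.ofReal (2 * R (n + k)) ^ (s : ℝ) := by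
          refine tsum_congr fun k => ?_
          rw [tsum_fintype]
          simp
      _ ≤ ∑' (k : ℕ), ENNReal.ofReal (f (n + k)) := by
          refine ENNReal.tsum_le_tsum fun k => ?_
          have h1 : (0 : ℝ) ≤ 2 * R (n + k) := by linarith [hR0 (n + k)]
          rw [ENNReal.ofReal_rpow_of_nonneg h1 hs0.le]
          rw [← ENNReal.ofReal_natCast, ← ENNReal.ofReal_mul (by positivity)]
          apply ENNReal.ofReal_le_ofReal
          simp only [hf]
          apply mul_le_mul_of_nonneg_right _ (by positivity)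
          have := hn₀ (n + k) (by omega)
          exact this
      _ ≤ ∑' (m : ℕ), ENNReal.ofReal (f m) := by
          exact ENNReal.tsum_comp_le_tsum_of_injective (add_right_injective n) _
      _ = ENNReal.ofReal (∑' m, f m) := by
          rw [ENNReal.ofReal_tsum_of_nonneg hf0 hfsum]
  have hfin : liminf (fun n => ∑' i, Metric.ediam (t n i) ^ (s : ℝ)) atTop ≤
      ENNReal.ofReal (∑' m, f m) := by
    calc liminf (fun n => ∑' i, Metric.ediam (t n i) ^ (s : ℝ)) atTop
        ≤ liminf (fun _ : ℕ => ENNReal.ofReal (∑' m, f m)) atTop := by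
          exact liminf_le_liminf (eventually_atTop.mpr ⟨n₀, hbound⟩)
      _ = _ := liminf_const _
  exact ne_top_of_le_ne_top ENNReal.ofReal_ne_top (hmain.trans hfin)

end H8TAK
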