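import Pool.Agent.H8.TAK.TakBasic

/-!
# Word combinatorics of the states `ss`, `dd` and the affine identity
-/

namespace H8TAK

/-- The affine identity. -/
theorem takagi_affine (n k : ℕ) {t : ℝ} (h0 : 0 ≤ t) (h1 : t ≤ 1) :
    takagi ((k + t) / 2 ^ n) = (ss n k + takagi t + dd n k * t) / 2 ^ n := by
  induction n generalizing k t with
  | zero => simp [ss, dd, takagi_nat_add]
  | succ n ih =>
    have hk : (k : ℝ) = 2 * ((k / 2 : ℕ) : ℝ) + ((k % 2 : ℕ) : ℝ) := by
      have h := Nat.div_add_mod k 2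
      calc (k : ℝ) = ((2 * (k / 2) + k % 2 : ℕ) : ℝ) := by rw [h]
        _ = 2 * ((k / 2 : ℕ) : ℝ) + ((k % 2 : ℕ) : ℝ) := by push_cast; ring
    have hpow : (2 : ℝ) ^ n ≠ 0 := by positivity
    rcases Nat.mod_two_eq_zero_or_one k with hb | hb
    · have harg : ((k : ℝ) + t) / 2 ^ (n + 1) = (((k / 2 : ℕ) : ℝ) + t / 2) / 2 ^ n := by
        rw [hk, hb, pow_succ]
        push_cast
        field_simp
        ring
      rw [harg, ih (k / 2) (t := t / 2) (by linarith) (by linarith), takagi_half h0 h1]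
      simp only [ss, dd, hb]
      rw [pow_succ]
      push_cast
      field_simp
      ring
    · have harg : ((k : ℝ) + t) / 2 ^ (n + 1) = (((k / 2 : ℕ) : ℝ) + (1 + t) / 2) / 2 ^ n := by
        rw [hk, hb, pow_succ]
        push_cast
        field_simp
        ring
      rw [harg, ih (k / 2) (t := (1 + t) / 2) (by linarith) (by linarith), takagi_half' h0 h1]
      simp only [ss, dd, hb]
      rw [pow_succ]
      push_cast
      field_simp
      ring

theorem words_append_div (n' k k' : ℕ) :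
    (k * 2 ^ (n' + 1) + k') / 2 = k * 2 ^ n' + k' / 2 := by
  have h : k * 2 ^ (n' + 1) = 2 * (k * 2 ^ n') := by ring
  rw [h]
  omega

theorem words_append_mod (n' k k' : ℕ) :
    (k * 2 ^ (n' + 1) + k') % 2 = k' % 2 := by
  have h : k * 2 ^ (n' + 1) = 2 * (k * 2 ^ n') := by ring
  rw [h]
  omega

theorem dd_append (n n' k k' : ℕ) (h : k' < 2 ^ n') :
    dd (n + n') (k * 2 ^ n' + k') = dd n k + dd n' k' := by
  induction n' generalizing k' with
  | zero =>
    have : k' = 0 := by simpa using h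
    subst this
    simp [dd]
  | succ n' ih =>
    have hlt : k' / 2 < 2 ^ n' := by
      rw [pow_succ] at h
      omega
    rw [← Nat.add_assoc]
    simp only [dd]
    rw [words_append_div, words_append_mod, ih _ hlt]
    ring

theorem ss_append (n n' k k' : ℕ) (h : k' < 2 ^ n') :
    ss (n + n') (k * 2 ^ n' + k') = 2 ^ n' * ss n k + ss n' k' + dd n k * k' := by
  induction n' generalizing k' with
  | zero =>
    have : k' = 0 := by simpa using h
    subst this
    simp [ss]
  | succ n' ih =>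
    have hlt : k' / 2 < 2 ^ n' := by
      rw [pow_succ] at h
      omega
    have hk : (k' : ℤ) = 2 * ((k' / 2 : ℕ) : ℤ) + ((k' % 2 : ℕ) : ℤ) := by
      omega
    rw [← Nat.add_assoc]
    simp only [ss]
    rw [words_append_div, words_append_mod, ih _ hlt, dd_append _ _ _ _ hlt]
    obtain ⟨q, hq⟩ : ∃ q : ℤ, q = ((k' / 2 : ℕ) : ℤ) := ⟨_, rfl⟩
    obtain ⟨b, hb⟩ : ∃ b : ℤ, b = ((k' % 2 : ℕ) : ℤ) := ⟨_, rfl⟩
    rw [← hq, ← hb] at hk
    rw [← hq, ← hb, hk, pow_succ]
    ring

theorem words_compl_div (n k : ℕ) (h : k < 2 ^ (n + 1)) :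
    (2 ^ (n + 1) - 1 - k) / 2 = 2 ^ n - 1 - k / 2 := by
  rw [pow_succ] at h ⊢
  omega

theorem words_compl_mod (n k : ℕ) (h : k < 2 ^ (n + 1)) :
    (2 ^ (n + 1) - 1 - k) % 2 = 1 - k % 2 := by
  rw [pow_succ] at h ⊢
  omega

theorem dd_compl (n k : ℕ) (h : k < 2 ^ n) : dd n (2 ^ n - 1 - k) = - dd n k := by
  induction n generalizing k with
  | zero => simp [dd]
  | succ n ih =>
    have hlt : k / 2 < 2 ^ n := by
      rw [pow_succ] at h
      omega
    simp only [dd]
    rw [words_compl_div n k h, words_compl_mod n k h, ih _ hlt]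
    rcases Nat.mod_two_eq_zero_or_one k with hb | hb
    · rw [hb]; push_cast; ring
    · rw [hb]; push_cast; ring

theorem ss_compl (n k : ℕ) (h : k < 2 ^ n) : ss n (2 ^ n - 1 - k) = ss n k + dd n k := by
  induction n generalizing k with
  | zero => simp [ss, dd]
  | succ n ih =>
    have hlt : k / 2 < 2 ^ n := by
      rw [pow_succ] at h
      omega
    simp only [ss, dd]
    rw [words_compl_div n k h, words_compl_mod n k h, ih _ hlt, dd_compl n _ hlt]
    rcases Nat.mod_two_eq_zero_or_one k with hb | hb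
    · rw [hb]; push_cast; ring
    · rw [hb]; push_cast; ring

theorem dd_eq_digits (n k : ℕ) (h : k < 2 ^ n) :
    dd n k = n - 2 * ((Nat.digits 2 k).sum : ℤ) := by
  induction n generalizing k with
  | zero =>
    have : k = 0 := by simpa using h
    subst this
    simp [dd]
  | succ n ih =>
    have hlt : k / 2 < 2 ^ n := by
      rw [pow_succ] at h
      omega
    have hsum : (Nat.digits 2 k).sum = k % 2 + (Nat.digits 2 (k / 2)).sum := by
      rcases Nat.eq_zero_or_pos k with hk | hk
      · subst hk; simp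
      · rw [Nat.digits_def' (by norm_num) hk, List.sum_cons]
    simp only [dd]
    rw [ih _ hlt, hsum]
    push_cast
    ring

theorem abs_dd_le (n k : ℕ) : |dd n k| ≤ n := by
  induction n generalizing k with
  | zero => simp [dd]
  | succ n ih =>
    have h := ih (k / 2)
    rw [abs_le] at h ⊢
    simp only [dd]
    rcases Nat.mod_two_eq_zero_or_one k with hb | hb
    · rw [hb]; push_cast; constructor <;> linarith [h.1, h.2]
    · rw [hb]; push_cast; constructor <;> linarith [h.1, h.2]

theorem ss_eq_takagi (n k : ℕ) : (ss n k : ℝ) = 2 ^ n * takagi ((k : ℝ) / 2 ^ n) := by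
  have h := takagi_affine n k (t := 0) le_rfl zero_le_one
  rw [add_zero, takagi_zero, add_zero, mul_zero, add_zero] at h
  rw [h]
  have hpow : (2 : ℝ) ^ n ≠ 0 := by positivity
  field_simp

theorem ss_nonneg (n k : ℕ) : 0 ≤ ss n k := by
  have h := ss_eq_takagi n k
  have h0 : (0 : ℝ) ≤ (ss n k : ℝ) := by
    rw [h]
    exact mul_nonneg (by positivity) (takagi_nonneg _)
  exact_mod_cast h0

theorem ss_le (n k : ℕ) : 3 * ss n k ≤ 2 * 2 ^ n := by
  have h := ss_eq_takagi n k
  have h0 : 3 * (ss n k : ℝ) ≤ 2 * 2 ^ n := by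
    rw [h]
    have hpow : (0 : ℝ) < 2 ^ n := by positivity
    nlinarith [takagi_le ((k : ℝ) / 2 ^ n)]
  exact_mod_cast h0

/-- parity -/
theorem dd_parity (n k : ℕ) : (2 : ℤ) ∣ (n - dd n k) := by
  induction n generalizing k with
  | zero => simp [dd]
  | succ n ih =>
    obtain ⟨c, hc⟩ := ih (k / 2)
    simp only [dd]
    refine ⟨c + ((k % 2 : ℕ) : ℤ), ?_⟩
    push_cast
    linarith

end H8TAK
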