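import Pool.Agent.H8.TAK.TakBasic
import Pool.Agent.H8.TAK.Words

/-!
# Basic properties of the Takagi function and of the states `ss`, `dd`
-/
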