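import Pool.Agent.H8.TAK.Base

/-!
# The part of a level set where the digit balance is eventually nonzero is countable
-/

namespace H8TAK

open Filter Topology

/-- The dyadic rationals that are nonnegative. -/
def CLdy : Set ℝ := Set.range (fun p : ℕ × ℕ => (p.2 : ℝ) / 2 ^ p.1)

theorem CL_dy_countable : CLdy.Countable := Set.countable_range _

theorem CL_floor_half (n : ℕ) (x : ℝ) :
    ⌊(2 : ℝ) ^ (n + 1) * x⌋₊ / 2 = ⌊(2 : ℝ) ^ n * x⌋₊ := by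
  rw [← Nat.floor_div_ofNat]
  congr 1
  rw [pow_succ]
  push_cast
  ring

theorem CL_dd_step (n : ℕ) (x : ℝ) :
    dd (n + 1) ⌊(2 : ℝ) ^ (n + 1) * x⌋₊ = dd n ⌊(2 : ℝ) ^ n * x⌋₊ + 1 -
      2 * ((⌊(2 : ℝ) ^ (n + 1) * x⌋₊ % 2 : ℕ) : ℤ) := by
  show dd n (⌊(2 : ℝ) ^ (n + 1) * x⌋₊ / 2) + 1 - _ = _
  rw [CL_floor_half]

theorem CL_sign (x : ℝ) (h : ∀ᶠ n : ℕ in atTop, dd n ⌊(2 : ℝ) ^ n * x⌋₊ ≠ 0) :
    ∃ n1 : ℕ, (∀ n, n1 ≤ n → 1 ≤ dd n ⌊(2 : ℝ) ^ n * x⌋₊) ∨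
      (∀ n, n1 ≤ n → dd n ⌊(2 : ℝ) ^ n * x⌋₊ ≤ -1) := by
  obtain ⟨n1, hn1⟩ := eventually_atTop.1 h
  refine ⟨n1, ?_⟩
  rcases lt_or_gt_of_ne (hn1 n1 le_rfl) with hlt | hgt
  · right
    intro n hn
    induction n, hn using Nat.le_induction with
    | base => omega
    | succ n hn ih =>
      have h1 := CL_dd_step n x
      have h2 := hn1 (n + 1) (by omega)
      omega
  · left
    intro n hn
    induction n, hn using Nat.le_induction with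
    | base => omega
    | succ n hn ih =>
      have h1 := CL_dd_step n x
      have h2 := hn1 (n + 1) (by omega)
      omega

/-- Values of the Takagi function at dyadic rationals. -/
theorem CL_takagi_dyadic (n k : ℕ) : takagi ((k : ℝ) / 2 ^ n) = (ss n k : ℝ) / 2 ^ n := by
  have h := takagi_affine n k (t := 0) le_rfl zero_le_one
  rw [takagi_zero] at h
  simpa using h

theorem CL_top_aux {t : ℝ} (ht0 : 0 ≤ t) (ht1 : t < 1) {D0 : ℤ}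
    (hD : ∀ n : ℕ, 1 ≤ D0 + dd n ⌊(2 : ℝ) ^ n * t⌋₊) (n : ℕ) :
    D0 + dd n ⌊(2 : ℝ) ^ n * t⌋₊ ≤
      D0 * 2 ^ n - (ss n ⌊(2 : ℝ) ^ n * t⌋₊ + D0 * ⌊(2 : ℝ) ^ n * t⌋₊) := by
  induction n with
  | zero =>
    have h0 : ⌊(2 : ℝ) ^ 0 * t⌋₊ = 0 := by
      rw [pow_zero, one_mul]
      exact Nat.floor_eq_zero.2 ht1
    rw [h0]
    simp [dd, ss]
  | succ n ih =>
    have h1 := CL_dd_step n t
    have h2 : ss (n + 1) ⌊(2 : ℝ) ^ (n + 1) * t⌋₊ = 2 * ss n ⌊(2 : ℝ) ^ n * t⌋₊ +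
        ((⌊(2 : ℝ) ^ (n + 1) * t⌋₊ % 2 : ℕ) : ℤ) * (1 + dd n ⌊(2 : ℝ) ^ n * t⌋₊) := by
      show 2 * ss n (⌊(2 : ℝ) ^ (n + 1) * t⌋₊ / 2) + _ * (1 + dd n (⌊(2 : ℝ) ^ (n + 1) * t⌋₊ / 2))
        = _
      rw [CL_floor_half]
    have h3 : ((⌊(2 : ℝ) ^ (n + 1) * t⌋₊ : ℕ) : ℤ) = 2 * ((⌊(2 : ℝ) ^ n * t⌋₊ : ℕ) : ℤ) +
        ((⌊(2 : ℝ) ^ (n + 1) * t⌋₊ % 2 : ℕ) : ℤ) := by
      have h4 := Nat.div_add_mod ⌊(2 : ℝ) ^ (n + 1) * t⌋₊ 2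
      rw [CL_floor_half] at h4
      exact_mod_cast h4.symm
    have hb : ((⌊(2 : ℝ) ^ (n + 1) * t⌋₊ % 2 : ℕ) : ℤ) = 0 ∨
        ((⌊(2 : ℝ) ^ (n + 1) * t⌋₊ % 2 : ℕ) : ℤ) = 1 := by omega
    have hDn := hD n
    have h5 : (2 : ℤ) ^ (n + 1) = 2 * 2 ^ n := by ring
    rw [h1, h2, h3, h5]
    set b : ℤ := ((⌊(2 : ℝ) ^ (n + 1) * t⌋₊ % 2 : ℕ) : ℤ) with hbdef
    set k : ℤ := ((⌊(2 : ℝ) ^ n * t⌋₊ : ℕ) : ℤ) with hk
    set s : ℤ := ss n ⌊(2 : ℝ) ^ n * t⌋₊ with hs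
    set d : ℤ := dd n ⌊(2 : ℝ) ^ n * t⌋₊ with hd
    rcases hb with hb | hb
    · rw [hb]
      nlinarith
    · rw [hb]
      nlinarith

theorem CL_top {t : ℝ} (ht0 : 0 ≤ t) (ht1 : t < 1) {D0 : ℤ}
    (hD : ∀ n : ℕ, 1 ≤ D0 + dd n ⌊(2 : ℝ) ^ n * t⌋₊) :
    takagi t + D0 * t ≤ D0 := by
  have hlim : Tendsto (fun n : ℕ => ((⌊(2 : ℝ) ^ n * t⌋₊ : ℕ) : ℝ) / 2 ^ n) atTop (𝓝 t) := by
    have h1 := tendsto_nat_floor_mul_div_atTop (R := ℝ) ht0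
    have h2 : Tendsto (fun n : ℕ => (2 : ℝ) ^ n) atTop atTop :=
      tendsto_pow_atTop_atTop_of_one_lt (by norm_num)
    have h3 := h1.comp h2
    refine h3.congr (fun n => ?_)
    simp only [Function.comp_apply]
    rw [mul_comm t]
  have hlim2 : Tendsto (fun n : ℕ => takagi (((⌊(2 : ℝ) ^ n * t⌋₊ : ℕ) : ℝ) / 2 ^ n) +
      D0 * (((⌊(2 : ℝ) ^ n * t⌋₊ : ℕ) : ℝ) / 2 ^ n)) atTop (𝓝 (takagi t + D0 * t)) :=
    ((takagi_continuous.tendsto t).comp hlim).add (hlim.const_mul _)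
  refine le_of_tendsto hlim2 (Eventually.of_forall (fun n => ?_))
  rw [CL_takagi_dyadic]
  have h1 := CL_top_aux ht0 ht1 hD n
  have h2 := hD n
  have h3 : ss n ⌊(2 : ℝ) ^ n * t⌋₊ + D0 * ⌊(2 : ℝ) ^ n * t⌋₊ ≤ D0 * 2 ^ n := by linarith
  have h4 : ((ss n ⌊(2 : ℝ) ^ n * t⌋₊ : ℤ) : ℝ) + D0 * ((⌊(2 : ℝ) ^ n * t⌋₊ : ℕ) : ℝ) ≤
      D0 * 2 ^ n := by exact_mod_cast h3
  have h5 : (0 : ℝ) < 2 ^ n := by positivity
  rw [← mul_div_assoc, ← add_div, div_le_iff₀ h5]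
  exact h4

theorem CL_floor_split {x t : ℝ} {m k : ℕ} (ht0 : 0 ≤ t) (hx : (2 : ℝ) ^ m * x = k + t) (i : ℕ) :
    ⌊(2 : ℝ) ^ (m + i) * x⌋₊ = k * 2 ^ i + ⌊(2 : ℝ) ^ i * t⌋₊ := by
  have h1 : (2 : ℝ) ^ (m + i) * x = (2 : ℝ) ^ i * t + ((k * 2 ^ i : ℕ) : ℝ) := by
    rw [pow_add]
    push_cast
    linear_combination (2 : ℝ) ^ i * hx
  rw [h1, Nat.floor_add_natCast (by positivity)]
  ring

theorem CL_floor_lt {t : ℝ} (ht0 : 0 ≤ t) (ht1 : t < 1) (i : ℕ) : ⌊(2 : ℝ) ^ i * t⌋₊ < 2 ^ i := by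
  rw [Nat.floor_lt (by positivity)]
  push_cast
  have : (0 : ℝ) < 2 ^ i := by positivity
  nlinarith

theorem CL_strict {x x' : ℝ} (hx0 : 0 ≤ x) (hxx : x < x') (n1 : ℕ)
    (hk : ⌊(2 : ℝ) ^ n1 * x⌋₊ = ⌊(2 : ℝ) ^ n1 * x'⌋₊)
    (hD : ∀ n, n1 ≤ n → 1 ≤ dd n ⌊(2 : ℝ) ^ n * x⌋₊)
    (hD' : ∀ n, n1 ≤ n → 1 ≤ dd n ⌊(2 : ℝ) ^ n * x'⌋₊) (hdy : x' ∉ CLdy) :
    takagi x < takagi x' := by
  -- the first level at which the cells are different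
  have hex : ∃ N : ℕ, n1 ≤ N ∧ ⌊(2 : ℝ) ^ N * x⌋₊ ≠ ⌊(2 : ℝ) ^ N * x'⌋₊ := by
    have h2 : Tendsto (fun n : ℕ => (2 : ℝ) ^ n) atTop atTop :=
      tendsto_pow_atTop_atTop_of_one_lt (by norm_num)
    obtain ⟨N, hN1, hN2⟩ := ((eventually_ge_atTop n1).and
      (h2.eventually_gt_atTop (1 / (x' - x)))).exists
    refine ⟨N, hN1, fun heq => ?_⟩
    have h3 : (1 : ℝ) < 2 ^ N * (x' - x) := by
      have h4 : 0 < x' - x := by linarith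
      rwa [div_lt_iff₀ h4] at hN2
    have h5 := Nat.floor_le (show (0 : ℝ) ≤ 2 ^ N * x by positivity)
    have h6 := Nat.lt_floor_add_one ((2 : ℝ) ^ N * x')
    rw [← heq] at h6
    nlinarith
  classical
  obtain ⟨N, hN1, hN2, hmin⟩ : ∃ N : ℕ, n1 ≤ N ∧ ⌊(2 : ℝ) ^ N * x⌋₊ ≠ ⌊(2 : ℝ) ^ N * x'⌋₊ ∧
      ∀ m < N, ¬ (n1 ≤ m ∧ ⌊(2 : ℝ) ^ m * x⌋₊ ≠ ⌊(2 : ℝ) ^ m * x'⌋₊) :=
    ⟨Nat.find hex, (Nat.find_spec hex).1, (Nat.find_spec hex).2,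
      fun m hm => Nat.find_min hex hm⟩
  have hNpos : n1 < N := by
    rcases Nat.lt_or_ge n1 N with h | h
    · exact h
    · exfalso
      have : N = n1 := le_antisymm h hN1
      rw [this] at hN2
      exact hN2 hk
  obtain ⟨n, rfl⟩ : ∃ n, N = n + 1 := ⟨N - 1, by omega⟩
  have hn1 : n1 ≤ n := by omega
  have hkn : ⌊(2 : ℝ) ^ n * x⌋₊ = ⌊(2 : ℝ) ^ n * x'⌋₊ := by
    by_contra h
    exact hmin n (by omega) ⟨hn1, h⟩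
  have hx'0 : 0 ≤ x' := by linarith
  have hmono : ⌊(2 : ℝ) ^ (n + 1) * x⌋₊ ≤ ⌊(2 : ℝ) ^ (n + 1) * x'⌋₊ := by
    refine Nat.floor_mono ?_
    have : (0 : ℝ) < 2 ^ (n + 1) := by positivity
    nlinarith
  have hh1 := CL_floor_half n x
  have hh2 := CL_floor_half n x'
  set k := ⌊(2 : ℝ) ^ n * x⌋₊ with hkdef
  rw [← hkn] at hh2
  have hK1 : ⌊(2 : ℝ) ^ (n + 1) * x⌋₊ = 2 * k := by omega
  have hK2 : ⌊(2 : ℝ) ^ (n + 1) * x'⌋₊ = 2 * k + 1 := by omega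
  obtain ⟨t, ht⟩ : ∃ t : ℝ, t = (2 : ℝ) ^ (n + 1) * x - (2 * k : ℕ) := ⟨_, rfl⟩
  obtain ⟨t', ht'⟩ : ∃ t' : ℝ, t' = (2 : ℝ) ^ (n + 1) * x' - (2 * k + 1 : ℕ) := ⟨_, rfl⟩
  have ht0 : 0 ≤ t := by
    have h5 := Nat.floor_le (show (0 : ℝ) ≤ 2 ^ (n + 1) * x by positivity)
    rw [hK1] at h5
    linarith
  have ht1 : t < 1 := by
    have h6 := Nat.lt_floor_add_one ((2 : ℝ) ^ (n + 1) * x)
    rw [hK1] at h6
    linarith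
  have ht'0 : 0 < t' := by
    have h5 := Nat.floor_le (show (0 : ℝ) ≤ 2 ^ (n + 1) * x' by positivity)
    rw [hK2] at h5
    rcases lt_or_eq_of_le (show 0 ≤ t' by linarith) with h | h
    · exact h
    · exfalso
      apply hdy
      refine ⟨(n + 1, 2 * k + 1), ?_⟩
      show ((2 * k + 1 : ℕ) : ℝ) / 2 ^ (n + 1) = x'
      rw [div_eq_iff (by positivity)]
      linarith
  have ht'1 : t' < 1 := by
    have h6 := Nat.lt_floor_add_one ((2 : ℝ) ^ (n + 1) * x')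
    rw [hK2] at h6
    linarith
  have hxt : (2 : ℝ) ^ (n + 1) * x = (2 * k : ℕ) + t := by rw [ht]; ring
  have hxt' : (2 : ℝ) ^ (n + 1) * x' = (2 * k + 1 : ℕ) + t' := by rw [ht']; ring
  have hpos : (0 : ℝ) < 2 ^ (n + 1) := by positivity
  have hx1 : x = ((2 * k : ℕ) + t) / 2 ^ (n + 1) := by
    rw [← hxt]
    field_simp
  have hx1' : x' = ((2 * k + 1 : ℕ) + t') / 2 ^ (n + 1) := by
    rw [← hxt']
    field_simp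
  have hdd1 : dd (n + 1) (2 * k) = dd n k + 1 := by
    show dd n (2 * k / 2) + 1 - 2 * ((2 * k % 2 : ℕ) : ℤ) = _
    have e1 : 2 * k / 2 = k := by omega
    have e2 : 2 * k % 2 = 0 := by omega
    rw [e1, e2]
    simp
  have hdd2 : dd (n + 1) (2 * k + 1) = dd n k - 1 := by
    show dd n ((2 * k + 1) / 2) + 1 - 2 * (((2 * k + 1) % 2 : ℕ) : ℤ) = _
    have e1 : (2 * k + 1) / 2 = k := by omega
    have e2 : (2 * k + 1) % 2 = 1 := by omega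
    rw [e1, e2]
    push_cast
    ring
  have hss1 : ss (n + 1) (2 * k) = 2 * ss n k := by
    show 2 * ss n (2 * k / 2) + ((2 * k % 2 : ℕ) : ℤ) * (1 + dd n (2 * k / 2)) = _
    have e1 : 2 * k / 2 = k := by omega
    have e2 : 2 * k % 2 = 0 := by omega
    rw [e1, e2]
    simp
  have hss2 : ss (n + 1) (2 * k + 1) = 2 * ss n k + (1 + dd n k) := by
    show 2 * ss n ((2 * k + 1) / 2) + (((2 * k + 1) % 2 : ℕ) : ℤ) * (1 + dd n ((2 * k + 1) / 2)) = _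
    have e1 : (2 * k + 1) / 2 = k := by omega
    have e2 : (2 * k + 1) % 2 = 1 := by omega
    rw [e1, e2]
    push_cast
    ring
  have hDk' : 1 ≤ dd (n + 1) (2 * k + 1) := by
    have := hD' (n + 1) (by omega)
    rwa [hK2] at this
  have htop := CL_top ht0 ht1 (D0 := dd n k + 1) (by
    intro i
    have h7 := hD (n + 1 + i) (by omega)
    rw [CL_floor_split ht0 hxt i, dd_append _ _ _ _ (CL_floor_lt ht0 ht1 i), hdd1] at h7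
    exact h7)
  have ha := takagi_affine (n + 1) (2 * k) ht0 ht1.le
  have ha' := takagi_affine (n + 1) (2 * k + 1) ht'0.le ht'1.le
  rw [← hx1, hss1, hdd1] at ha
  rw [← hx1', hss2, hdd2] at ha'
  rw [ha, ha']
  refine (div_lt_div_iff_of_pos_right hpos).2 ?_
  rw [hdd2] at hDk'
  have hDr : (1 : ℝ) ≤ (dd n k : ℝ) - 1 := by exact_mod_cast hDk'
  have hnn := takagi_nonneg t'
  push_cast at htop ⊢
  have hprod : 0 < ((dd n k : ℝ) - 1) * t' := by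
    apply mul_pos _ ht'0
    linarith
  linarith

/-- The part with the digit balance positive from level `n1` on, in a given cell. -/
def CLpos (y : ℝ) (n1 k : ℕ) : Set ℝ :=
  {x | 0 ≤ x ∧ takagi x = y ∧ x ∉ CLdy ∧ ⌊(2 : ℝ) ^ n1 * x⌋₊ = k ∧
    ∀ n, n1 ≤ n → 1 ≤ dd n ⌊(2 : ℝ) ^ n * x⌋₊}

theorem CL_subsingleton (y : ℝ) (n1 k : ℕ) : (CLpos y n1 k).Subsingleton := by
  rintro x ⟨hx0, hxy, hxd, hxk, hxD⟩ x' ⟨hx0', hxy', hxd', hxk', hxD'⟩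
  by_contra hne
  rcases lt_or_gt_of_ne hne with h | h
  · have := CL_strict hx0 h n1 (hxk.trans hxk'.symm) hxD hxD' hxd'
    rw [hxy, hxy'] at this
    exact lt_irrefl _ this
  · have := CL_strict hx0' h n1 (hxk'.trans hxk.symm) hxD' hxD hxd
    rw [hxy, hxy'] at this
    exact lt_irrefl _ this

theorem CL_pos_countable (y : ℝ) : (⋃ p : ℕ × ℕ, CLpos y p.1 p.2).Countable :=
  Set.countable_iUnion (fun p => (CL_subsingleton y p.1 p.2).countable)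

theorem CL_floor_one_sub {x : ℝ} (hx0 : 0 ≤ x) (hx1 : x < 1) (hx : x ∉ CLdy) (n : ℕ) :
    ⌊(2 : ℝ) ^ n * (1 - x)⌋₊ = 2 ^ n - 1 - ⌊(2 : ℝ) ^ n * x⌋₊ := by
  have h1 := CL_floor_lt hx0 hx1 n
  have hpos : (0 : ℝ) < 2 ^ n := by positivity
  have h2 := Nat.floor_le (show (0 : ℝ) ≤ 2 ^ n * x by positivity)
  have h3 := Nat.lt_floor_add_one ((2 : ℝ) ^ n * x)
  have h4 : ((⌊(2 : ℝ) ^ n * x⌋₊ : ℕ) : ℝ) ≠ 2 ^ n * x := by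
    intro h
    apply hx
    refine ⟨(n, ⌊(2 : ℝ) ^ n * x⌋₊), ?_⟩
    show ((⌊(2 : ℝ) ^ n * x⌋₊ : ℕ) : ℝ) / 2 ^ n = x
    rw [div_eq_iff (by positivity), h]
    ring
  have h5 : ((⌊(2 : ℝ) ^ n * x⌋₊ : ℕ) : ℝ) < 2 ^ n * x := lt_of_le_of_ne h2 h4
  rw [Nat.floor_eq_iff (by nlinarith)]
  have h6 : ((2 ^ n - 1 - ⌊(2 : ℝ) ^ n * x⌋₊ : ℕ) : ℝ) =
      2 ^ n - 1 - ((⌊(2 : ℝ) ^ n * x⌋₊ : ℕ) : ℝ) := by
    have h7 : 2 ^ n - 1 - ⌊(2 : ℝ) ^ n * x⌋₊ + (1 + ⌊(2 : ℝ) ^ n * x⌋₊) = 2 ^ n := by omega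
    have h8 : (((2 ^ n - 1 - ⌊(2 : ℝ) ^ n * x⌋₊ + (1 + ⌊(2 : ℝ) ^ n * x⌋₊) : ℕ)) : ℝ) =
        ((2 ^ n : ℕ) : ℝ) := by rw [h7]
    push_cast at h8 ⊢
    linarith
  rw [h6]
  constructor <;> nlinarith

theorem countable_level (y : ℝ) :
    (levelSet y ∩ {x | x < 1 ∧ ∀ᶠ n : ℕ in atTop, dd n ⌊2 ^ n * x⌋₊ ≠ 0}).Countable := by
  refine Set.Countable.mono ?_ ((CL_dy_countable.union (CL_pos_countable y)).union
    ((CL_pos_countable y).image (fun x => 1 - x)))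
  rintro x ⟨⟨⟨hx0, _⟩, hxy⟩, hx1, hev⟩
  by_cases hdy : x ∈ CLdy
  · exact Or.inl (Or.inl hdy)
  obtain ⟨n1, h | h⟩ := CL_sign x hev
  · left
    right
    exact Set.mem_iUnion.2 ⟨(n1, ⌊(2 : ℝ) ^ n1 * x⌋₊), hx0, hxy, hdy, rfl, h⟩
  · right
    refine ⟨1 - x, Set.mem_iUnion.2 ⟨(n1, ⌊(2 : ℝ) ^ n1 * (1 - x)⌋₊), by linarith, ?_, ?_, rfl, ?_⟩,
      by ring⟩
    · rw [takagi_one_sub, hxy]
    · rintro ⟨⟨n, k⟩, hnk⟩
      apply hdy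
      have h1 : ((k : ℕ) : ℝ) / 2 ^ n = 1 - x := hnk
      have hpos : (0 : ℝ) < 2 ^ n := by positivity
      have hk : k ≤ 2 ^ n := by
        have h2 : ((k : ℕ) : ℝ) ≤ 2 ^ n := by
          rw [div_eq_iff hpos.ne'] at h1
          nlinarith
        exact_mod_cast h2
      refine ⟨(n, 2 ^ n - k), ?_⟩
      show ((2 ^ n - k : ℕ) : ℝ) / 2 ^ n = x
      rw [Nat.cast_sub hk]
      push_cast
      rw [sub_div, h1, div_self hpos.ne']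
      ring
    · intro n hn
      rw [CL_floor_one_sub hx0 hx1 hdy n, dd_compl _ _ (CL_floor_lt hx0 hx1 n)]
      have := h n hn
      omega

end H8TAK
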