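import Pool.Agent.H8.TAK.Base

/-!
# Concavity of the growth rate
-/

namespace H8TAK

namespace Conc

theorem mem_NN {m : ℕ} {β : ℝ} {S : ℤ} :
    S ∈ NN m β ↔ (4 : ℝ) ^ (β * m) ≤ (MM (2 * m) S 0 : ℝ) := by
  unfold NN
  rw [Finset.mem_filter]
  constructor
  · exact fun h => h.2
  · intro h
    refine ⟨?_, h⟩
    have hpos : (0 : ℝ) < (MM (2 * m) S 0 : ℝ) := lt_of_lt_of_le (by positivity) h
    have hpos' : 0 < MM (2 * m) S 0 := by exact_mod_cast hpos
    unfold MM at hpos'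
    obtain ⟨k, hk⟩ := Finset.card_pos.mp hpos'
    rw [Finset.mem_filter] at hk
    exact Finset.mem_image.mpr ⟨k, hk.1, hk.2.1⟩

theorem mem_NN_range {m : ℕ} {β : ℝ} {S : ℤ} (h : S ∈ NN m β) : 0 ≤ S ∧ S < 4 ^ m := by
  unfold NN at h
  rw [Finset.mem_filter, Finset.mem_image] at h
  obtain ⟨⟨k, -, rfl⟩, -⟩ := h
  refine ⟨ss_nonneg _ _, ?_⟩
  have h1 := ss_le (2 * m) k
  have h2 : (2 : ℤ) ^ (2 * m) = 4 ^ m := by rw [pow_mul]; norm_num
  rw [h2] at h1
  have h3 : (0 : ℤ) < 4 ^ m := by positivity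
  linarith

theorem MM_mul_le (m m' : ℕ) (S S' : ℤ) :
    MM (2 * m) S 0 * MM (2 * m') S' 0 ≤ MM (2 * (m + m')) (4 ^ m' * S + S') 0 := by
  unfold MM
  rw [← Finset.card_product]
  refine Finset.card_le_card_of_injOn (fun p : ℕ × ℕ => p.1 * 2 ^ (2 * m') + p.2) ?_ ?_
  · rintro ⟨k, k'⟩ hp
    rw [Finset.mem_coe, Finset.mem_product] at hp
    simp only [Finset.mem_filter, Finset.mem_range] at hp
    obtain ⟨⟨hk, hs, hd⟩, hk', hs', hd'⟩ := hp
    rw [Finset.mem_coe, Finset.mem_filter, Finset.mem_range]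
    have e : 2 * (m + m') = 2 * m + 2 * m' := by ring
    rw [e]
    refine ⟨?_, ?_, ?_⟩
    · show k * 2 ^ (2 * m') + k' < 2 ^ (2 * m + 2 * m')
      rw [pow_add]
      calc k * 2 ^ (2 * m') + k' < k * 2 ^ (2 * m') + 2 ^ (2 * m') := by omega
        _ = (k + 1) * 2 ^ (2 * m') := by ring
        _ ≤ 2 ^ (2 * m) * 2 ^ (2 * m') := Nat.mul_le_mul_right _ hk
    · show ss (2 * m + 2 * m') (k * 2 ^ (2 * m') + k') = 4 ^ m' * S + S'
      rw [ss_append _ _ _ _ hk', hs, hs', hd]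
      have h2 : (2 : ℤ) ^ (2 * m') = 4 ^ m' := by rw [pow_mul]; norm_num
      rw [h2]; ring
    · show dd (2 * m + 2 * m') (k * 2 ^ (2 * m') + k') = 0
      rw [dd_append _ _ _ _ hk', hd, hd']; rfl
  · rintro ⟨k, k'⟩ hp ⟨l, l'⟩ hq heq
    rw [Finset.mem_coe, Finset.mem_product] at hp hq
    simp only [Finset.mem_filter, Finset.mem_range] at hp hq
    have hk' := hp.2.1
    have hl' := hq.2.1
    have heq' : k * 2 ^ (2 * m') + k' = l * 2 ^ (2 * m') + l' := heq
    have hpos : 0 < 2 ^ (2 * m') := by positivity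
    have h1 : k = l := by
      have : (k * 2 ^ (2 * m') + k') / 2 ^ (2 * m') = (l * 2 ^ (2 * m') + l') / 2 ^ (2 * m') := by
        rw [heq']
      rw [Nat.add_comm, Nat.add_mul_div_right _ _ hpos, Nat.div_eq_of_lt hk', Nat.zero_add,
        Nat.add_comm, Nat.add_mul_div_right _ _ hpos, Nat.div_eq_of_lt hl', Nat.zero_add] at this
      exact this
    subst h1
    have h2 : k' = l' := by omega
    rw [h2]

theorem card_mul_le {m₁ m₂ : ℕ} {a₁ a₂ e : ℝ} (h : e * ((m₁ + m₂ : ℕ) : ℝ) ≤ a₁ * m₁ + a₂ * m₂) :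
    (NN m₁ a₁).card * (NN m₂ a₂).card ≤ (NN (m₁ + m₂) e).card := by
  rw [← Finset.card_product]
  refine Finset.card_le_card_of_injOn (fun p : ℤ × ℤ => 4 ^ m₂ * p.1 + p.2) ?_ ?_
  · rintro ⟨S, S'⟩ hp
    rw [Finset.mem_coe, Finset.mem_product] at hp
    rw [Finset.mem_coe]
    show 4 ^ m₂ * S + S' ∈ NN (m₁ + m₂) e
    rw [mem_NN]
    have h1 := mem_NN.mp hp.1
    have h2 := mem_NN.mp hp.2
    have h3 : ((MM (2 * m₁) S 0 * MM (2 * m₂) S' 0 : ℕ) : ℝ) ≤
        (MM (2 * (m₁ + m₂)) (4 ^ m₂ * S + S') 0 : ℝ) := by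
      exact_mod_cast MM_mul_le m₁ m₂ S S'
    refine le_trans ?_ h3
    rw [Nat.cast_mul]
    calc (4 : ℝ) ^ (e * ((m₁ + m₂ : ℕ) : ℝ)) ≤ (4 : ℝ) ^ (a₁ * m₁ + a₂ * m₂) :=
          Real.rpow_le_rpow_of_exponent_le (by norm_num) h
      _ = (4 : ℝ) ^ (a₁ * m₁) * (4 : ℝ) ^ (a₂ * m₂) := Real.rpow_add (by norm_num) _ _
      _ ≤ _ := mul_le_mul h1 h2 (by positivity) (by positivity)
  · rintro ⟨S, S'⟩ hp ⟨R, R'⟩ hq heq
    rw [Finset.mem_coe, Finset.mem_product] at hp hq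
    obtain ⟨s0, s1⟩ := mem_NN_range hp.2
    obtain ⟨r0, r1⟩ := mem_NN_range hq.2
    have heq' : 4 ^ m₂ * S + S' = 4 ^ m₂ * R + R' := heq
    have hpos : (0 : ℤ) < 4 ^ m₂ := by positivity
    simp only at s0 s1 r0 r1
    have h1 : S = R := by
      by_contra hne
      rcases lt_or_gt_of_ne hne with hlt | hlt
      · have : (4 : ℤ) ^ m₂ * (S + 1) ≤ 4 ^ m₂ * R := mul_le_mul_of_nonneg_left hlt hpos.le
        linarith
      · have : (4 : ℤ) ^ m₂ * (R + 1) ≤ 4 ^ m₂ * S := mul_le_mul_of_nonneg_left hlt hpos.le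
        linarith
    subst h1
    have h2 : S' = R' := by linarith
    rw [h2]

theorem one_le_card_zero (a : ℝ) : 1 ≤ (NN 0 a).card := by
  refine Finset.card_pos.mpr ⟨0, ?_⟩
  rw [mem_NN]
  have : MM (2 * 0) 0 0 = 1 := by decide
  rw [this]; simp

theorem card_pow_le (m : ℕ) (a : ℝ) (i : ℕ) : (NN m a).card ^ i ≤ (NN (i * m) a).card := by
  induction i with
  | zero =>
    rw [pow_zero, Nat.zero_mul]; exact one_le_card_zero a
  | succ i ih =>
    rw [pow_succ]
    have h1 : (NN (i * m) a).card * (NN m a).card ≤ (NN (i * m + m) a).card := by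
      apply card_mul_le
      push_cast; nlinarith
    have e : (i + 1) * m = i * m + m := by ring
    rw [e]
    exact le_trans (Nat.mul_le_mul_right _ ih) h1

/-- The block `S0`. -/
theorem exists_S0' (l : ℕ) : ∃ S0 : ℤ, 2 ^ l ≤ MM (2 * l) S0 0 := by
  induction l with
  | zero => exact ⟨0, by decide⟩
  | succ l ih =>
    obtain ⟨S, hS⟩ := ih
    refine ⟨4 ^ 1 * S + 2, ?_⟩
    have h1 := MM_mul_le l 1 S 2
    have h2 : MM (2 * 1) 2 0 = 2 := by decide
    rw [h2] at h1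
    rw [pow_succ]
    exact le_trans (Nat.mul_le_mul_right _ hS) h1

theorem one_le_card_half (l : ℕ) : 1 ≤ (NN l (1 / 2)).card := by
  obtain ⟨S0, h⟩ := exists_S0' l
  refine Finset.card_pos.mpr ⟨S0, ?_⟩
  rw [mem_NN]
  have h1 : (4 : ℝ) ^ ((1 / 2 : ℝ) * l) = 2 ^ l := by
    rw [Real.rpow_mul (by norm_num), ← Real.sqrt_eq_rpow, Real.rpow_natCast]
    congr 1
    rw [show (4 : ℝ) = 2 ^ 2 by norm_num]
    exact Real.sqrt_sq (by norm_num)
  rw [h1]
  exact_mod_cast h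

end Conc

open Conc

theorem conc {α β l γ g : ℝ} (hα : 0 ≤ α) (hβ : 0 ≤ β) (hl0 : 0 ≤ l) (hl1 : l ≤ 1)
    (hγ : γ = l * α + (1 - l) * β) (hγ2 : γ < 1 / 2)
    (hN : ∀ m : ℕ, ((NN m γ).card : ℝ) ≤ 2 ^ (2 * m * g)) {m m' : ℕ} (hm : 1 ≤ m)
    (hm' : 1 ≤ m') (h1 : (NN m α).Nonempty) (h2 : (NN m' β).Nonempty) :
    l * (Real.logb 2 ((NN m α).card : ℝ) / (2 * m)) +
      (1 - l) * (Real.logb 2 ((NN m' β).card : ℝ) / (2 * m')) ≤ g := by
  have hγ0 : 0 ≤ γ := by
    rw [hγ]; have : 0 ≤ 1 - l := by linarith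
    positivity
  have hmp : (0 : ℝ) < m := by exact_mod_cast hm
  have hmp' : (0 : ℝ) < m' := by exact_mod_cast hm'
  -- g ≥ 0
  have hg : 0 ≤ g := by
    have h3 : 1 ≤ (NN (1 + 0) γ).card := by
      have := card_mul_le (m₁ := 1) (m₂ := 0) (a₁ := 1 / 2) (a₂ := 0) (e := γ)
        (by push_cast; linarith)
      exact le_trans (Nat.mul_pos (one_le_card_half 1) (one_le_card_zero 0)) this
    have h4 : (1 : ℝ) ≤ 2 ^ (2 * ((1 + 0 : ℕ) : ℝ) * g) :=
      le_trans (by exact_mod_cast h3) (hN (1 + 0))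
    by_contra hneg
    have h5 : (2 : ℝ) ^ (2 * ((1 + 0 : ℕ) : ℝ) * g) < 1 :=
      Real.rpow_lt_one_of_one_lt_of_neg (by norm_num) (by push_cast; linarith)
    linarith
  set A : ℝ := ((NN m α).card : ℝ) with hA
  set B : ℝ := ((NN m' β).card : ℝ) with hB
  have hA1 : 1 ≤ A := by rw [hA]; exact_mod_cast Finset.card_pos.mpr h1
  have hB1 : 1 ≤ B := by rw [hB]; exact_mod_cast Finset.card_pos.mpr h2
  set a : ℝ := Real.logb 2 A with ha
  set b : ℝ := Real.logb 2 B with hb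
  have ha0 : 0 ≤ a := Real.logb_nonneg (by norm_num) hA1
  have hb0 : 0 ≤ b := Real.logb_nonneg (by norm_num) hB1
  set C : ℝ := α * m + β * m' with hC
  have hC0 : 0 ≤ C := by positivity
  set q : ℕ := ⌈C / (1 / 2 - γ)⌉₊ with hq
  have hqC : C ≤ q * (1 / 2 - γ) := by
    have := Nat.le_ceil (C / (1 / 2 - γ))
    rwa [div_le_iff₀ (by linarith)] at this
  have key : ∀ T : ℕ, (T : ℝ) * (l * a / m + (1 - l) * b / m' - 2 * g) ≤ a + b + 2 * q * g := by
    intro T
    set i : ℕ := ⌊l * T / m⌋₊ with hi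
    set j : ℕ := ⌊(1 - l) * T / m'⌋₊ with hj
    have hl1' : 0 ≤ 1 - l := by linarith
    have hi1 : (i : ℝ) ≤ l * T / m := Nat.floor_le (by positivity)
    have hi2 : l * T / m < i + 1 := Nat.lt_floor_add_one _
    have hj1 : (j : ℝ) ≤ (1 - l) * T / m' := Nat.floor_le (by positivity)
    have hj2 : (1 - l) * T / m' < j + 1 := Nat.lt_floor_add_one _
    have hi1' : (i : ℝ) * m ≤ l * T := by rwa [le_div_iff₀ hmp] at hi1
    have hi2' : l * T < (i + 1) * m := by rwa [div_lt_iff₀ hmp] at hi2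
    have hj1' : (j : ℝ) * m' ≤ (1 - l) * T := by rwa [le_div_iff₀ hmp'] at hj1
    have hj2' : (1 - l) * T < (j + 1) * m' := by rwa [div_lt_iff₀ hmp'] at hj2
    -- combinatorial inequality
    have c1 : (NN m α).card ^ i ≤ (NN (i * m) α).card := card_pow_le m α i
    have c2 : (NN m' β).card ^ j ≤ (NN (j * m') β).card := card_pow_le m' β j
    set e : ℝ := (α * ((i * m : ℕ) : ℝ) + β * ((j * m' : ℕ) : ℝ)) / ((i * m + j * m' : ℕ) : ℝ)
      with he
    have hnum : 0 ≤ α * ((i * m : ℕ) : ℝ) + β * ((j * m' : ℕ) : ℝ) := by positivity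
    have he1 : e * ((i * m + j * m' : ℕ) : ℝ) ≤
        α * ((i * m : ℕ) : ℝ) + β * ((j * m' : ℕ) : ℝ) := by
      by_cases hz : ((i * m + j * m' : ℕ) : ℝ) = 0
      · rw [hz, mul_zero]; exact hnum
      · rw [he, div_mul_cancel₀ _ hz]
    have he2 : α * ((i * m : ℕ) : ℝ) + β * ((j * m' : ℕ) : ℝ) ≤
        e * ((i * m + j * m' : ℕ) : ℝ) := by
      by_cases hz : ((i * m + j * m' : ℕ) : ℝ) = 0
      · have hz' : i * m + j * m' = 0 := by exact_mod_cast hz
        have hz1 : i * m = 0 := by omega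
        have hz2 : j * m' = 0 := by omega
        rw [hz, hz1, hz2]; simp
      · rw [he, div_mul_cancel₀ _ hz]
    have c3 : (NN (i * m) α).card * (NN (j * m') β).card ≤ (NN (i * m + j * m') e).card :=
      card_mul_le he1
    have c4 : (NN (i * m + j * m') e).card * (NN q (1 / 2)).card ≤
        (NN (i * m + j * m' + q) γ).card := by
      apply card_mul_le
      have hz1 : α * (l * T - m) ≤ α * (i * m) := mul_le_mul_of_nonneg_left (by linarith) hα
      have hz2 : β * ((1 - l) * T - m') ≤ β * (j * m') :=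
        mul_le_mul_of_nonneg_left (by linarith) hβ
      have hz3 : γ * (i * m + j * m') ≤ γ * T := mul_le_mul_of_nonneg_left (by linarith) hγ0
      have hz4 : γ * T = l * T * α + (1 - l) * T * β := by rw [hγ]; ring
      push_cast at he2 ⊢
      linarith
    have c5 : (NN m α).card ^ i * (NN m' β).card ^ j ≤ (NN (i * m + j * m' + q) γ).card :=
      calc (NN m α).card ^ i * (NN m' β).card ^ j
          ≤ (NN (i * m) α).card * (NN (j * m') β).card := Nat.mul_le_mul c1 c2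
        _ ≤ (NN (i * m + j * m') e).card := c3
        _ = (NN (i * m + j * m') e).card * 1 := (Nat.mul_one _).symm
        _ ≤ (NN (i * m + j * m') e).card * (NN q (1 / 2)).card :=
            Nat.mul_le_mul_left _ (one_le_card_half q)
        _ ≤ _ := c4
    have c6 : A ^ i * B ^ j ≤ 2 ^ (2 * ((i * m + j * m' + q : ℕ) : ℝ) * g) := by
      refine le_trans ?_ (hN _)
      rw [hA, hB]; exact_mod_cast c5
    have hA0 : (0 : ℝ) < A := by linarith
    have hB0 : (0 : ℝ) < B := by linarith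
    have c7 : i * a + j * b ≤ 2 * ((i * m + j * m' + q : ℕ) : ℝ) * g := by
      have h3 : Real.logb 2 (A ^ i * B ^ j) ≤
          Real.logb 2 (2 ^ (2 * ((i * m + j * m' + q : ℕ) : ℝ) * g)) :=
        Real.logb_le_logb_of_le (by norm_num) (by positivity) c6
      rw [Real.logb_rpow (by norm_num) (by norm_num), Real.logb_mul (by positivity) (by positivity),
        Real.logb_pow, Real.logb_pow] at h3
      exact h3
    have c8 : 2 * ((i * m + j * m' + q : ℕ) : ℝ) * g ≤ 2 * (T + q) * g := by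
      apply mul_le_mul_of_nonneg_right _ hg
      push_cast; linarith
    have c9 : (l * T / m - 1) * a ≤ i * a := mul_le_mul_of_nonneg_right (by linarith) ha0
    have c10 : ((1 - l) * T / m' - 1) * b ≤ j * b := mul_le_mul_of_nonneg_right (by linarith) hb0
    have c11 : (T : ℝ) * (l * a / m + (1 - l) * b / m' - 2 * g) =
        (l * T / m - 1) * a + ((1 - l) * T / m' - 1) * b + a + b - 2 * T * g := by ring
    rw [c11]
    linarith
  have hfin : l * a / m + (1 - l) * b / m' - 2 * g ≤ 0 := by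
    by_contra hpos
    push Not at hpos
    obtain ⟨T, hT⟩ := exists_nat_gt ((a + b + 2 * q * g) /
      (l * a / m + (1 - l) * b / m' - 2 * g))
    rw [div_lt_iff₀ hpos] at hT
    linarith [key T]
  have e1 : l * (a / (2 * m)) + (1 - l) * (b / (2 * m')) = (l * a / m + (1 - l) * b / m') / 2 := by
    field_simp
  rw [e1]; linarith

end H8TAK
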