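import Mathlib

/-!
# The Takagi function: definitions
-/

namespace H8TAK

/-- Distance from `t` to the nearest integer. -/
noncomputable def distInt (t : ℝ) : ℝ := |t - round t|

/-- The Takagi function `τ(x) = ∑ ‖2^n x‖ / 2^n`. -/
noncomputable def takagi (x : ℝ) : ℝ := ∑' n : ℕ, distInt (2 ^ n * x) / 2 ^ n

/-- The level set `L(y) = {x ∈ [0,1] : τ(x) = y}`. -/
def levelSet (y : ℝ) : Set ℝ := {x | x ∈ Set.Icc (0 : ℝ) 1 ∧ takagi x = y}

/-- The dimension spectrum `f_τ(α) = dim_H {y ∈ [0,2/3] : dim_H L(y) ≥ α}`. -/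
noncomputable def fTau (α : ℝ) : ENNReal :=
  dimH {y : ℝ | y ∈ Set.Icc (0 : ℝ) (2 / 3) ∧ ENNReal.ofReal α ≤ dimH (levelSet y)}

/-- The number of `k < 4^m` with exactly `m` binary digits equal to one and
`τ(k/4^m) = y`. -/
noncomputable def mult (m : ℕ) (y : ℝ) : ℕ :=
  Set.ncard {k : ℕ | k < 4 ^ m ∧ (Nat.digits 2 k).sum = m ∧ takagi ((k : ℝ) / 4 ^ m) = y}

/-- The number `N_m(α)` of ordinates `y` whose multiplicity `mult m y` is at least `4^(α m)`. -/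
noncomputable def levelCount (m : ℕ) (α : ℝ) : ℕ :=
  Set.ncard {y : ℝ | (4 : ℝ) ^ (α * m) ≤ mult m y}

/-- The moment sum `∑_y mult(m, y)^q` (a finite sum for `q > 0`). -/
noncomputable def momentSum (m : ℕ) (q : ℝ) : ℝ := ∑ᶠ y : ℝ, (mult m y : ℝ) ^ q

/-- The pressure `P(q) = sup_{m ≥ 1} log₂ (∑_y mult(m, y)^q) / (2m)`. -/
noncomputable def pressure (q : ℝ) : ℝ :=
  ⨆ m : ℕ, Real.logb 2 (momentSum (m + 1) q) / (2 * ((m + 1 : ℕ) : ℝ))

/-- `dd n k` is the number of zeros minus the number of ones among the `n` last binary digits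
of `k`. -/
def dd : ℕ → ℕ → ℤ
  | 0, _ => 0
  | n + 1, k => dd n (k / 2) + 1 - 2 * ((k % 2 : ℕ) : ℤ)

/-- `ss n k = 2^n τ(k/2^n)`, an integer. -/
def ss : ℕ → ℕ → ℤ
  | 0, _ => 0
  | n + 1, k => 2 * ss n (k / 2) + ((k % 2 : ℕ) : ℤ) * (1 + dd n (k / 2))

/-- The number of words of length `n` in the state `(S, D)`. -/
def MM (n : ℕ) (S D : ℤ) : ℕ :=
  ((Finset.range (2 ^ n)).filter (fun k => ss n k = S ∧ dd n k = D)).card

/-- The set of integers `S` with `MM (2 m) S 0 ≥ 4^(β m)`. -/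
noncomputable def NN (m : ℕ) (β : ℝ) : Finset ℤ :=
  ((Finset.range (2 ^ (2 * m))).image (ss (2 * m))).filter
    (fun S => (4 : ℝ) ^ (β * m) ≤ (MM (2 * m) S 0 : ℝ))

end H8TAK
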