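import Pool.Agent.H8.TAK.Moment

/-!
# The spectrum as an infimum
-/

namespace H8TAK

open Set

theorem GG_le_pressure {α q : ℝ} (h0 : 0 ≤ α) (h1 : α ≤ 1 / 2) (hq : 1 ≤ q) :
    GG α ≤ pressure q - q * α := by
  rw [pressure_eq (by linarith)]
  have := GG_add_le_PP h0 h1 (q := q) (by linarith)
  linarith

theorem spectrum_eq_iInf {α : ℝ} (h0 : 0 ≤ α) (h1 : α ≤ 1 / 2) :
    fTau α = ⨅ (q : ℝ) (_ : 1 ≤ q), ENNReal.ofReal (pressure q - q * α) := by
  rw [spectrum_eq h0 h1]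
  apply le_antisymm
  · apply le_iInf
    intro q
    apply le_iInf
    intro hq
    exact ENNReal.ofReal_le_ofReal (GG_le_pressure h0 h1 hq)
  · apply le_of_forall_gt
    intro c hc
    rcases eq_or_ne c ⊤ with rfl | hct
    · refine lt_of_le_of_lt (iInf_le _ 1) (lt_of_le_of_lt (iInf_le _ le_rfl) ?_)
      exact ENNReal.ofReal_lt_top
    · have hc2 : GG α < c.toReal := by
        rw [← ENNReal.ofReal_toReal hct] at hc
        exact (ENNReal.ofReal_lt_ofReal_iff_of_nonneg (GG_nonneg h1)).mp hc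
      obtain ⟨b, hb, hb2⟩ := (legendre h0 h1).exists_between hc2
      obtain ⟨⟨q, hq, rfl⟩, -, hlt⟩ : _ ∧ _ := ⟨hb, hb2⟩
      have hq' : (1 : ℝ) ≤ q := hq
      refine lt_of_le_of_lt (iInf_le _ q) (lt_of_le_of_lt (iInf_le _ hq') ?_)
      rw [← ENNReal.ofReal_toReal hct]
      rw [ENNReal.ofReal_lt_ofReal_iff_of_nonneg (le_trans (GG_nonneg h1)
        (GG_le_pressure h0 h1 hq'))]
      rw [pressure_eq (by linarith)]
      exact hlt

theorem exists_min {α : ℝ} (h0 : 0 ≤ α) (h1 : α < 1 / 2) :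
    ∃ q : ℝ, 1 ≤ q ∧ q ≤ 2 * (1 - α) / (1 - 2 * α) ∧
      fTau α = ENNReal.ofReal (pressure q - q * α) := by
  obtain ⟨q, hq, hle⟩ := exists_supergradient h0 h1
  have h2 := GG_le_pressure h0 h1.le hq
  have h3 := GG_le_pressure (α := 1 / 2) (by norm_num) le_rfl hq
  rw [GG_half] at h3
  rw [← pressure_eq (by linarith)] at hle
  have h4 := GG_le h1.le
  refine ⟨q, hq, ?_, ?_⟩
  · rw [le_div_iff₀ (by linarith)]
    nlinarith
  · rw [spectrum_eq h0 h1.le]
    congr 1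
    linarith

end H8TAK
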