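import Pool.Agent.H8.TAK.Main

/-!
# Assembly
-/

namespace H8TAK

open Filter Set

/-- the exponent of level `m` -/
noncomputable def ee (m : ℕ) (α : ℝ) : ℝ := Real.logb 2 ((NN m α).card : ℝ) / (2 * m)

/-- the growth exponent -/
noncomputable def GG (α : ℝ) : ℝ := ⨆ m : ℕ, ee (m + 1) α

theorem card_eq (m : ℕ) {α : ℝ} (hα : α ≤ 1 / 2) :
    ((NN (m + 1) α).card : ℝ) = 2 ^ (2 * ((m + 1 : ℕ) : ℝ) * ee (m + 1) α) := by
  have hpos : (0 : ℝ) < ((NN (m + 1) α).card : ℝ) := by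
    have := Finset.card_pos.mpr (NN_nonempty (m + 1) hα)
    exact_mod_cast this
  have hm : (0 : ℝ) < 2 * ((m + 1 : ℕ) : ℝ) := by positivity
  rw [ee, mul_div_cancel₀ _ hm.ne', Real.rpow_logb (by norm_num) (by norm_num) hpos]

theorem ee_nonneg (m : ℕ) (α : ℝ) : 0 ≤ ee m α := by
  unfold ee
  apply div_nonneg _ (by positivity)
  rcases Nat.eq_zero_or_pos (NN m α).card with h | h
  · simp [h]
  · apply Real.logb_nonneg (by norm_num)
    exact_mod_cast h

theorem ee_le (m : ℕ) {α : ℝ} (hα : α ≤ 1 / 2) : ee (m + 1) α ≤ 1 - α := by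
  have h1 := NN_card_le (m + 1) α
  rw [card_eq m hα] at h1
  have h2 := (Real.rpow_le_rpow_left_iff (by norm_num : (1 : ℝ) < 2)).mp h1
  have hm : (0 : ℝ) < 2 * ((m + 1 : ℕ) : ℝ) := by positivity
  exact le_of_mul_le_mul_left h2 hm

theorem bdd (α : ℝ) (hα : α ≤ 1 / 2) : BddAbove (range fun m : ℕ => ee (m + 1) α) := by
  refine ⟨1 - α, ?_⟩
  rintro _ ⟨m, rfl⟩
  exact ee_le m hα

theorem ee_le_GG (m : ℕ) {α : ℝ} (hα : α ≤ 1 / 2) : ee (m + 1) α ≤ GG α :=
  le_ciSup (bdd α hα) m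

theorem GG_nonneg {α : ℝ} (hα : α ≤ 1 / 2) : 0 ≤ GG α :=
  (ee_nonneg 1 α).trans (ee_le_GG 0 hα)

theorem GG_le {α : ℝ} (hα : α ≤ 1 / 2) : GG α ≤ 1 - α :=
  ciSup_le fun m => ee_le m hα

theorem NN_zero_card (β : ℝ) : ((NN 0 β).card : ℝ) ≤ 1 := by
  have : (NN 0 β).card ≤ 1 := by
    unfold NN
    refine (Finset.card_filter_le _ _).trans ?_
    refine Finset.card_image_le.trans ?_
    simp
  exact_mod_cast this

theorem card_le_of_ee_le {α g : ℝ} (hα : α ≤ 1 / 2) (h : ∀ m : ℕ, ee (m + 1) α ≤ g) (m : ℕ) :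
    ((NN m α).card : ℝ) ≤ 2 ^ (2 * m * g) := by
  rcases m with _ | m
  · simpa using NN_zero_card α
  · rw [card_eq m hα]
    apply Real.rpow_le_rpow_of_exponent_le (by norm_num)
    have hm : (0 : ℝ) ≤ 2 * ((m + 1 : ℕ) : ℝ) := by positivity
    exact mul_le_mul_of_nonneg_left (h m) hm

theorem ee_le_of_card_le {α g : ℝ} (hα : α ≤ 1 / 2)
    (h : ∀ m : ℕ, ((NN m α).card : ℝ) ≤ 2 ^ (2 * m * g)) (m : ℕ) : ee (m + 1) α ≤ g := by
  have h1 := h (m + 1)
  rw [card_eq m hα] at h1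
  have h2 := (Real.rpow_le_rpow_left_iff (by norm_num : (1 : ℝ) < 2)).mp h1
  have hm : (0 : ℝ) < 2 * ((m + 1 : ℕ) : ℝ) := by positivity
  exact le_of_mul_le_mul_left h2 hm

theorem card_le_GG {α : ℝ} (hα : α ≤ 1 / 2) (m : ℕ) :
    ((NN m α).card : ℝ) ≤ 2 ^ (2 * m * GG α) :=
  card_le_of_ee_le hα (fun m => ee_le_GG m hα) m

theorem NN_anti (m : ℕ) {α β : ℝ} (h : α ≤ β) : NN m β ⊆ NN m α := by
  intro S hS
  unfold NN at *
  rw [Finset.mem_filter] at *
  refine ⟨hS.1, le_trans ?_ hS.2⟩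
  apply Real.rpow_le_rpow_of_exponent_le (by norm_num)
  exact mul_le_mul_of_nonneg_right h (by positivity)

theorem ee_anti (m : ℕ) {α β : ℝ} (h : α ≤ β) (hβ : β ≤ 1 / 2) : ee m β ≤ ee m α := by
  unfold ee
  apply div_le_div_of_nonneg_right _ (by positivity)
  apply Real.logb_le_logb_of_le (by norm_num)
  · have := Finset.card_pos.mpr (NN_nonempty m hβ)
    exact_mod_cast this
  · exact_mod_cast Finset.card_le_card (NN_anti m h)

theorem GG_anti {α β : ℝ} (h : α ≤ β) (hβ : β ≤ 1 / 2) : GG β ≤ GG α :=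
  ciSup_le fun m => (ee_anti (m + 1) h hβ).trans (ee_le_GG m (h.trans hβ))

theorem GG_zero : GG 0 = 1 := by
  apply le_antisymm
  · have := GG_le (α := 0) (by norm_num)
    linarith
  · exact zero_growth (GG_nonneg (by norm_num)) (fun m => card_le_GG (by norm_num) m)

theorem GG_near_half {ε : ℝ} (hε : 0 < ε) : ∃ β : ℝ, 0 < β ∧ β < 1 / 2 ∧ GG β ≤ ε ∧
    ∀ m : ℕ, ((NN m β).card : ℝ) ≤ 2 ^ (2 * m * ε) := by
  obtain ⟨β, h1, h2, h3⟩ := near_half hε
  exact ⟨β, h1, h2, ciSup_le fun m => ee_le_of_card_le h2.le h3 m, h3⟩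

theorem GG_half : GG (1 / 2) = 0 := by
  apply le_antisymm _ (GG_nonneg le_rfl)
  apply le_of_forall_pos_le_add
  intro ε hε
  obtain ⟨β, h1, h2, h3, -⟩ := GG_near_half hε
  rw [zero_add]
  exact (GG_anti h2.le le_rfl).trans h3

theorem GG_concave_aux {α β l γ : ℝ} (hα : 0 ≤ α) (hα2 : α ≤ 1 / 2) (hβ : 0 ≤ β)
    (hβ2 : β ≤ 1 / 2) (hl0 : 0 ≤ l) (hl1 : l ≤ 1) (hγ : γ = l * α + (1 - l) * β)
    (hγ2 : γ < 1 / 2) : l * GG α + (1 - l) * GG β ≤ GG γ := by
  have key : ∀ m m' : ℕ, l * ee (m + 1) α + (1 - l) * ee (m' + 1) β ≤ GG γ := by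
    intro m m'
    have := conc hα hβ hl0 hl1 hγ hγ2 (fun m => card_le_GG hγ2.le m) (m := m + 1)
      (m' := m' + 1) (by omega) (by omega) (NN_nonempty _ hα2) (NN_nonempty _ hβ2)
    simpa [ee] using this
  have h1 : ∀ m' : ℕ, l * GG α + (1 - l) * ee (m' + 1) β ≤ GG γ := by
    intro m'
    unfold GG
    rw [Real.mul_iSup_of_nonneg hl0]
    have : (⨆ i : ℕ, l * ee (i + 1) α) ≤ GG γ - (1 - l) * ee (m' + 1) β :=
      ciSup_le fun m => by linarith [key m m']
    unfold GG at this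
    linarith
  have h2 : (⨆ i : ℕ, (1 - l) * ee (i + 1) β) ≤ GG γ - l * GG α :=
    ciSup_le fun m => by linarith [h1 m]
  rw [← Real.mul_iSup_of_nonneg (by linarith : (0 : ℝ) ≤ 1 - l)] at h2
  have h3 : (⨆ i : ℕ, ee (i + 1) β) = GG β := rfl
  rw [h3] at h2
  linarith

/-- the upper bound for positive exponents -/
theorem spectrum_le_GG {α : ℝ} (h0 : 0 < α) (h1 : α ≤ 1 / 2) :
    fTau α ≤ ENNReal.ofReal (GG α) := by
  rcases h1.eq_or_lt with rfl | h1
  · rw [GG_half, ENNReal.ofReal_zero]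
    have key : ∀ ε : ℝ, 0 < ε → fTau (1 / 2) ≤ ENNReal.ofReal ε := by
      intro ε hε
      obtain ⟨β, h2, h3, -, h4⟩ := GG_near_half hε
      exact spectrum_le h2.le h3 hε.le h4
    have hlim : Tendsto (fun ε : ℝ => ENNReal.ofReal ε) (nhdsWithin 0 (Ioi 0)) (nhds 0) := by
      have : Tendsto (fun ε : ℝ => ENNReal.ofReal ε) (nhds 0) (nhds (ENNReal.ofReal 0)) :=
        ENNReal.continuous_ofReal.tendsto 0
      rw [ENNReal.ofReal_zero] at this
      exact this.mono_left nhdsWithin_le_nhds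
    refine ge_of_tendsto hlim ?_
    filter_upwards [self_mem_nhdsWithin] with ε hε
    exact key ε hε
  · have key : ∀ α' : ℝ, α' ∈ Ioo 0 α →
        fTau α ≤ ENNReal.ofReal (GG α / ((1 / 2 - α) / (1 / 2 - α'))) := by
      intro α' hα'
      have hl0 : 0 < (1 / 2 - α) / (1 / 2 - α') :=
        div_pos (by linarith) (by linarith [hα'.2])
      have hl1 : (1 / 2 - α) / (1 / 2 - α') ≤ 1 := by
        rw [div_le_one (by linarith [hα'.2])]
        linarith [hα'.2]
      have hα'2 : α' ≤ 1 / 2 := by linarith [hα'.2]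
      apply spectrum_le hα'.1.le hα'.2 (div_nonneg (GG_nonneg h1.le) hl0.le)
      apply card_le_of_ee_le hα'2
      intro m
      rw [le_div_iff₀ hl0]
      have h3 := GG_concave_aux (α := α') (β := 1 / 2) (l := (1 / 2 - α) / (1 / 2 - α'))
        (γ := α) hα'.1.le hα'2 (by norm_num) le_rfl hl0.le hl1 (by
          have h5 : (1 / 2 - α') ≠ 0 := by linarith [hα'.2]
          have h6 : (1 / 2 - α) / (1 / 2 - α') * (1 / 2 - α') = 1 / 2 - α :=
            div_mul_cancel₀ _ h5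
          linarith) h1
      rw [GG_half, mul_zero, add_zero] at h3
      have h4 := ee_le_GG m hα'2
      nlinarith [mul_le_mul_of_nonneg_left h4 hl0.le]
    have hlim : Tendsto (fun α' : ℝ => ENNReal.ofReal (GG α / ((1 / 2 - α) / (1 / 2 - α'))))
        (nhdsWithin α (Iio α)) (nhds (ENNReal.ofReal (GG α))) := by
      have hne : (1 / 2 - α) ≠ 0 := by linarith
      have hc : ContinuousAt (fun α' : ℝ => GG α / ((1 / 2 - α) / (1 / 2 - α'))) α := by
        apply ContinuousAt.div continuousAt_const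
        · apply ContinuousAt.div continuousAt_const
          · exact (continuous_const.sub continuous_id).continuousAt
          · exact hne
        · exact div_ne_zero hne hne
      have h2 : Tendsto (fun α' : ℝ => GG α / ((1 / 2 - α) / (1 / 2 - α'))) (nhds α)
          (nhds (GG α / ((1 / 2 - α) / (1 / 2 - α)))) := hc
      rw [div_self hne, div_one] at h2
      exact ((ENNReal.continuous_ofReal.tendsto _).comp h2).mono_left nhdsWithin_le_nhds
    refine ge_of_tendsto hlim ?_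
    filter_upwards [Ioo_mem_nhdsLT h0] with α' hα'
    exact key α' hα'

theorem spectrum_zero : fTau 0 = 1 := by
  have h : {y : ℝ | y ∈ Icc (0 : ℝ) (2 / 3) ∧ ENNReal.ofReal 0 ≤ dimH (levelSet y)}
      = Icc (0 : ℝ) (2 / 3) := by
    ext y
    simp
  unfold fTau
  rw [h]
  have := Real.dimH_of_nonempty_interior (E := ℝ) (s := Icc (0 : ℝ) (2 / 3))
    (by rw [interior_Icc]; exact nonempty_Ioo.mpr (by norm_num))
  rw [this]
  simp

theorem spectrum_eq {α : ℝ} (h0 : 0 ≤ α) (h1 : α ≤ 1 / 2) :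
    fTau α = ENNReal.ofReal (GG α) := by
  rcases h0.eq_or_lt with rfl | h0
  · rw [spectrum_zero, GG_zero, ENNReal.ofReal_one]
  · apply le_antisymm (spectrum_le_GG h0 h1)
    by_contra hlt
    push Not at hlt
    have h2 : (fTau α).toReal < GG α := by
      rw [ENNReal.lt_ofReal_iff_toReal_lt (ne_top_of_lt hlt)] at hlt
      exact hlt
    obtain ⟨m, hm⟩ := exists_lt_of_lt_ciSup h2
    have h3 := le_spectrum h0 (m := m + 1) (by omega)
    have h4 : ENNReal.ofReal (ee (m + 1) α) ≤ fTau α := h3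
    rw [ENNReal.ofReal_le_iff_le_toReal (ne_top_of_lt hlt)] at h4
    exact absurd h4 (not_le.mpr hm)

theorem spectrum_toReal {α : ℝ} (h0 : 0 ≤ α) (h1 : α ≤ 1 / 2) : (fTau α).toReal = GG α := by
  rw [spectrum_eq h0 h1, ENNReal.toReal_ofReal (GG_nonneg h1)]

theorem spectrum_formula {α : ℝ} (h0 : 0 ≤ α) (h1 : α ≤ 1 / 2) :
    fTau α = ⨆ (m : ℕ) (_ : 1 ≤ m),
      ENNReal.ofReal (Real.logb 2 (levelCount m α) / (2 * m)) := by
  rw [spectrum_eq h0 h1]
  have hmono : (⨆ (m : ℕ) (_ : 1 ≤ m), ENNReal.ofReal (Real.logb 2 (levelCount m α) / (2 * m)))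
      = ⨆ m : ℕ, ENNReal.ofReal (ee (m + 1) α) := by
    apply le_antisymm
    · apply iSup_le
      intro m
      apply iSup_le
      intro hm
      obtain ⟨k, rfl⟩ := Nat.exists_eq_add_of_le' hm
      rw [levelCount_eq]
      exact le_iSup (fun m : ℕ => ENNReal.ofReal (ee (m + 1) α)) k
    · apply iSup_le
      intro m
      refine le_trans ?_ (le_iSup _ (m + 1))
      refine le_trans ?_ (le_iSup _ (by omega))
      rw [levelCount_eq]
      rfl
  rw [hmono]
  apply le_antisymm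
  · apply le_of_forall_lt
    intro c hc
    have hct := ne_top_of_lt hc
    rw [ENNReal.lt_ofReal_iff_toReal_lt hct] at hc
    obtain ⟨m, hm⟩ := exists_lt_of_lt_ciSup hc
    exact lt_of_lt_of_le ((ENNReal.lt_ofReal_iff_toReal_lt hct).mpr hm)
      (le_iSup (fun m : ℕ => ENNReal.ofReal (ee (m + 1) α)) m)
  · apply iSup_le
    intro m
    exact ENNReal.ofReal_le_ofReal (ee_le_GG m h1)

/-- the real valued spectrum -/
noncomputable def ff (α : ℝ) : ℝ := (fTau α).toReal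

theorem ff_eq {α : ℝ} (h : α ∈ Icc (0 : ℝ) (1 / 2)) : ff α = GG α := spectrum_toReal h.1 h.2

theorem ff_concave : ConcaveOn ℝ (Icc (0 : ℝ) (1 / 2)) ff := by
  refine ⟨convex_Icc _ _, ?_⟩
  intro x hx y hy a b ha hb hab
  have hb' : b = 1 - a := by linarith
  subst hb'
  simp only [smul_eq_mul]
  have hmem : a * x + (1 - a) * y ∈ Icc (0 : ℝ) (1 / 2) := by
    constructor
    · exact add_nonneg (mul_nonneg ha hx.1) (mul_nonneg hb hy.1)
    · have h1 := mul_le_mul_of_nonneg_left hx.2 ha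
      have h2 := mul_le_mul_of_nonneg_left hy.2 hb
      linarith
  rw [ff_eq hx, ff_eq hy, ff_eq hmem]
  rcases hmem.2.eq_or_lt with h | h
  · rw [h, GG_half]
    have h1 := mul_le_mul_of_nonneg_left hx.2 ha
    have h2 := mul_le_mul_of_nonneg_left hy.2 hb
    have e1 : a * (1 / 2 - x) = 0 := by
      have t1 : 0 ≤ a * (1 / 2 - x) := mul_nonneg ha (by linarith [hx.2])
      have t2 : 0 ≤ (1 - a) * (1 / 2 - y) := mul_nonneg hb (by linarith [hy.2])
      linarith
    have e2 : (1 - a) * (1 / 2 - y) = 0 := by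
      have t1 : 0 ≤ a * (1 / 2 - x) := mul_nonneg ha (by linarith [hx.2])
      have t2 : 0 ≤ (1 - a) * (1 / 2 - y) := mul_nonneg hb (by linarith [hy.2])
      linarith
    have f1 : a * GG x = 0 := by
      rcases mul_eq_zero.mp e1 with h | h
      · rw [h, zero_mul]
      · have : x = 1 / 2 := by linarith
        rw [this, GG_half, mul_zero]
    have f2 : (1 - a) * GG y = 0 := by
      rcases mul_eq_zero.mp e2 with h | h
      · rw [h, zero_mul]
      · have : y = 1 / 2 := by linarith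
        rw [this, GG_half, mul_zero]
    rw [f1, f2, add_zero]
  · exact GG_concave_aux hx.1 hx.2 hy.1 hy.2 ha (by linarith) rfl h

theorem ff_anti : AntitoneOn ff (Icc (0 : ℝ) (1 / 2)) := by
  intro x hx y hy hxy
  rw [ff_eq hx, ff_eq hy]
  exact GG_anti hxy hy.2

theorem ff_zero : ff 0 = 1 := by rw [ff_eq ⟨le_rfl, by norm_num⟩, GG_zero]

theorem ff_half : ff (1 / 2) = 0 := by rw [ff_eq ⟨by norm_num, le_rfl⟩, GG_half]

theorem ff_le {α : ℝ} (h : α ∈ Icc (0 : ℝ) (1 / 2)) : ff α ≤ 1 - α := by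
  rw [ff_eq h]
  exact GG_le h.2

theorem ff_strictAnti : StrictAntiOn ff (Icc (0 : ℝ) (1 / 2)) := by
  intro x hx y hy hxy
  have hy0 : 0 < y := lt_of_le_of_lt hx.1 hxy
  have hfy : ff y < 1 := by linarith [ff_le hy]
  have h0 : (0 : ℝ) ∈ Icc (0 : ℝ) (1 / 2) := ⟨le_rfl, by norm_num⟩
  have ha : 0 ≤ 1 - x / y := by rw [sub_nonneg, div_le_one hy0]; exact hxy.le
  have hc := ff_concave.2 h0 hy ha (div_nonneg hx.1 hy0.le) (by ring)
  simp only [smul_eq_mul, mul_zero, zero_add, ff_zero, mul_one] at hc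
  rw [div_mul_cancel₀ _ hy0.ne'] at hc
  have : x / y < 1 := by rw [div_lt_one hy0]; exact hxy
  nlinarith

theorem ff_ge {α : ℝ} (h : α ∈ Icc (0 : ℝ) (1 / 2)) : 1 - 2 * α ≤ ff α := by
  have h0 : (0 : ℝ) ∈ Icc (0 : ℝ) (1 / 2) := ⟨le_rfl, by norm_num⟩
  have h2 : (1 / 2 : ℝ) ∈ Icc (0 : ℝ) (1 / 2) := ⟨by norm_num, le_rfl⟩
  have ha : 0 ≤ 1 - 2 * α := by linarith [h.2]
  have hb : 0 ≤ 2 * α := by linarith [h.1]
  have hc := ff_concave.2 h0 h2 ha hb (by ring)
  simp only [smul_eq_mul, mul_zero, zero_add, ff_zero, mul_one, ff_half] at hc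
  have e : 2 * α * (1 / 2) = α := by ring
  rw [e] at hc
  linarith

theorem ff_continuous : ContinuousOn ff (Icc (0 : ℝ) (1 / 2)) := by
  intro x hx
  rcases hx.1.eq_or_lt with h0 | h0
  · -- at zero
    subst h0
    have h1 : Tendsto (fun α : ℝ => 1 - 2 * α) (nhdsWithin 0 (Icc 0 (1 / 2))) (nhds 1) := by
      have : Tendsto (fun α : ℝ => 1 - 2 * α) (nhds 0) (nhds (1 - 2 * 0)) :=
        (continuous_const.sub (continuous_const.mul continuous_id)).tendsto 0
      rw [mul_zero, sub_zero] at this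
      exact this.mono_left nhdsWithin_le_nhds
    have h2 : Tendsto (fun α : ℝ => 1 - α) (nhdsWithin 0 (Icc 0 (1 / 2))) (nhds 1) := by
      have : Tendsto (fun α : ℝ => 1 - α) (nhds 0) (nhds (1 - 0)) :=
        (continuous_const.sub continuous_id).tendsto 0
      rw [sub_zero] at this
      exact this.mono_left nhdsWithin_le_nhds
    unfold ContinuousWithinAt
    rw [ff_zero]
    refine tendsto_of_tendsto_of_tendsto_of_le_of_le' h1 h2 ?_ ?_
    · filter_upwards [self_mem_nhdsWithin] with α hα using ff_ge hα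
    · filter_upwards [self_mem_nhdsWithin] with α hα using ff_le hα
  rcases hx.2.eq_or_lt with h1 | h1
  · subst h1
    unfold ContinuousWithinAt
    rw [ff_half, Metric.tendsto_nhds]
    intro ε hε
    obtain ⟨β, h2, h3, h4, -⟩ := GG_near_half (half_pos hε)
    have h5 : Ioi β ∈ nhdsWithin (1 / 2 : ℝ) (Icc 0 (1 / 2)) :=
      nhdsWithin_le_nhds (Ioi_mem_nhds h3)
    filter_upwards [self_mem_nhdsWithin, h5] with α hα hβ
    rw [Real.dist_eq, sub_zero, ff_eq hα, abs_of_nonneg (GG_nonneg hα.2)]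
    have := GG_anti (le_of_lt hβ) hα.2
    linarith
  · have hcont := ff_concave.continuousOn_interior
    rw [interior_Icc] at hcont
    exact (hcont.continuousAt (Ioo_mem_nhds h0 h1)).continuousWithinAt

end H8TAK
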