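import Pool.Agent.H8.TAK.Base
import Pool.Agent.H8.TAK.Dim

/-!
# Growth at level zero
-/

namespace H8TAK

open Filter

theorem G0_sum_range_two_mul (f : ℕ → ℝ) (m : ℕ) :
    ∑ k ∈ Finset.range (2 * m), f k = ∑ j ∈ Finset.range m, (f (2 * j) + f (2 * j + 1)) := by
  induction m with
  | zero => simp
  | succ m ih =>
    rw [show 2 * (m + 1) = 2 * m + 1 + 1 by ring, Finset.sum_range_succ, Finset.sum_range_succ,
      ih, Finset.sum_range_succ]
    ring

theorem G0_dd_even (n j : ℕ) : dd (n + 1) (2 * j) = dd n j + 1 := by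
  have h1 : 2 * j / 2 = j := by omega
  have h2 : 2 * j % 2 = 0 := by omega
  simp only [dd, h1, h2]
  simp

theorem G0_dd_odd (n j : ℕ) : dd (n + 1) (2 * j + 1) = dd n j - 1 := by
  have h1 : (2 * j + 1) / 2 = j := by omega
  have h2 : (2 * j + 1) % 2 = 1 := by omega
  simp only [dd, h1, h2]
  push_cast
  ring

theorem G0_moment (l : ℝ) (n : ℕ) :
    ∑ k ∈ Finset.range (2 ^ n), Real.exp (l * dd n k) = (Real.exp l + Real.exp (-l)) ^ n := by
  induction n with
  | zero => simp [dd]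
  | succ n ih =>
    rw [pow_succ', G0_sum_range_two_mul, pow_succ, ← ih, Finset.sum_mul]
    refine Finset.sum_congr rfl ?_
    intro j _
    rw [G0_dd_even, G0_dd_odd, mul_add, ← Real.exp_add, ← Real.exp_add]
    congr 2
    · push_cast; ring
    · push_cast; ring

/-- The number of words with a large drift. -/
theorem G0_card_large (δ : ℝ) (n : ℕ) (hδ : 0 ≤ δ) :
    (((Finset.range (2 ^ n)).filter (fun k => δ * n < |(dd n k : ℝ)|)).card : ℝ) ≤
      2 * (2 ^ n * Real.exp (-(δ ^ 2 * n / 2))) := by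
  set F := (Finset.range (2 ^ n)).filter (fun k => δ * n < |(dd n k : ℝ)|) with hF
  have h1 : (F.card : ℝ) * Real.exp (δ * (δ * n)) ≤
      ∑ k ∈ Finset.range (2 ^ n), (Real.exp (δ * dd n k) + Real.exp (-δ * dd n k)) := by
    calc (F.card : ℝ) * Real.exp (δ * (δ * n)) = ∑ _k ∈ F, Real.exp (δ * (δ * n)) := by
          rw [Finset.sum_const, nsmul_eq_mul]
      _ ≤ ∑ k ∈ F, (Real.exp (δ * dd n k) + Real.exp (-δ * dd n k)) := by
          refine Finset.sum_le_sum ?_
          intro k hk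
          have hk2 : δ * n < |(dd n k : ℝ)| := (Finset.mem_filter.mp hk).2
          have hle : Real.exp (δ * (δ * n)) ≤ Real.exp (δ * |(dd n k : ℝ)|) :=
            Real.exp_le_exp.mpr (mul_le_mul_of_nonneg_left hk2.le hδ)
          refine hle.trans ?_
          rcases abs_cases (dd n k : ℝ) with ⟨h, _⟩ | ⟨h, _⟩
          · rw [h]
            have := (Real.exp_pos (-δ * dd n k)).le
            linarith
          · rw [h]
            have := (Real.exp_pos (δ * dd n k)).le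
            rw [mul_neg, ← neg_mul]
            linarith
      _ ≤ ∑ k ∈ Finset.range (2 ^ n), (Real.exp (δ * dd n k) + Real.exp (-δ * dd n k)) := by
          refine Finset.sum_le_sum_of_subset_of_nonneg (Finset.filter_subset _ _) ?_
          intro k _ _
          positivity
  rw [Finset.sum_add_distrib, G0_moment, G0_moment, neg_neg,
    add_comm (Real.exp (-δ)) (Real.exp δ), ← two_mul] at h1
  have h2 : Real.exp δ + Real.exp (-δ) ≤ 2 * Real.exp (δ ^ 2 / 2) := by
    have := Real.cosh_le_exp_half_sq δ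
    rw [Real.cosh_eq] at this
    linarith
  have h3 : (Real.exp δ + Real.exp (-δ)) ^ n ≤ 2 ^ n * Real.exp (δ ^ 2 / 2 * n) := by
    calc (Real.exp δ + Real.exp (-δ)) ^ n ≤ (2 * Real.exp (δ ^ 2 / 2)) ^ n := by
          refine pow_le_pow_left₀ (by positivity) h2 n
      _ = 2 ^ n * Real.exp (δ ^ 2 / 2 * n) := by
          rw [mul_pow, ← Real.exp_nat_mul, mul_comm (n : ℝ)]
  have h4 : (F.card : ℝ) * Real.exp (δ * (δ * n)) ≤ 2 * (2 ^ n * Real.exp (δ ^ 2 / 2 * n)) :=
    h1.trans (mul_le_mul_of_nonneg_left h3 (by norm_num))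
  have hpos := Real.exp_pos (δ * (δ * n))
  have h5 : 2 * (2 ^ n * Real.exp (δ ^ 2 / 2 * n)) =
      2 * (2 ^ n * Real.exp (-(δ ^ 2 * n / 2))) * Real.exp (δ * (δ * n)) := by
    rw [mul_assoc, mul_assoc, ← Real.exp_add]
    congr 3
    ring
  rw [h5] at h4
  exact le_of_mul_le_mul_right h4 hpos

/-- For fixed drift the number of states is at most the number of balanced states. -/
theorem G0_card_fixed {g : ℝ}
    (hN : ∀ m : ℕ, ((NN m 0).card : ℝ) ≤ 2 ^ (2 * m * g)) (n : ℕ) (D : ℤ) :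
    ((((Finset.range (2 ^ n)).filter (fun k => dd n k = D)).image (ss n)).card : ℝ) ≤
      2 ^ (((n : ℝ) + |(D : ℝ)|) * g) := by
  rcases Finset.eq_empty_or_nonempty ((Finset.range (2 ^ n)).filter (fun k => dd n k = D)) with
    hemp | ⟨k0, hk0⟩
  · rw [hemp]
    simp only [Finset.image_empty, Finset.card_empty, Nat.cast_zero]
    positivity
  have hpar : (2 : ℤ) ∣ (n : ℤ) - D := by
    have h1 := dd_parity n k0
    rwa [(Finset.mem_filter.mp hk0).2] at h1
  obtain ⟨m, hm⟩ : ∃ m : ℕ, 2 * m = n + D.natAbs := by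
    have h1 : (2 : ℤ) ∣ ((n + D.natAbs : ℕ) : ℤ) := by
      push_cast
      rcases abs_cases D with ⟨h, _⟩ | ⟨h, _⟩
      · rw [h]
        have : (n : ℤ) + D = (n - D) + 2 * D := by ring
        rw [this]
        exact dvd_add hpar (Dvd.intro _ rfl)
      · rw [h, ← sub_eq_add_neg]
        exact hpar
    have h2 : 2 ∣ n + D.natAbs := by exact_mod_cast h1
    obtain ⟨m, hm⟩ := h2
    exact ⟨m, hm.symm⟩
  -- the tail
  obtain ⟨k', hk', hdd'⟩ : ∃ k' < 2 ^ D.natAbs, dd D.natAbs k' = -D := by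
    rcases le_total 0 D with hD | hD
    · refine ⟨2 ^ D.natAbs - 1 - 0, by have := Nat.one_le_two_pow (n := D.natAbs); omega, ?_⟩
      rw [dd_compl _ _ (by positivity), dd_eq_digits _ _ (by positivity)]
      simp [abs_of_nonneg hD]
    · refine ⟨0, by positivity, ?_⟩
      rw [dd_eq_digits _ _ (by positivity)]
      simp [abs_of_nonpos hD]
  have hcard : (((Finset.range (2 ^ n)).filter (fun k => dd n k = D)).image (ss n)).card ≤
      (NN m 0).card := by
    refine Finset.card_le_card_of_injOn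
      (fun S => 2 ^ D.natAbs * S + ss D.natAbs k' + D * k') ?_ ?_
    · intro S hS
      obtain ⟨k, hk, rfl⟩ := Finset.mem_image.mp hS
      obtain ⟨hk1, hk2⟩ := Finset.mem_filter.mp hk
      rw [Finset.mem_range] at hk1
      have hlt : k * 2 ^ D.natAbs + k' < 2 ^ (2 * m) := by
        rw [hm, pow_add]
        calc k * 2 ^ D.natAbs + k' < k * 2 ^ D.natAbs + 2 ^ D.natAbs := by omega
          _ = (k + 1) * 2 ^ D.natAbs := by ring
          _ ≤ 2 ^ n * 2 ^ D.natAbs := Nat.mul_le_mul_right _ hk1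
      have hs : ss (2 * m) (k * 2 ^ D.natAbs + k') =
          2 ^ D.natAbs * ss n k + ss D.natAbs k' + D * k' := by
        rw [hm, ss_append _ _ _ _ hk', hk2]
      have hd : dd (2 * m) (k * 2 ^ D.natAbs + k') = 0 := by
        rw [hm, dd_append _ _ _ _ hk', hk2, hdd']
        ring
      rw [Finset.mem_coe, NN, Finset.mem_filter]
      refine ⟨Finset.mem_image.mpr ⟨_, Finset.mem_range.mpr hlt, hs⟩, ?_⟩
      rw [zero_mul, Real.rpow_zero]
      have h1 : 0 < MM (2 * m) (2 ^ D.natAbs * ss n k + ss D.natAbs k' + D * k') 0 := by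
        rw [MM]
        refine Finset.card_pos.mpr ⟨k * 2 ^ D.natAbs + k', ?_⟩
        exact Finset.mem_filter.mpr ⟨Finset.mem_range.mpr hlt, hs, hd⟩
      exact_mod_cast h1
    · intro S _ S' _ h
      simp only [add_left_inj] at h
      exact mul_left_cancel₀ (by positivity) h
  have h1 : ((((Finset.range (2 ^ n)).filter (fun k => dd n k = D)).image (ss n)).card : ℝ) ≤
      ((NN m 0).card : ℝ) := by exact_mod_cast hcard
  refine (h1.trans (hN m)).trans (le_of_eq ?_)
  congr 2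
  have h2 : ((2 * m : ℕ) : ℝ) = ((n + D.natAbs : ℕ) : ℝ) := by rw [hm]
  push_cast at h2
  rw [h2]
  congr 1
  rw [Nat.cast_natAbs, Int.cast_abs]

/-- Approximation of a value of the Takagi function. -/
theorem G0_approx {x : ℝ} (h0 : 0 ≤ x) (h1 : x < 1) (n : ℕ) :
    ⌊2 ^ n * x⌋₊ < 2 ^ n ∧
      |takagi x - (ss n ⌊2 ^ n * x⌋₊ : ℝ) / 2 ^ n| ≤ ((n : ℝ) + 1) / 2 ^ n := by
  have hp : (0 : ℝ) < 2 ^ n := by positivity
  have hnn : 0 ≤ 2 ^ n * x := by positivity
  refine ⟨?_, ?_⟩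
  · rw [Nat.floor_lt hnn]
    push_cast
    nlinarith
  · set k := ⌊2 ^ n * x⌋₊ with hk
    have ht0 : 0 ≤ 2 ^ n * x - k := sub_nonneg.mpr (Nat.floor_le hnn)
    have ht1 : 2 ^ n * x - k ≤ 1 := by
      have := Nat.lt_floor_add_one (2 ^ n * x)
      linarith
    have h2 := takagi_affine n k ht0 ht1
    have h3 : ((k : ℝ) + (2 ^ n * x - k)) / 2 ^ n = x := by
      field_simp
      ring
    rw [h3] at h2
    rw [h2, ← sub_div, abs_div, abs_of_pos hp]
    refine div_le_div_of_nonneg_right ?_ hp.le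
    set t := 2 ^ n * x - k with ht
    have h4 : (ss n k : ℝ) + takagi t + dd n k * t - ss n k = takagi t + dd n k * t := by ring
    rw [h4]
    have h5 : |(dd n k : ℝ)| ≤ n := by
      have := abs_dd_le n k
      exact_mod_cast this
    have h6 := takagi_nonneg t
    have h7 := takagi_le t
    calc |takagi t + dd n k * t| ≤ |takagi t| + |dd n k * t| := abs_add_le _ _
      _ ≤ 2 / 3 + |(dd n k : ℝ)| * |t| := by
          rw [abs_mul, abs_of_nonneg h6]
          linarith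
      _ ≤ 2 / 3 + n * 1 := by
          have : |t| ≤ 1 := by rw [abs_of_nonneg ht0]; exact ht1
          have := mul_le_mul h5 this (abs_nonneg _) (Nat.cast_nonneg n)
          linarith
      _ ≤ n + 1 := by linarith

/-- The first family of centres: small drift. -/
noncomputable def G0_E1 (δ : ℝ) (n : ℕ) : Finset ℝ :=
  ((Finset.range (2 ^ n)).filter (fun k => |(dd n k : ℝ)| ≤ δ * n)).image
    (fun k => (ss n k : ℝ) / 2 ^ n)

/-- The second family of centres: large drift. -/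
noncomputable def G0_E2 (δ : ℝ) (n : ℕ) : Finset ℝ :=
  ((Finset.range (2 ^ n)).filter (fun k => δ * n < |(dd n k : ℝ)|)).image
    (fun k => (ss n k : ℝ) / 2 ^ n)

theorem G0_card_E1 {g δ : ℝ} (hg : 0 ≤ g)
    (hN : ∀ m : ℕ, ((NN m 0).card : ℝ) ≤ 2 ^ (2 * m * g)) (n : ℕ) :
    ((G0_E1 δ n).card : ℝ) ≤ 2 * ((n : ℝ) + 1) ^ 1 * 2 ^ ((1 + δ) * g * n) := by
  classical
  set I := (Finset.Icc (-(n : ℤ)) n).filter (fun D : ℤ => |(D : ℝ)| ≤ δ * n) with hI
  have hsub : G0_E1 δ n ⊆ I.biUnion (fun D =>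
      (((Finset.range (2 ^ n)).filter (fun k => dd n k = D)).image (ss n)).image
        (fun S : ℤ => (S : ℝ) / 2 ^ n)) := by
    intro y hy
    obtain ⟨k, hk, rfl⟩ := Finset.mem_image.mp hy
    obtain ⟨hk1, hk2⟩ := Finset.mem_filter.mp hk
    refine Finset.mem_biUnion.mpr ⟨dd n k, ?_, ?_⟩
    · rw [hI, Finset.mem_filter, Finset.mem_Icc, ← abs_le]
      exact ⟨abs_dd_le n k, hk2⟩
    · refine Finset.mem_image.mpr ⟨ss n k, ?_, rfl⟩
      exact Finset.mem_image.mpr ⟨k, Finset.mem_filter.mpr ⟨hk1, rfl⟩, rfl⟩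
  have h1 : ((G0_E1 δ n).card : ℝ) ≤ ∑ D ∈ I,
      ((((Finset.range (2 ^ n)).filter (fun k => dd n k = D)).image (ss n)).card : ℝ) := by
    have h2 : (G0_E1 δ n).card ≤ ∑ D ∈ I,
        (((Finset.range (2 ^ n)).filter (fun k => dd n k = D)).image (ss n)).card := by
      refine (Finset.card_le_card hsub).trans (Finset.card_biUnion_le.trans ?_)
      exact Finset.sum_le_sum fun D _ => Finset.card_image_le
    exact_mod_cast h2
  refine h1.trans ?_
  have h3 : ∀ D ∈ I,
      ((((Finset.range (2 ^ n)).filter (fun k => dd n k = D)).image (ss n)).card : ℝ) ≤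
        2 ^ ((1 + δ) * g * n) := by
    intro D hD
    have hD2 : |(D : ℝ)| ≤ δ * n := (Finset.mem_filter.mp hD).2
    refine (G0_card_fixed hN n D).trans ?_
    refine Real.rpow_le_rpow_of_exponent_le (by norm_num) ?_
    have := mul_le_mul_of_nonneg_right hD2 hg
    nlinarith
  refine (Finset.sum_le_card_nsmul _ _ _ h3).trans ?_
  rw [nsmul_eq_mul]
  refine mul_le_mul_of_nonneg_right ?_ (by positivity)
  have h4 : I.card ≤ 2 * n + 1 := by
    refine (Finset.card_filter_le _ _).trans ?_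
    rw [Int.card_Icc]
    omega
  have h5 : (I.card : ℝ) ≤ ((2 * n + 1 : ℕ) : ℝ) := by exact_mod_cast h4
  push_cast at h5
  rw [pow_one]
  linarith

theorem G0_card_E2 {δ : ℝ} (hδ : 0 ≤ δ) (n : ℕ) :
    ((G0_E2 δ n).card : ℝ) ≤
      2 * ((n : ℝ) + 1) ^ 0 * 2 ^ ((1 - δ ^ 2 / (2 * Real.log 2)) * n) := by
  have h1 : ((G0_E2 δ n).card : ℝ) ≤
      (((Finset.range (2 ^ n)).filter (fun k => δ * n < |(dd n k : ℝ)|)).card : ℝ) :=
    Nat.cast_le.mpr Finset.card_image_le
  refine (h1.trans (G0_card_large δ n hδ)).trans (le_of_eq ?_)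
  have hl : Real.log 2 ≠ 0 := (Real.log_pos (by norm_num)).ne'
  rw [pow_zero, mul_one, Real.rpow_def_of_pos (by norm_num), ← Real.exp_log (x := (2 : ℝ) ^ n)
    (by positivity), Real.log_pow, ← Real.exp_add]
  congr 2
  field_simp
  ring

theorem zero_growth {g : ℝ} (hg : 0 ≤ g)
    (hN : ∀ m : ℕ, ((NN m 0).card : ℝ) ≤ 2 ^ (2 * m * g)) : 1 ≤ g := by
  by_contra hlt
  push Not at hlt
  set δ : ℝ := (1 - g) / 2 with hδ
  have hδ0 : 0 < δ := by rw [hδ]; linarith
  have hδ1 : δ < 1 := by rw [hδ]; linarith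
  have ha1 : (1 + δ) * g < 1 := by rw [hδ]; nlinarith
  have ha0 : 0 ≤ (1 + δ) * g := by positivity
  have hlog : (0.69 : ℝ) < Real.log 2 := lt_trans (by norm_num) Real.log_two_gt_d9
  have hb1 : 1 - δ ^ 2 / (2 * Real.log 2) < 1 := by
    have : 0 < δ ^ 2 / (2 * Real.log 2) := by positivity
    linarith
  have hb0 : 0 ≤ 1 - δ ^ 2 / (2 * Real.log 2) := by
    rw [sub_nonneg, div_le_one (by positivity)]
    nlinarith
  set T1 : Set ℝ := {y | ∃ᶠ n : ℕ in atTop, ∃ c ∈ G0_E1 δ n,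
    |y - c| ≤ 2 * ((n : ℝ) + 1) / 2 ^ n} with hT1
  set T2 : Set ℝ := {y | ∃ᶠ n : ℕ in atTop, ∃ c ∈ G0_E2 δ n,
    |y - c| ≤ 2 * ((n : ℝ) + 1) / 2 ^ n} with hT2
  have d1 : dimH T1 ≤ ENNReal.ofReal ((1 + δ) * g) := by
    refine dimH_limsup_le (C := 2) 1 ha0 (by norm_num) (G0_E1 δ) ?_ T1 fun y hy => hy
    exact Eventually.of_forall fun n => G0_card_E1 hg hN n
  have d2 : dimH T2 ≤ ENNReal.ofReal (1 - δ ^ 2 / (2 * Real.log 2)) := by
    refine dimH_limsup_le (C := 2) 0 hb0 (by norm_num) (G0_E2 δ) ?_ T2 fun y hy => hy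
    exact Eventually.of_forall fun n => G0_card_E2 hδ0.le n
  have hcov : Set.Icc (0 : ℝ) (2 / 3) ⊆ T1 ∪ T2 := by
    intro y hy
    obtain ⟨x, hx0, hx1, hxy⟩ : ∃ x : ℝ, 0 ≤ x ∧ x < 1 ∧ takagi x = y := by
      obtain ⟨x, hx, hxy⟩ := takagi_surj hy.1 hy.2
      rcases lt_or_eq_of_le hx.2 with h | h
      · exact ⟨x, hx.1, h, hxy⟩
      · refine ⟨0, le_rfl, by norm_num, ?_⟩
        rw [← hxy, h]
        have := takagi_one_sub 0
        rw [sub_zero] at this
        exact this.symm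
    have hap : ∀ n : ℕ, |y - (ss n ⌊2 ^ n * x⌋₊ : ℝ) / 2 ^ n| ≤ 2 * ((n : ℝ) + 1) / 2 ^ n := by
      intro n
      have h1 := (G0_approx hx0 hx1 n).2
      rw [hxy] at h1
      refine h1.trans ?_
      refine div_le_div_of_nonneg_right ?_ (by positivity)
      have : (0 : ℝ) ≤ n := Nat.cast_nonneg n
      linarith
    by_cases hfr : ∃ᶠ n : ℕ in atTop, |(dd n ⌊2 ^ n * x⌋₊ : ℝ)| ≤ δ * n
    · left
      refine hfr.mono ?_
      intro n hn
      refine ⟨_, ?_, hap n⟩
      refine Finset.mem_image.mpr ⟨⌊2 ^ n * x⌋₊, Finset.mem_filter.mpr ⟨?_, hn⟩, rfl⟩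
      exact Finset.mem_range.mpr (G0_approx hx0 hx1 n).1
    · right
      rw [not_frequently] at hfr
      refine Eventually.frequently ?_
      refine hfr.mono ?_
      intro n hn
      rw [not_le] at hn
      refine ⟨_, ?_, hap n⟩
      refine Finset.mem_image.mpr ⟨⌊2 ^ n * x⌋₊, Finset.mem_filter.mpr ⟨?_, hn⟩, rfl⟩
      exact Finset.mem_range.mpr (G0_approx hx0 hx1 n).1
  have hdim : dimH (Set.Icc (0 : ℝ) (2 / 3)) = 1 := by
    have h1 := Real.dimH_of_nonempty_interior (E := ℝ) (s := Set.Icc (0 : ℝ) (2 / 3)) (by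
      rw [interior_Icc]
      exact ⟨1 / 3, by constructor <;> norm_num⟩)
    rw [h1]
    simp
  have h2 : dimH (Set.Icc (0 : ℝ) (2 / 3)) ≤ max (dimH T1) (dimH T2) := by
    rw [← dimH_union]
    exact dimH_mono hcov
  rw [hdim] at h2
  have h3 : max (dimH T1) (dimH T2) < 1 := by
    refine max_lt (d1.trans_lt ?_) (d2.trans_lt ?_)
    · rw [ENNReal.ofReal_lt_one]; exact ha1
    · rw [ENNReal.ofReal_lt_one]; exact hb1
  exact absurd (h2.trans_lt h3) (lt_irrefl _)

end H8TAK
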