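import Pool.Agent.H8.TAK.Base
import Pool.Agent.H8.TAK.Dim

/-!
# Lower bound of the dimension spectrum of the Takagi function

Concatenations of balanced blocks of length `2 m` realise product structures: the ordinates
are indexed by sequences of elements of `NN m α`, and each level set contains a Cantor set of
dimension at least `α`.
-/

namespace H8TAK

open Filter

/-- The real number with the digits `a i` in base `B`. -/
noncomputable def lbDig (B : ℝ) (a : ℕ → ℝ) : ℝ := ∑' i : ℕ, a i / B ^ (i + 1)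

private theorem lb_summable {B : ℝ} (hB : 1 < B) {a : ℕ → ℝ} {A : ℝ} (hA : ∀ i, |a i| ≤ A) :
    Summable (fun i : ℕ => a i / B ^ (i + 1)) := by
  have hB0 : 0 < B := by linarith
  refine Summable.of_norm_bounded (g := fun i : ℕ => A * (B⁻¹ ^ (i + 1))) ?_ ?_
  · apply Summable.mul_left
    exact (summable_nat_add_iff 1).2
      (summable_geometric_of_lt_one (inv_nonneg.2 hB0.le) (inv_lt_one_of_one_lt₀ hB))
  · intro i
    rw [Real.norm_eq_abs, abs_div, abs_of_pos (pow_pos hB0 _), div_eq_mul_inv, inv_pow]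
    exact mul_le_mul_of_nonneg_right (hA i) (inv_nonneg.2 (pow_nonneg hB0.le _))

private theorem lb_succ {B : ℝ} (hB : 1 < B) {a : ℕ → ℝ} {A : ℝ} (hA : ∀ i, |a i| ≤ A) :
    lbDig B a = (a 0 + lbDig B (fun i => a (i + 1))) / B := by
  rw [lbDig, (lb_summable hB hA).tsum_eq_zero_add, lbDig, add_div, ← tsum_div_const]
  congr 1
  · rw [zero_add, pow_one]
  · apply tsum_congr
    intro i
    rw [div_div, pow_succ B (i + 1)]

private theorem lb_const {B : ℝ} (hB : 1 < B) (d : ℝ) :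
    lbDig B (fun _ => d) = d / (B - 1) := by
  have h := lb_succ hB (a := fun _ => d) (A := |d|) (fun _ => le_rfl)
  have hB0 : B ≠ 0 := by linarith
  have hB1 : B - 1 ≠ 0 := by linarith
  rw [eq_div_iff hB0] at h
  rw [eq_div_iff hB1]
  linarith

private theorem lb_mono {B : ℝ} (hB : 1 < B) {a b : ℕ → ℝ} {A A' : ℝ} (hA : ∀ i, |a i| ≤ A)
    (hA' : ∀ i, |b i| ≤ A') (h : ∀ i, a i ≤ b i) : lbDig B a ≤ lbDig B b := by
  have hB0 : 0 < B := by linarith
  exact Summable.tsum_le_tsum (fun i => div_le_div_of_nonneg_right (h i) (pow_pos hB0 _).le)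
    (lb_summable hB hA) (lb_summable hB hA')

private theorem lb_diff {B : ℝ} (hB : 1 < B) {A : ℝ} : ∀ (i : ℕ) (a a' : ℕ → ℝ),
    (∀ i, |a i| ≤ A) → (∀ i, |a' i| ≤ A) → (∀ j < i, a j = a' j) →
    lbDig B a - lbDig B a' =
      (lbDig B (fun n => a (n + i)) - lbDig B (fun n => a' (n + i))) / B ^ i := by
  intro i
  induction i with
  | zero =>
    intro a a' _ _ _
    simp only [add_zero, pow_zero, div_one]
  | succ i ih =>
    intro a a' hA hA' h
    rw [lb_succ hB hA, lb_succ hB hA', h 0 (Nat.succ_pos i)]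
    have h2 := ih (fun n => a (n + 1)) (fun n => a' (n + 1)) (fun j => hA (j + 1))
      (fun j => hA' (j + 1)) (fun j hj => h (j + 1) (Nat.succ_lt_succ hj))
    have e1 : (fun n => a (n + i + 1)) = fun n => a (n + (i + 1)) := rfl
    have e2 : (fun n => a' (n + i + 1)) = fun n => a' (n + (i + 1)) := rfl
    simp only [e1, e2] at h2
    have hB0 : B ≠ 0 := by linarith
    have h3 : (a' 0 + lbDig B fun i => a (i + 1)) / B - (a' 0 + lbDig B fun i => a' (i + 1)) / B =
        (lbDig B (fun i => a (i + 1)) - lbDig B (fun i => a' (i + 1))) / B := by ring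
    rw [h3, h2, pow_succ, div_div]

private theorem lb_sep {B : ℝ} (hB : 1 < B) {A δ : ℝ} (i : ℕ) (a a' : ℕ → ℝ)
    (hA : ∀ i, |a i| ≤ A) (hA' : ∀ i, |a' i| ≤ A) (heq : ∀ j < i, a j = a' j)
    (hne : 1 ≤ |a i - a' i|)
    (htail : |lbDig B (fun n => a (n + 1 + i)) - lbDig B (fun n => a' (n + 1 + i))| ≤ 1 - δ) :
    δ / B / B ^ i ≤ |lbDig B a - lbDig B a'| := by
  have hB0 : 0 < B := by linarith
  rw [lb_diff hB i a a' hA hA' heq,
    lb_succ hB (a := fun n => a (n + i)) (fun j => hA (j + i)),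
    lb_succ hB (a := fun n => a' (n + i)) (fun j => hA' (j + i)), abs_div,
    abs_of_pos (pow_pos hB0 i)]
  apply div_le_div_of_nonneg_right _ (pow_pos hB0 i).le
  rw [← sub_div, abs_div, abs_of_pos hB0]
  apply div_le_div_of_nonneg_right _ hB0.le
  simp only [zero_add]
  have h1 : a i + lbDig B (fun n => a (n + 1 + i)) - (a' i + lbDig B (fun n => a' (n + 1 + i))) =
      (a i - a' i) + (lbDig B (fun n => a (n + 1 + i)) - lbDig B (fun n => a' (n + 1 + i))) := by
    ring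
  rw [h1]
  have h2 := abs_sub_abs_le_abs_add (a i - a' i)
    (lbDig B (fun n => a (n + 1 + i)) - lbDig B (fun n => a' (n + 1 + i)))
  linarith

/-! ## Balanced blocks -/

private theorem lb_dd_zero (n : ℕ) : dd n 0 = n := by
  induction n with
  | zero => rfl
  | succ n ih =>
    rw [dd, Nat.zero_div, ih, Nat.zero_mod]
    push_cast
    ring

private theorem lb_bal {m k : ℕ} (hm : 1 ≤ m) (hk : k < 2 ^ (2 * m)) (hd : dd (2 * m) k = 0) :
    1 ≤ k ∧ k + 2 ≤ 2 ^ (2 * m) := by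
  constructor
  · rcases Nat.eq_zero_or_pos k with h | h
    · exfalso
      rw [h, lb_dd_zero] at hd
      have : (2 * m : ℕ) = 0 := by exact_mod_cast hd
      omega
    · exact h
  · by_contra h
    have h1 : k = 2 ^ (2 * m) - 1 - 0 := by omega
    rw [h1, dd_compl (2 * m) 0 (by positivity), lb_dd_zero] at hd
    have h2 : ((2 * m : ℕ) : ℤ) = 0 := by linarith
    have : (2 * m : ℕ) = 0 := by exact_mod_cast h2
    omega

/-- sequences of balanced blocks -/
private def LbValid (m : ℕ) (k : ℕ → ℕ) : Prop :=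
  ∀ i, k i < 2 ^ (2 * m) ∧ dd (2 * m) (k i) = 0

private theorem lb_B {m : ℕ} (hm : 1 ≤ m) : (4 : ℝ) ≤ 2 ^ (2 * m) := by
  calc (4 : ℝ) = 2 ^ 2 := by norm_num
    _ ≤ 2 ^ (2 * m) := pow_le_pow_right₀ (by norm_num) (by omega)

private theorem lb_k_abs {m : ℕ} {k : ℕ → ℕ} (hk : LbValid m k) (i : ℕ) :
    |((k i : ℕ) : ℝ)| ≤ 2 ^ (2 * m) := by
  rw [abs_of_nonneg (Nat.cast_nonneg _)]
  exact_mod_cast (hk i).1.le

private theorem lb_s_abs (m : ℕ) (k : ℕ) : |((ss (2 * m) k : ℤ) : ℝ)| ≤ 2 ^ (2 * m) := by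
  have h1 : (0 : ℝ) ≤ (ss (2 * m) k : ℝ) := by exact_mod_cast ss_nonneg (2 * m) k
  have h2 : 3 * ((ss (2 * m) k : ℤ) : ℝ) ≤ 2 * 2 ^ (2 * m) := by exact_mod_cast ss_le (2 * m) k
  rw [abs_of_nonneg h1]
  have h3 : (0 : ℝ) < 2 ^ (2 * m) := by positivity
  linarith

private theorem lb_k_low {m : ℕ} (hm : 1 ≤ m) {k : ℕ → ℕ} (hk : LbValid m k) :
    1 / (2 ^ (2 * m) - 1) ≤ lbDig (2 ^ (2 * m)) (fun i => (k i : ℝ)) := by
  have hB : (1 : ℝ) < 2 ^ (2 * m) := by linarith [lb_B hm]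
  rw [← lb_const hB 1]
  apply lb_mono hB (A := 1) (A' := 2 ^ (2 * m))
  · intro i; norm_num
  · exact lb_k_abs hk
  · intro i
    exact_mod_cast (lb_bal hm (hk i).1 (hk i).2).1

private theorem lb_k_upp {m : ℕ} (hm : 1 ≤ m) {k : ℕ → ℕ} (hk : LbValid m k) :
    lbDig (2 ^ (2 * m)) (fun i => (k i : ℝ)) ≤ (2 ^ (2 * m) - 2) / (2 ^ (2 * m) - 1) := by
  have hB : (1 : ℝ) < 2 ^ (2 * m) := by linarith [lb_B hm]
  rw [← lb_const hB (2 ^ (2 * m) - 2)]
  apply lb_mono hB (A := 2 ^ (2 * m)) (A' := |2 ^ (2 * m) - 2|)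
  · exact lb_k_abs hk
  · intro i; exact le_rfl
  · intro i
    have h := (lb_bal hm (hk i).1 (hk i).2).2
    have h' : ((k i : ℕ) : ℝ) + 2 ≤ 2 ^ (2 * m) := by exact_mod_cast h
    linarith

private theorem lb_k_nonneg {m : ℕ} (hm : 1 ≤ m) {k : ℕ → ℕ} (hk : LbValid m k) :
    0 ≤ lbDig (2 ^ (2 * m)) (fun i => (k i : ℝ)) := by
  refine le_trans ?_ (lb_k_low hm hk)
  have := lb_B hm
  apply div_nonneg zero_le_one
  linarith

private theorem lb_k_le_one {m : ℕ} (hm : 1 ≤ m) {k : ℕ → ℕ} (hk : LbValid m k) :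
    lbDig (2 ^ (2 * m)) (fun i => (k i : ℝ)) ≤ 1 := by
  refine le_trans (lb_k_upp hm hk) ?_
  have := lb_B hm
  rw [div_le_one (by linarith)]
  linarith

private theorem lb_shift {m : ℕ} {k : ℕ → ℕ} (hk : LbValid m k) (j : ℕ) :
    LbValid m (fun i => k (i + j)) := fun i => hk (i + j)

/-- The Takagi function maps a concatenation of balanced blocks to the concatenation of their
values. -/
private theorem lb_takagi {m : ℕ} (hm : 1 ≤ m) {k : ℕ → ℕ} (hk : LbValid m k) :
    takagi (lbDig (2 ^ (2 * m)) (fun i => (k i : ℝ))) =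
      lbDig (2 ^ (2 * m)) (fun i => (ss (2 * m) (k i) : ℝ)) := by
  have hB4 := lb_B hm
  have hB : (1 : ℝ) < 2 ^ (2 * m) := by linarith
  have hB0 : (0 : ℝ) < 2 ^ (2 * m) := by linarith
  have key : ∀ (n : ℕ) (k : ℕ → ℕ), LbValid m k →
      |takagi (lbDig (2 ^ (2 * m)) (fun i => (k i : ℝ))) -
        lbDig (2 ^ (2 * m)) (fun i => (ss (2 * m) (k i) : ℝ))| ≤ 3 / 2 ^ n := by
    intro n
    induction n with
    | zero =>
      intro k hk
      have h1 := takagi_nonneg (lbDig (2 ^ (2 * m)) (fun i => (k i : ℝ)))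
      have h2 := takagi_le (lbDig (2 ^ (2 * m)) (fun i => (k i : ℝ)))
      have h3 : 0 ≤ lbDig (2 ^ (2 * m)) (fun i => (ss (2 * m) (k i) : ℝ)) := by
        have := lb_mono hB (a := fun _ => 0) (b := fun i => (ss (2 * m) (k i) : ℝ)) (A := 0)
          (A' := 2 ^ (2 * m)) (fun i => by norm_num) (fun i => lb_s_abs m (k i))
          (fun i => by exact_mod_cast ss_nonneg (2 * m) (k i))
        rw [lb_const hB, zero_div] at this
        exact this
      have h4 : lbDig (2 ^ (2 * m)) (fun i => (ss (2 * m) (k i) : ℝ)) ≤ 2 := by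
        have := lb_mono hB (a := fun i => (ss (2 * m) (k i) : ℝ)) (b := fun _ => 2 ^ (2 * m))
          (A := 2 ^ (2 * m)) (A' := |2 ^ (2 * m)|) (fun i => lb_s_abs m (k i))
          (fun i => le_rfl) (fun i => le_trans (le_abs_self _) (lb_s_abs m (k i)))
        rw [lb_const hB] at this
        refine le_trans this ?_
        rw [div_le_iff₀ (by linarith)]
        linarith
      rw [pow_zero, div_one, abs_le]
      constructor <;> linarith
    | succ n ih =>
      intro k hk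
      have h1 := ih (fun i => k (i + 1)) (lb_shift hk 1)
      have e1 := lb_succ hB (a := fun i => (k i : ℝ)) (lb_k_abs hk)
      have e2 := lb_succ hB (a := fun i => (ss (2 * m) (k i) : ℝ)) (fun i => lb_s_abs m (k i))
      have h0 := lb_k_nonneg hm (lb_shift hk 1)
      have h0' := lb_k_le_one hm (lb_shift hk 1)
      have e3 := takagi_affine (2 * m) (k 0) h0 h0'
      rw [e1, e2]
      beta_reduce
      rw [e3, (hk 0).2, ← sub_div, abs_div, abs_of_pos hB0]
      have e4 : (ss (2 * m) (k 0) : ℝ) +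
          takagi (lbDig (2 ^ (2 * m)) fun i => ((k (i + 1) : ℕ) : ℝ)) +
          ((0 : ℤ) : ℝ) * (lbDig (2 ^ (2 * m)) fun i => ((k (i + 1) : ℕ) : ℝ)) -
          ((ss (2 * m) (k 0) : ℝ) +
            lbDig (2 ^ (2 * m)) fun i => (ss (2 * m) (k (i + 1)) : ℝ)) =
          takagi (lbDig (2 ^ (2 * m)) fun i => ((k (i + 1) : ℕ) : ℝ)) -
            lbDig (2 ^ (2 * m)) fun i => (ss (2 * m) (k (i + 1)) : ℝ) := by
        push_cast
        ring
      rw [e4, div_le_iff₀ hB0]
      refine le_trans h1 ?_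
      rw [pow_succ, div_mul_eq_mul_div, div_le_div_iff₀ (by positivity) (by positivity)]
      have hp : (0 : ℝ) < 2 ^ n := by positivity
      nlinarith
  have hlim : Tendsto (fun n : ℕ => (3 : ℝ) / 2 ^ n) atTop (nhds 0) := by
    have := (tendsto_pow_atTop_nhds_zero_of_lt_one (r := (2 : ℝ)⁻¹) (by norm_num)
      (by norm_num)).const_mul 3
    rw [mul_zero] at this
    refine this.congr fun n => ?_
    rw [inv_pow, div_eq_mul_inv]
  have h := ge_of_tendsto' hlim (fun n => key n k hk)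
  have h2 := abs_nonpos_iff.1 h
  linarith

private theorem lb_k_sep {m : ℕ} (hm : 1 ≤ m) {k k' : ℕ → ℕ} (hk : LbValid m k)
    (hk' : LbValid m k') (i : ℕ) (heq : ∀ j < i, k j = k' j) (hne : k i ≠ k' i) :
    2 / 2 ^ (2 * m) / 2 ^ (2 * m) / (2 ^ (2 * m)) ^ i ≤
      |lbDig (2 ^ (2 * m)) (fun i => (k i : ℝ)) - lbDig (2 ^ (2 * m)) (fun i => (k' i : ℝ))| := by
  have hB4 := lb_B hm
  have hB : (1 : ℝ) < 2 ^ (2 * m) := by linarith
  apply lb_sep hB (A := 2 ^ (2 * m)) (δ := 2 / 2 ^ (2 * m)) i (fun i => (k i : ℝ))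
    (fun i => (k' i : ℝ)) (lb_k_abs hk) (lb_k_abs hk')
  · intro j hj
    rw [heq j hj]
  · have h : ((k i : ℕ) : ℤ) - ((k' i : ℕ) : ℤ) ≠ 0 := by
      intro h0
      exact hne (by exact_mod_cast sub_eq_zero.1 h0)
    have h2 := Int.one_le_abs h
    have h3 : ((1 : ℤ) : ℝ) ≤ ((|((k i : ℕ) : ℤ) - ((k' i : ℕ) : ℤ)| : ℤ) : ℝ) := by
      exact_mod_cast h2
    push_cast at h3
    exact h3
  · have a1 := lb_k_low hm (lb_shift (lb_shift hk i) 1)
    have a2 := lb_k_upp hm (lb_shift (lb_shift hk i) 1)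
    have b1 := lb_k_low hm (lb_shift (lb_shift hk' i) 1)
    have b2 := lb_k_upp hm (lb_shift (lb_shift hk' i) 1)
    have hB1 : (0 : ℝ) < 2 ^ (2 * m) - 1 := by linarith
    have e : (2 ^ (2 * m) - 2 : ℝ) / (2 ^ (2 * m) - 1) = 1 - 1 / (2 ^ (2 * m) - 1) := by
      field_simp
      ring
    have e2 : (1 : ℝ) / 2 ^ (2 * m) ≤ 1 / (2 ^ (2 * m) - 1) :=
      one_div_le_one_div_of_le hB1 (by linarith)
    have e3 : (2 : ℝ) / 2 ^ (2 * m) = 2 * (1 / 2 ^ (2 * m)) := by ring
    rw [e] at a2 b2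
    rw [e3, abs_le]
    constructor <;> linarith

/-- **Lower bound of the dimension spectrum.** -/
theorem le_spectrum {α : ℝ} (hα : 0 < α) {m : ℕ} (hm : 1 ≤ m) :
    ENNReal.ofReal (Real.logb 2 ((NN m α).card : ℝ) / (2 * m)) ≤ fTau α := by
  classical
  have hB4 := lb_B hm
  have hB : (1 : ℝ) < 2 ^ (2 * m) := by linarith
  have hB0 : (0 : ℝ) < 2 ^ (2 * m) := by linarith
  have hm0 : (0 : ℝ) < m := by exact_mod_cast hm
  have hlog2 : 0 < Real.log 2 := Real.log_pos one_lt_two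
  have hlogB : Real.log ((2 : ℝ) ^ (2 * m)) = 2 * m * Real.log 2 := by
    rw [Real.log_pow]
    push_cast
    ring
  by_cases hN : 2 ≤ (NN m α).card
  swap
  · have h1 : (NN m α).card = 0 ∨ (NN m α).card = 1 := by omega
    have h2 : Real.logb 2 ((NN m α).card : ℝ) = 0 := by
      rcases h1 with h | h
      · rw [h, Nat.cast_zero, Real.logb_zero]
      · rw [h, Nat.cast_one, Real.logb_one]
    rw [h2, zero_div, ENNReal.ofReal_zero]
    exact zero_le
  -- the multiplicity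
  set b : ℕ := ⌈(4 : ℝ) ^ (α * m)⌉₊ with hb
  have h4 : (1 : ℝ) < 4 ^ (α * m) := Real.one_lt_rpow (by norm_num) (mul_pos hα hm0)
  have hb2 : 2 ≤ b := by
    have : 1 < b := by
      rw [hb]
      exact Nat.lt_ceil.2 (by exact_mod_cast h4)
    omega
  have hdimα : α ≤ Real.log b / Real.log ((2 : ℝ) ^ (2 * m)) := by
    rw [hlogB, le_div_iff₀ (by positivity)]
    have h5 : (4 : ℝ) ^ (α * m) ≤ b := Nat.le_ceil _
    have h6 := Real.log_le_log (by positivity) h5
    rw [Real.log_rpow (by norm_num)] at h6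
    have h7 : Real.log 4 = 2 * Real.log 2 := by
      rw [show (4 : ℝ) = 2 ^ 2 by norm_num, Real.log_pow]
      norm_num
    rw [h7] at h6
    linarith
  -- the blocks
  have hK : ∀ S ∈ NN m α, ∃ K : Fin b → ℕ, Function.Injective K ∧
      ∀ j, K j < 2 ^ (2 * m) ∧ dd (2 * m) (K j) = 0 ∧ ss (2 * m) (K j) = S := by
    intro S hS
    rw [NN, Finset.mem_filter] at hS
    have hcard : b ≤ ((Finset.range (2 ^ (2 * m))).filter
        (fun k => ss (2 * m) k = S ∧ dd (2 * m) k = 0)).card := by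
      rw [hb]
      exact Nat.ceil_le.2 hS.2
    refine ⟨fun j => ((((Finset.range (2 ^ (2 * m))).filter
        (fun k => ss (2 * m) k = S ∧ dd (2 * m) k = 0)).equivFin.symm (Fin.castLE hcard j) :
        {x // x ∈ (Finset.range (2 ^ (2 * m))).filter
        (fun k => ss (2 * m) k = S ∧ dd (2 * m) k = 0)}) : ℕ), ?_, ?_⟩
    · intro j j' h
      exact Fin.castLE_injective hcard (Equiv.injective _ (Subtype.ext h))
    · intro j
      have h := (((Finset.range (2 ^ (2 * m))).filter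
        (fun k => ss (2 * m) k = S ∧ dd (2 * m) k = 0)).equivFin.symm
          (Fin.castLE hcard j)).2
      rw [Finset.mem_filter, Finset.mem_range] at h
      exact ⟨h.1, h.2.2, h.2.1⟩
  choose K hKinj hKprop using hK
  -- enumeration of the ordinates
  set N : ℕ := (NN m α).card with hNdef
  let s : Fin N → {x // x ∈ NN m α} := (NN m α).equivFin.symm
  have hs : Function.Injective s := Equiv.injective _
  let Y : (ℕ → Fin N) → ℝ := fun w => lbDig (2 ^ (2 * m)) (fun i => (((s (w i) : ℤ)) : ℝ))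
  let X : (ℕ → Fin N) → (ℕ → Fin b) → ℝ := fun w v =>
    lbDig (2 ^ (2 * m)) (fun i => ((K (s (w i)) (s (w i)).2 (v i) : ℕ) : ℝ))
  have hval : ∀ (w : ℕ → Fin N) (v : ℕ → Fin b),
      LbValid m (fun i => K (s (w i)) (s (w i)).2 (v i)) := fun w v i =>
    ⟨(hKprop (s (w i)) (s (w i)).2 (v i)).1, (hKprop (s (w i)) (s (w i)).2 (v i)).2.1⟩
  have hXY : ∀ w v, takagi (X w v) = Y w := by
    intro w v
    have h := lb_takagi hm (hval w v)
    simp only [(hKprop _ _ _).2.2] at h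
    exact h
  have hY0 : ∀ w, Y w ∈ Set.Icc (0 : ℝ) (2 / 3) := by
    intro w
    rw [← hXY w (fun _ => ⟨0, by omega⟩)]
    exact ⟨takagi_nonneg _, takagi_le _⟩
  have hrange : Set.range Y ⊆ {y : ℝ | y ∈ Set.Icc (0 : ℝ) (2 / 3) ∧
      ENNReal.ofReal α ≤ dimH (levelSet y)} := by
    rintro _ ⟨w, rfl⟩
    refine ⟨hY0 w, ?_⟩
    have h1 : ENNReal.ofReal (Real.log b / Real.log ((2 : ℝ) ^ (2 * m))) ≤
        dimH (Set.range (X w)) := by
      apply dimH_ge_of_sep hb2 (c := 2 / 2 ^ (2 * m) / 2 ^ (2 * m)) hB (by positivity)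
      intro v v' i hi hne
      apply lb_k_sep hm (hval w v) (hval w v') i
      · intro j hj
        simp only [hi j hj]
      · intro h
        exact hne (hKinj _ _ h)
    refine le_trans (ENNReal.ofReal_le_ofReal hdimα) (le_trans h1 (dimH_mono ?_))
    rintro _ ⟨v, rfl⟩
    exact ⟨⟨lb_k_nonneg hm (hval w v), lb_k_le_one hm (hval w v)⟩, hXY w v⟩
  have hdimY : ENNReal.ofReal (Real.log N / Real.log ((2 : ℝ) ^ (2 * m))) ≤
      dimH (Set.range Y) := by
    apply dimH_ge_of_sep hN (c := 1 / 3 / 2 ^ (2 * m)) hB (by positivity)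
    intro w w' i hi hne
    have habs : ∀ (w : ℕ → Fin N) (i : ℕ), |(((s (w i) : ℤ)) : ℝ)| ≤ 2 ^ (2 * m) := by
      intro w i
      have h := lb_s_abs m (K (s (w i)) (s (w i)).2 ⟨0, by omega⟩)
      rw [(hKprop _ _ _).2.2] at h
      exact h
    apply lb_sep hB (A := 2 ^ (2 * m)) (δ := 1 / 3) i (fun i => (((s (w i) : ℤ)) : ℝ))
      (fun i => (((s (w' i) : ℤ)) : ℝ)) (habs w) (habs w')
    · intro j hj
      simp only [hi j hj]
    · have h : ((s (w i) : ℤ)) - ((s (w' i) : ℤ)) ≠ 0 := by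
        intro h0
        exact hne (hs (Subtype.ext (sub_eq_zero.1 h0)))
      have h2 := Int.one_le_abs h
      have h3 : ((1 : ℤ) : ℝ) ≤ ((|((s (w i) : ℤ)) - ((s (w' i) : ℤ))| : ℤ) : ℝ) := by
        exact_mod_cast h2
      push_cast at h3
      exact h3
    · have h1 := hY0 (fun n => w (n + 1 + i))
      have h2 := hY0 (fun n => w' (n + 1 + i))
      rw [abs_le]
      constructor
      · linarith [h1.1, h2.2]
      · linarith [h1.2, h2.1]
  have hfin : Real.logb 2 (N : ℝ) / (2 * m) = Real.log N / Real.log ((2 : ℝ) ^ (2 * m)) := by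
    rw [hlogB, Real.logb, div_div, mul_comm (Real.log 2)]
  rw [hfin, fTau]
  exact le_trans hdimY (dimH_mono hrange)

end H8TAK
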