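import Pool.Agent.H8.TAK.LadderC

/-!
# Multiplicities near the maximal growth rate
-/

namespace H8TAK

theorem WW_mono {θ : ℝ} (h : 1 ≤ θ) : ∀ (n d : ℕ) (R : ℤ), WW 1 n d R ≤ WW θ n d R
  | 0, 0, R => by simp [WW]
  | 0, _ + 1, _ => by simp [WW]
  | 1, 0, _ => by simp [WW]
  | n + 2, 0, R => by
    have h1 := WW_mono h n 0 (R - 2 ^ (n + 1))
    have h2 := WW_mono h n 2 R
    have h3 := WW_nonneg (θ := θ) (by linarith) n 2 R
    have h4 : (1 : ℝ) ≤ θ ^ 2 := one_le_pow₀ h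
    simp only [WW]
    nlinarith
  | n + 1, d + 1, R => by
    have h1 := WW_mono h n (d + 2) R
    have h2 := WW_mono h n d (R - 2 ^ n * (d + 2))
    have h3 := WW_nonneg (θ := θ) (by linarith) n (d + 2) R
    have h4 := WW_nonneg (θ := θ) (by linarith) n d (R - 2 ^ n * (d + 2))
    simp only [WW]
    nlinarith

theorem MM_le (m : ℕ) (S : ℤ) : (MM (2 * m) S 0 : ℝ) ≤ 2 ^ m := by
  rw [MM_eq_WW]
  exact (WW_mono (by norm_num) _ _ _).trans (WW_le m S)

end H8TAK
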