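import Pool.Agent.H8.TAK.Defs

/-!
# Weighted multiplicities: the bound at the weight `21/20`

With `s = √2` and `c = (21/20) / √2` one has `WW (21/20) n d R ≤ c ^ d * s ^ n`.  The proof is by
strong induction on `n`; if both children of a state are nonzero, the support bound `WW_support`
forces the next steps of one of them.
-/

namespace H8TAK

/-- Weighted number of suffixes of length `n` which lead from height `d` to height `0` and add
`R`; every step outside a ground level excursion of length two has weight `θ`. -/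
noncomputable def WW (θ : ℝ) : ℕ → ℕ → ℤ → ℝ
  | 0, 0, R => if R = 0 then 1 else 0
  | 0, _ + 1, _ => 0
  | 1, 0, _ => 0
  | n + 2, 0, R => 2 * WW θ n 0 (R - 2 ^ (n + 1)) + 2 * θ ^ 2 * WW θ n 2 R
  | n + 1, d + 1, R => θ * WW θ n (d + 2) R + θ * WW θ n d (R - 2 ^ n * (d + 2))

theorem WW_zero_succ (θ : ℝ) (d : ℕ) (R : ℤ) : WW θ 0 (d + 1) R = 0 := by simp [WW]

theorem WW_one_zero (θ : ℝ) (R : ℤ) : WW θ 1 0 R = 0 := by simp [WW]

theorem WW_add_two_zero (θ : ℝ) (n : ℕ) (R : ℤ) : WW θ (n + 2) 0 R =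
    2 * WW θ n 0 (R - 2 ^ (n + 1)) + 2 * θ ^ 2 * WW θ n 2 R := by
  rw [WW]

theorem WW_succ_succ (θ : ℝ) (n d : ℕ) (R : ℤ) : WW θ (n + 1) (d + 1) R =
    θ * WW θ n (d + 2) R + θ * WW θ n d (R - 2 ^ n * (d + 2)) := by
  rw [WW]

theorem WW_support (θ : ℝ) : ∀ (n d : ℕ) (R : ℤ), WW θ n d R ≠ 0 →
    0 ≤ R ∧ 3 * 2 ^ d * R ≤ 2 ^ n * (3 * 2 ^ d * (d : ℤ) + 2)
  | 0, 0, R => by
    intro h
    have : R = 0 := by
      by_contra h0
      exact h (by simp [WW, h0])
    subst this
    norm_num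
  | 0, d + 1, R => fun h => absurd (WW_zero_succ θ d R) h
  | 1, 0, R => fun h => absurd (WW_one_zero θ R) h
  | n + 2, 0, R => by
    intro h
    rw [WW_add_two_zero] at h
    have hp : (0 : ℤ) < 2 ^ n := by positivity
    by_cases h1 : WW θ n 0 (R - 2 ^ (n + 1)) = 0
    · have h2 : WW θ n 2 R ≠ 0 := by
        intro h2
        rw [h1, h2] at h
        simp at h
      obtain ⟨h3, h4⟩ := WW_support θ n 2 R h2
      refine ⟨h3, ?_⟩
      push_cast at h4 ⊢
      have e : (2 : ℤ) ^ (n + 2) = 4 * 2 ^ n := by ring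
      rw [e]
      nlinarith
    · obtain ⟨h3, h4⟩ := WW_support θ n 0 _ h1
      have e1 : (2 : ℤ) ^ (n + 1) = 2 * 2 ^ n := by ring
      have e : (2 : ℤ) ^ (n + 2) = 4 * 2 ^ n := by ring
      rw [e1] at h3 h4
      rw [e]
      push_cast at h4 ⊢
      constructor
      · linarith
      · nlinarith
  | n + 1, d + 1, R => by
    intro h
    rw [WW_succ_succ] at h
    have hp : (0 : ℤ) < 2 ^ n := by positivity
    have hd : (0 : ℤ) < 2 ^ d := by positivity
    have e1 : (2 : ℤ) ^ (n + 1) = 2 * 2 ^ n := by ring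
    have e2 : (2 : ℤ) ^ (d + 1) = 2 * 2 ^ d := by ring
    have e3 : (2 : ℤ) ^ (d + 2) = 4 * 2 ^ d := by ring
    have hd0 : (0 : ℤ) ≤ d := by positivity
    by_cases h1 : WW θ n (d + 2) R = 0
    · have h2 : WW θ n d (R - 2 ^ n * (d + 2)) ≠ 0 := by
        intro h2
        rw [h1, h2] at h
        simp at h
      obtain ⟨h3, h4⟩ := WW_support θ n d _ h2
      rw [e1, e2]
      push_cast
      constructor
      · have : 0 ≤ (2 : ℤ) ^ n * (d + 2) := by positivity
        linarith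
      · linear_combination 2 * h4
    · obtain ⟨h3, h4⟩ := WW_support θ n (d + 2) _ h1
      refine ⟨h3, ?_⟩
      rw [e3] at h4
      rw [e1, e2]
      push_cast at h4 ⊢
      have h5 : 0 ≤ (2 : ℤ) ^ n * (2 ^ d * d) := by positivity
      have h6 : (2 : ℤ) ^ n * 2 ^ d * 1 ≤ 2 ^ n * 2 ^ d * (2 ^ d) := by
        gcongr
        exact one_le_pow₀ (by norm_num)
      nlinarith

theorem WW_nonneg {θ : ℝ} (hθ : 0 ≤ θ) : ∀ (n d : ℕ) (R : ℤ), 0 ≤ WW θ n d R
  | 0, 0, R => by
    by_cases h : R = 0 <;> simp [WW, h]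
  | 0, d + 1, R => (WW_zero_succ θ d R).ge
  | 1, 0, R => (WW_one_zero θ R).ge
  | n + 2, 0, R => by
    rw [WW_add_two_zero]
    have h1 := WW_nonneg hθ n 0 (R - 2 ^ (n + 1))
    have h2 := WW_nonneg hθ n 2 R
    positivity
  | n + 1, d + 1, R => by
    rw [WW_succ_succ]
    have h1 := WW_nonneg hθ n (d + 2) R
    have h2 := WW_nonneg hθ n d (R - 2 ^ n * (d + 2))
    positivity

theorem WW_neg (θ : ℝ) (n d : ℕ) {R : ℤ} (hR : R < 0) : WW θ n d R = 0 := by
  by_contra h
  exact absurd (WW_support θ n d R h).1 (not_le.2 hR)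

/-- Two forced steps up from a positive height. -/
theorem WW_forced (θ : ℝ) (k d : ℕ) {R : ℤ} (hR : 6 * 2 ^ d * R ≤ 2 ^ (k + 2)) :
    WW θ (k + 2) (d + 1) R = θ ^ 2 * WW θ k (d + 3) R := by
  have hp : (0 : ℤ) < 2 ^ k := by positivity
  have hd : (1 : ℤ) ≤ 2 ^ d := one_le_pow₀ (by norm_num)
  have e1 : (2 : ℤ) ^ (k + 2) = 4 * 2 ^ k := by ring
  have e2 : (2 : ℤ) ^ (k + 1) = 2 * 2 ^ k := by ring
  rw [e1] at hR
  have hd0 : (0 : ℤ) ≤ d := by positivity
  have hR' : R < 2 ^ k := by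
    by_contra hc
    push Not at hc
    have : 6 * (2 : ℤ) ^ k ≤ 6 * 2 ^ d * R := by nlinarith
    linarith
  have h1 : WW θ (k + 1) d (R - 2 ^ (k + 1) * (d + 2)) = 0 := by
    apply WW_neg
    rw [e2]
    nlinarith
  have h2 : WW θ k (d + 1) (R - 2 ^ k * ((d + 1 : ℕ) + 2)) = 0 := by
    apply WW_neg
    push_cast
    nlinarith
  rw [show k + 2 = (k + 1) + 1 from rfl, WW_succ_succ, h1, show d + 2 = (d + 1) + 1 from rfl,
    WW_succ_succ, h2]
  ring

/-- Three forced steps up from the ground. -/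
theorem WW_forced_zero (θ : ℝ) (k : ℕ) {R : ℤ} (hR : 6 * R ≤ 2 ^ (k + 3)) :
    WW θ (k + 3) 0 R = 2 * θ ^ 3 * WW θ k 3 R := by
  have hp : (0 : ℤ) < 2 ^ k := by positivity
  have e1 : (2 : ℤ) ^ (k + 3) = 8 * 2 ^ k := by ring
  have e2 : (2 : ℤ) ^ (k + 1 + 1) = 4 * 2 ^ k := by ring
  rw [e1] at hR
  have h1 : WW θ (k + 1) 0 (R - 2 ^ (k + 1 + 1)) = 0 := by
    apply WW_neg
    rw [e2]
    linarith
  have h2 : WW θ k 1 (R - 2 ^ k * ((1 : ℕ) + 2)) = 0 := by
    apply WW_neg
    push_cast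
    linarith
  rw [show k + 3 = (k + 1) + 2 from rfl, WW_add_two_zero, h1, show 2 = 1 + 1 from rfl,
    WW_succ_succ, h2]
  ring

/-- The bound, with `s = √2` and `θ = c s`. -/
theorem WW_bound {c s θ : ℝ} (hc : 0 < c) (hs : 0 < s) (hs2 : s ^ 2 = 2) (hθ : θ = c * s)
    (hc1 : 2 * c ^ 6 + 2 * c ^ 4 ≤ 1) (hc2 : c ^ 2 + 2 * c ^ 6 ≤ 1) (hc3 : c ^ 2 + c ^ 4 ≤ 1) :
    ∀ (n d : ℕ) (R : ℤ), WW θ n d R ≤ c ^ d * s ^ n := by
  have hθ0 : 0 ≤ θ := by rw [hθ]; positivity
  have hnn := WW_nonneg hθ0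
  intro n
  induction n using Nat.strong_induction_on with
  | _ n ih =>
    intro d R
    match n, d, R, ih with
    | 0, 0, R, _ =>
      by_cases h : R = 0 <;> simp [WW, h]
    | 0, d + 1, R, _ =>
      rw [WW_zero_succ]
      positivity
    | 1, 0, R, _ =>
      rw [WW_one_zero]
      positivity
    | n + 2, 0, R, ih =>
      rw [WW_add_two_zero]
      have i1 := ih n (by omega) 0 (R - 2 ^ (n + 1))
      have i2 := ih n (by omega) 2 R
      have hsn : 0 < s ^ n := by positivity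
      have e0 : c ^ 0 * s ^ (n + 2) = 2 * s ^ n := by rw [pow_add, hs2]; ring
      have eθ : θ ^ 2 = 2 * c ^ 2 := by rw [hθ, mul_pow, hs2]; ring
      rw [e0, eθ]
      rw [pow_zero, one_mul] at i1
      have j2 : 2 * (2 * c ^ 2) * WW θ n 2 R ≤ 4 * c ^ 4 * s ^ n := by
        calc 2 * (2 * c ^ 2) * WW θ n 2 R ≤ 2 * (2 * c ^ 2) * (c ^ 2 * s ^ n) := by gcongr
          _ = 4 * c ^ 4 * s ^ n := by ring
      by_cases h1 : WW θ n 0 (R - 2 ^ (n + 1)) = 0
      · rw [h1]
        have : 0 ≤ c ^ 6 := by positivity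
        nlinarith
      · by_cases h2 : WW θ n 2 R = 0
        · rw [h2]
          linarith
        · obtain ⟨s1, -⟩ := WW_support θ n 0 _ h1
          obtain ⟨-, s2⟩ := WW_support θ n 2 _ h2
          have hp : (0 : ℤ) < 2 ^ n := by positivity
          have e1 : (2 : ℤ) ^ (n + 1) = 2 * 2 ^ n := by ring
          push_cast at s2
          have s3 : 6 * (R - 2 ^ (n + 1)) ≤ 2 ^ n := by
            rw [e1]
            linarith
          match n, h1, h2, s1, s3, i1, i2, j2, ih, hsn with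
          | 0, _, h2, _, _, _, _, _, _, _ => exact absurd (WW_zero_succ θ 1 R) h2
          | 1, h1, _, _, _, _, _, _, _, _ => exact absurd (WW_one_zero θ _) h1
          | 2, h1, _, s1, s3, _, _, _, _, _ =>
            exfalso
            apply h1
            rw [show (2 : ℕ) = 0 + 2 from rfl, WW_add_two_zero, WW_zero_succ, WW_neg]
            · ring
            · norm_num at s3 ⊢
              omega
          | k + 3, _, _, _, s3, _, _, j2, ih, hsn =>
            rw [WW_forced_zero θ k s3]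
            have i3 := ih k (by omega) 3 (R - 2 ^ (k + 3 + 1))
            have e3 : s ^ (k + 3) = s ^ 3 * s ^ k := by ring
            have eθ3 : θ ^ 3 = c ^ 3 * s ^ 3 := by rw [hθ]; ring
            have j1 : 2 * (2 * θ ^ 3 * WW θ k 3 (R - 2 ^ (k + 3 + 1))) ≤
                4 * c ^ 6 * s ^ (k + 3) := by
              calc 2 * (2 * θ ^ 3 * WW θ k 3 (R - 2 ^ (k + 3 + 1)))
                  ≤ 2 * (2 * θ ^ 3 * (c ^ 3 * s ^ k)) := by gcongr
                _ = 4 * c ^ 6 * s ^ (k + 3) := by rw [e3, eθ3]; ring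
            nlinarith
    | n + 1, d + 1, R, ih =>
      rw [WW_succ_succ]
      have i1 := ih n (by omega) (d + 2) R
      have i2 := ih n (by omega) d (R - 2 ^ n * (d + 2))
      have hsn : 0 < c ^ (d + 1) * s ^ (n + 1) := by positivity
      have j1 : θ * WW θ n (d + 2) R ≤ c ^ 2 * (c ^ (d + 1) * s ^ (n + 1)) := by
        calc θ * WW θ n (d + 2) R ≤ θ * (c ^ (d + 2) * s ^ n) := by gcongr
          _ = c ^ 2 * (c ^ (d + 1) * s ^ (n + 1)) := by rw [hθ]; ring
      have j2 : θ * WW θ n d (R - 2 ^ n * (d + 2)) ≤ c ^ (d + 1) * s ^ (n + 1) := by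
        calc θ * WW θ n d (R - 2 ^ n * (d + 2)) ≤ θ * (c ^ d * s ^ n) := by gcongr
          _ = c ^ (d + 1) * s ^ (n + 1) := by rw [hθ]; ring
      by_cases h1 : WW θ n (d + 2) R = 0
      · rw [h1]
        linarith
      · by_cases h2 : WW θ n d (R - 2 ^ n * (d + 2)) = 0
        · rw [h2]
          have : 0 ≤ c ^ 4 := by positivity
          nlinarith
        · obtain ⟨-, s1⟩ := WW_support θ n (d + 2) _ h1
          have hp : (0 : ℤ) < 2 ^ n := by positivity
          have e3 : (2 : ℤ) ^ (d + 2) = 4 * 2 ^ d := by ring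
          rw [e3] at s1
          push_cast at s1
          have s3 : 6 * 2 ^ d * (R - 2 ^ n * (d + 2)) ≤ 2 ^ n := by
            nlinarith
          match d, n, h1, h2, s3, j1, i2, ih, hsn with
          | 0, 0, h1, _, _, _, _, _, _ => exact absurd (WW_zero_succ θ 1 R) h1
          | 0, 1, _, h2, _, _, _, _, _ => exact absurd (WW_one_zero θ _) h2
          | 0, 2, _, h2, s3, _, _, _, _ =>
            exfalso
            apply h2
            rw [show (2 : ℕ) = 0 + 2 from rfl, WW_add_two_zero, WW_zero_succ, WW_neg]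
            · ring
            · norm_num at s3 ⊢
              omega
          | 0, k + 3, _, _, s3, j1, _, ih, hsn =>
            have s4 : 6 * (R - 2 ^ (k + 3) * ((0 : ℕ) + 2)) ≤ 2 ^ (k + 3) := by
              simpa using s3
            rw [WW_forced_zero θ k s4]
            have i3 := ih k (by omega) 3 (R - 2 ^ (k + 3) * ((0 : ℕ) + 2))
            have j3 : θ * (2 * θ ^ 3 * WW θ k 3 (R - 2 ^ (k + 3) * ((0 : ℕ) + 2))) ≤
                2 * c ^ 6 * (c ^ (0 + 1) * s ^ (k + 3 + 1)) := by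
              calc θ * (2 * θ ^ 3 * WW θ k 3 (R - 2 ^ (k + 3) * ((0 : ℕ) + 2)))
                  ≤ θ * (2 * θ ^ 3 * (c ^ 3 * s ^ k)) := by gcongr
                _ = 2 * c ^ 6 * (c ^ (0 + 1) * s ^ (k + 3 + 1)) := by rw [hθ]; ring
            nlinarith
          | d + 1, 0, h1, _, _, _, _, _, _ => exact absurd (WW_zero_succ θ (d + 2) R) h1
          | d + 1, 1, _, h2, s3, _, _, _, _ =>
            exfalso
            apply h2
            rw [show (1 : ℕ) = 0 + 1 from rfl, WW_succ_succ, WW_zero_succ, WW_neg]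
            · ring
            · have hd1 : (1 : ℤ) ≤ 2 ^ d := one_le_pow₀ (by norm_num)
              have e4 : (2 : ℤ) ^ (d + 1) = 2 * 2 ^ d := by ring
              rw [e4] at s3
              set X : ℤ := R - 2 ^ (0 + 1) * ((d + 1 : ℕ) + 2) with hX
              have hX0 : X ≤ 0 := by
                by_contra hc
                push Not at hc
                have : 12 * 1 * 1 ≤ 12 * (2 : ℤ) ^ d * X := by
                  have : (1 : ℤ) ≤ X := hc
                  gcongr
                norm_num at s3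
                nlinarith
              have hd0 : (0 : ℤ) ≤ d := by positivity
              rw [pow_zero, one_mul]
              linarith
          | d + 1, k + 2, _, _, s3, j1, _, ih, hsn =>
            have s4 : 6 * 2 ^ d * (R - 2 ^ (k + 2) * ((d + 1 : ℕ) + 2)) ≤ 2 ^ (k + 2) := by
              have e4 : (2 : ℤ) ^ (d + 1) = 2 * 2 ^ d := by ring
              rw [e4] at s3
              set X : ℤ := R - 2 ^ (k + 2) * ((d + 1 : ℕ) + 2) with hX
              have hd0 : (0 : ℤ) < 2 ^ d := by positivity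
              have hk0 : (0 : ℤ) < 2 ^ (k + 2) := by positivity
              by_cases hX0 : X ≤ 0
              · have : 6 * 2 ^ d * X ≤ 0 := mul_nonpos_of_nonneg_of_nonpos (by positivity) hX0
                linarith
              · push Not at hX0
                have : 0 ≤ 6 * 2 ^ d * X := by positivity
                linarith
            rw [WW_forced θ k d s4]
            have i3 := ih k (by omega) (d + 3) (R - 2 ^ (k + 2) * ((d + 1 : ℕ) + 2))
            have j3 : θ * (θ ^ 2 * WW θ k (d + 3) (R - 2 ^ (k + 2) * ((d + 1 : ℕ) + 2))) ≤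
                c ^ 4 * (c ^ (d + 1 + 1) * s ^ (k + 2 + 1)) := by
              calc θ * (θ ^ 2 * WW θ k (d + 3) (R - 2 ^ (k + 2) * ((d + 1 : ℕ) + 2)))
                  ≤ θ * (θ ^ 2 * (c ^ (d + 3) * s ^ k)) := by gcongr
                _ = c ^ 4 * (c ^ (d + 1 + 1) * s ^ (k + 2 + 1)) := by rw [hθ]; ring
            nlinarith

theorem WW_le (m : ℕ) (S : ℤ) : WW (21 / 20) (2 * m) 0 S ≤ 2 ^ m := by
  have hs : (0 : ℝ) < Real.sqrt 2 := by positivity
  have hs2 : Real.sqrt 2 ^ 2 = 2 := Real.sq_sqrt (by norm_num)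
  set c : ℝ := 21 / 20 / Real.sqrt 2 with hc
  have hc0 : 0 < c := by positivity
  have hcs : (21 / 20 : ℝ) = c * Real.sqrt 2 := by
    rw [hc]
    field_simp
  have hc2 : c ^ 2 = 441 / 800 := by
    rw [hc, div_pow, hs2]
    norm_num
  have hc4 : c ^ 4 = (441 / 800) ^ 2 := by
    rw [← hc2]
    ring
  have hc6 : c ^ 6 = (441 / 800) ^ 3 := by
    rw [← hc2]
    ring
  have h := WW_bound hc0 hs hs2 hcs (by rw [hc4, hc6]; norm_num) (by rw [hc2, hc6]; norm_num)
    (by rw [hc2, hc4]; norm_num) (2 * m) 0 S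
  rwa [pow_zero, one_mul, pow_mul, hs2] at h

end H8TAK
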