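import Pool.Agent.H8.TAK.Base
import Pool.Agent.H8.TAK.LadderB

/-!
# Multiplicities as a weighted count with weight one
-/

namespace H8TAK

/-- The number of suffixes of length `n` which lead from height `D` to height `0` and add `c`. -/
def FF (n : ℕ) (D c : ℤ) : ℕ :=
  ((Finset.range (2 ^ n)).filter (fun k => D + dd n k = 0 ∧ ss n k + D * (k : ℤ) = c)).card

theorem dd_low (n k : ℕ) (h : k < 2 ^ n) : dd (n + 1) k = 1 + dd n k := by
  have h1 := dd_append 1 n 0 k h
  have h2 : dd 1 0 = 1 := by simp [dd]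
  rw [h2, zero_mul, zero_add, add_comm 1 n] at h1
  exact h1

theorem dd_high (n k : ℕ) (h : k < 2 ^ n) : dd (n + 1) (2 ^ n + k) = -1 + dd n k := by
  have h1 := dd_append 1 n 1 k h
  have h2 : dd 1 1 = -1 := by simp [dd]
  rw [h2, one_mul, add_comm 1 n] at h1
  exact h1

theorem ss_low (n k : ℕ) (h : k < 2 ^ n) : ss (n + 1) k = ss n k + k := by
  have h1 := ss_append 1 n 0 k h
  have h2 : dd 1 0 = 1 := by simp [dd]
  have h3 : ss 1 0 = 0 := by simp [ss]
  rw [h2, h3, zero_mul, zero_add, add_comm 1 n, mul_zero, zero_add, one_mul] at h1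
  exact h1

theorem ss_high (n k : ℕ) (h : k < 2 ^ n) : ss (n + 1) (2 ^ n + k) = 2 ^ n + ss n k - k := by
  have h1 := ss_append 1 n 1 k h
  have h2 : dd 1 1 = -1 := by simp [dd]
  have h3 : ss 1 1 = 1 := by simp [ss, dd]
  rw [h2, h3, one_mul, add_comm 1 n, mul_one] at h1
  rw [h1]; ring

theorem FF_succ (n : ℕ) (D c : ℤ) :
    FF (n + 1) D c = FF n (D + 1) c + FF n (D - 1) (c - 2 ^ n * (1 + D)) := by
  unfold FF
  simp only [Finset.range_eq_Ico]
  rw [pow_succ, mul_two,
    ← Finset.Ico_union_Ico_eq_Ico (Nat.zero_le (2 ^ n)) (Nat.le_add_right (2 ^ n) (2 ^ n)),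
    Finset.filter_union, Finset.card_union_of_disjoint]
  · congr 1
    · congr 1
      apply Finset.filter_congr
      intro k hk
      rw [Finset.mem_Ico] at hk
      rw [dd_low n k hk.2, ss_low n k hk.2]
      constructor
      · rintro ⟨h1, h2⟩
        exact ⟨by linarith, by linarith⟩
      · rintro ⟨h1, h2⟩
        exact ⟨by linarith, by linarith⟩
    · symm
      apply Finset.card_bij (fun k _ => 2 ^ n + k)
      · intro k hk
        rw [Finset.mem_filter, Finset.mem_Ico] at hk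
        rw [Finset.mem_filter, Finset.mem_Ico]
        obtain ⟨⟨_, hk1⟩, h1, h2⟩ := hk
        refine ⟨⟨Nat.le_add_right _ _, by omega⟩, ?_, ?_⟩
        · rw [dd_high n k hk1]; linarith
        · rw [ss_high n k hk1]; push_cast; linarith
      · intro a _ b _ hab
        exact Nat.add_left_cancel hab
      · intro k hk
        rw [Finset.mem_filter, Finset.mem_Ico] at hk
        obtain ⟨⟨hk0, hk1⟩, h1, h2⟩ := hk
        obtain ⟨j, rfl⟩ := Nat.exists_eq_add_of_le hk0
        have hj : j < 2 ^ n := by omega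
        refine ⟨j, ?_, rfl⟩
        rw [Finset.mem_filter, Finset.mem_Ico]
        rw [dd_high n j hj] at h1
        rw [ss_high n j hj] at h2
        push_cast at h2
        exact ⟨⟨Nat.zero_le _, hj⟩, by linarith, by linarith⟩
  · apply Finset.disjoint_filter_filter
    exact Finset.Ico_disjoint_Ico_consecutive 0 (2 ^ n) (2 ^ n + 2 ^ n)

theorem FF_compl (n : ℕ) (D c : ℤ) : FF n (-D) (c - D * 2 ^ n) = FF n D c := by
  unfold FF
  have hp : 0 < 2 ^ n := by positivity
  have hcast : ∀ k : ℕ, k < 2 ^ n → ((2 ^ n - 1 - k : ℕ) : ℤ) = 2 ^ n - 1 - (k : ℤ) := by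
    intro k hk
    rw [Nat.cast_sub (by omega), Nat.cast_sub (by omega)]
    push_cast
    ring
  have key : ∀ k : ℕ, k < 2 ^ n →
      ((-D + dd n (2 ^ n - 1 - k) = 0 ∧
        ss n (2 ^ n - 1 - k) + (-D) * ((2 ^ n - 1 - k : ℕ) : ℤ) = c - D * 2 ^ n) ↔
      (D + dd n k = 0 ∧ ss n k + D * (k : ℤ) = c)) := by
    intro k hk
    rw [dd_compl n k hk, ss_compl n k hk, hcast k hk]
    constructor
    · rintro ⟨h1, h2⟩
      exact ⟨by linarith, by linarith⟩
    · rintro ⟨h1, h2⟩
      exact ⟨by linarith, by linarith⟩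
  symm
  apply Finset.card_bij (fun k _ => 2 ^ n - 1 - k)
  · intro k hk
    rw [Finset.mem_filter, Finset.mem_range] at hk
    rw [Finset.mem_filter, Finset.mem_range]
    exact ⟨by omega, (key k hk.1).2 hk.2⟩
  · intro a ha b hb hab
    rw [Finset.mem_filter, Finset.mem_range] at ha hb
    have h1 := ha.1
    have h2 := hb.1
    omega
  · intro k hk
    rw [Finset.mem_filter, Finset.mem_range] at hk
    have hk1 := hk.1
    refine ⟨2 ^ n - 1 - k, ?_, by omega⟩
    rw [Finset.mem_filter, Finset.mem_range]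
    have hlt : 2 ^ n - 1 - k < 2 ^ n := by omega
    refine ⟨hlt, ?_⟩
    rw [← key _ hlt]
    have hback : 2 ^ n - 1 - (2 ^ n - 1 - k) = k := by omega
    rw [hback]
    exact hk.2

theorem FF_succ_zero (n : ℕ) (R : ℤ) : FF (n + 1) 0 R = 2 * FF n 1 R := by
  rw [FF_succ]
  have h := FF_compl n 1 R
  have e1 : (0 : ℤ) - 1 = -1 := by ring
  have e2 : R - 2 ^ n * (1 + 0) = R - 1 * 2 ^ n := by ring
  rw [e1, e2, h, zero_add]
  ring

theorem FF_succ_succ (n d : ℕ) (R : ℤ) :
    FF (n + 1) ((d + 1 : ℕ) : ℤ) R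
      = FF n ((d + 2 : ℕ) : ℤ) R + FF n (d : ℤ) (R - 2 ^ n * (d + 2)) := by
  rw [FF_succ]
  have e1 : ((d + 1 : ℕ) : ℤ) + 1 = ((d + 2 : ℕ) : ℤ) := by push_cast; ring
  have e2 : ((d + 1 : ℕ) : ℤ) - 1 = (d : ℤ) := by push_cast; ring
  have e3 : R - 2 ^ n * (1 + ((d + 1 : ℕ) : ℤ)) = R - 2 ^ n * ((d : ℤ) + 2) := by push_cast; ring
  rw [e1, e2, e3]

theorem FF_two_zero (n : ℕ) (R : ℤ) :
    FF (n + 2) 0 R = 2 * FF n 0 (R - 2 ^ (n + 1)) + 2 * FF n 2 R := by
  rw [FF_succ_zero (n + 1) R]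
  have h := FF_succ_succ n 0 R
  have e1 : ((0 + 1 : ℕ) : ℤ) = 1 := by norm_num
  have e2 : ((0 + 2 : ℕ) : ℤ) = 2 := by norm_num
  have e3 : R - 2 ^ n * (((0 : ℕ) : ℤ) + 2) = R - 2 ^ (n + 1) := by push_cast; ring
  have e4 : ((0 : ℕ) : ℤ) = 0 := by norm_num
  rw [e1, e2, e3, e4] at h
  rw [h]
  ring

theorem FF_zero_zero (R : ℤ) : FF 0 0 R = if R = 0 then 1 else 0 := by
  unfold FF
  by_cases h : R = 0
  · subst h
    simp [dd, ss]
  · have h' : ¬ (0 : ℤ) = R := fun e => h e.symm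
    simp [dd, ss, h, h']

theorem FF_zero_pos (D R : ℤ) (hD : D ≠ 0) : FF 0 D R = 0 := by
  unfold FF
  simp [dd, ss, hD]

theorem FF_eq_WW (n : ℕ) : ∀ (d : ℕ) (R : ℤ), (FF n (d : ℤ) R : ℝ) = WW 1 n d R := by
  induction n using Nat.strong_induction_on with
  | _ n ih =>
    intro d R
    match n, d, ih with
    | 0, 0, _ =>
      have h : FF 0 ((0 : ℕ) : ℤ) R = if R = 0 then 1 else 0 := by
        rw [Nat.cast_zero]; exact FF_zero_zero R
      rw [h]
      simp only [WW]
      split_ifs <;> simp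
    | 0, d + 1, _ =>
      have h : FF 0 ((d + 1 : ℕ) : ℤ) R = 0 := FF_zero_pos _ _ (by positivity)
      rw [h]
      simp only [WW]
      simp
    | 1, 0, _ =>
      have h : FF 1 ((0 : ℕ) : ℤ) R = 0 := by
        rw [Nat.cast_zero]
        have h1 := FF_succ_zero 0 R
        rw [FF_zero_pos 1 R one_ne_zero] at h1
        simpa using h1
      rw [h]
      simp only [WW]
      simp
    | n + 2, 0, ih =>
      have h := FF_two_zero n R
      have i1 := ih n (by omega) 0 (R - 2 ^ (n + 1))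
      have i2 := ih n (by omega) 2 R
      simp only [WW]
      rw [← i1, ← i2, Nat.cast_zero, h]
      push_cast
      ring
    | n + 1, d + 1, ih =>
      have h := FF_succ_succ n d R
      have i1 := ih n (by omega) (d + 2) R
      have i2 := ih n (by omega) d (R - 2 ^ n * (d + 2))
      simp only [WW]
      rw [← i1, ← i2, h]
      push_cast
      ring

theorem MM_eq_WW (m : ℕ) (S : ℤ) : (MM (2 * m) S 0 : ℝ) = WW 1 (2 * m) 0 S := by
  rw [← FF_eq_WW (2 * m) 0 S]
  congr 1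
  unfold MM FF
  congr 1
  apply Finset.filter_congr
  intro k _
  simp only [Nat.cast_zero, zero_add, zero_mul, add_zero]
  exact and_comm

end H8TAK
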