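import Pool.Agent.H8.TAK.LadderA

/-!
# Multiplicities near the maximal growth rate: `near_half`
-/

namespace H8TAK

/-! ### The sets of reachable values -/

/-- Values reachable with exactly `j` steps outside ground level excursions of length two. -/
def RS : ℕ → ℕ → ℕ → Finset ℤ
  | 0, 0, j => if j = 0 then {0} else ∅
  | 0, _ + 1, _ => ∅
  | 1, 0, _ => ∅
  | n + 2, 0, j => (RS n 0 j).image (fun r => r + 2 ^ (n + 1)) ∪
      (if 2 ≤ j then RS n 2 (j - 2) else ∅)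
  | n + 1, d + 1, j => if 1 ≤ j then RS n (d + 2) (j - 1) ∪
      (RS n d (j - 1)).image (fun r => r + 2 ^ n * ((d : ℤ) + 2)) else ∅

/-- The truncated generating function of the cardinalities. -/
noncomputable def RA (x : ℝ) (K n d : ℕ) : ℝ :=
  ∑ j ∈ Finset.range K, x ^ j * ((RS n d j).card : ℝ)

theorem RA_nonneg {x : ℝ} (hx : 0 ≤ x) (K n d : ℕ) : 0 ≤ RA x K n d :=
  Finset.sum_nonneg fun _ _ => mul_nonneg (pow_nonneg hx _) (Nat.cast_nonneg _)

/-- Shift of the index. -/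
theorem RA_shift {x : ℝ} (hx : 0 ≤ x) (K n d s : ℕ) :
    ∑ j ∈ Finset.range K, x ^ j * ((if s ≤ j then RS n d (j - s) else ∅ : Finset ℤ).card : ℝ) ≤
      x ^ s * RA x K n d := by
  have h1 : ∑ j ∈ Finset.range K,
      x ^ j * ((if s ≤ j then RS n d (j - s) else ∅ : Finset ℤ).card : ℝ) ≤
      ∑ j ∈ Finset.range (s + K),
        x ^ j * ((if s ≤ j then RS n d (j - s) else ∅ : Finset ℤ).card : ℝ) :=
    Finset.sum_le_sum_of_subset_of_nonneg
      (Finset.range_subset_range.2 (Nat.le_add_left K s))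
      (fun _ _ _ => mul_nonneg (pow_nonneg hx _) (Nat.cast_nonneg _))
  refine h1.trans (le_of_eq ?_)
  rw [Finset.sum_range_add, RA, Finset.mul_sum]
  have h2 : ∑ j ∈ Finset.range s,
      x ^ j * ((if s ≤ j then RS n d (j - s) else ∅ : Finset ℤ).card : ℝ) = 0 := by
    refine Finset.sum_eq_zero fun j hj => ?_
    rw [if_neg (by have := Finset.mem_range.1 hj; omega)]
    simp
  rw [h2, zero_add]
  refine Finset.sum_congr rfl fun j _ => ?_
  rw [if_pos (Nat.le_add_right s j), Nat.add_sub_cancel_left, pow_add]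
  ring

theorem RA_zero_zero {x : ℝ} (K : ℕ) : RA x K 0 0 ≤ 1 := by
  unfold RA
  cases K with
  | zero => simp
  | succ K =>
    rw [Finset.sum_range_succ']
    have h1 : ∀ j ∈ Finset.range K, x ^ (j + 1) * ((RS 0 0 (j + 1)).card : ℝ) = 0 := by
      intro j _
      have : RS 0 0 (j + 1) = ∅ := by
        rw [RS, if_neg (Nat.succ_ne_zero j)]
      rw [this]
      simp
    rw [Finset.sum_eq_zero h1]
    have : RS 0 0 0 = {0} := by rw [RS, if_pos rfl]
    rw [this]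
    simp

theorem RA_zero_succ {x : ℝ} (K d : ℕ) : RA x K 0 (d + 1) = 0 := by
  unfold RA
  refine Finset.sum_eq_zero fun j _ => ?_
  have : RS 0 (d + 1) j = ∅ := by rw [RS]
  rw [this]
  simp

theorem RA_one_zero {x : ℝ} (K : ℕ) : RA x K 1 0 = 0 := by
  unfold RA
  refine Finset.sum_eq_zero fun j _ => ?_
  have : RS 1 0 j = ∅ := by rw [RS]
  rw [this]
  simp

theorem RA_succ_zero {x : ℝ} (hx : 0 ≤ x) (K n : ℕ) :
    RA x K (n + 2) 0 ≤ RA x K n 0 + x ^ 2 * RA x K n 2 := by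
  have h1 : RA x K (n + 2) 0 ≤ RA x K n 0 + ∑ j ∈ Finset.range K,
      x ^ j * ((if 2 ≤ j then RS n 2 (j - 2) else ∅ : Finset ℤ).card : ℝ) := by
    unfold RA
    rw [← Finset.sum_add_distrib]
    refine Finset.sum_le_sum fun j _ => ?_
    rw [← mul_add]
    refine mul_le_mul_of_nonneg_left ?_ (pow_nonneg hx _)
    rw [← Nat.cast_add]
    refine Nat.cast_le.2 ?_
    rw [RS]
    exact (Finset.card_union_le _ _).trans
      (Nat.add_le_add_right Finset.card_image_le _)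
  exact h1.trans (add_le_add_right (RA_shift hx K n 2 2) _)

theorem RA_succ_succ {x : ℝ} (hx : 0 ≤ x) (K n d : ℕ) :
    RA x K (n + 1) (d + 1) ≤ x * (RA x K n (d + 2) + RA x K n d) := by
  have h1 : RA x K (n + 1) (d + 1) ≤ (∑ j ∈ Finset.range K,
      x ^ j * ((if 1 ≤ j then RS n (d + 2) (j - 1) else ∅ : Finset ℤ).card : ℝ)) +
      ∑ j ∈ Finset.range K, x ^ j * ((if 1 ≤ j then RS n d (j - 1) else ∅ : Finset ℤ).card : ℝ)
      := by
    unfold RA
    rw [← Finset.sum_add_distrib]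
    refine Finset.sum_le_sum fun j _ => ?_
    rw [← mul_add]
    refine mul_le_mul_of_nonneg_left ?_ (pow_nonneg hx _)
    rw [← Nat.cast_add]
    refine Nat.cast_le.2 ?_
    rw [RS]
    by_cases hj : 1 ≤ j
    · rw [if_pos hj, if_pos hj, if_pos hj]
      exact (Finset.card_union_le _ _).trans
        (Nat.add_le_add_left Finset.card_image_le _)
    · rw [if_neg hj, if_neg hj, if_neg hj]
      simp
  have h2 := RA_shift hx K n (d + 2) 1
  have h3 := RA_shift hx K n d 1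
  rw [pow_one] at h2 h3
  linarith

/-- Part (a). -/
theorem RA_le {x lam : ℝ} (hx : 0 ≤ x) (hl : 1 ≤ lam) (hlx : lam ^ 2 = 1 + 4 * x ^ 2) (K : ℕ) :
    ∀ n : ℕ, (∀ d, RA x K n d ≤ lam ^ n) ∧ ∀ d, RA x K (n + 1) d ≤ lam ^ (n + 1) := by
  have h2x : 2 * x ≤ lam := by nlinarith
  have hl0 : 0 ≤ lam := by linarith
  have hstep : ∀ n, (∀ d, RA x K n d ≤ lam ^ n) → ∀ d, RA x K (n + 1) (d + 1) ≤ lam ^ (n + 1) := by
    intro n h d
    have h2 := RA_succ_succ hx K n d
    have hp : 0 ≤ lam ^ n := pow_nonneg hl0 n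
    have h6 : x * (RA x K n (d + 2) + RA x K n d) ≤ x * (lam ^ n + lam ^ n) :=
      mul_le_mul_of_nonneg_left (add_le_add (h _) (h _)) hx
    calc RA x K (n + 1) (d + 1) ≤ x * (lam ^ n + lam ^ n) := h2.trans h6
      _ = 2 * x * lam ^ n := by ring
      _ ≤ lam * lam ^ n := mul_le_mul_of_nonneg_right h2x hp
      _ = lam ^ (n + 1) := by ring
  intro n
  induction n with
  | zero =>
    have h0 : ∀ d, RA x K 0 d ≤ lam ^ 0 := by
      intro d
      rw [pow_zero]
      cases d with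
      | zero => exact RA_zero_zero K
      | succ d => rw [RA_zero_succ]; exact zero_le_one
    refine ⟨h0, fun d => ?_⟩
    cases d with
    | zero =>
      rw [RA_one_zero]
      exact pow_nonneg hl0 _
    | succ d => exact hstep 0 h0 d
  | succ n ih =>
    refine ⟨ih.2, fun d => ?_⟩
    cases d with
    | zero =>
      have h6 := RA_succ_zero hx K n
      have hp : 0 ≤ lam ^ n := pow_nonneg hl0 n
      calc RA x K (n + 2) 0 ≤ RA x K n 0 + x ^ 2 * RA x K n 2 := h6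
        _ ≤ lam ^ n + x ^ 2 * lam ^ n :=
          add_le_add (ih.1 0) (mul_le_mul_of_nonneg_left (ih.1 2) (sq_nonneg x))
        _ ≤ lam ^ n + 4 * x ^ 2 * lam ^ n := by nlinarith [mul_nonneg (sq_nonneg x) hp]
        _ = lam ^ (n + 2) := by
          rw [pow_add, hlx]
          ring
    | succ d => exact hstep (n + 1) ih.2 d

/-! ### Part (b) -/

theorem WW_nonneg' {θ : ℝ} (hθ : 0 ≤ θ) : ∀ (n d : ℕ) (R : ℤ), 0 ≤ WW θ n d R
  | 0, 0, R => by
    rw [WW]
    split_ifs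
    · exact zero_le_one
    · exact le_rfl
  | 0, _ + 1, _ => by rw [WW]
  | 1, 0, _ => by rw [WW]
  | n + 2, 0, R => by
    rw [WW]
    have h1 := WW_nonneg' hθ n 0 (R - 2 ^ (n + 1))
    have h2 := WW_nonneg' hθ n 2 R
    positivity
  | n + 1, d + 1, R => by
    rw [WW]
    have h1 := WW_nonneg' hθ n (d + 2) R
    have h2 := WW_nonneg' hθ n d (R - 2 ^ n * (d + 2))
    positivity

theorem WW_ge {θ : ℝ} (hθ : 1 ≤ θ) : ∀ (n d : ℕ) (R : ℤ) (j₀ : ℕ),
    (∀ j, j < j₀ → R ∉ RS n d j) → WW 1 n d R * θ ^ j₀ ≤ WW θ n d R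
  | 0, 0, R, j₀, h => by
    rw [WW, WW]
    by_cases hR : R = 0
    · subst hR
      have hj : j₀ = 0 := by
        by_contra hj
        apply h 0 (Nat.pos_of_ne_zero hj)
        rw [RS, if_pos rfl]
        exact Finset.mem_singleton_self _
      subst hj
      simp
    · rw [if_neg hR, zero_mul]
  | 0, _ + 1, _, _, _ => by rw [WW, WW, zero_mul]
  | 1, 0, _, _, _ => by rw [WW, WW, zero_mul]
  | n + 2, 0, R, j₀, h => by
    have hθ0 : 0 ≤ θ := by linarith
    have h1 := WW_ge hθ n 0 (R - 2 ^ (n + 1)) j₀ (fun j hj hmem => h j hj (by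
      rw [RS]
      exact Finset.mem_union_left _ (Finset.mem_image.2 ⟨_, hmem, sub_add_cancel _ _⟩)))
    have h2 := WW_ge hθ n 2 R (j₀ - 2) (fun j hj hmem => h (j + 2) (by omega) (by
      rw [RS]
      refine Finset.mem_union_right _ ?_
      rw [if_pos (by omega)]
      exact hmem))
    have h3 : θ ^ j₀ ≤ θ ^ 2 * θ ^ (j₀ - 2) := by
      rw [← pow_add]
      exact pow_le_pow_right₀ hθ (by omega)
    have h4 := WW_nonneg' (zero_le_one (α := ℝ)) n 2 R
    have h5 : WW 1 n 2 R * θ ^ j₀ ≤ θ ^ 2 * WW θ n 2 R := by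
      calc WW 1 n 2 R * θ ^ j₀ ≤ WW 1 n 2 R * (θ ^ 2 * θ ^ (j₀ - 2)) :=
            mul_le_mul_of_nonneg_left h3 h4
        _ = θ ^ 2 * (WW 1 n 2 R * θ ^ (j₀ - 2)) := by ring
        _ ≤ θ ^ 2 * WW θ n 2 R := mul_le_mul_of_nonneg_left h2 (sq_nonneg θ)
    rw [WW, WW]
    linarith
  | n + 1, d + 1, R, j₀, h => by
    have hθ0 : 0 ≤ θ := by linarith
    have h1 := WW_ge hθ n (d + 2) R (j₀ - 1) (fun j hj hmem => h (j + 1) (by omega) (by
      rw [RS, if_pos (by omega)]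
      exact Finset.mem_union_left _ hmem))
    have h2 := WW_ge hθ n d (R - 2 ^ n * (d + 2)) (j₀ - 1) (fun j hj hmem =>
      h (j + 1) (by omega) (by
        rw [RS, if_pos (by omega)]
        exact Finset.mem_union_right _ (Finset.mem_image.2 ⟨_, hmem, sub_add_cancel _ _⟩)))
    have h3 : θ ^ j₀ ≤ θ * θ ^ (j₀ - 1) := by
      rw [← pow_succ']
      exact pow_le_pow_right₀ hθ (by omega)
    have key : ∀ u v : ℝ, 0 ≤ u → u * θ ^ (j₀ - 1) ≤ v → u * θ ^ j₀ ≤ θ * v := by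
      intro u v hu huv
      calc u * θ ^ j₀ ≤ u * (θ * θ ^ (j₀ - 1)) := mul_le_mul_of_nonneg_left h3 hu
        _ = θ * (u * θ ^ (j₀ - 1)) := by ring
        _ ≤ θ * v := mul_le_mul_of_nonneg_left huv hθ0
    have h4 := key _ _ (WW_nonneg' (zero_le_one (α := ℝ)) n (d + 2) R) h1
    have h5 := key _ _ (WW_nonneg' (zero_le_one (α := ℝ)) n d (R - 2 ^ n * (d + 2))) h2
    rw [WW, WW]
    linarith

/-! ### Parts (c), (d) -/

/-- Part (c). -/
theorem card_NN_le (h1 : ∀ (m : ℕ) (S : ℤ), (MM (2 * m) S 0 : ℝ) = WW 1 (2 * m) 0 S)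
    (h2 : ∀ (m : ℕ) (S : ℤ), WW (21 / 20) (2 * m) 0 S ≤ 2 ^ m)
    {x η β : ℝ} (hx : 0 < x) (hx1 : x ≤ 1) (hη : 0 ≤ η)
    (hβ : (1 - 2 * β) * Real.log 2 = η * Real.log (21 / 20)) (m : ℕ) :
    ((NN m β).card : ℝ) ≤ x ^ (-(η * m)) * (1 + 4 * x ^ 2) ^ m := by
  have hlog : 0 < Real.log (21 / 20) := Real.log_pos (by norm_num)
  have hηm : 0 ≤ η * m := mul_nonneg hη (Nat.cast_nonneg m)
  obtain ⟨J, hJ⟩ : ∃ J, J = ⌊η * m⌋₊ := ⟨_, rfl⟩
  have hJle : (J : ℝ) ≤ η * m := by rw [hJ]; exact Nat.floor_le hηm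
  have hJlt : η * m < (J : ℝ) + 1 := by rw [hJ]; exact Nat.lt_floor_add_one _
  have hsub : NN m β ⊆ (Finset.range (J + 1)).biUnion fun j => RS (2 * m) 0 j := by
    intro S hS
    rw [NN, Finset.mem_filter] at hS
    by_contra hcon
    have hnot : ∀ j, j < J + 1 → S ∉ RS (2 * m) 0 j := fun j hj hmem =>
      hcon (Finset.mem_biUnion.2 ⟨j, Finset.mem_range.2 hj, hmem⟩)
    have h3 := WW_ge (θ := 21 / 20) (by norm_num) (2 * m) 0 S (J + 1) hnot
    have h4 := h3.trans (h2 m S)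
    rw [← h1] at h4
    have h5 : (4 : ℝ) ^ (β * m) * (21 / 20 : ℝ) ^ (J + 1) ≤ 2 ^ m :=
      (mul_le_mul_of_nonneg_right hS.2 (by positivity)).trans h4
    have e1 : (4 : ℝ) ^ (β * m) = Real.exp (2 * β * m * Real.log 2) := by
      rw [Real.rpow_def_of_pos (by norm_num), show (4 : ℝ) = 2 ^ 2 by norm_num, Real.log_pow]
      congr 1
      push_cast
      ring
    have e2 : (21 / 20 : ℝ) ^ (J + 1) = Real.exp (((J : ℝ) + 1) * Real.log (21 / 20)) := by
      rw [← Real.rpow_natCast, Real.rpow_def_of_pos (by norm_num)]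
      congr 1
      push_cast
      ring
    have e3 : (2 : ℝ) ^ m = Real.exp (m * Real.log 2) := by
      rw [← Real.rpow_natCast, Real.rpow_def_of_pos (by norm_num)]
      congr 1
      ring
    rw [e1, e2, e3, ← Real.exp_add, Real.exp_le_exp] at h5
    have h6 : η * m * Real.log (21 / 20) < ((J : ℝ) + 1) * Real.log (21 / 20) :=
      mul_lt_mul_of_pos_right hJlt hlog
    have h7 : η * m * Real.log (21 / 20) = m * ((1 - 2 * β) * Real.log 2) := by
      rw [hβ]
      ring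
    rw [h7] at h6
    have h8 : m * ((1 - 2 * β) * Real.log 2) + 2 * β * m * Real.log 2 = m * Real.log 2 := by ring
    linarith
  have hcard : ((NN m β).card : ℝ) ≤ ∑ j ∈ Finset.range (J + 1), ((RS (2 * m) 0 j).card : ℝ) := by
    rw [← Nat.cast_sum]
    exact Nat.cast_le.2 ((Finset.card_le_card hsub).trans Finset.card_biUnion_le)
  -- the generating function
  obtain ⟨lam, hlam⟩ : ∃ lam, lam = Real.sqrt (1 + 4 * x ^ 2) := ⟨_, rfl⟩
  have hpos : (0 : ℝ) ≤ 1 + 4 * x ^ 2 := by positivity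
  have hl2 : lam ^ 2 = 1 + 4 * x ^ 2 := by rw [hlam]; exact Real.sq_sqrt hpos
  have hl1 : 1 ≤ lam := by
    rw [hlam]
    exact Real.one_le_sqrt.2 (by nlinarith [sq_nonneg x])
  have hA := (RA_le hx.le hl1 hl2 (J + 1) (2 * m)).1 0
  rw [pow_mul, hl2] at hA
  have hA2 : x ^ J * ∑ j ∈ Finset.range (J + 1), ((RS (2 * m) 0 j).card : ℝ) ≤
      RA x (J + 1) (2 * m) 0 := by
    unfold RA
    rw [Finset.mul_sum]
    refine Finset.sum_le_sum fun j hj => ?_
    refine mul_le_mul_of_nonneg_right ?_ (Nat.cast_nonneg _)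
    exact pow_le_pow_of_le_one hx.le hx1 (by have := Finset.mem_range.1 hj; omega)
  have hxJ : x ^ (η * m) ≤ x ^ J := by
    rw [← Real.rpow_natCast]
    exact Real.rpow_le_rpow_of_exponent_ge hx hx1 hJle
  have hxp : 0 < x ^ (η * m) := Real.rpow_pos_of_pos hx _
  have hfin : x ^ (η * m) * ((NN m β).card : ℝ) ≤ (1 + 4 * x ^ 2) ^ m := by
    calc x ^ (η * m) * ((NN m β).card : ℝ) ≤ x ^ J * ((NN m β).card : ℝ) :=
          mul_le_mul_of_nonneg_right hxJ (Nat.cast_nonneg _)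
      _ ≤ x ^ J * ∑ j ∈ Finset.range (J + 1), ((RS (2 * m) 0 j).card : ℝ) :=
          mul_le_mul_of_nonneg_left hcard (pow_nonneg hx.le _)
      _ ≤ (1 + 4 * x ^ 2) ^ m := hA2.trans hA
  rw [Real.rpow_neg hx.le, inv_mul_eq_div, le_div_iff₀ hxp, mul_comm]
  exact hfin

/-- Part (d), from the two statements on `WW`. -/
theorem near_half_of (h1 : ∀ (m : ℕ) (S : ℤ), (MM (2 * m) S 0 : ℝ) = WW 1 (2 * m) 0 S)
    (h2 : ∀ (m : ℕ) (S : ℤ), WW (21 / 20) (2 * m) 0 S ≤ 2 ^ m) {ε : ℝ} (hε : 0 < ε) :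
    ∃ β : ℝ, 0 < β ∧ β < 1 / 2 ∧ ∀ m : ℕ, ((NN m β).card : ℝ) ≤ 2 ^ (2 * m * ε) := by
  have hlog2 : 0 < Real.log 2 := Real.log_pos (by norm_num)
  have hlog : 0 < Real.log (21 / 20) := Real.log_pos (by norm_num)
  have hll : Real.log (21 / 20) < Real.log 2 := Real.log_lt_log (by norm_num) (by norm_num)
  -- choose `x`
  obtain ⟨x, hx, hx1, hx2⟩ : ∃ x : ℝ, 0 < x ∧ x ≤ 1 ∧ 4 * x ^ 2 ≤ ε * Real.log 2 := by
    refine ⟨min 1 (Real.sqrt (ε * Real.log 2) / 2), ?_, min_le_left _ _, ?_⟩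
    · refine lt_min zero_lt_one ?_
      have := Real.sqrt_pos.2 (mul_pos hε hlog2)
      linarith
    · have h3 : (0 : ℝ) ≤ min 1 (Real.sqrt (ε * Real.log 2) / 2) := by
        refine le_min zero_le_one ?_
        positivity
      have h4 : min 1 (Real.sqrt (ε * Real.log 2) / 2) ≤ Real.sqrt (ε * Real.log 2) / 2 :=
        min_le_right _ _
      have h5 : (min 1 (Real.sqrt (ε * Real.log 2) / 2)) ^ 2 ≤
          (Real.sqrt (ε * Real.log 2) / 2) ^ 2 := pow_le_pow_left₀ h3 h4 2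
      rw [div_pow, Real.sq_sqrt (mul_pos hε hlog2).le] at h5
      linarith
  have hlx : 0 ≤ -Real.log x := by
    have := Real.log_nonpos hx.le hx1
    linarith
  -- choose `η`
  obtain ⟨η, hη, hη1, hη2⟩ : ∃ η : ℝ, 0 < η ∧ η ≤ 1 ∧ η * (-Real.log x) ≤ ε * Real.log 2 := by
    have hd : 0 < -Real.log x + 1 := by linarith
    refine ⟨min 1 (ε * Real.log 2 / (-Real.log x + 1)), lt_min zero_lt_one (by positivity),
      min_le_left _ _, ?_⟩
    have h3 : min 1 (ε * Real.log 2 / (-Real.log x + 1)) ≤ ε * Real.log 2 / (-Real.log x + 1) :=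
      min_le_right _ _
    have h4 : (0 : ℝ) ≤ min 1 (ε * Real.log 2 / (-Real.log x + 1)) :=
      le_min zero_le_one (by positivity)
    calc min 1 (ε * Real.log 2 / (-Real.log x + 1)) * (-Real.log x) ≤
          min 1 (ε * Real.log 2 / (-Real.log x + 1)) * (-Real.log x + 1) :=
          mul_le_mul_of_nonneg_left (by linarith) h4
      _ ≤ ε * Real.log 2 / (-Real.log x + 1) * (-Real.log x + 1) :=
          mul_le_mul_of_nonneg_right h3 hd.le
      _ = ε * Real.log 2 := div_mul_cancel₀ _ hd.ne'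
  have hq : 0 < η * Real.log (21 / 20) / Real.log 2 := by positivity
  have hq1 : η * Real.log (21 / 20) / Real.log 2 < 1 := by
    rw [div_lt_one hlog2]
    calc η * Real.log (21 / 20) ≤ 1 * Real.log (21 / 20) :=
          mul_le_mul_of_nonneg_right hη1 hlog.le
      _ < Real.log 2 := by rw [one_mul]; exact hll
  refine ⟨(1 - η * Real.log (21 / 20) / Real.log 2) / 2, by linarith, by linarith, fun m => ?_⟩
  refine (card_NN_le h1 h2 hx hx1 hη.le ?_ m).trans ?_
  · have h3 : 1 - 2 * ((1 - η * Real.log (21 / 20) / Real.log 2) / 2) =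
        η * Real.log (21 / 20) / Real.log 2 := by ring
    rw [h3, div_mul_cancel₀ _ hlog2.ne']
  · have hm : (0 : ℝ) ≤ m := Nat.cast_nonneg m
    have h3 : x ^ (-(η * m)) ≤ Real.exp (m * (ε * Real.log 2)) := by
      rw [Real.rpow_def_of_pos hx, Real.exp_le_exp]
      calc Real.log x * -(η * m) = m * (η * (-Real.log x)) := by ring
        _ ≤ m * (ε * Real.log 2) := mul_le_mul_of_nonneg_left hη2 hm
    have h4 : (1 + 4 * x ^ 2) ^ m ≤ Real.exp (m * (ε * Real.log 2)) := by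
      rw [mul_comm (m : ℝ), Real.exp_mul, Real.rpow_natCast]
      refine pow_le_pow_left₀ (by positivity) ?_ m
      have := Real.add_one_le_exp (ε * Real.log 2)
      linarith
    have h5 : (2 : ℝ) ^ (2 * m * ε) = Real.exp (m * (ε * Real.log 2)) *
        Real.exp (m * (ε * Real.log 2)) := by
      rw [← Real.exp_add, Real.rpow_def_of_pos (by norm_num)]
      congr 1
      ring
    rw [h5]
    exact mul_le_mul h3 h4 (by positivity) (Real.exp_pos _).le

theorem near_half {ε : ℝ} (hε : 0 < ε) : ∃ β : ℝ, 0 < β ∧ β < 1 / 2 ∧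
    ∀ m : ℕ, ((NN m β).card : ℝ) ≤ 2 ^ (2 * m * ε) :=
  near_half_of MM_eq_WW WW_le hε

end H8TAK
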