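import Pool.Agent.H8.TAK.Defs

/-!
# Pressure: definitions
-/

namespace H8TAK

/-- Weighted number of paths of length `n` from height `d` to height `0`, every departure from
the ground having weight `a`. -/
def TT (a : ℝ) : ℕ → ℕ → ℝ
  | 0, 0 => 1
  | 0, _ + 1 => 0
  | n + 1, 0 => a * TT a n 1
  | n + 1, d + 1 => TT a n (d + 2) + TT a n d

/-- Weighted number of suffixes of length `n` which lead from height `d` to height `0` and add
`R`; every departure from the ground has weight `2 x`. -/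
noncomputable def UU (x : ℝ) : ℕ → ℕ → ℤ → ℝ
  | 0, 0, R => if R = 0 then 1 else 0
  | 0, _ + 1, _ => 0
  | n + 1, 0, R => 2 * x * UU x n 1 R
  | n + 1, d + 1, R => UU x n (d + 2) R + UU x n d (R - 2 ^ n * (d + 2))

/-- The moment sum `∑_S M_m(S)^q` over the occurring values `S`. -/
noncomputable def ZZ (m : ℕ) (q : ℝ) : ℝ := ∑ S ∈ NN m 0, (MM (2 * m) S 0 : ℝ) ^ q

/-- The pressure function. -/
noncomputable def PP (q : ℝ) : ℝ :=
  ⨆ m : ℕ, Real.logb 2 (ZZ (m + 1) q) / (2 * ((m + 1 : ℕ) : ℝ))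

end H8TAK
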