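import Pool.Agent.H8.TAK.Final
import Pool.Agent.H8.TAK.PressDefs

/-!
# Legendre duality: the pressure and the growth exponent
-/

namespace H8TAK

open Set Filter

namespace LegA

theorem mem_NN' {m : ℕ} {β : ℝ} {S : ℤ} :
    S ∈ NN m β ↔ (4 : ℝ) ^ (β * m) ≤ (MM (2 * m) S 0 : ℝ) := by
  unfold NN
  rw [Finset.mem_filter]
  constructor
  · exact fun h => h.2
  · intro h
    refine ⟨?_, h⟩
    have hpos : (0 : ℝ) < (MM (2 * m) S 0 : ℝ) := lt_of_lt_of_le (by positivity) h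
    have hpos' : 0 < MM (2 * m) S 0 := by exact_mod_cast hpos
    unfold MM at hpos'
    obtain ⟨k, hk⟩ := Finset.card_pos.mp hpos'
    rw [Finset.mem_filter] at hk
    exact Finset.mem_image.mpr ⟨k, hk.1, hk.2.1⟩

theorem mem_NN_range' {m : ℕ} {β : ℝ} {S : ℤ} (h : S ∈ NN m β) : 0 ≤ S ∧ S < 4 ^ m := by
  unfold NN at h
  rw [Finset.mem_filter, Finset.mem_image] at h
  obtain ⟨⟨k, -, rfl⟩, -⟩ := h
  refine ⟨ss_nonneg _ _, ?_⟩
  have h1 := ss_le (2 * m) k
  have h2 : (2 : ℤ) ^ (2 * m) = 4 ^ m := by rw [pow_mul]; norm_num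
  rw [h2] at h1
  have h3 : (0 : ℤ) < 4 ^ m := by positivity
  linarith

theorem MM_mul_le' (m m' : ℕ) (S S' : ℤ) :
    MM (2 * m) S 0 * MM (2 * m') S' 0 ≤ MM (2 * (m + m')) (4 ^ m' * S + S') 0 := by
  unfold MM
  rw [← Finset.card_product]
  refine Finset.card_le_card_of_injOn (fun p : ℕ × ℕ => p.1 * 2 ^ (2 * m') + p.2) ?_ ?_
  · rintro ⟨k, k'⟩ hp
    rw [Finset.mem_coe, Finset.mem_product] at hp
    simp only [Finset.mem_filter, Finset.mem_range] at hp
    obtain ⟨⟨hk, hs, hd⟩, hk', hs', hd'⟩ := hp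
    rw [Finset.mem_coe, Finset.mem_filter, Finset.mem_range]
    have e : 2 * (m + m') = 2 * m + 2 * m' := by ring
    rw [e]
    refine ⟨?_, ?_, ?_⟩
    · show k * 2 ^ (2 * m') + k' < 2 ^ (2 * m + 2 * m')
      rw [pow_add]
      calc k * 2 ^ (2 * m') + k' < k * 2 ^ (2 * m') + 2 ^ (2 * m') := by omega
        _ = (k + 1) * 2 ^ (2 * m') := by ring
        _ ≤ 2 ^ (2 * m) * 2 ^ (2 * m') := Nat.mul_le_mul_right _ hk
    · show ss (2 * m + 2 * m') (k * 2 ^ (2 * m') + k') = 4 ^ m' * S + S'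
      rw [ss_append _ _ _ _ hk', hs, hs', hd]
      have h2 : (2 : ℤ) ^ (2 * m') = 4 ^ m' := by rw [pow_mul]; norm_num
      rw [h2]; ring
    · show dd (2 * m + 2 * m') (k * 2 ^ (2 * m') + k') = 0
      rw [dd_append _ _ _ _ hk', hd, hd']; rfl
  · rintro ⟨k, k'⟩ hp ⟨l, l'⟩ hq heq
    rw [Finset.mem_coe, Finset.mem_product] at hp hq
    simp only [Finset.mem_filter, Finset.mem_range] at hp hq
    have hk' := hp.2.1
    have hl' := hq.2.1
    have heq' : k * 2 ^ (2 * m') + k' = l * 2 ^ (2 * m') + l' := heq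
    have hpos : 0 < 2 ^ (2 * m') := by positivity
    have h1 : k = l := by
      have : (k * 2 ^ (2 * m') + k') / 2 ^ (2 * m') = (l * 2 ^ (2 * m') + l') / 2 ^ (2 * m') := by
        rw [heq']
      rw [Nat.add_comm, Nat.add_mul_div_right _ _ hpos, Nat.div_eq_of_lt hk', Nat.zero_add,
        Nat.add_comm, Nat.add_mul_div_right _ _ hpos, Nat.div_eq_of_lt hl', Nat.zero_add] at this
      exact this
    subst h1
    have h2 : k' = l' := by omega
    rw [h2]

theorem one_le_MM {m : ℕ} {S : ℤ} (h : S ∈ NN m 0) : 1 ≤ MM (2 * m) S 0 := by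
  have h1 := mem_NN'.mp h
  rw [zero_mul, Real.rpow_zero] at h1
  exact_mod_cast h1

theorem ZZ_pos (m : ℕ) (q : ℝ) : 0 < ZZ m q := by
  unfold ZZ
  apply Finset.sum_pos
  · intro S hS
    have : (1 : ℝ) ≤ (MM (2 * m) S 0 : ℝ) := by exact_mod_cast one_le_MM hS
    exact Real.rpow_pos_of_pos (by linarith) q
  · exact NN_nonempty m (by norm_num)

theorem ZZ_le {q : ℝ} (hq : 0 ≤ q) (m : ℕ) : ZZ m q ≤ 2 ^ (2 * (m : ℝ) + m * q) := by
  have h1 : ZZ m q ≤ ∑ _S ∈ NN m 0, (2 : ℝ) ^ ((m : ℝ) * q) := by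
    unfold ZZ
    apply Finset.sum_le_sum
    intro S _
    have h2 := MM_le m S
    calc (MM (2 * m) S 0 : ℝ) ^ q ≤ ((2 : ℝ) ^ m) ^ q :=
          Real.rpow_le_rpow (Nat.cast_nonneg _) h2 hq
      _ = (2 : ℝ) ^ ((m : ℝ) * q) := by
          rw [← Real.rpow_natCast, ← Real.rpow_mul (by norm_num)]
  refine h1.trans ?_
  rw [Finset.sum_const, nsmul_eq_mul, Real.rpow_add (by norm_num)]
  have h3 := NN_card_le m 0
  rw [sub_zero, mul_one] at h3
  exact mul_le_mul_of_nonneg_right h3 (by positivity)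

theorem logb_ZZ_le {q : ℝ} (hq : 0 ≤ q) (m : ℕ) :
    Real.logb 2 (ZZ (m + 1) q) / (2 * ((m + 1 : ℕ) : ℝ)) ≤ 1 + q / 2 := by
  have hm : (0 : ℝ) < 2 * ((m + 1 : ℕ) : ℝ) := by positivity
  rw [div_le_iff₀ hm]
  have h1 := Real.logb_le_logb_of_le (by norm_num : (1 : ℝ) < 2) (ZZ_pos (m + 1) q)
    (ZZ_le hq (m + 1))
  rw [Real.logb_rpow (by norm_num) (by norm_num)] at h1
  refine h1.trans (le_of_eq ?_)
  ring

theorem PP_bdd {q : ℝ} (hq : 0 ≤ q) : BddAbove (range fun m : ℕ =>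
    Real.logb 2 (ZZ (m + 1) q) / (2 * ((m + 1 : ℕ) : ℝ))) := by
  refine ⟨1 + q / 2, ?_⟩
  rintro _ ⟨m, rfl⟩
  exact logb_ZZ_le hq m

theorem ZZ_mul_le {q : ℝ} (hq : 0 ≤ q) (m m' : ℕ) : ZZ m q * ZZ m' q ≤ ZZ (m + m') q := by
  unfold ZZ
  rw [Finset.sum_mul_sum, ← Finset.sum_product']
  have hinj : Set.InjOn (fun p : ℤ × ℤ => 4 ^ m' * p.1 + p.2)
      ((NN m 0 ×ˢ NN m' 0 : Finset (ℤ × ℤ)) : Set (ℤ × ℤ)) := by
    rintro ⟨S, S'⟩ hp ⟨R, R'⟩ hq heq
    rw [Finset.mem_coe, Finset.mem_product] at hp hq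
    obtain ⟨s0, s1⟩ := mem_NN_range' hp.2
    obtain ⟨r0, r1⟩ := mem_NN_range' hq.2
    have heq' : 4 ^ m' * S + S' = 4 ^ m' * R + R' := heq
    have hpos : (0 : ℤ) < 4 ^ m' := by positivity
    simp only at s0 s1 r0 r1
    have h1 : S = R := by
      by_contra hne
      rcases lt_or_gt_of_ne hne with hlt | hlt
      · have : (4 : ℤ) ^ m' * (S + 1) ≤ 4 ^ m' * R := mul_le_mul_of_nonneg_left hlt hpos.le
        linarith
      · have : (4 : ℤ) ^ m' * (R + 1) ≤ 4 ^ m' * S := mul_le_mul_of_nonneg_left hlt hpos.le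
        linarith
    subst h1
    have h2 : S' = R' := by linarith
    rw [h2]
  have key : ∀ p ∈ (NN m 0 ×ˢ NN m' 0 : Finset (ℤ × ℤ)),
      MM (2 * m) p.1 0 * MM (2 * m') p.2 0 ≤ MM (2 * (m + m')) (4 ^ m' * p.1 + p.2) 0 :=
    fun p _ => MM_mul_le' m m' p.1 p.2
  calc ∑ p ∈ NN m 0 ×ˢ NN m' 0, (MM (2 * m) p.1 0 : ℝ) ^ q * (MM (2 * m') p.2 0 : ℝ) ^ q
      ≤ ∑ p ∈ NN m 0 ×ˢ NN m' 0, (MM (2 * (m + m')) (4 ^ m' * p.1 + p.2) 0 : ℝ) ^ q := by
        apply Finset.sum_le_sum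
        intro p hp
        rw [← Real.mul_rpow (Nat.cast_nonneg _) (Nat.cast_nonneg _)]
        apply Real.rpow_le_rpow (by positivity) _ hq
        exact_mod_cast key p hp
    _ = ∑ S ∈ (NN m 0 ×ˢ NN m' 0).image (fun p : ℤ × ℤ => 4 ^ m' * p.1 + p.2),
          (MM (2 * (m + m')) S 0 : ℝ) ^ q := by
        rw [Finset.sum_image hinj]
    _ ≤ _ := by
        apply Finset.sum_le_sum_of_subset_of_nonneg
        · intro S hS
          rw [Finset.mem_image] at hS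
          obtain ⟨p, hp, rfl⟩ := hS
          rw [mem_NN', zero_mul, Real.rpow_zero]
          rw [Finset.mem_product] at hp
          have h1 := one_le_MM hp.1
          have h2 := one_le_MM hp.2
          have h3 := MM_mul_le' m m' p.1 p.2
          have h4 : 1 ≤ MM (2 * (m + m')) (4 ^ m' * p.1 + p.2) 0 :=
            le_trans (Nat.mul_le_mul h1 h2) h3
          exact_mod_cast h4
        · intro S _ _
          positivity

theorem ZZ_pow_le {q : ℝ} (hq : 0 ≤ q) (m i : ℕ) : ZZ m q ^ (i + 1) ≤ ZZ ((i + 1) * m) q := by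
  induction i with
  | zero => simp
  | succ i ih =>
    rw [pow_succ]
    have h1 := ZZ_mul_le hq ((i + 1) * m) m
    have e : (i + 1 + 1) * m = (i + 1) * m + m := by ring
    rw [e]
    exact le_trans (mul_le_mul_of_nonneg_right ih (ZZ_pos m q).le) h1

theorem ZZ_le_of {q c : ℝ} (hq : 0 ≤ q) (h : ∀ α ∈ Icc (0 : ℝ) (1 / 2), GG α + q * α ≤ c)
    {m : ℕ} (hm : 1 ≤ m) :
    ZZ m q ≤ ((m : ℝ) + 1) * 2 ^ q * 2 ^ (2 * m * c) := by
  have hm0 : (0 : ℝ) < m := by exact_mod_cast hm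
  have hmaps : ∀ S ∈ NN m 0, Nat.log 2 (MM (2 * m) S 0) ∈ Finset.range (m + 1) := by
    intro S hS
    have h1 := one_le_MM hS
    have h2 := MM_le m S
    have h3 : MM (2 * m) S 0 ≤ 2 ^ m := by exact_mod_cast h2
    rw [Finset.mem_range, Nat.lt_succ_iff]
    have h4 : 2 ^ Nat.log 2 (MM (2 * m) S 0) ≤ 2 ^ m :=
      (Nat.pow_log_le_self 2 (by omega)).trans h3
    exact (Nat.pow_le_pow_iff_right (by norm_num)).mp h4
  unfold ZZ
  rw [← Finset.sum_fiberwise_of_maps_to hmaps]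
  have hterm : ∀ j ∈ Finset.range (m + 1),
      ∑ S ∈ NN m 0 with Nat.log 2 (MM (2 * m) S 0) = j, (MM (2 * m) S 0 : ℝ) ^ q ≤
        2 ^ q * 2 ^ (2 * m * c) := by
    intro j hj
    rw [Finset.mem_range, Nat.lt_succ_iff] at hj
    have hj' : (j : ℝ) ≤ m := by exact_mod_cast hj
    have h1 : ∑ S ∈ NN m 0 with Nat.log 2 (MM (2 * m) S 0) = j, (MM (2 * m) S 0 : ℝ) ^ q ≤
        ∑ _S ∈ NN m 0 with Nat.log 2 (MM (2 * m) _S 0) = j, (2 : ℝ) ^ (((j : ℝ) + 1) * q) := by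
      apply Finset.sum_le_sum
      intro S hS
      rw [Finset.mem_filter] at hS
      have h2 : MM (2 * m) S 0 < 2 ^ (j + 1) := by
        rw [← hS.2]
        exact Nat.lt_pow_succ_log_self (by norm_num) _
      have h3 : (MM (2 * m) S 0 : ℝ) ≤ 2 ^ (j + 1) := by exact_mod_cast h2.le
      calc (MM (2 * m) S 0 : ℝ) ^ q ≤ ((2 : ℝ) ^ (j + 1)) ^ q :=
            Real.rpow_le_rpow (Nat.cast_nonneg _) h3 hq
        _ = (2 : ℝ) ^ (((j : ℝ) + 1) * q) := by
            rw [← Real.rpow_natCast, ← Real.rpow_mul (by norm_num)]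
            push_cast
            rfl
    refine h1.trans ?_
    rw [Finset.sum_const, nsmul_eq_mul]
    set a : ℝ := j / (2 * m) with ha
    have ha0 : 0 ≤ a := by positivity
    have ha1 : a ≤ 1 / 2 := by
      rw [ha, div_le_iff₀ (by positivity)]
      linarith
    have haj : 2 * m * a = j := by
      rw [ha]
      field_simp
    have hsub : (NN m 0).filter (fun S => Nat.log 2 (MM (2 * m) S 0) = j) ⊆ NN m a := by
      intro S hS
      rw [Finset.mem_filter] at hS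
      have h1' := one_le_MM hS.1
      rw [mem_NN']
      have h2 : 2 ^ j ≤ MM (2 * m) S 0 := by
        rw [← hS.2]
        exact Nat.pow_log_le_self 2 (by omega)
      have h3 : ((2 : ℝ) ^ j) ≤ (MM (2 * m) S 0 : ℝ) := by exact_mod_cast h2
      refine le_trans (le_of_eq ?_) h3
      have h4 : (4 : ℝ) = 2 ^ (2 : ℝ) := by norm_num
      rw [h4, ← Real.rpow_mul (by norm_num), ← Real.rpow_natCast]
      congr 1
      rw [← haj]
      ring
    have hcard : (((NN m 0).filter (fun S => Nat.log 2 (MM (2 * m) S 0) = j)).card : ℝ) ≤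
        2 ^ (2 * m * GG a) := by
      refine le_trans ?_ (card_le_GG ha1 m)
      exact_mod_cast Finset.card_le_card hsub
    calc (((NN m 0).filter (fun S => Nat.log 2 (MM (2 * m) S 0) = j)).card : ℝ) *
          (2 : ℝ) ^ (((j : ℝ) + 1) * q)
        ≤ 2 ^ (2 * m * GG a) * (2 : ℝ) ^ (((j : ℝ) + 1) * q) :=
          mul_le_mul_of_nonneg_right hcard (by positivity)
      _ = 2 ^ q * 2 ^ (2 * m * (GG a + q * a)) := by
          rw [← Real.rpow_add (by norm_num), ← Real.rpow_add (by norm_num)]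
          congr 1
          rw [← haj]
          ring
      _ ≤ 2 ^ q * 2 ^ (2 * m * c) := by
          apply mul_le_mul_of_nonneg_left _ (by positivity)
          apply Real.rpow_le_rpow_of_exponent_le (by norm_num)
          exact mul_le_mul_of_nonneg_left (h a ⟨ha0, ha1⟩) (by positivity)
  refine (Finset.sum_le_sum hterm).trans (le_of_eq ?_)
  rw [Finset.sum_const, Finset.card_range, nsmul_eq_mul]
  push_cast
  ring

end LegA

open LegA

theorem ee_le_PP {q : ℝ} (hq : 0 ≤ q) (m : ℕ) :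
    Real.logb 2 (ZZ (m + 1) q) / (2 * ((m + 1 : ℕ) : ℝ)) ≤ PP q :=
  le_ciSup (PP_bdd hq) m

theorem GG_add_le_PP {α q : ℝ} (h0 : 0 ≤ α) (h1 : α ≤ 1 / 2) (hq : 0 ≤ q) :
    GG α + q * α ≤ PP q := by
  have key : ∀ m : ℕ, ee (m + 1) α ≤ PP q - q * α := by
    intro m
    have hM : (0 : ℝ) < 2 * ((m + 1 : ℕ) : ℝ) := by positivity
    have hcpos : (0 : ℝ) < ((NN (m + 1) α).card : ℝ) := by
      have := Finset.card_pos.mpr (NN_nonempty (m + 1) h1)
      exact_mod_cast this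
    have hZ : ((NN (m + 1) α).card : ℝ) * 2 ^ (2 * ((m + 1 : ℕ) : ℝ) * (q * α)) ≤
        ZZ (m + 1) q := by
      calc ((NN (m + 1) α).card : ℝ) * 2 ^ (2 * ((m + 1 : ℕ) : ℝ) * (q * α))
          = ∑ _S ∈ NN (m + 1) α, (2 : ℝ) ^ (2 * ((m + 1 : ℕ) : ℝ) * (q * α)) := by
            rw [Finset.sum_const, nsmul_eq_mul]
        _ ≤ ∑ S ∈ NN (m + 1) α, (MM (2 * (m + 1)) S 0 : ℝ) ^ q := by
            apply Finset.sum_le_sum
            intro S hS
            have h2 := mem_NN'.mp hS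
            calc (2 : ℝ) ^ (2 * ((m + 1 : ℕ) : ℝ) * (q * α))
                = ((4 : ℝ) ^ (α * ((m + 1 : ℕ) : ℝ))) ^ q := by
                  have h4 : (4 : ℝ) = 2 ^ (2 : ℝ) := by norm_num
                  rw [h4, ← Real.rpow_mul (by norm_num), ← Real.rpow_mul (by norm_num)]
                  congr 1
                  ring
              _ ≤ (MM (2 * (m + 1)) S 0 : ℝ) ^ q :=
                  Real.rpow_le_rpow (by positivity) h2 hq
        _ ≤ ZZ (m + 1) q := by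
            unfold ZZ
            apply Finset.sum_le_sum_of_subset_of_nonneg (NN_anti (m + 1) h0)
            intro S _ _
            positivity
    have h3 := Real.logb_le_logb_of_le (by norm_num : (1 : ℝ) < 2)
      (mul_pos hcpos (by positivity)) hZ
    rw [Real.logb_mul hcpos.ne' (by positivity), Real.logb_rpow (by norm_num) (by norm_num)] at h3
    have h4 := ee_le_PP hq m
    have h5 : ee (m + 1) α + q * α ≤
        Real.logb 2 (ZZ (m + 1) q) / (2 * ((m + 1 : ℕ) : ℝ)) := by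
      rw [le_div_iff₀ hM]
      unfold ee
      rw [add_mul, div_mul_cancel₀ _ hM.ne']
      linarith
    linarith
  have h2 : GG α ≤ PP q - q * α := ciSup_le key
  linarith

theorem PP_le_of {q c : ℝ} (hq : 0 ≤ q) (h : ∀ α ∈ Icc (0 : ℝ) (1 / 2), GG α + q * α ≤ c) :
    PP q ≤ c := by
  refine ciSup_le fun m => ?_
  have hM : (0 : ℝ) < 2 * ((m + 1 : ℕ) : ℝ) := by positivity
  rw [div_le_iff₀ hM]
  by_contra hcon
  push Not at hcon
  set X := ZZ (m + 1) q with hX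
  have hXpos : 0 < X := ZZ_pos (m + 1) q
  set Y : ℝ := 2 ^ (2 * ((m + 1 : ℕ) : ℝ) * c) with hY
  have hYpos : 0 < Y := by positivity
  have hYX : Y < X := by
    rw [hY, ← Real.lt_logb_iff_rpow_lt (by norm_num) hXpos]
    linarith
  have hr : 1 < X / Y := by rwa [one_lt_div hYpos]
  have hbound : ∀ i : ℕ, (X / Y) ^ (i + 1) ≤
      ((m + 1 : ℕ) + 1 : ℝ) * 2 ^ q * ((i + 1 : ℕ) : ℝ) := by
    intro i
    have h1 := ZZ_pow_le hq (m + 1) i
    have h2 := ZZ_le_of hq h (m := (i + 1) * (m + 1))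
      (Nat.one_le_iff_ne_zero.mpr (by positivity))
    have h3 : (2 : ℝ) ^ (2 * (((i + 1) * (m + 1) : ℕ) : ℝ) * c) = Y ^ (i + 1) := by
      rw [hY, ← Real.rpow_natCast, ← Real.rpow_mul (by norm_num)]
      congr 1
      push_cast
      ring
    rw [h3] at h2
    have h4 := h1.trans h2
    rw [div_pow, div_le_iff₀ (by positivity)]
    refine h4.trans ?_
    apply mul_le_mul_of_nonneg_right _ (by positivity)
    have h5 : ((((i + 1) * (m + 1) : ℕ) : ℝ) + 1) ≤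
        ((m + 1 : ℕ) + 1 : ℝ) * ((i + 1 : ℕ) : ℝ) := by
      push_cast
      have : (0 : ℝ) ≤ i := Nat.cast_nonneg i
      nlinarith
    have h6 : (0 : ℝ) ≤ 2 ^ q := by positivity
    nlinarith [mul_le_mul_of_nonneg_right h5 h6]
  have hlim : Tendsto (fun i : ℕ => ((m + 1 : ℕ) + 1 : ℝ) * 2 ^ q *
      ((i : ℝ) ^ 1 / (X / Y) ^ i)) atTop (nhds 0) := by
    have := (tendsto_pow_const_div_const_pow_of_one_lt 1 hr).const_mul
      (((m + 1 : ℕ) + 1 : ℝ) * 2 ^ q)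
    rwa [mul_zero] at this
  have hlim' := hlim.comp (tendsto_add_atTop_nat 1)
  have h1 : (1 : ℝ) ≤ 0 := by
    refine ge_of_tendsto' hlim' (fun i => ?_)
    have h2 := hbound i
    have h3 : 0 < (X / Y) ^ (i + 1) := by positivity
    show 1 ≤ ((m + 1 : ℕ) + 1 : ℝ) * 2 ^ q * ((((i + 1 : ℕ) : ℝ)) ^ 1 / (X / Y) ^ (i + 1))
    rw [pow_one, ← mul_div_assoc, one_le_div h3]
    exact h2
  linarith

end H8TAK
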