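import Pool.Agent.H8.TAK.Base

/-!
# The sets `NN m β`: nonempty for `β ≤ 1/2`, trivial upper bound, and the relation to `levelCount`
-/

namespace H8TAK

/-- The ordinate `2 (4^m - 1) / 3`. -/
private def S0 : ℕ → ℤ
  | 0 => 0
  | l + 1 => 4 * S0 l + 2

private theorem S0_eq (l : ℕ) : 3 * S0 l = 2 * (4 ^ l - 1) := by
  induction l with
  | zero => simp [S0]
  | succ l ih =>
    have : 3 * S0 (l + 1) = 4 * (3 * S0 l) + 6 := by simp only [S0]; ring
    rw [this, ih, pow_succ]; ring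

private theorem S0_eq_div (l : ℕ) : S0 l = 2 * (4 ^ l - 1) / 3 := by
  rw [← S0_eq]
  omega

private theorem MM_S0_aux (l : ℕ) : 2 ^ l ≤ MM (2 * l) (S0 l) 0 := by
  induction l with
  | zero =>
    simp [MM, S0, ss, dd]
  | succ l ih =>
    set A := (Finset.range (2 ^ (2 * l))).filter (fun k => ss (2 * l) k = S0 l ∧ dd (2 * l) k = 0)
      with hA
    set B := (Finset.range (2 ^ (2 * (l + 1)))).filter
      (fun k => ss (2 * (l + 1)) k = S0 (l + 1) ∧ dd (2 * (l + 1)) k = 0) with hB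
    have hcardA : 2 ^ l ≤ A.card := ih
    change 2 ^ (l + 1) ≤ B.card
    have hle : (A ×ˢ ({1, 2} : Finset ℕ)).card ≤ B.card := by
      refine Finset.card_le_card_of_injOn (fun p => p.1 * 4 + p.2) ?_ ?_
      · intro p hp
        have hp' := Finset.mem_product.mp (Finset.mem_coe.mp hp)
        obtain ⟨hk, hk'⟩ := hp'
        rw [hA, Finset.mem_filter, Finset.mem_range] at hk
        obtain ⟨hlt, hs, hd⟩ := hk
        have hk2 : p.2 = 1 ∨ p.2 = 2 := by simpa using hk'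
        have h4 : p.2 < 2 ^ 2 := by rcases hk2 with h | h <;> rw [h] <;> norm_num
        have hs2 : ss 2 p.2 = 2 := by
          rcases hk2 with h | h <;> rw [h] <;> decide
        have hd2 : dd 2 p.2 = 0 := by
          rcases hk2 with h | h <;> rw [h] <;> decide
        have e1 := ss_append (2 * l) 2 p.1 p.2 h4
        have e2 := dd_append (2 * l) 2 p.1 p.2 h4
        rw [Finset.mem_coe, hB, Finset.mem_filter, Finset.mem_range]
        have hidx : 2 * (l + 1) = 2 * l + 2 := by ring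
        rw [hidx]
        have h22 : (2 : ℕ) ^ 2 = 4 := by norm_num
        rw [h22] at e1 e2 h4
        refine ⟨?_, ?_, ?_⟩
        · show p.1 * 4 + p.2 < 2 ^ (2 * l + 2)
          rw [pow_add, h22]
          omega
        · show ss (2 * l + 2) (p.1 * 4 + p.2) = S0 (l + 1)
          rw [e1, hs, hs2, hd, S0]; norm_num
        · show dd (2 * l + 2) (p.1 * 4 + p.2) = 0
          rw [e2, hd, hd2, add_zero]
      · intro p hp q hq hpq
        have hp' := (Finset.mem_product.mp (Finset.mem_coe.mp hp)).2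
        have hq' := (Finset.mem_product.mp (Finset.mem_coe.mp hq)).2
        have hp2 : p.2 = 1 ∨ p.2 = 2 := by simpa using hp'
        have hq2 : q.2 = 1 ∨ q.2 = 2 := by simpa using hq'
        have h : p.1 * 4 + p.2 = q.1 * 4 + q.2 := hpq
        refine Prod.ext ?_ ?_ <;> omega
    rw [Finset.card_product, Finset.card_pair (by norm_num)] at hle
    calc 2 ^ (l + 1) = 2 ^ l * 2 := pow_succ _ _
      _ ≤ A.card * 2 := Nat.mul_le_mul_right 2 hcardA
      _ ≤ B.card := hle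

theorem MM_S0 (l : ℕ) : 2 ^ l ≤ MM (2 * l) (2 * (4 ^ l - 1) / 3) 0 := by
  rw [← S0_eq_div]; exact MM_S0_aux l

theorem exists_S0 (l : ℕ) : ∃ S : ℤ, 2 ^ l ≤ MM (2 * l) S 0 := ⟨_, MM_S0_aux l⟩

private theorem mem_image_of_MM_pos {n : ℕ} {S D : ℤ} (h : 0 < MM n S D) :
    S ∈ (Finset.range (2 ^ n)).image (ss n) := by
  obtain ⟨k, hk⟩ := Finset.card_pos.mp h
  rw [Finset.mem_filter] at hk
  exact Finset.mem_image.mpr ⟨k, hk.1, hk.2.1⟩

theorem mem_NN {m : ℕ} {β : ℝ} {S : ℤ} :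
    S ∈ NN m β ↔ (4 : ℝ) ^ (β * m) ≤ (MM (2 * m) S 0 : ℝ) := by
  rw [NN, Finset.mem_filter]
  refine ⟨fun h => h.2, fun h => ⟨?_, h⟩⟩
  apply mem_image_of_MM_pos (D := 0)
  have h1 : (0 : ℝ) < (MM (2 * m) S 0 : ℝ) := (Real.rpow_pos_of_pos (by norm_num) _).trans_le h
  exact_mod_cast h1

theorem NN_nonempty (m : ℕ) {β : ℝ} (hβ : β ≤ 1 / 2) : (NN m β).Nonempty := by
  refine ⟨S0 m, mem_NN.mpr ?_⟩
  have h1 : ((2 : ℝ) ^ m) ≤ (MM (2 * m) (S0 m) 0 : ℝ) := by exact_mod_cast MM_S0_aux m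
  refine le_trans ?_ h1
  have h2 : (4 : ℝ) ^ ((1 / 2 : ℝ) * m) = 2 ^ m := by
    rw [Real.rpow_mul (by norm_num), Real.rpow_natCast]
    congr 1
    rw [show (4 : ℝ) = 2 ^ (2 : ℝ) by norm_num, ← Real.rpow_mul (by norm_num)]
    norm_num
  rw [← h2]
  apply Real.rpow_le_rpow_of_exponent_le (by norm_num)
  exact mul_le_mul_of_nonneg_right hβ (Nat.cast_nonneg m)

theorem NN_card_le (m : ℕ) (β : ℝ) : ((NN m β).card : ℝ) ≤ 2 ^ (2 * m * (1 - β)) := by
  have h1 : ∑ S ∈ NN m β, MM (2 * m) S 0 ≤ 2 ^ (2 * m) := by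
    have hdisj : (NN m β : Set ℤ).PairwiseDisjoint
        (fun S => (Finset.range (2 ^ (2 * m))).filter
          (fun k => ss (2 * m) k = S ∧ dd (2 * m) k = 0)) := by
      intro S _ S' _ hne
      rw [Function.onFun, Finset.disjoint_left]
      intro k hk hk'
      rw [Finset.mem_filter] at hk hk'
      exact hne (hk.2.1.symm.trans hk'.2.1)
    calc ∑ S ∈ NN m β, MM (2 * m) S 0
        = ((NN m β).biUnion (fun S => (Finset.range (2 ^ (2 * m))).filter
          (fun k => ss (2 * m) k = S ∧ dd (2 * m) k = 0))).card :=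
          (Finset.card_biUnion hdisj).symm
      _ ≤ (Finset.range (2 ^ (2 * m))).card := by
          refine Finset.card_le_card ?_
          intro k hk
          rw [Finset.mem_biUnion] at hk
          obtain ⟨S, _, hk⟩ := hk
          exact (Finset.mem_filter.mp hk).1
      _ = 2 ^ (2 * m) := Finset.card_range _
  have h2 : ((NN m β).card : ℝ) * (4 : ℝ) ^ (β * m) ≤ (2 : ℝ) ^ (2 * m) := by
    calc ((NN m β).card : ℝ) * (4 : ℝ) ^ (β * m) = ∑ _S ∈ NN m β, (4 : ℝ) ^ (β * m) := by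
          rw [Finset.sum_const, nsmul_eq_mul]
      _ ≤ ∑ S ∈ NN m β, (MM (2 * m) S 0 : ℝ) :=
          Finset.sum_le_sum (fun S hS => mem_NN.mp hS)
      _ ≤ (2 : ℝ) ^ (2 * m) := by exact_mod_cast h1
  have hpos : (0 : ℝ) < (4 : ℝ) ^ (β * m) := Real.rpow_pos_of_pos (by norm_num) _
  have h4 : (4 : ℝ) ^ (β * m) = 2 ^ (2 * m * β) := by
    rw [show (4 : ℝ) = 2 ^ (2 : ℝ) by norm_num, ← Real.rpow_mul (by norm_num)]
    congr 1; ring
  have h5 : (2 : ℝ) ^ (2 * m * (1 - β)) * (4 : ℝ) ^ (β * m) = (2 : ℝ) ^ (2 * m) := by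
    rw [h4, ← Real.rpow_add (by norm_num), ← Real.rpow_natCast]
    congr 1; push_cast; ring
  refine le_of_mul_le_mul_right ?_ hpos
  rw [h5]; exact h2

theorem takagi_div (m k : ℕ) : takagi ((k : ℝ) / 4 ^ m) = (ss (2 * m) k : ℝ) / 4 ^ m := by
  have h := takagi_affine (2 * m) k (t := 0) le_rfl zero_le_one
  rw [add_zero, takagi_zero, mul_zero, add_zero, add_zero, pow_mul] at h
  norm_num at h
  exact h

theorem mult_eq (m : ℕ) (S : ℤ) : mult m ((S : ℝ) / 4 ^ m) = MM (2 * m) S 0 := by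
  have hset : {k : ℕ | k < 4 ^ m ∧ (Nat.digits 2 k).sum = m ∧
      takagi ((k : ℝ) / 4 ^ m) = (S : ℝ) / 4 ^ m} =
      ((Finset.range (2 ^ (2 * m))).filter
        (fun k => ss (2 * m) k = S ∧ dd (2 * m) k = 0) : Set ℕ) := by
    ext k
    have hp : (2 : ℕ) ^ (2 * m) = 4 ^ m := by rw [pow_mul]; norm_num
    simp only [Finset.coe_filter, Finset.mem_range, hp]
    have h4 : (4 : ℝ) ^ m ≠ 0 := by positivity
    constructor
    · rintro ⟨h1, h2, h3⟩
      refine ⟨h1, ?_, ?_⟩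
      · rw [takagi_div, div_left_inj' h4] at h3
        exact_mod_cast h3
      · rw [dd_eq_digits _ _ (by rw [hp]; exact h1), h2]; push_cast; ring
    · rintro ⟨h1, h2, h3⟩
      refine ⟨h1, ?_, ?_⟩
      · rw [dd_eq_digits _ _ (by rw [hp]; exact h1)] at h3
        have h5 : ((2 * m : ℕ) : ℤ) = 2 * ((Nat.digits 2 k).sum : ℤ) := by linarith
        have h6 : 2 * m = 2 * (Nat.digits 2 k).sum := by exact_mod_cast h5
        omega
      · rw [takagi_div, h2]
  rw [mult, hset, Set.ncard_coe_finset, MM]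

theorem levelCount_eq (m : ℕ) (α : ℝ) : levelCount m α = (NN m α).card := by
  have h4 : (4 : ℝ) ^ m ≠ 0 := by positivity
  have hinj : Function.Injective (fun S : ℤ => (S : ℝ) / 4 ^ m) := by
    intro S S' h
    have h' : (S : ℝ) / 4 ^ m = (S' : ℝ) / 4 ^ m := h
    rw [div_left_inj' h4] at h'
    exact_mod_cast h'
  have hset : {y : ℝ | (4 : ℝ) ^ (α * m) ≤ mult m y} =
      (fun S : ℤ => (S : ℝ) / 4 ^ m) '' (NN m α : Set ℤ) := by
    ext y
    constructor
    · intro hy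
      have hy' : (4 : ℝ) ^ (α * m) ≤ mult m y := hy
      have hpos : 0 < mult m y := by
        have : (0 : ℝ) < (mult m y : ℝ) := (Real.rpow_pos_of_pos (by norm_num) _).trans_le hy'
        exact_mod_cast this
      obtain ⟨k, hk⟩ : {k : ℕ | k < 4 ^ m ∧ (Nat.digits 2 k).sum = m ∧
          takagi ((k : ℝ) / 4 ^ m) = y}.Nonempty := by
        rw [Set.nonempty_iff_ne_empty]
        intro he
        rw [mult, he, Set.ncard_empty] at hpos
        exact lt_irrefl _ hpos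
      have hyS : y = (ss (2 * m) k : ℝ) / 4 ^ m := by rw [← takagi_div]; exact hk.2.2.symm
      refine ⟨ss (2 * m) k, ?_, hyS.symm⟩
      rw [Finset.mem_coe, mem_NN, ← mult_eq, ← hyS]
      exact hy'
    · rintro ⟨S, hS, rfl⟩
      show (4 : ℝ) ^ (α * m) ≤ mult m ((S : ℝ) / 4 ^ m)
      rw [mult_eq]
      exact mem_NN.mp hS
  rw [levelCount, hset, Set.ncard_image_of_injective _ hinj, Set.ncard_coe_finset]

end H8TAK
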