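import Pool.Agent.H8.TAK.Base
import Pool.Agent.H8.TAK.Dim
import Pool.Agent.H8.TAK.CL

/-!
# Upper bound for the dimension spectrum
-/

namespace H8TAK

open Filter

/-! ## Appending a constant word -/

theorem ub_dd_zero (n : ℕ) : dd n 0 = n := by
  induction n with
  | zero => simp [dd]
  | succ n ih => simp [dd, ih]

theorem ub_ss_zero (n : ℕ) : ss n 0 = 0 := by
  induction n with
  | zero => simp [ss]
  | succ n ih => simp [ss, ih]

theorem ub_append (D : ℤ) : ∃ (k' : ℕ) (c : ℤ), k' < 2 ^ D.natAbs ∧ ∀ n k : ℕ, dd n k = D →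
    dd (n + D.natAbs) (k * 2 ^ D.natAbs + k') = 0 ∧
      ss (n + D.natAbs) (k * 2 ^ D.natAbs + k') = 2 ^ D.natAbs * ss n k + c := by
  have hpos : 0 < 2 ^ D.natAbs := by positivity
  rcases le_or_gt 0 D with h | h
  · have hab : ((D.natAbs : ℕ) : ℤ) = D := Int.natAbs_of_nonneg h
    refine ⟨2 ^ D.natAbs - 1, D.natAbs + D * ((2 ^ D.natAbs - 1 : ℕ) : ℤ), by omega, ?_⟩
    intro n k hk
    have h1 := dd_append n D.natAbs k (2 ^ D.natAbs - 1) (by omega)
    have h2 := ss_append n D.natAbs k (2 ^ D.natAbs - 1) (by omega)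
    have h3 := dd_compl D.natAbs 0 hpos
    have h4 := ss_compl D.natAbs 0 hpos
    rw [Nat.sub_zero, ub_dd_zero] at h3
    rw [Nat.sub_zero, ub_dd_zero, ub_ss_zero] at h4
    rw [h3, hk, hab] at h1
    rw [h4, hk] at h2
    refine ⟨by rw [h1]; ring, by rw [h2]; ring⟩
  · have hab : ((D.natAbs : ℕ) : ℤ) = -D := by omega
    refine ⟨0, 0, hpos, ?_⟩
    intro n k hk
    have h1 := dd_append n D.natAbs k 0 hpos
    have h2 := ss_append n D.natAbs k 0 hpos
    rw [ub_dd_zero, hk, hab] at h1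
    rw [ub_ss_zero] at h2
    refine ⟨by rw [h1]; ring, by rw [h2]; push_cast; ring⟩

theorem ub_MM_le {D : ℤ} {k' : ℕ} {c : ℤ} (hk' : k' < 2 ^ D.natAbs)
    (h : ∀ n k : ℕ, dd n k = D →
      dd (n + D.natAbs) (k * 2 ^ D.natAbs + k') = 0 ∧
      ss (n + D.natAbs) (k * 2 ^ D.natAbs + k') = 2 ^ D.natAbs * ss n k + c)
    (n : ℕ) (S : ℤ) :
    MM n S D ≤ MM (n + D.natAbs) (2 ^ D.natAbs * S + c) 0 := by
  unfold MM
  apply Finset.card_le_card_of_injOn (fun k => k * 2 ^ D.natAbs + k')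
  · intro k hk
    simp only [Finset.coe_filter, Finset.mem_range, Set.mem_setOf_eq] at hk ⊢
    obtain ⟨hk1, hk2, hk3⟩ := hk
    obtain ⟨h1, h2⟩ := h n k hk3
    refine ⟨?_, by rw [h2, hk2], h1⟩
    have : (k + 1) * 2 ^ D.natAbs ≤ 2 ^ n * 2 ^ D.natAbs := Nat.mul_le_mul_right _ hk1
    rw [pow_add]
    nlinarith
  · intro a _ b _ hab
    have hpos : 0 < 2 ^ D.natAbs := by positivity
    simp only at hab
    have : a * 2 ^ D.natAbs = b * 2 ^ D.natAbs := by omega
    exact Nat.eq_of_mul_eq_mul_right hpos this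

/-! ## The states of large multiplicity -/

/-- The states of words of length `n` with `|D| ≤ δ n` and multiplicity at least `2^(a n)`. -/
noncomputable def ubEE (δ a : ℝ) (n : ℕ) : Finset (ℤ × ℤ) :=
  ((Finset.range (2 ^ n)).image (fun k => (ss n k, dd n k))).filter
    (fun p => |(p.2 : ℝ)| ≤ δ * n ∧ (2 : ℝ) ^ (a * n) ≤ (MM n p.1 p.2 : ℝ))

theorem mem_EE {δ a : ℝ} {n : ℕ} {p : ℤ × ℤ} :
    p ∈ ubEE δ a n ↔ (∃ k < 2 ^ n, (ss n k, dd n k) = p) ∧ |(p.2 : ℝ)| ≤ δ * n ∧
      (2 : ℝ) ^ (a * n) ≤ (MM n p.1 p.2 : ℝ) := by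
  simp [ubEE]

theorem ubEE_snd_mem {δ a : ℝ} {n : ℕ} {p : ℤ × ℤ} (h : p ∈ ubEE δ a n) :
    p.2 ∈ Finset.Icc (-(n : ℤ)) n := by
  obtain ⟨⟨k, _, hk⟩, _⟩ := mem_EE.mp h
  have := abs_le.mp (abs_dd_le n k)
  rw [← hk]
  exact Finset.mem_Icc.mpr this

theorem ubEE_card_le {δ α' g : ℝ} (h0 : 0 ≤ α') (hg : 0 ≤ g)
    (hN : ∀ m : ℕ, ((NN m α').card : ℝ) ≤ 2 ^ (2 * m * g)) (n : ℕ) :
    ((ubEE δ (α' * (1 + δ)) n).card : ℝ) ≤ (2 * n + 1) * 2 ^ ((1 + δ) * g * n) := by
  set s := ubEE δ (α' * (1 + δ)) n with hs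
  have key : ∀ D ∈ s.image Prod.snd,
      (s.filter (fun p => p.2 = D)).card ≤ ⌊(2 : ℝ) ^ ((1 + δ) * g * n)⌋₊ := by
    intro D hD
    obtain ⟨k', c, hk', hkc⟩ := ub_append D
    obtain ⟨p0, hp0, hp0D⟩ := Finset.mem_image.mp hD
    obtain ⟨⟨k0, hk0, hk0p⟩, hp1, hp2⟩ := mem_EE.mp hp0
    have hDk0 : dd n k0 = D := by rw [← hp0D, ← hk0p]
    have hpar := dd_parity n k0
    rw [hDk0] at hpar
    have hDle : ((D.natAbs : ℕ) : ℝ) ≤ δ * n := by
      rw [hp0D] at hp1
      rw [Nat.cast_natAbs]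
      exact_mod_cast hp1
    obtain ⟨m, hm⟩ : ∃ m : ℕ, n + D.natAbs = 2 * m := by
      have : 2 ∣ n + D.natAbs := by omega
      exact this
    apply Nat.le_floor
    have hmR : (n : ℝ) + (D.natAbs : ℕ) = 2 * m := by exact_mod_cast hm
    calc ((s.filter (fun p => p.2 = D)).card : ℝ) ≤ ((NN m α').card : ℝ) := by
          norm_cast
          apply Finset.card_le_card_of_injOn (fun p => 2 ^ D.natAbs * p.1 + c)
          · intro p hp
            simp only [Finset.coe_filter, Set.mem_setOf_eq] at hp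
            obtain ⟨hp, hpD⟩ := hp
            obtain ⟨⟨k, hk, hkp⟩, hp3, hp4⟩ := mem_EE.mp hp
            have e1 : ss n k = p.1 := by rw [← hkp]
            have e2 : dd n k = D := by rw [← hpD, ← hkp]
            obtain ⟨f1, f2⟩ := hkc n k e2
            have hle := ub_MM_le hk' hkc n p.1
            rw [hm] at hle f1 f2
            simp only [NN, Finset.coe_filter, Finset.mem_image, Finset.mem_range,
              Set.mem_setOf_eq]
            refine ⟨⟨k * 2 ^ D.natAbs + k', ?_, by rw [f2, e1]⟩, ?_⟩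
            · rw [← hm, pow_add]
              have : (k + 1) * 2 ^ D.natAbs ≤ 2 ^ n * 2 ^ D.natAbs := Nat.mul_le_mul_right _ hk
              nlinarith
            · rw [hpD] at hp4
              calc (4 : ℝ) ^ (α' * m) = (2 : ℝ) ^ (α' * (2 * m)) := by
                    rw [show (4 : ℝ) = (2 : ℝ) ^ (2 : ℝ) by norm_num, ← Real.rpow_mul (by norm_num)]
                    congr 1; ring
                _ ≤ (2 : ℝ) ^ (α' * (1 + δ) * n) := by
                    apply Real.rpow_le_rpow_of_exponent_le (by norm_num)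
                    rw [← hmR, mul_assoc]
                    apply mul_le_mul_of_nonneg_left _ h0
                    linarith
                _ ≤ (MM n p.1 D : ℝ) := hp4
                _ ≤ _ := by exact_mod_cast hle
          · intro p hp q hq hpq
            simp only [Finset.coe_filter, Set.mem_setOf_eq] at hp hq
            simp only at hpq
            have hpos : (0 : ℤ) < 2 ^ D.natAbs := by positivity
            have : p.1 = q.1 := by
              have : 2 ^ D.natAbs * p.1 = 2 ^ D.natAbs * q.1 := by linarith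
              exact mul_left_cancel₀ hpos.ne' this
            exact Prod.ext this (by rw [hp.2, hq.2])
      _ ≤ 2 ^ (2 * m * g) := hN m
      _ ≤ 2 ^ ((1 + δ) * g * n) := by
          apply Real.rpow_le_rpow_of_exponent_le (by norm_num)
          rw [← hmR]
          have := mul_le_mul_of_nonneg_right hDle hg
          nlinarith
  have h1 := Finset.card_le_mul_card_image (f := Prod.snd) s _ key
  have h2 : (s.image Prod.snd).card ≤ 2 * n + 1 := by
    calc (s.image Prod.snd).card ≤ (Finset.Icc (-(n : ℤ)) n).card := by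
          apply Finset.card_le_card
          intro D hD
          obtain ⟨p, hp, hpD⟩ := Finset.mem_image.mp hD
          rw [← hpD]
          exact ubEE_snd_mem hp
      _ = 2 * n + 1 := by
          rw [Int.card_Icc]; omega
  have h3 : (⌊(2 : ℝ) ^ ((1 + δ) * g * n)⌋₊ : ℝ) ≤ 2 ^ ((1 + δ) * g * n) :=
    Nat.floor_le (by positivity)
  calc (s.card : ℝ) ≤ ((⌊(2 : ℝ) ^ ((1 + δ) * g * n)⌋₊ * (s.image Prod.snd).card : ℕ) : ℝ) := by
        exact_mod_cast h1
    _ = (⌊(2 : ℝ) ^ ((1 + δ) * g * n)⌋₊ : ℝ) * ((s.image Prod.snd).card : ℝ) := by push_cast; ring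
    _ ≤ 2 ^ ((1 + δ) * g * n) * (2 * n + 1) := by
        apply mul_le_mul h3 _ (by positivity) (by positivity)
        exact_mod_cast h2
    _ = _ := by ring

/-- The exceptional set of ordinates. -/
def ubTT (δ a : ℝ) : Set ℝ :=
  {y | ∃ᶠ n : ℕ in atTop, ∃ p ∈ ubEE δ a n, |2 ^ n * y - (p.1 : ℝ)| ≤ |(p.2 : ℝ)| + 1}

theorem dimH_TT_le {δ α' g : ℝ} (hδ : 0 ≤ δ) (h0 : 0 ≤ α') (hg : 0 ≤ g)
    (hN : ∀ m : ℕ, ((NN m α').card : ℝ) ≤ 2 ^ (2 * m * g)) :
    dimH (ubTT δ (α' * (1 + δ))) ≤ ENNReal.ofReal ((1 + δ) * g) := by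
  apply dimH_limsup_le (C := 2) 1 (by positivity) (by norm_num)
    (fun n => (ubEE δ (α' * (1 + δ)) n).image (fun p => (p.1 : ℝ) / 2 ^ n))
  · filter_upwards with n
    calc (((ubEE δ (α' * (1 + δ)) n).image (fun p => (p.1 : ℝ) / 2 ^ n)).card : ℝ)
        ≤ ((ubEE δ (α' * (1 + δ)) n).card : ℝ) := by exact_mod_cast Finset.card_image_le
      _ ≤ (2 * n + 1) * 2 ^ ((1 + δ) * g * n) := ubEE_card_le h0 hg hN n
      _ ≤ 2 * ((n : ℝ) + 1) ^ 1 * 2 ^ ((1 + δ) * g * n) := by
          apply mul_le_mul_of_nonneg_right _ (by positivity)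
          linarith
  · intro y hy
    refine Frequently.mono hy ?_
    rintro n ⟨p, hp, hpy⟩
    refine ⟨_, Finset.mem_image_of_mem _ hp, ?_⟩
    have h2 : (0 : ℝ) < 2 ^ n := by positivity
    have e : y - (p.1 : ℝ) / 2 ^ n = (2 ^ n * y - (p.1 : ℝ)) / 2 ^ n := by
      field_simp
    rw [e, abs_div, abs_of_pos h2]
    apply div_le_div_of_nonneg_right _ h2.le
    have h3 : |(p.2 : ℝ)| ≤ n := by
      have := Finset.mem_Icc.mp (ubEE_snd_mem hp)
      rw [abs_le]
      constructor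
      · exact_mod_cast this.1
      · exact_mod_cast this.2
    linarith

/-! ## Abscissas with frequent small height -/

/-- The words of length `n` with small height, compatible with `y`, of small multiplicity. -/
noncomputable def ubFF (δ a y : ℝ) (n : ℕ) : Finset ℕ :=
  (Finset.range (2 ^ n)).filter (fun k => |2 ^ n * y - (ss n k : ℝ)| ≤ |(dd n k : ℝ)| + 1 ∧
    (MM n (ss n k) (dd n k) : ℝ) < (2 : ℝ) ^ (a * n))

theorem ubFF_card_le (δ a y : ℝ) (n : ℕ) :
    ((ubFF δ a y n).card : ℝ) ≤ 8 * ((n : ℝ) + 1) ^ 2 * 2 ^ (a * n) := by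
  set s := ubFF δ a y n with hs
  set f : ℕ → ℤ × ℤ := fun k => (ss n k, dd n k) with hf
  have key : ∀ p ∈ s.image f,
      (s.filter (fun k => f k = p)).card ≤ ⌊(2 : ℝ) ^ (a * n)⌋₊ := by
    intro p hp
    obtain ⟨k0, hk0, hk0p⟩ := Finset.mem_image.mp hp
    have hk0' := (Finset.mem_filter.mp hk0).2.2
    apply Nat.le_floor
    refine le_trans ?_ hk0'.le
    norm_cast
    unfold MM
    apply Finset.card_le_card
    intro k hk
    obtain ⟨hk1, hk2⟩ := Finset.mem_filter.mp hk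
    rw [← hk0p] at hk2
    simp only [hf, Prod.mk.injEq] at hk2
    exact Finset.mem_filter.mpr ⟨(Finset.mem_filter.mp hk1).1, hk2⟩
  have h1 := Finset.card_le_mul_card_image (f := f) s _ key
  have h2 : (s.image f).card ≤ (2 * n + 4) * (2 * n + 1) := by
    calc (s.image f).card ≤ (Finset.Icc (⌊2 ^ n * y⌋ - n - 1) (⌊2 ^ n * y⌋ + n + 2) ×ˢ
          Finset.Icc (-(n : ℤ)) n).card := by
          apply Finset.card_le_card
          intro p hp
          obtain ⟨k, hk, hkp⟩ := Finset.mem_image.mp hp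
          have hk1 := (Finset.mem_filter.mp hk).2.1
          have hd := abs_le.mp (abs_dd_le n k)
          have hdR : |(dd n k : ℝ)| ≤ n := by
            rw [abs_le]
            constructor
            · exact_mod_cast hd.1
            · exact_mod_cast hd.2
          rw [← hkp]
          simp only [hf, Finset.mem_product, Finset.mem_Icc]
          have h5 := abs_le.mp (le_trans hk1 (add_le_add_left hdR 1))
          have h6 := Int.floor_le ((2 : ℝ) ^ n * y)
          have h7 := Int.lt_floor_add_one ((2 : ℝ) ^ n * y)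
          refine ⟨⟨?_, ?_⟩, hd⟩
          · have : ((⌊2 ^ n * y⌋ : ℤ) : ℝ) - n - 1 ≤ (ss n k : ℝ) := by linarith [h5.2]
            exact_mod_cast this
          · have : (ss n k : ℝ) ≤ ((⌊2 ^ n * y⌋ : ℤ) : ℝ) + n + 2 := by linarith [h5.1]
            exact_mod_cast this
      _ = (2 * n + 4) * (2 * n + 1) := by
          rw [Finset.card_product, Int.card_Icc, Int.card_Icc]
          congr 1
          · omega
          · omega
  have h3 : (⌊(2 : ℝ) ^ (a * n)⌋₊ : ℝ) ≤ 2 ^ (a * n) := Nat.floor_le (by positivity)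
  calc (s.card : ℝ) ≤ ((⌊(2 : ℝ) ^ (a * n)⌋₊ * (s.image f).card : ℕ) : ℝ) := by
        exact_mod_cast h1
    _ = (⌊(2 : ℝ) ^ (a * n)⌋₊ : ℝ) * ((s.image f).card : ℝ) := by push_cast; ring
    _ ≤ 2 ^ (a * n) * (((2 * n + 4) * (2 * n + 1) : ℕ) : ℝ) := by
        apply mul_le_mul h3 _ (by positivity) (by positivity)
        exact_mod_cast h2
    _ ≤ 2 ^ (a * n) * (8 * ((n : ℝ) + 1) ^ 2) := by
        apply mul_le_mul_of_nonneg_left _ (by positivity)
        push_cast
        nlinarith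
    _ = _ := by ring

/-- If `y` is not exceptional the level set has small dimension. -/
theorem dimH_levelSet_le {δ a y : ℝ} (hδ : 0 ≤ δ) (ha : 0 ≤ a) (hy : y ∉ ubTT δ a) :
    dimH (levelSet y) ≤ ENNReal.ofReal a := by
  set CL : Set ℝ := levelSet y ∩ {x | x < 1 ∧ ∀ᶠ n : ℕ in atTop, dd n ⌊2 ^ n * x⌋₊ ≠ 0} with hCL
  set L1 : Set ℝ := {x | x ∈ levelSet y ∧ x < 1 ∧
    ∃ᶠ n : ℕ in atTop, |(dd n ⌊2 ^ n * x⌋₊ : ℝ)| ≤ δ * n} with hL1
  have hsub : levelSet y ⊆ ({1} ∪ CL) ∪ L1 := by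
    intro x hx
    by_cases h1 : x = 1
    · left; left; exact h1
    · have hx1 : x < 1 := lt_of_le_of_ne hx.1.2 h1
      by_cases h2 : ∃ᶠ n : ℕ in atTop, |(dd n ⌊2 ^ n * x⌋₊ : ℝ)| ≤ δ * n
      · right; exact ⟨hx, hx1, h2⟩
      · left; right
        refine ⟨hx, hx1, ?_⟩
        rw [not_frequently] at h2
        filter_upwards [h2] with n hn h0
        apply hn
        rw [h0]
        simp only [Int.cast_zero, abs_zero]
        positivity
  have hd1 : dimH L1 ≤ ENNReal.ofReal a := by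
    apply dimH_limsup_le (C := 8) 2 ha (by norm_num)
      (fun n => (ubFF δ a y n).image (fun k : ℕ => (k : ℝ) / 2 ^ n))
    · filter_upwards with n
      calc (((ubFF δ a y n).image (fun k : ℕ => (k : ℝ) / 2 ^ n)).card : ℝ)
          ≤ ((ubFF δ a y n).card : ℝ) := by exact_mod_cast Finset.card_image_le
        _ ≤ _ := ubFF_card_le δ a y n
    · rintro x ⟨hx, hx1, hfr⟩
      have hy' : ∀ᶠ n : ℕ in atTop, ¬ ∃ p ∈ ubEE δ a n, |2 ^ n * y - (p.1 : ℝ)| ≤ |(p.2 : ℝ)| + 1 := by
        rw [← not_frequently]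
        exact hy
      refine (hfr.and_eventually hy').mono ?_
      rintro n ⟨hn1, hn2⟩
      have hx0 : 0 ≤ x := hx.1.1
      have h2 : (0 : ℝ) < 2 ^ n := by positivity
      set k := ⌊2 ^ n * x⌋₊ with hk
      have hk0 : (k : ℝ) ≤ 2 ^ n * x := Nat.floor_le (by positivity)
      have hk1 : 2 ^ n * x < k + 1 := Nat.lt_floor_add_one _
      have hkn : k < 2 ^ n := by
        have : (k : ℝ) < 2 ^ n := by nlinarith
        exact_mod_cast this
      have haff := takagi_affine n k (t := 2 ^ n * x - k) (by linarith) (by linarith)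
      have hxe : ((k : ℝ) + (2 ^ n * x - k)) / 2 ^ n = x := by
        field_simp
        ring
      rw [hxe, hx.2] at haff
      have hyS : 2 ^ n * y - (ss n k : ℝ) = takagi (2 ^ n * x - k) + dd n k * (2 ^ n * x - k) := by
        rw [haff]
        field_simp
        ring
      have hyb : |2 ^ n * y - (ss n k : ℝ)| ≤ |(dd n k : ℝ)| + 1 := by
        rw [hyS]
        have ht1 := takagi_nonneg (2 ^ n * x - k)
        have ht2 := takagi_le (2 ^ n * x - k)
        calc |takagi (2 ^ n * x - k) + dd n k * (2 ^ n * x - k)|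
            ≤ |takagi (2 ^ n * x - k)| + |dd n k * (2 ^ n * x - k)| := abs_add_le _ _
          _ ≤ 1 + |(dd n k : ℝ)| := by
              apply add_le_add
              · rw [abs_of_nonneg ht1]; linarith
              · rw [abs_mul]
                have : |2 ^ n * x - (k : ℝ)| ≤ 1 := by
                  rw [abs_le]; constructor <;> linarith
                calc |(dd n k : ℝ)| * |2 ^ n * x - (k : ℝ)| ≤ |(dd n k : ℝ)| * 1 :=
                      mul_le_mul_of_nonneg_left this (abs_nonneg _)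
                  _ = _ := mul_one _
          _ = _ := by ring
      have hMM : (MM n (ss n k) (dd n k) : ℝ) < (2 : ℝ) ^ (a * n) := by
        by_contra hcon
        rw [not_lt] at hcon
        apply hn2
        exact ⟨(ss n k, dd n k), mem_EE.mpr ⟨⟨k, hkn, rfl⟩, hn1, hcon⟩, hyb⟩
      refine ⟨(k : ℝ) / 2 ^ n, ?_, ?_⟩
      · apply Finset.mem_image_of_mem
        exact Finset.mem_filter.mpr ⟨Finset.mem_range.mpr hkn, hyb, hMM⟩
      · have e : x - (k : ℝ) / 2 ^ n = (2 ^ n * x - k) / 2 ^ n := by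
          field_simp
        rw [e, abs_div, abs_of_pos h2]
        apply div_le_div_of_nonneg_right _ h2.le
        rw [abs_le]
        have : (0 : ℝ) ≤ n := Nat.cast_nonneg n
        constructor <;> linarith
  calc dimH (levelSet y) ≤ dimH (({1} ∪ CL) ∪ L1) := dimH_mono hsub
    _ = max (max (dimH ({1} : Set ℝ)) (dimH CL)) (dimH L1) := by rw [dimH_union, dimH_union]
    _ ≤ ENNReal.ofReal a := by
        apply max_le (max_le _ _) hd1
        · rw [dimH_singleton]; exact bot_le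
        · rw [dimH_countable (countable_level y)]; exact bot_le

theorem spectrum_le {α' α g : ℝ} (h0 : 0 ≤ α') (h1 : α' < α) (hg : 0 ≤ g)
    (hN : ∀ m : ℕ, ((NN m α').card : ℝ) ≤ 2 ^ (2 * m * g)) :
    fTau α ≤ ENNReal.ofReal g := by
  have hα : 0 < α := lt_of_le_of_lt h0 h1
  have ht : Tendsto (fun δ : ℝ => ENNReal.ofReal ((1 + δ) * g)) (nhdsWithin 0 (Set.Ioi 0))
      (nhds (ENNReal.ofReal g)) := by
    have hc : Continuous (fun δ : ℝ => ENNReal.ofReal ((1 + δ) * g)) :=
      ENNReal.continuous_ofReal.comp (by fun_prop)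
    have := hc.tendsto 0
    simp only [add_zero, one_mul] at this
    exact this.mono_left nhdsWithin_le_nhds
  refine ge_of_tendsto ht ?_
  have ht2 : Tendsto (fun δ : ℝ => α' * (1 + δ)) (nhdsWithin 0 (Set.Ioi 0)) (nhds α') := by
    have hc : Continuous (fun δ : ℝ => α' * (1 + δ)) := by fun_prop
    have := hc.tendsto 0
    simp only [add_zero, mul_one] at this
    exact this.mono_left nhdsWithin_le_nhds
  filter_upwards [ht2.eventually (gt_mem_nhds h1), self_mem_nhdsWithin] with δ hδ1 hδ0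
  have hδ : 0 ≤ δ := le_of_lt hδ0
  refine le_trans (dimH_mono ?_) (dimH_TT_le hδ h0 hg hN)
  rintro y ⟨hy, hdim⟩
  by_contra hcon
  have h2 := dimH_levelSet_le hδ (mul_nonneg h0 (by linarith)) hcon
  have h3 := le_trans hdim h2
  have h4 : ENNReal.ofReal (α' * (1 + δ)) < ENNReal.ofReal α :=
    (ENNReal.ofReal_lt_ofReal_iff hα).mpr hδ1
  exact absurd h3 (not_le.mpr h4)

end H8TAK
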