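import Pool.Agent.H8.TAK.LB
import Pool.Agent.H8.TAK.UB
import Pool.Agent.H8.TAK.G0
import Pool.Agent.H8.TAK.NNs
import Pool.Agent.H8.TAK.Conc
import Pool.Agent.H8.TAK.Ladder

/-!
# Main statements: collected
-/
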