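import Pool.Agent.H8.TAK.Leg

/-!
# Moment sums in terms of ordinates
-/

namespace H8TAK

open Set

theorem momentSum_eq (m : ℕ) {q : ℝ} (hq : 0 < q) : momentSum m q = ZZ m q := by
  have h4 : (4 : ℝ) ^ m ≠ 0 := by positivity
  have hinj : Function.Injective (fun S : ℤ => (S : ℝ) / 4 ^ m) := by
    intro S S' h
    have h' : (S : ℝ) / 4 ^ m = (S' : ℝ) / 4 ^ m := h
    rw [div_left_inj' h4] at h'
    exact_mod_cast h'
  have hsupp : Function.support (fun y : ℝ => (mult m y : ℝ) ^ q) ⊆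
      (((NN m 0).image (fun S : ℤ => (S : ℝ) / 4 ^ m) : Finset ℝ) : Set ℝ) := by
    intro y hy
    have hy' : (mult m y : ℝ) ^ q ≠ 0 := hy
    have hpos : 0 < mult m y := by
      rcases Nat.eq_zero_or_pos (mult m y) with h | h
      · exfalso
        rw [h, Nat.cast_zero, Real.zero_rpow hq.ne'] at hy'
        exact hy' rfl
      · exact h
    obtain ⟨k, hk⟩ : {k : ℕ | k < 4 ^ m ∧ (Nat.digits 2 k).sum = m ∧
        takagi ((k : ℝ) / 4 ^ m) = y}.Nonempty := by
      rw [Set.nonempty_iff_ne_empty]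
      intro he
      rw [mult, he, Set.ncard_empty] at hpos
      exact lt_irrefl _ hpos
    have hyS : y = (ss (2 * m) k : ℝ) / 4 ^ m := by rw [← takagi_div]; exact hk.2.2.symm
    rw [Finset.coe_image]
    refine ⟨ss (2 * m) k, ?_, hyS.symm⟩
    rw [Finset.mem_coe, mem_NN, ← mult_eq, ← hyS, zero_mul, Real.rpow_zero]
    exact_mod_cast hpos
  rw [momentSum, finsum_eq_sum_of_support_subset _ hsupp,
    Finset.sum_image (fun a _ b _ h => hinj h)]
  unfold ZZ
  refine Finset.sum_congr rfl fun S _ => ?_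
  rw [mult_eq]

theorem pressure_eq {q : ℝ} (hq : 0 < q) : pressure q = PP q := by
  unfold pressure PP
  congr 1
  funext m
  rw [momentSum_eq _ hq]

end H8TAK
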