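import Pool.Agent.H8.TAK.Base
import Pool.Agent.H8.TAK.PressDefs

/-!
# Pressure: the weighted counts `UU` and `TT`
-/

namespace H8TAK

/-- The number of suffixes of length `n` which lead from height `D` to height `0` and add `c`. -/
private def PA_FF (n : ℕ) (D c : ℤ) : ℕ :=
  ((Finset.range (2 ^ n)).filter (fun k => D + dd n k = 0 ∧ ss n k + D * (k : ℤ) = c)).card

private theorem PA_dd_low (n k : ℕ) (h : k < 2 ^ n) : dd (n + 1) k = 1 + dd n k := by
  have h1 := dd_append 1 n 0 k h
  have h2 : dd 1 0 = 1 := by simp [dd]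
  rw [h2, zero_mul, zero_add, add_comm 1 n] at h1
  exact h1

private theorem PA_dd_high (n k : ℕ) (h : k < 2 ^ n) : dd (n + 1) (2 ^ n + k) = -1 + dd n k := by
  have h1 := dd_append 1 n 1 k h
  have h2 : dd 1 1 = -1 := by simp [dd]
  rw [h2, one_mul, add_comm 1 n] at h1
  exact h1

private theorem PA_ss_low (n k : ℕ) (h : k < 2 ^ n) : ss (n + 1) k = ss n k + k := by
  have h1 := ss_append 1 n 0 k h
  have h2 : dd 1 0 = 1 := by simp [dd]
  have h3 : ss 1 0 = 0 := by simp [ss]
  rw [h2, h3, zero_mul, zero_add, add_comm 1 n, mul_zero, zero_add, one_mul] at h1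
  exact h1

private theorem PA_ss_high (n k : ℕ) (h : k < 2 ^ n) : ss (n + 1) (2 ^ n + k) = 2 ^ n + ss n k - k := by
  have h1 := ss_append 1 n 1 k h
  have h2 : dd 1 1 = -1 := by simp [dd]
  have h3 : ss 1 1 = 1 := by simp [ss, dd]
  rw [h2, h3, one_mul, add_comm 1 n, mul_one] at h1
  rw [h1]; ring

private theorem PA_FF_succ (n : ℕ) (D c : ℤ) :
    PA_FF (n + 1) D c = PA_FF n (D + 1) c + PA_FF n (D - 1) (c - 2 ^ n * (1 + D)) := by
  unfold PA_FF
  simp only [Finset.range_eq_Ico]
  rw [pow_succ, mul_two,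
    ← Finset.Ico_union_Ico_eq_Ico (Nat.zero_le (2 ^ n)) (Nat.le_add_right (2 ^ n) (2 ^ n)),
    Finset.filter_union, Finset.card_union_of_disjoint]
  · congr 1
    · congr 1
      apply Finset.filter_congr
      intro k hk
      rw [Finset.mem_Ico] at hk
      rw [PA_dd_low n k hk.2, PA_ss_low n k hk.2]
      constructor
      · rintro ⟨h1, h2⟩
        exact ⟨by linarith, by linarith⟩
      · rintro ⟨h1, h2⟩
        exact ⟨by linarith, by linarith⟩
    · symm
      apply Finset.card_bij (fun k _ => 2 ^ n + k)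
      · intro k hk
        rw [Finset.mem_filter, Finset.mem_Ico] at hk
        rw [Finset.mem_filter, Finset.mem_Ico]
        obtain ⟨⟨_, hk1⟩, h1, h2⟩ := hk
        refine ⟨⟨Nat.le_add_right _ _, by omega⟩, ?_, ?_⟩
        · rw [PA_dd_high n k hk1]; linarith
        · rw [PA_ss_high n k hk1]; push_cast; linarith
      · intro a _ b _ hab
        exact Nat.add_left_cancel hab
      · intro k hk
        rw [Finset.mem_filter, Finset.mem_Ico] at hk
        obtain ⟨⟨hk0, hk1⟩, h1, h2⟩ := hk
        obtain ⟨j, rfl⟩ := Nat.exists_eq_add_of_le hk0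
        have hj : j < 2 ^ n := by omega
        refine ⟨j, ?_, rfl⟩
        rw [Finset.mem_filter, Finset.mem_Ico]
        rw [PA_dd_high n j hj] at h1
        rw [PA_ss_high n j hj] at h2
        push_cast at h2
        exact ⟨⟨Nat.zero_le _, hj⟩, by linarith, by linarith⟩
  · apply Finset.disjoint_filter_filter
    exact Finset.Ico_disjoint_Ico_consecutive 0 (2 ^ n) (2 ^ n + 2 ^ n)

private theorem PA_FF_compl (n : ℕ) (D c : ℤ) : PA_FF n (-D) (c - D * 2 ^ n) = PA_FF n D c := by
  unfold PA_FF
  have hp : 0 < 2 ^ n := by positivity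
  have hcast : ∀ k : ℕ, k < 2 ^ n → ((2 ^ n - 1 - k : ℕ) : ℤ) = 2 ^ n - 1 - (k : ℤ) := by
    intro k hk
    rw [Nat.cast_sub (by omega), Nat.cast_sub (by omega)]
    push_cast
    ring
  have key : ∀ k : ℕ, k < 2 ^ n →
      ((-D + dd n (2 ^ n - 1 - k) = 0 ∧
        ss n (2 ^ n - 1 - k) + (-D) * ((2 ^ n - 1 - k : ℕ) : ℤ) = c - D * 2 ^ n) ↔
      (D + dd n k = 0 ∧ ss n k + D * (k : ℤ) = c)) := by
    intro k hk
    rw [dd_compl n k hk, ss_compl n k hk, hcast k hk]
    constructor
    · rintro ⟨h1, h2⟩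
      exact ⟨by linarith, by linarith⟩
    · rintro ⟨h1, h2⟩
      exact ⟨by linarith, by linarith⟩
  symm
  apply Finset.card_bij (fun k _ => 2 ^ n - 1 - k)
  · intro k hk
    rw [Finset.mem_filter, Finset.mem_range] at hk
    rw [Finset.mem_filter, Finset.mem_range]
    exact ⟨by omega, (key k hk.1).2 hk.2⟩
  · intro a ha b hb hab
    rw [Finset.mem_filter, Finset.mem_range] at ha hb
    have h1 := ha.1
    have h2 := hb.1
    omega
  · intro k hk
    rw [Finset.mem_filter, Finset.mem_range] at hk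
    have hk1 := hk.1
    refine ⟨2 ^ n - 1 - k, ?_, by omega⟩
    rw [Finset.mem_filter, Finset.mem_range]
    have hlt : 2 ^ n - 1 - k < 2 ^ n := by omega
    refine ⟨hlt, ?_⟩
    rw [← key _ hlt]
    have hback : 2 ^ n - 1 - (2 ^ n - 1 - k) = k := by omega
    rw [hback]
    exact hk.2

private theorem PA_FF_succ_zero (n : ℕ) (R : ℤ) : PA_FF (n + 1) 0 R = 2 * PA_FF n 1 R := by
  rw [PA_FF_succ]
  have h := PA_FF_compl n 1 R
  have e1 : (0 : ℤ) - 1 = -1 := by ring
  have e2 : R - 2 ^ n * (1 + 0) = R - 1 * 2 ^ n := by ring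
  rw [e1, e2, h, zero_add]
  ring

private theorem PA_FF_succ_succ (n d : ℕ) (R : ℤ) :
    PA_FF (n + 1) ((d + 1 : ℕ) : ℤ) R
      = PA_FF n ((d + 2 : ℕ) : ℤ) R + PA_FF n (d : ℤ) (R - 2 ^ n * (d + 2)) := by
  rw [PA_FF_succ]
  have e1 : ((d + 1 : ℕ) : ℤ) + 1 = ((d + 2 : ℕ) : ℤ) := by push_cast; ring
  have e2 : ((d + 1 : ℕ) : ℤ) - 1 = (d : ℤ) := by push_cast; ring
  have e3 : R - 2 ^ n * (1 + ((d + 1 : ℕ) : ℤ)) = R - 2 ^ n * ((d : ℤ) + 2) := by push_cast; ring
  rw [e1, e2, e3]

private theorem PA_FF_zero_zero (R : ℤ) : PA_FF 0 0 R = if R = 0 then 1 else 0 := by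
  unfold PA_FF
  by_cases h : R = 0
  · subst h
    simp [dd, ss]
  · have h' : ¬ (0 : ℤ) = R := fun e => h e.symm
    simp [dd, ss, h, h']

private theorem PA_FF_zero_pos (D R : ℤ) (hD : D ≠ 0) : PA_FF 0 D R = 0 := by
  unfold PA_FF
  simp [dd, ss, hD]

private theorem PA_FF_eq_UU (n : ℕ) : ∀ (d : ℕ) (R : ℤ), (PA_FF n (d : ℤ) R : ℝ) = UU 1 n d R := by
  induction n with
  | zero =>
    intro d R
    cases d with
    | zero =>
      have h : PA_FF 0 ((0 : ℕ) : ℤ) R = if R = 0 then 1 else 0 := by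
        rw [Nat.cast_zero]; exact PA_FF_zero_zero R
      rw [h]
      simp only [UU]
      split_ifs <;> simp
    | succ d =>
      have h : PA_FF 0 ((d + 1 : ℕ) : ℤ) R = 0 := PA_FF_zero_pos _ _ (by positivity)
      rw [h]
      simp only [UU]
      simp
  | succ n ih =>
    intro d R
    cases d with
    | zero =>
      have h := PA_FF_succ_zero n R
      have i1 := ih 1 R
      simp only [UU]
      rw [← i1, Nat.cast_zero, h]
      push_cast
      ring
    | succ d =>
      have h := PA_FF_succ_succ n d R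
      have i1 := ih (d + 2) R
      have i2 := ih d (R - 2 ^ n * (d + 2))
      simp only [UU]
      rw [← i1, ← i2, h]
      push_cast
      ring

theorem MM_eq_UU (m : ℕ) (S : ℤ) : (MM (2 * m) S 0 : ℝ) = UU 1 (2 * m) 0 S := by
  rw [← PA_FF_eq_UU (2 * m) 0 S]
  congr 1
  unfold MM PA_FF
  congr 1
  apply Finset.filter_congr
  intro k _
  simp only [Nat.cast_zero, zero_add, zero_mul, add_zero]
  exact and_comm

theorem UU_nonneg {x : ℝ} (hx : 0 ≤ x) (n d : ℕ) (R : ℤ) : 0 ≤ UU x n d R := by
  induction n generalizing d R with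
  | zero =>
    cases d with
    | zero =>
      simp only [UU]
      split_ifs <;> norm_num
    | succ d => simp only [UU]; exact le_rfl
  | succ n ih =>
    cases d with
    | zero =>
      simp only [UU]
      have := ih 1 R
      positivity
    | succ d =>
      simp only [UU]
      exact add_nonneg (ih _ _) (ih _ _)

theorem UU_support (x : ℝ) (n d : ℕ) (R : ℤ) (h : UU x n d R ≠ 0) :
    0 ≤ R ∧ 3 * 2 ^ d * R ≤ 2 ^ n * (3 * 2 ^ d * d + 2) := by
  induction n generalizing d R with
  | zero =>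
    cases d with
    | zero =>
      simp only [UU] at h
      split_ifs at h with h0
      · subst h0
        norm_num
      · exact absurd rfl h
    | succ d =>
      simp only [UU] at h
      exact absurd rfl h
  | succ n ih =>
    cases d with
    | zero =>
      simp only [UU] at h
      have h1 : UU x n 1 R ≠ 0 := fun e => h (by rw [e, mul_zero])
      obtain ⟨h2, h3⟩ := ih 1 R h1
      refine ⟨h2, ?_⟩
      push_cast at h3 ⊢
      rw [pow_succ]
      nlinarith
    | succ d =>
      simp only [UU] at h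
      have hn : (0 : ℤ) < 2 ^ n := by positivity
      have hd : (0 : ℤ) < 2 ^ d := by positivity
      have hd0 : (0 : ℤ) ≤ d := by positivity
      by_cases h1 : UU x n (d + 2) R = 0
      · rw [h1, zero_add] at h
        obtain ⟨h2, h3⟩ := ih d _ h
        refine ⟨by nlinarith, ?_⟩
        have e1 : (2 : ℤ) ^ (d + 1) = 2 * 2 ^ d := by ring
        have e2 : (2 : ℤ) ^ (n + 1) = 2 * 2 ^ n := by ring
        push_cast
        rw [e1, e2]
        nlinarith
      · obtain ⟨h2, h3⟩ := ih (d + 2) R h1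
        refine ⟨h2, ?_⟩
        have e0 : (2 : ℤ) ^ (d + 2) = 4 * 2 ^ d := by ring
        have e1 : (2 : ℤ) ^ (d + 1) = 2 * 2 ^ d := by ring
        have e2 : (2 : ℤ) ^ (n + 1) = 2 * 2 ^ n := by ring
        push_cast at h3 ⊢
        rw [e0] at h3
        rw [e1, e2]
        have h4 : (0 : ℤ) ≤ 2 ^ n * (2 ^ d * d) := by positivity
        nlinarith

theorem sum_UU_le {x : ℝ} (hx : 0 ≤ x) (n d : ℕ) (A : Finset ℤ) :
    ∑ R ∈ A, UU x n d R ≤ TT (2 * x) n d := by
  induction n generalizing d A with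
  | zero =>
    cases d with
    | zero =>
      simp only [UU, TT]
      rw [Finset.sum_ite_eq']
      split_ifs <;> norm_num
    | succ d => simp [UU, TT]
  | succ n ih =>
    cases d with
    | zero =>
      simp only [UU, TT]
      rw [← Finset.mul_sum]
      exact mul_le_mul_of_nonneg_left (ih 1 A) (by positivity)
    | succ d =>
      simp only [UU, TT]
      rw [Finset.sum_add_distrib]
      refine add_le_add (ih _ _) ?_
      have h1 : ∑ R ∈ A, UU x n d (R - 2 ^ n * (d + 2)) =
          ∑ R ∈ A.image (fun R => R - 2 ^ n * ((d : ℤ) + 2)), UU x n d R := by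
        rw [Finset.sum_image]
        intro a _ b _ hab
        exact sub_left_injective hab
      rw [h1]
      exact ih _ _

theorem TT_le_sum {x : ℝ} (hx : 0 ≤ x) (n d : ℕ) :
    TT (2 * x) n d ≤ ∑ R ∈ Finset.Icc (0 : ℤ) (2 ^ n * (d + 1)), UU x n d R := by
  induction n generalizing d with
  | zero =>
    cases d with
    | zero =>
      simp only [UU, TT]
      rw [Finset.sum_ite_eq']
      simp
    | succ d => simp [UU, TT]
  | succ n ih =>
    cases d with
    | zero =>
      simp only [UU, TT]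
      rw [← Finset.mul_sum]
      refine mul_le_mul_of_nonneg_left ?_ (by positivity)
      have h1 := ih 1
      have e : (2 : ℤ) ^ n * (((1 : ℕ) : ℤ) + 1) = 2 ^ (n + 1) * (((0 : ℕ) : ℤ) + 1) := by
        push_cast
        ring
      rwa [e] at h1
    | succ d =>
      simp only [UU, TT]
      rw [Finset.sum_add_distrib]
      have hn : (0 : ℤ) < 2 ^ n := by positivity
      have hd0 : (0 : ℤ) ≤ d := by positivity
      refine add_le_add ((ih (d + 2)).trans ?_) ((ih d).trans ?_)
      · refine Finset.sum_le_sum_of_subset_of_nonneg ?_ fun R _ _ => UU_nonneg hx _ _ _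
        refine Finset.Icc_subset_Icc le_rfl ?_
        push_cast
        rw [pow_succ]
        nlinarith
      · have h1 : ∑ R ∈ Finset.Icc (0 : ℤ) (2 ^ n * (d + 1)), UU x n d R =
            ∑ R ∈ (Finset.Icc (0 : ℤ) (2 ^ n * (d + 1))).image
              (fun R => R + 2 ^ n * ((d : ℤ) + 2)), UU x n d (R - 2 ^ n * (d + 2)) := by
          rw [Finset.sum_image]
          · refine Finset.sum_congr rfl fun R _ => ?_
            rw [add_sub_cancel_right]
          · intro a _ b _ hab
            exact add_left_injective _ hab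
        rw [h1]
        refine Finset.sum_le_sum_of_subset_of_nonneg ?_ fun R _ _ => UU_nonneg hx _ _ _
        intro R hR
        rw [Finset.mem_image] at hR
        obtain ⟨R', hR', rfl⟩ := hR
        rw [Finset.mem_Icc] at hR' ⊢
        constructor
        · nlinarith
        · push_cast
          rw [pow_succ]
          nlinarith

end H8TAK
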