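import Pool.Agent.H8.TAK.PressDefs

/-!
# Rate of convergence of the pressure: definitions
-/

namespace H8TAK

/-- Words of length `i` from the ground to height `D` which never return to the ground. -/
def VV (i : ℕ) (D : ℤ) : Finset ℕ :=
  (Finset.range (2 ^ i)).filter
    (fun v => dd i v = D ∧ ∀ l : ℕ, 1 ≤ l → l ≤ i → dd l (v / 2 ^ (i - l)) ≠ 0)

/-- Words of length `t` which, started at height `D`, reach the ground for the first time at
time `t`. -/
def PT (t : ℕ) (D : ℤ) : Finset ℕ :=
  (Finset.range (2 ^ t)).filter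
    (fun v => D + dd t v = 0 ∧ ∀ l : ℕ, l < t → D + dd l (v / 2 ^ (t - l)) ≠ 0)

end H8TAK
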