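import Pool.Agent.H8.TAK.Base
import Pool.Agent.H8.TAK.RateDefs

/-!
# Injectivity of the weight on the first passage words
-/

namespace H8TAK

/-- The weight of a positive path, started at height `h`, lies below the top value. -/
theorem RateInj_top (h : ℤ) (r a : ℕ) (ha : a < 2 ^ r)
    (hpos : ∀ l : ℕ, l < r → 1 ≤ h + dd l (a / 2 ^ (r - l))) :
    ss r a + h * (a : ℤ) ≤ h * 2 ^ r - (h + dd r a) := by
  induction r generalizing a with
  | zero =>
    have : a = 0 := by simpa using ha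
    subst this
    simp [ss, dd]
  | succ r ih =>
    have hlt : a / 2 < 2 ^ r := by
      rw [pow_succ] at ha
      omega
    have hE : 1 ≤ h + dd r (a / 2) := by
      have := hpos r (Nat.lt_succ_self r)
      rwa [Nat.add_sub_cancel_left, pow_one] at this
    have hih := ih (a / 2) hlt (fun l hl => by
      have := hpos l (by omega)
      rw [show r + 1 - l = 1 + (r - l) by omega, pow_add, pow_one, ← Nat.div_div_eq_div_mul] at this
      exact this)
    have hk : (a : ℤ) = 2 * ((a / 2 : ℕ) : ℤ) + ((a % 2 : ℕ) : ℤ) := by omega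
    rw [hk]
    simp only [ss, dd]
    rw [pow_succ]
    rcases Nat.mod_two_eq_zero_or_one a with hb | hb
    · rw [hb]
      push_cast at hih ⊢
      linarith
    · rw [hb]
      push_cast at hih ⊢
      linarith

/-- Two different words split at the first position where they differ. -/
theorem RateInj_split (n : ℕ) : ∀ v v' : ℕ, v < v' → v' < 2 ^ n →
    ∃ l r p a b : ℕ, n = l + 1 + r ∧ p < 2 ^ l ∧ a < 2 ^ r ∧ b < 2 ^ r ∧
      v = 2 * p * 2 ^ r + a ∧ v' = (2 * p + 1) * 2 ^ r + b := by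
  induction n with
  | zero =>
    intro v v' h1 h2
    rw [pow_zero] at h2
    omega
  | succ n ih =>
    intro v v' h1 h2
    have h2' : v' / 2 < 2 ^ n := by
      rw [pow_succ] at h2
      omega
    rcases lt_or_ge (v / 2) (v' / 2) with h | h
    · obtain ⟨l, r, p, a, b, hn, hp, ha, hb, hv, hv'⟩ := ih (v / 2) (v' / 2) h h2'
      refine ⟨l, r + 1, p, 2 * a + v % 2, 2 * b + v' % 2, by omega, hp, ?_, ?_, ?_, ?_⟩
      · rw [pow_succ]; omega
      · rw [pow_succ]; omega
      · have : 2 * p * 2 ^ (r + 1) = 2 * (2 * p * 2 ^ r) := by ring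
        rw [this]
        omega
      · have : (2 * p + 1) * 2 ^ (r + 1) = 2 * ((2 * p + 1) * 2 ^ r) := by ring
        rw [this]
        omega
    · refine ⟨n, 0, v / 2, 0, 0, by omega, by omega, by norm_num, by norm_num, ?_, ?_⟩
      · rw [pow_zero]; omega
      · rw [pow_zero]; omega

/-- heights after the split -/
theorem RateInj_height (l r q a j : ℕ) (ha : a < 2 ^ r) (hj : j ≤ r) :
    dd (l + j) ((q * 2 ^ r + a) / 2 ^ (r - j)) = dd l q + dd j (a / 2 ^ (r - j)) := by
  have h1 : (q * 2 ^ r + a) / 2 ^ (r - j) = q * 2 ^ j + a / 2 ^ (r - j) := by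
    have h2 : q * 2 ^ r = 2 ^ (r - j) * (q * 2 ^ j) := by
      have h3 : (2 : ℕ) ^ r = 2 ^ (r - j) * 2 ^ j := by
        rw [← pow_add]
        congr 1
        omega
      rw [h3]
      ring
    rw [h2, Nat.mul_add_div (by positivity)]
  rw [h1]
  apply dd_append
  rw [Nat.div_lt_iff_lt_mul (by positivity), ← pow_add, show j + (r - j) = r by omega]
  exact ha

/-- The difference of the weights of two words. -/
theorem RateInj_diff (H : ℤ) (l r p a b : ℕ) (ha : a < 2 ^ r) (hb : b < 2 ^ r) :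
    (ss (l + 1 + r) ((2 * p + 1) * 2 ^ r + b) + H * (((2 * p + 1) * 2 ^ r + b : ℕ) : ℤ)) -
      (ss (l + 1 + r) (2 * p * 2 ^ r + a) + H * ((2 * p * 2 ^ r + a : ℕ) : ℤ)) =
    ((H + dd l p + 1) * 2 ^ r - (ss r a + (H + dd l p + 1) * (a : ℤ))) +
      (ss r b + (H + dd l p - 1) * (b : ℤ)) := by
  have e1 : (2 * p + 1) / 2 = p := by omega
  have e2 : (2 * p + 1) % 2 = 1 := by omega
  have e3 : (2 * p) / 2 = p := by omega
  have e4 : (2 * p) % 2 = 0 := by omega
  rw [ss_append _ _ _ _ ha, ss_append _ _ _ _ hb]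
  simp only [ss, dd, e1, e2, e3, e4]
  push_cast
  ring

/-- step of the height -/
theorem RateInj_step (n v l : ℕ) (hl : l < n) :
    dd (l + 1) (v / 2 ^ (n - (l + 1))) = dd l (v / 2 ^ (n - l)) + 1 ∨
      dd (l + 1) (v / 2 ^ (n - (l + 1))) = dd l (v / 2 ^ (n - l)) - 1 := by
  have h1 : v / 2 ^ (n - (l + 1)) / 2 = v / 2 ^ (n - l) := by
    rw [Nat.div_div_eq_div_mul, ← pow_succ]
    congr 2
    omega
  simp only [dd]
  rw [h1]
  rcases Nat.mod_two_eq_zero_or_one (v / 2 ^ (n - (l + 1))) with hb | hb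
  · rw [hb]; push_cast; left; ring
  · rw [hb]; push_cast; right; ring

/-- positive heights stay positive as long as they do not vanish -/
theorem RateInj_pos (H : ℤ) (n v l0 m : ℕ) (hm : m ≤ n)
    (hne : ∀ l : ℕ, l0 ≤ l → l ≤ m → H + dd l (v / 2 ^ (n - l)) ≠ 0)
    (h0 : 1 ≤ H + dd l0 (v / 2 ^ (n - l0))) :
    ∀ l : ℕ, l0 ≤ l → l ≤ m → 1 ≤ H + dd l (v / 2 ^ (n - l)) := by
  intro l hl
  induction l, hl using Nat.le_induction with
  | base => intro _; exact h0
  | succ l hl ih =>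
    intro hlm
    have h1 := ih (by omega)
    have h2 := hne (l + 1) (by omega) hlm
    rcases RateInj_step n v l (by omega) with h3 | h3
    · rw [h3]; linarith
    · rw [h3] at h2 ⊢
      omega

/-- negative heights stay negative as long as they do not vanish -/
theorem RateInj_neg (H : ℤ) (n v l0 m : ℕ) (hm : m ≤ n)
    (hne : ∀ l : ℕ, l0 ≤ l → l ≤ m → H + dd l (v / 2 ^ (n - l)) ≠ 0)
    (h0 : H + dd l0 (v / 2 ^ (n - l0)) ≤ -1) :
    ∀ l : ℕ, l0 ≤ l → l ≤ m → H + dd l (v / 2 ^ (n - l)) ≤ -1 := by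
  intro l hl
  induction l, hl using Nat.le_induction with
  | base => intro _; exact h0
  | succ l hl ih =>
    intro hlm
    have h1 := ih (by omega)
    have h2 := hne (l + 1) (by omega) hlm
    rcases RateInj_step n v l (by omega) with h3 | h3
    · rw [h3] at h2 ⊢
      omega
    · rw [h3]; linarith

theorem RateInj_dd_zero (r : ℕ) : dd r 0 = r := by
  induction r with
  | zero => simp [dd]
  | succ r ih => simp [dd, ih]

theorem RateInj_VV_pos {i : ℕ} {D : ℤ} (hD : 1 ≤ D) {v : ℕ} (hv : v ∈ VV i D) :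
    ∀ l : ℕ, 1 ≤ l → l ≤ i → 1 ≤ dd l (v / 2 ^ (i - l)) := by
  rw [VV, Finset.mem_filter] at hv
  obtain ⟨_, h1, h2⟩ := hv
  intro l hl hli
  by_contra hcon
  have h3 := h2 l hl hli
  have h4 := RateInj_neg 0 i v l i le_rfl (fun k hk hki => by
    rw [zero_add]; exact h2 k (by omega) hki) (by omega) i hli le_rfl
  rw [Nat.sub_self, pow_zero, Nat.div_one, h1] at h4
  omega

theorem RateInj_VV_lt {i : ℕ} {D : ℤ} (hD : 1 ≤ D) {v v' : ℕ} (hv : v ∈ VV i D)
    (hv' : v' ∈ VV i D) (hlt : v < v') : ss i v < ss i v' := by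
  have hp := RateInj_VV_pos hD hv
  have hp' := RateInj_VV_pos hD hv'
  rw [VV, Finset.mem_filter, Finset.mem_range] at hv hv'
  obtain ⟨l, r, p, a, b, hn, hpl, ha, hb, rfl, rfl⟩ := RateInj_split i v v' hlt hv'.1
  subst hn
  have hd := RateInj_diff 0 l r p a b ha hb
  rw [zero_mul, zero_mul, add_zero, add_zero, zero_add] at hd
  have h1 : dd (l + 1) (2 * p) = dd l p + 1 := by
    simp only [dd]
    rw [show 2 * p / 2 = p by omega, show 2 * p % 2 = 0 by omega]
    push_cast; ring
  have h1' : dd (l + 1) (2 * p + 1) = dd l p - 1 := by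
    simp only [dd]
    rw [show (2 * p + 1) / 2 = p by omega, show (2 * p + 1) % 2 = 1 by omega]
    push_cast; ring
  have h2 : ∀ j : ℕ, j ≤ r → 1 ≤ dd l p + 1 + dd j (a / 2 ^ (r - j)) := by
    intro j hj
    have h3 := hp (l + 1 + j) (by omega) (by omega)
    rw [show l + 1 + r - (l + 1 + j) = r - j by omega, RateInj_height _ _ _ _ _ ha hj, h1] at h3
    exact h3
  have h3 : 1 ≤ dd l p - 1 := by
    have h3 := hp' (l + 1 + 0) (by omega) (by omega)
    rw [show l + 1 + r - (l + 1 + 0) = r - 0 by omega,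
      RateInj_height _ _ _ _ _ hb (Nat.zero_le r), h1'] at h3
    simpa [dd] using h3
  have h4 := RateInj_top (dd l p + 1) r a ha (fun j hj => h2 j hj.le)
  have h5 := h2 r le_rfl
  rw [Nat.sub_self, pow_zero, Nat.div_one] at h5
  have h6 := ss_nonneg r b
  have h7 : 0 ≤ (dd l p - 1) * (b : ℤ) := mul_nonneg (by linarith) (by positivity)
  linarith

theorem VV_inj (i : ℕ) {D : ℤ} (hD : 1 ≤ D) : Set.InjOn (ss i) (VV i D : Set ℕ) := by
  intro v hv v' hv' h
  rcases lt_trichotomy v v' with hlt | heq | hlt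
  · exact absurd h (RateInj_VV_lt hD hv hv' hlt).ne
  · exact heq
  · exact absurd h (RateInj_VV_lt hD hv' hv hlt).ne'

theorem RateInj_PT_pos {t : ℕ} {D : ℤ} (hD : 1 ≤ D) {v : ℕ} (hv : v ∈ PT t D) :
    ∀ l : ℕ, l < t → 1 ≤ D + dd l (v / 2 ^ (t - l)) := by
  rw [PT, Finset.mem_filter, Finset.mem_range] at hv
  obtain ⟨hvt, h1, h2⟩ := hv
  intro l hl
  refine RateInj_pos D t v 0 l hl.le (fun k _ hk => h2 k (by omega)) ?_ l (Nat.zero_le l) le_rfl
  simpa [dd] using hD

theorem RateInj_PT_lt {t : ℕ} {D : ℤ} (hD : 1 ≤ D) {v v' : ℕ} (hv : v ∈ PT t D)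
    (hv' : v' ∈ PT t D) (hlt : v < v') :
    ss t v + D * (v : ℤ) < ss t v' + D * (v' : ℤ) := by
  have hp := RateInj_PT_pos hD hv
  have hp' := RateInj_PT_pos hD hv'
  rw [PT, Finset.mem_filter, Finset.mem_range] at hv hv'
  obtain ⟨l, r, p, a, b, hn, hpl, ha, hb, rfl, rfl⟩ := RateInj_split t v v' hlt hv'.1
  subst hn
  have hd := RateInj_diff D l r p a b ha hb
  have h1 : dd (l + 1) (2 * p) = dd l p + 1 := by
    simp only [dd]
    rw [show 2 * p / 2 = p by omega, show 2 * p % 2 = 0 by omega]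
    push_cast; ring
  have h1' : dd (l + 1) (2 * p + 1) = dd l p - 1 := by
    simp only [dd]
    rw [show (2 * p + 1) / 2 = p by omega, show (2 * p + 1) % 2 = 1 by omega]
    push_cast; ring
  have hh : 1 ≤ D + dd l p := by
    have h3 := hp l (by omega)
    have h4 : (2 * p * 2 ^ r + a) / 2 ^ (l + 1 + r - l) = p := by
      rw [show l + 1 + r - l = r + 1 by omega, pow_succ, ← Nat.div_div_eq_div_mul,
        show 2 * p * 2 ^ r + a = 2 ^ r * (2 * p) + a by ring, Nat.mul_add_div (by positivity),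
        Nat.div_eq_of_lt ha]
      omega
    rwa [h4] at h3
  have h2 : ∀ j : ℕ, j < r → 1 ≤ D + dd l p + 1 + dd j (a / 2 ^ (r - j)) := by
    intro j hj
    have h3 := hp (l + 1 + j) (by omega)
    rw [show l + 1 + r - (l + 1 + j) = r - j by omega, RateInj_height _ _ _ _ _ ha hj.le, h1] at h3
    linarith
  have hfin : D + dd l p + 1 + dd r a = 0 := by
    have h3 := hv.2.1
    have h4 := dd_append (l + 1) r (2 * p) a ha
    rw [h4, h1] at h3
    linarith
  have hfin' : D + dd l p - 1 + dd r b = 0 := by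
    have h3 := hv'.2.1
    have h4 := dd_append (l + 1) r (2 * p + 1) b hb
    rw [h4, h1'] at h3
    linarith
  have hr : 0 < r := by
    rcases Nat.eq_zero_or_pos r with hr | hr
    · subst hr
      simp only [dd] at hfin
      omega
    · exact hr
  have h3 : 1 ≤ D + dd l p - 1 := by
    have h3 := hp' (l + 1 + 0) (by omega)
    rw [show l + 1 + r - (l + 1 + 0) = r - 0 by omega,
      RateInj_height _ _ _ _ _ hb (Nat.zero_le r), h1'] at h3
    simp only [dd] at h3
    linarith
  have hb1 : 1 ≤ b := by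
    rcases Nat.eq_zero_or_pos b with hb0 | hb0
    · subst hb0
      rw [RateInj_dd_zero] at hfin'
      omega
    · exact hb0
  have h4 := RateInj_top (D + dd l p + 1) r a ha h2
  have h6 := ss_nonneg r b
  have h7 : 1 ≤ (D + dd l p - 1) * (b : ℤ) := by
    have h8 : (1 : ℤ) ≤ (b : ℤ) := by exact_mod_cast hb1
    nlinarith
  linarith

theorem PT_inj (t : ℕ) {D : ℤ} (hD : 1 ≤ D) :
    Set.InjOn (fun v : ℕ => ss t v + D * (v : ℤ)) (PT t D : Set ℕ) := by
  intro v hv v' hv' h
  simp only at h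
  rcases lt_trichotomy v v' with hlt | heq | hlt
  · exact absurd h (RateInj_PT_lt hD hv hv' hlt).ne
  · exact heq
  · exact absurd h (RateInj_PT_lt hD hv' hv hlt).ne'

end H8TAK
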