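import Pool.Agent.H8.TAK.RateZ
import Pool.Agent.H8.TAK.RateInj

/-!
# Rate of convergence of the pressure: the sum over a height
-/

namespace H8TAK

/-- The sum over the ground level. -/
theorem RA_zero {q : ℝ} (hq : 0 < q) (m : ℕ) (A : Finset ℤ) :
    ∑ S ∈ A, (MM (2 * m) S 0 : ℝ) ^ q ≤ ZZ m q := by
  have h1 : ∀ S, S ∉ NN m 0 → (MM (2 * m) S 0 : ℝ) ^ q = 0 := by
    intro S hS
    have h2 : MM (2 * m) S 0 = 0 := by
      by_contra hne
      apply hS
      rw [NN, Finset.mem_filter]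
      constructor
      · have h3 : 0 < MM (2 * m) S 0 := Nat.pos_of_ne_zero hne
        rw [MM, Finset.card_pos] at h3
        obtain ⟨k, hk⟩ := h3
        rw [Finset.mem_filter] at hk
        exact Finset.mem_image.2 ⟨k, hk.1, hk.2.1⟩
      · rw [zero_mul, Real.rpow_zero]
        exact_mod_cast Nat.one_le_iff_ne_zero.2 hne
    rw [h2, Nat.cast_zero, Real.zero_rpow hq.ne']
  have h2 : ∑ S ∈ A, (MM (2 * m) S 0 : ℝ) ^ q = ∑ S ∈ A ∩ NN m 0, (MM (2 * m) S 0 : ℝ) ^ q := by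
    symm
    refine Finset.sum_subset Finset.inter_subset_left fun S hS hS' => h1 S fun h => ?_
    exact hS' (Finset.mem_inter.2 ⟨hS, h⟩)
  rw [h2, ZZ]
  exact Finset.sum_le_sum_of_subset_of_nonneg Finset.inter_subset_right
    fun S _ _ => Real.rpow_nonneg (Nat.cast_nonneg _) _

/-- Complement. -/
theorem RA_compl (n : ℕ) (S D : ℤ) : MM n S D = MM n (S + D) (-D) := by
  unfold MM
  have hp : 0 < 2 ^ n := by positivity
  apply Finset.card_bij (fun k _ => 2 ^ n - 1 - k)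
  · intro k hk
    rw [Finset.mem_filter, Finset.mem_range] at hk
    rw [Finset.mem_filter, Finset.mem_range, dd_compl n k hk.1, ss_compl n k hk.1, hk.2.1, hk.2.2]
    exact ⟨by omega, rfl, rfl⟩
  · intro a ha b hb hab
    rw [Finset.mem_filter, Finset.mem_range] at ha hb
    have h1 := ha.1
    have h2 := hb.1
    omega
  · intro k hk
    rw [Finset.mem_filter, Finset.mem_range] at hk
    refine ⟨2 ^ n - 1 - k, ?_, by omega⟩
    rw [Finset.mem_filter, Finset.mem_range, dd_compl n k hk.1, ss_compl n k hk.1, hk.2.1, hk.2.2]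
    exact ⟨by omega, by ring, by ring⟩

/-- The words which are at the ground for the last time at time `j`. -/
def RA_F (j i : ℕ) (S D : ℤ) : Finset ℕ :=
  (Finset.range (2 ^ (j + i))).filter fun k => ss (j + i) k = S ∧ dd (j + i) k = D ∧
    dd j (k / 2 ^ i) = 0 ∧ k % 2 ^ i ∈ VV i D

theorem RA_split (j i k : ℕ) : ss (j + i) k = 2 ^ i * ss j (k / 2 ^ i) + ss i (k % 2 ^ i) +
    dd j (k / 2 ^ i) * ((k % 2 ^ i : ℕ) : ℤ) ∧
    dd (j + i) k = dd j (k / 2 ^ i) + dd i (k % 2 ^ i) := by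
  have h : k % 2 ^ i < 2 ^ i := Nat.mod_lt _ (by positivity)
  have e : k = (k / 2 ^ i) * 2 ^ i + k % 2 ^ i := by
    rw [mul_comm]
    exact (Nat.div_add_mod k (2 ^ i)).symm
  constructor
  · conv_lhs => rw [e]
    exact ss_append j i _ _ h
  · conv_lhs => rw [e]
    exact dd_append j i _ _ h

theorem RA_ss_lt (i v : ℕ) : ss i v < 2 ^ i := by
  have h1 := ss_le i v
  have h2 : (0 : ℤ) < 2 ^ i := by positivity
  linarith

theorem RA_divmod {i : ℕ} {a b S : ℤ} (h : 2 ^ i * a + b = S) (h0 : 0 ≤ b) (h1 : b < 2 ^ i) :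
    a = S / 2 ^ i ∧ b = S % 2 ^ i := by
  have h2 : (0 : ℤ) < 2 ^ i := by positivity
  have h3 := (Int.ediv_emod_unique (a := S) (b := 2 ^ i) (r := b) (q := a) h2).2
    ⟨by rw [← h]; ring, h0, h1⟩
  exact ⟨h3.1.symm, h3.2.symm⟩

theorem RA_card_F (j i : ℕ) (S : ℤ) {D : ℤ} (hD : 1 ≤ D) :
    (RA_F j i S D).card ≤ if S % 2 ^ i ∈ (VV i D).image (ss i) then MM j (S / 2 ^ i) 0 else 0 := by
  have key : ∀ k ∈ RA_F j i S D, ss j (k / 2 ^ i) = S / 2 ^ i ∧ ss i (k % 2 ^ i) = S % 2 ^ i := by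
    intro k hk
    rw [RA_F, Finset.mem_filter] at hk
    obtain ⟨-, h1, h2, h3, h4⟩ := hk
    have h5 := (RA_split j i k).1
    rw [h3, zero_mul, add_zero, h1] at h5
    exact RA_divmod h5.symm (ss_nonneg _ _) (RA_ss_lt _ _)
  split_ifs with h
  · unfold MM
    apply Finset.card_le_card_of_injOn (fun k => k / 2 ^ i)
    · intro k hk
      have hk' := key k hk
      rw [Finset.mem_coe, RA_F, Finset.mem_filter, Finset.mem_range] at hk
      rw [Finset.mem_coe, Finset.mem_filter, Finset.mem_range]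
      refine ⟨?_, hk'.1, hk.2.2.2.1⟩
      rw [Nat.div_lt_iff_lt_mul (by positivity), ← pow_add]
      exact hk.1
    · intro k hk k' hk' hkk
      have e1 := key k hk
      have e2 := key k' hk'
      rw [Finset.mem_coe, RA_F, Finset.mem_filter] at hk hk'
      have h5 := VV_inj i hD hk.2.2.2.2 hk'.2.2.2.2 (e1.2.trans e2.2.symm)
      dsimp only at hkk
      rw [← Nat.div_add_mod k (2 ^ i), ← Nat.div_add_mod k' (2 ^ i), hkk, h5]
  · rw [Nat.le_zero, Finset.card_eq_zero]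
    by_contra hne
    obtain ⟨k, hk⟩ := Finset.nonempty_iff_ne_empty.2 hne
    apply h
    have hk' := key k hk
    rw [RA_F, Finset.mem_filter] at hk
    exact Finset.mem_image.2 ⟨_, hk.2.2.2.2, hk'.2⟩

theorem RA_exists {n k : ℕ} {D : ℤ} (hk : k < 2 ^ n) (hd : dd n k = D) :
    ∃ j i : ℕ, j + i = n ∧ dd j (k / 2 ^ i) = 0 ∧ k % 2 ^ i ∈ VV i D := by
  classical
  have h0 : ∃ i, i ≤ n ∧ dd (n - i) (k / 2 ^ i) = 0 := ⟨n, le_rfl, by rw [Nat.sub_self]; rfl⟩
  obtain ⟨i, hi⟩ : ∃ i, Nat.find h0 = i := ⟨_, rfl⟩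
  have hi1 : i ≤ n ∧ dd (n - i) (k / 2 ^ i) = 0 := hi ▸ Nat.find_spec h0
  have hi2 : ∀ i' < i, ¬ (i' ≤ n ∧ dd (n - i') (k / 2 ^ i') = 0) := fun i' h' =>
    Nat.find_min h0 (hi ▸ h')
  obtain ⟨j, rfl⟩ : ∃ j, n = j + i := ⟨n - i, by omega⟩
  have e : j + i - i = j := by omega
  rw [e] at hi1
  refine ⟨j, i, rfl, hi1.2, ?_⟩
  rw [VV, Finset.mem_filter, Finset.mem_range]
  have h2 : k % 2 ^ i < 2 ^ i := Nat.mod_lt _ (by positivity)
  refine ⟨h2, ?_, ?_⟩
  · have h3 := (RA_split j i k).2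
    rw [hi1.2, zero_add, hd] at h3
    exact h3.symm
  · intro l hl1 hl2 h3
    obtain ⟨i', rfl⟩ : ∃ i', i = l + i' := ⟨i - l, by omega⟩
    have e1 : l + i' - l = i' := by omega
    rw [e1] at h3
    apply hi2 i' (by omega)
    refine ⟨by omega, ?_⟩
    have e2 : j + (l + i') - i' = j + l := by omega
    rw [e2]
    have h4 := (RA_split j l (k / 2 ^ i')).2
    have e3 : k / 2 ^ i' / 2 ^ l = k / 2 ^ (l + i') := by
      rw [Nat.div_div_eq_div_mul, ← pow_add, add_comm]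
    have e4 : k / 2 ^ i' % 2 ^ l = k % 2 ^ (l + i') / 2 ^ i' := by
      rw [add_comm l i', pow_add, Nat.mod_mul_right_div_self]
    rw [h4, e3, hi1.2, e4, h3, zero_add]

theorem RA_MM_le (n : ℕ) (S : ℤ) {D : ℤ} (hD : 1 ≤ D) :
    MM n S D ≤ ∑ i ∈ Finset.range (n + 1),
      if S % 2 ^ i ∈ (VV i D).image (ss i) then MM (n - i) (S / 2 ^ i) 0 else 0 := by
  classical
  have h1 : (Finset.range (2 ^ n)).filter (fun k => ss n k = S ∧ dd n k = D) ⊆
      (Finset.range (n + 1)).biUnion fun i => RA_F (n - i) i S D := by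
    intro k hk
    rw [Finset.mem_filter, Finset.mem_range] at hk
    obtain ⟨j, i, hji, h2, h3⟩ := RA_exists hk.1 hk.2.2
    rw [Finset.mem_biUnion]
    refine ⟨i, Finset.mem_range.2 (by omega), ?_⟩
    have e : n - i = j := by omega
    rw [e, RA_F, Finset.mem_filter, Finset.mem_range, hji]
    exact ⟨hk.1, hk.2.1, hk.2.2, h2, h3⟩
  unfold MM
  refine (Finset.card_le_card h1).trans (Finset.card_biUnion_le.trans ?_)
  refine Finset.sum_le_sum fun i _ => ?_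
  exact RA_card_F (n - i) i S hD

theorem RA_card_VV (i : ℕ) (D : ℤ) : ((VV i D).image (ss i)).card ≤ 2 ^ i := by
  refine Finset.card_image_le.trans ?_
  rw [VV]
  refine (Finset.card_filter_le _ _).trans ?_
  rw [Finset.card_range]

/-- The sum for fixed last time at the ground. -/
theorem RA_fixed {q : ℝ} (hq : 1 ≤ q) (m : ℕ) (D : ℤ) (A : Finset ℤ) {i : ℕ} (hi : i ≤ 2 * m) :
    ∑ S ∈ A, ((if S % 2 ^ i ∈ (VV i D).image (ss i) then MM (2 * m - i) (S / 2 ^ i) 0 else 0 : ℕ) :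
      ℝ) ^ q ≤ (2 * m + 1) * ZZ m q := by
  have hq0 : 0 < q := by linarith
  have hZ : 0 ≤ ZZ m q := by linarith [one_le_ZZ hq0.le m]
  set I := (VV i D).image (ss i) with hI
  -- pass to pairs
  have h1 : ∑ S ∈ A, ((if S % 2 ^ i ∈ I then MM (2 * m - i) (S / 2 ^ i) 0 else 0 : ℕ) : ℝ) ^ q =
      ∑ S ∈ A.filter (fun S => S % 2 ^ i ∈ I), (MM (2 * m - i) (S / 2 ^ i) 0 : ℝ) ^ q := by
    rw [Finset.sum_filter]
    refine Finset.sum_congr rfl fun S _ => ?_
    split_ifs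
    · rfl
    · rw [Nat.cast_zero, Real.zero_rpow hq0.ne']
  have h2 : ∑ S ∈ A.filter (fun S => S % 2 ^ i ∈ I), (MM (2 * m - i) (S / 2 ^ i) 0 : ℝ) ^ q ≤
      ∑ x ∈ (A.image fun S => S / 2 ^ i) ×ˢ I, (MM (2 * m - i) x.1 0 : ℝ) ^ q := by
    have h3 : ∑ S ∈ A.filter (fun S => S % 2 ^ i ∈ I), (MM (2 * m - i) (S / 2 ^ i) 0 : ℝ) ^ q =
        ∑ x ∈ (A.filter (fun S => S % 2 ^ i ∈ I)).image fun S => (S / 2 ^ i, S % 2 ^ i),
          (MM (2 * m - i) x.1 0 : ℝ) ^ q := by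
      rw [Finset.sum_image]
      intro S _ S' _ hSS
      simp only [Prod.mk.injEq] at hSS
      rw [← Int.mul_ediv_add_emod S (2 ^ i), ← Int.mul_ediv_add_emod S' (2 ^ i), hSS.1, hSS.2]
    rw [h3]
    refine Finset.sum_le_sum_of_subset_of_nonneg ?_
      fun x _ _ => Real.rpow_nonneg (Nat.cast_nonneg _) _
    intro x hx
    rw [Finset.mem_image] at hx
    obtain ⟨S, hS, rfl⟩ := hx
    rw [Finset.mem_filter] at hS
    exact Finset.mem_product.2 ⟨Finset.mem_image_of_mem _ hS.1, hS.2⟩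
  rw [h1]
  refine h2.trans ?_
  rw [Finset.sum_product]
  simp only [Finset.sum_const, nsmul_eq_mul]
  rw [← Finset.mul_sum]
  rcases Nat.even_or_odd i with ⟨i', hi'⟩ | ⟨i', hi'⟩
  · -- even
    obtain ⟨j', hj'⟩ : ∃ j', m = i' + j' := ⟨m - i', by omega⟩
    have e : 2 * m - i = 2 * j' := by omega
    rw [e]
    have h4 := RA_zero hq0 j' (A.image fun S => S / 2 ^ i)
    have h5 : (I.card : ℝ) ≤ (4 : ℝ) ^ i' := by
      have h6 := RA_card_VV i D
      rw [← hI, hi', ← two_mul, pow_mul] at h6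
      exact_mod_cast h6
    have h7 := four_pow_le_ZZ hq i'
    have h8 := ZZ_mul_le hq0.le i' j'
    rw [← hj'] at h8
    have h9 : 0 ≤ ZZ j' q := by linarith [one_le_ZZ hq0.le j']
    have h10 : 0 ≤ ZZ i' q := by linarith [one_le_ZZ hq0.le i']
    have hm : (m : ℝ) = i' + j' := by rw [hj']; push_cast; ring
    have hj0 : (0 : ℝ) ≤ j' := Nat.cast_nonneg _
    calc (I.card : ℝ) * ∑ x ∈ A.image fun S => S / 2 ^ i, (MM (2 * j') x 0 : ℝ) ^ q
        ≤ (4 : ℝ) ^ i' * ZZ j' q :=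
          mul_le_mul h5 h4 (Finset.sum_nonneg fun x _ => Real.rpow_nonneg (Nat.cast_nonneg _) _)
            (by positivity)
      _ ≤ ((2 * i' + 1) * ZZ i' q) * ZZ j' q := mul_le_mul_of_nonneg_right h7 h9
      _ = (2 * i' + 1) * (ZZ i' q * ZZ j' q) := by ring
      _ ≤ (2 * i' + 1) * ZZ m q := mul_le_mul_of_nonneg_left h8 (by positivity)
      _ ≤ (2 * m + 1) * ZZ m q := mul_le_mul_of_nonneg_right (by rw [hm]; linarith) hZ
  · -- odd
    have h4 : ∀ x : ℤ, MM (2 * m - i) x 0 = 0 := by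
      intro x
      rw [MM, Finset.card_eq_zero, Finset.filter_eq_empty_iff]
      rintro k - ⟨-, h5⟩
      have h6 := dd_parity (2 * m - i) k
      rw [h5, sub_zero] at h6
      have h7 : (((2 * m - i : ℕ) : ℤ)) = 2 * (m : ℤ) - i := by omega
      omega
    have h5 : ∑ x ∈ A.image fun S => S / 2 ^ i, (MM (2 * m - i) x 0 : ℝ) ^ q = 0 := by
      refine Finset.sum_eq_zero fun x _ => ?_
      rw [h4, Nat.cast_zero, Real.zero_rpow hq0.ne']
    rw [h5, mul_zero]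
    positivity

theorem RA_pos {q : ℝ} (hq : 1 ≤ q) (m : ℕ) {D : ℤ} (hD : 1 ≤ D) (A : Finset ℤ) :
    ∑ S ∈ A, (MM (2 * m) S D : ℝ) ^ q ≤ (2 * m + 1) ^ (q + 1) * ZZ m q := by
  have hq0 : 0 < q := by linarith
  have hm : (0 : ℝ) < 2 * m + 1 := by positivity
  have h1 : ∀ S ∈ A, (MM (2 * m) S D : ℝ) ^ q ≤ (2 * m + 1 : ℝ) ^ (q - 1) *
      ∑ i ∈ Finset.range (2 * m + 1), ((if S % 2 ^ i ∈ (VV i D).image (ss i) then
        MM (2 * m - i) (S / 2 ^ i) 0 else 0 : ℕ) : ℝ) ^ q := by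
    intro S _
    have h2 : (MM (2 * m) S D : ℝ) ≤ ∑ i ∈ Finset.range (2 * m + 1),
        ((if S % 2 ^ i ∈ (VV i D).image (ss i) then MM (2 * m - i) (S / 2 ^ i) 0 else 0 : ℕ) :
          ℝ) := by
      exact_mod_cast RA_MM_le (2 * m) S hD
    refine (Real.rpow_le_rpow (Nat.cast_nonneg _) h2 hq0.le).trans ?_
    have h3 := Real.rpow_sum_le_const_mul_sum_rpow_of_nonneg (Finset.range (2 * m + 1)) hq
      (f := fun i => ((if S % 2 ^ i ∈ (VV i D).image (ss i) then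
        MM (2 * m - i) (S / 2 ^ i) 0 else 0 : ℕ) : ℝ)) (fun i _ => Nat.cast_nonneg _)
    rw [Finset.card_range] at h3
    push_cast at h3 ⊢
    exact h3
  refine (Finset.sum_le_sum h1).trans ?_
  rw [← Finset.mul_sum, Finset.sum_comm]
  have h2 : ∑ i ∈ Finset.range (2 * m + 1), ∑ S ∈ A, ((if S % 2 ^ i ∈ (VV i D).image (ss i) then
        MM (2 * m - i) (S / 2 ^ i) 0 else 0 : ℕ) : ℝ) ^ q ≤
      ∑ _i ∈ Finset.range (2 * m + 1), (2 * m + 1 : ℝ) * ZZ m q := by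
    refine Finset.sum_le_sum fun i hi => ?_
    rw [Finset.mem_range] at hi
    exact RA_fixed hq m D A (by omega)
  rw [Finset.sum_const, Finset.card_range, nsmul_eq_mul] at h2
  calc (2 * m + 1 : ℝ) ^ (q - 1) * _ ≤ (2 * m + 1 : ℝ) ^ (q - 1) *
        (((2 * m + 1 : ℕ) : ℝ) * ((2 * m + 1 : ℝ) * ZZ m q)) :=
        mul_le_mul_of_nonneg_left h2 (by positivity)
    _ = (2 * m + 1 : ℝ) ^ (q + 1) * ZZ m q := by
        have e : (2 * m + 1 : ℝ) ^ (q + 1) = (2 * m + 1 : ℝ) ^ (q - 1) * (2 * m + 1 : ℝ) ^ (2 : ℝ) := by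
          rw [← Real.rpow_add hm]
          congr 1
          ring
        rw [e, Real.rpow_two]
        push_cast
        ring

theorem A_bound {q : ℝ} (hq : 1 ≤ q) (m : ℕ) (D : ℤ) (A : Finset ℤ) :
    ∑ S ∈ A, (MM (2 * m) S D : ℝ) ^ q ≤ (2 * m + 1) ^ (q + 1) * ZZ m q := by
  have hq0 : 0 < q := by linarith
  rcases lt_trichotomy D 0 with hD | rfl | hD
  · have h1 : ∑ S ∈ A, (MM (2 * m) S D : ℝ) ^ q =
        ∑ S ∈ A.image (fun S => S + D), (MM (2 * m) S (-D) : ℝ) ^ q := by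
      rw [Finset.sum_image]
      · exact Finset.sum_congr rfl fun S _ => by rw [RA_compl]
      · intro a _ b _ hab
        exact add_left_injective _ hab
    rw [h1]
    exact RA_pos hq m (by omega) _
  · refine (RA_zero hq0 m A).trans ?_
    have h1 : (1 : ℝ) ≤ (2 * m + 1 : ℝ) ^ (q + 1) :=
      Real.one_le_rpow (by linarith [(Nat.cast_nonneg m : (0 : ℝ) ≤ m)]) (by linarith)
    have h2 : 0 ≤ ZZ m q := by linarith [one_le_ZZ hq0.le m]
    exact le_mul_of_one_le_left h2 h1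
  · exact RA_pos hq m hD A

end H8TAK
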