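import Pool.Agent.H8.TAK.RateZ
import Pool.Agent.H8.TAK.RateInj

/-!
# Bound for the suffix counts `FF`
-/

namespace H8TAK

/-- The number of words of length `i` from the ground to the ground with value `s`. -/
theorem RateB_MM_odd {i : ℕ} (hi : i % 2 = 1) (s : ℤ) : MM i s 0 = 0 := by
  unfold MM
  rw [Finset.card_eq_zero, Finset.filter_eq_empty_iff]
  rintro k _ ⟨_, h⟩
  have h1 := dd_parity i k
  rw [h, sub_zero] at h1
  omega

theorem RateB_sum_MM {q : ℝ} (hq : 1 ≤ q) (j : ℕ) (B : Finset ℤ) :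
    ∑ s ∈ B, (MM (2 * j) s 0 : ℝ) ^ q ≤ ZZ j q := by
  unfold ZZ
  have hq0 : q ≠ 0 := by linarith
  have h1 : ∑ s ∈ B, (MM (2 * j) s 0 : ℝ) ^ q =
      ∑ s ∈ B.filter (fun s => MM (2 * j) s 0 ≠ 0), (MM (2 * j) s 0 : ℝ) ^ q := by
    rw [Finset.sum_filter]
    apply Finset.sum_congr rfl
    intro s _
    split_ifs with h
    · rfl
    · push Not at h
      rw [h, Nat.cast_zero, Real.zero_rpow hq0]
  rw [h1]
  apply Finset.sum_le_sum_of_subset_of_nonneg
  · intro s hs
    rw [Finset.mem_filter] at hs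
    unfold NN
    rw [Finset.mem_filter, Finset.mem_image]
    have hpos : 0 < MM (2 * j) s 0 := Nat.pos_of_ne_zero hs.2
    refine ⟨?_, ?_⟩
    · unfold MM at hpos
      obtain ⟨k, hk⟩ := Finset.card_pos.1 hpos
      rw [Finset.mem_filter] at hk
      exact ⟨k, hk.1, hk.2.1⟩
    · rw [zero_mul, Real.rpow_zero]
      exact_mod_cast hpos
  · intro s _ _
    exact Real.rpow_nonneg (Nat.cast_nonneg _) _

/-- The contribution of the first hitting time `t`. -/
noncomputable def RateB_a (n : ℕ) (D : ℤ) (t : ℕ) (c : ℤ) : ℕ :=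
  if c / 2 ^ (n - t) ∈ (PT t D).image (fun v : ℕ => ss t v + D * (v : ℤ)) then
    MM (n - t) (c % 2 ^ (n - t)) 0 else 0

theorem RateB_ss_lt (i u : ℕ) : ss i u < 2 ^ i := by
  have h1 := ss_le i u
  have h2 : (0 : ℤ) < 2 ^ i := by positivity
  linarith

theorem RateB_split {i t u v : ℕ} {D c : ℤ} (hu : u < 2 ^ i) (hv : D + dd t v = 0)
    (h : ss (t + i) (v * 2 ^ i + u) + D * ((v * 2 ^ i + u : ℕ) : ℤ) = c) :
    c / 2 ^ i = ss t v + D * (v : ℤ) ∧ c % 2 ^ i = ss i u := by
  have h1 := ss_append t i v u hu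
  have h2 : c = ss i u + 2 ^ i * (ss t v + D * (v : ℤ)) := by
    rw [← h, h1]
    push_cast
    have h3 : dd t v = -D := by linarith
    rw [h3]
    ring
  have h4 : (0 : ℤ) < 2 ^ i := by positivity
  have h5 := ss_nonneg i u
  have h6 := RateB_ss_lt i u
  constructor
  · rw [h2, Int.add_mul_ediv_left _ _ h4.ne', Int.ediv_eq_zero_of_lt h5 h6, zero_add]
  · rw [h2, Int.add_mul_emod_self_left, Int.emod_eq_of_lt h5 h6]

theorem RateB_FF_le {D : ℤ} (hD : 1 ≤ D) (n : ℕ) (c : ℤ) :
    FF n D c ≤ ∑ t ∈ Finset.range (n + 1), RateB_a n D t c := by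
  classical
  -- the set of words with first hitting time `t`
  set St : ℕ → Finset ℕ := fun t => (Finset.range (2 ^ n)).filter
    (fun k => D + dd n k = 0 ∧ ss n k + D * (k : ℤ) = c ∧ k / 2 ^ (n - t) ∈ PT t D) with hSt
  have hcover : (Finset.range (2 ^ n)).filter
      (fun k => D + dd n k = 0 ∧ ss n k + D * (k : ℤ) = c) ⊆
      (Finset.range (n + 1)).biUnion St := by
    intro k hk
    rw [Finset.mem_filter, Finset.mem_range] at hk
    obtain ⟨hk0, hk1, hk2⟩ := hk
    have hex : ∃ t : ℕ, t ≤ n ∧ D + dd t (k / 2 ^ (n - t)) = 0 := by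
      refine ⟨n, le_refl n, ?_⟩
      rw [Nat.sub_self, pow_zero, Nat.div_one]
      exact hk1
    obtain ⟨ht0, ht1⟩ := Nat.find_spec hex
    set t := Nat.find hex with ht
    rw [Finset.mem_biUnion]
    refine ⟨t, Finset.mem_range.2 (by omega), ?_⟩
    rw [hSt]
    simp only [Finset.mem_filter, Finset.mem_range]
    refine ⟨hk0, hk1, hk2, ?_⟩
    unfold PT
    rw [Finset.mem_filter, Finset.mem_range]
    refine ⟨?_, ht1, ?_⟩
    · rw [Nat.div_lt_iff_lt_mul (by positivity), ← pow_add]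
      have : t + (n - t) = n := by omega
      rw [this]
      exact hk0
    · intro l hl hcon
      rw [Nat.div_div_eq_div_mul, ← pow_add] at hcon
      have e : n - t + (t - l) = n - l := by omega
      rw [e] at hcon
      exact Nat.find_min hex hl ⟨by omega, hcon⟩
  have hcard : ∀ t ∈ Finset.range (n + 1), (St t).card ≤ RateB_a n D t c := by
    intro t ht
    rw [Finset.mem_range] at ht
    obtain ⟨i, hi⟩ : ∃ i, n = t + i := ⟨n - t, by omega⟩
    have hni : n - t = i := by omega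
    have key : ∀ k ∈ St t, k / 2 ^ i ∈ PT t D ∧ k % 2 ^ i < 2 ^ i ∧ dd i (k % 2 ^ i) = 0 ∧
        c / 2 ^ i = ss t (k / 2 ^ i) + D * ((k / 2 ^ i : ℕ) : ℤ) ∧
        c % 2 ^ i = ss i (k % 2 ^ i) := by
      intro k hk
      rw [hSt] at hk
      simp only [Finset.mem_filter, Finset.mem_range] at hk
      obtain ⟨hk0, hk1, hk2, hk3⟩ := hk
      rw [hni] at hk3
      have hu : k % 2 ^ i < 2 ^ i := Nat.mod_lt _ (by positivity)
      have hk4 := hk3
      unfold PT at hk4
      rw [Finset.mem_filter] at hk4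
      have hdec : k / 2 ^ i * 2 ^ i + k % 2 ^ i = k := by
        rw [mul_comm]
        exact Nat.div_add_mod k (2 ^ i)
      have hdd := dd_append t i (k / 2 ^ i) (k % 2 ^ i) hu
      rw [hdec, ← hi] at hdd
      have h2 : ss (t + i) (k / 2 ^ i * 2 ^ i + k % 2 ^ i) +
          D * ((k / 2 ^ i * 2 ^ i + k % 2 ^ i : ℕ) : ℤ) = c := by
        rw [hdec, ← hi]
        exact hk2
      have h3 := RateB_split hu hk4.2.1 h2
      exact ⟨hk3, hu, by linarith [hk4.2.1], h3.1, h3.2⟩
    unfold RateB_a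
    rw [hni]
    split_ifs with hmem
    · unfold MM
      apply Finset.card_le_card_of_injOn (fun k => k % 2 ^ i)
      · intro k hk
        have hk' := key k hk
        rw [Finset.mem_coe, Finset.mem_filter, Finset.mem_range]
        exact ⟨hk'.2.1, hk'.2.2.2.2.symm, hk'.2.2.1⟩
      · intro k hk l hl hkl
        have hk' := key k hk
        have hl' := key l hl
        have e1 : k / 2 ^ i = l / 2 ^ i := by
          apply PT_inj t hD hk'.1 hl'.1
          simp only
          rw [← hk'.2.2.2.1, ← hl'.2.2.2.1]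
        have e2 : k % 2 ^ i = l % 2 ^ i := hkl
        rw [← Nat.div_add_mod k (2 ^ i), ← Nat.div_add_mod l (2 ^ i), e1, e2]
    · rw [Nat.le_zero, Finset.card_eq_zero, Finset.eq_empty_iff_forall_notMem]
      intro k hk
      have hk' := key k hk
      apply hmem
      rw [Finset.mem_image]
      exact ⟨k / 2 ^ i, hk'.1, hk'.2.2.2.1.symm⟩
  unfold FF
  refine (Finset.card_le_card hcover).trans ?_
  refine Finset.card_biUnion_le.trans ?_
  exact Finset.sum_le_sum hcard

theorem RateB_sum_a {q : ℝ} (hq : 1 ≤ q) (m t : ℕ) (ht : t ≤ 2 * m) (D : ℤ) (A : Finset ℤ) :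
    ∑ c ∈ A, (RateB_a (2 * m) D t c : ℝ) ^ q ≤ (2 * m + 1) * ZZ m q := by
  classical
  have hq0 : q ≠ 0 := by linarith
  have hZ : 0 ≤ ZZ m q := by linarith [one_le_ZZ (q := q) (by linarith) m]
  obtain ⟨i, hi⟩ : ∃ i, 2 * m = t + i := ⟨2 * m - t, by omega⟩
  have hni : 2 * m - t = i := by omega
  rcases Nat.mod_two_eq_zero_or_one i with hpar | hpar
  · obtain ⟨j, hj⟩ : ∃ j, i = 2 * j := ⟨i / 2, by omega⟩
    obtain ⟨r, hr⟩ : ∃ r, t = 2 * r := ⟨t / 2, by omega⟩
    have hm : m = r + j := by omega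
    set I : Finset ℤ := (PT t D).image (fun v : ℕ => ss t v + D * (v : ℤ)) with hI
    have hIcard : (I.card : ℝ) ≤ 4 ^ r := by
      have h1 : I.card ≤ 2 ^ t := by
        refine Finset.card_image_le.trans ?_
        unfold PT
        refine (Finset.card_filter_le _ _).trans ?_
        rw [Finset.card_range]
      have h2 : (2 : ℕ) ^ t = 4 ^ r := by
        rw [hr, pow_mul]
        norm_num
      rw [h2] at h1
      exact_mod_cast h1
    have hstep : ∑ c ∈ A, (RateB_a (2 * m) D t c : ℝ) ^ q ≤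
        ∑ p ∈ I ×ˢ (A.image (fun c => c % 2 ^ i)), (MM i p.2 0 : ℝ) ^ q := by
      have h1 : ∑ c ∈ A, (RateB_a (2 * m) D t c : ℝ) ^ q =
          ∑ c ∈ A.filter (fun c => c / 2 ^ i ∈ I), (MM i (c % 2 ^ i) 0 : ℝ) ^ q := by
        rw [Finset.sum_filter]
        apply Finset.sum_congr rfl
        intro c _
        unfold RateB_a
        rw [hni]
        split_ifs with h
        · rfl
        · rw [Nat.cast_zero, Real.zero_rpow hq0]
      rw [h1]
      have h2 : ∑ c ∈ A.filter (fun c => c / 2 ^ i ∈ I), (MM i (c % 2 ^ i) 0 : ℝ) ^ q =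
          ∑ p ∈ (A.filter (fun c => c / 2 ^ i ∈ I)).image (fun c => (c / 2 ^ i, c % 2 ^ i)),
            (MM i p.2 0 : ℝ) ^ q := by
        rw [Finset.sum_image]
        intro c _ c' _ h
        simp only [Prod.mk.injEq] at h
        rw [← Int.mul_ediv_add_emod c (2 ^ i), ← Int.mul_ediv_add_emod c' (2 ^ i), h.1, h.2]
      rw [h2]
      apply Finset.sum_le_sum_of_subset_of_nonneg
      · intro p hp
        rw [Finset.mem_image] at hp
        obtain ⟨c, hc, rfl⟩ := hp
        rw [Finset.mem_filter] at hc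
        rw [Finset.mem_product]
        exact ⟨hc.2, Finset.mem_image_of_mem _ hc.1⟩
      · intro p _ _
        exact Real.rpow_nonneg (Nat.cast_nonneg _) _
    have hprod : ∑ p ∈ I ×ˢ (A.image (fun c => c % 2 ^ i)), (MM i p.2 0 : ℝ) ^ q ≤
        4 ^ r * ZZ j q := by
      rw [Finset.sum_product]
      simp only
      rw [Finset.sum_const, nsmul_eq_mul]
      have h1 := RateB_sum_MM hq j (A.image (fun c => c % 2 ^ i))
      rw [← hj] at h1
      exact mul_le_mul hIcard h1
        (Finset.sum_nonneg fun s _ => Real.rpow_nonneg (Nat.cast_nonneg _) _) (by positivity)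
    refine (hstep.trans hprod).trans ?_
    have h4 := four_pow_le_ZZ hq r
    have h5 := ZZ_mul_le (q := q) (by linarith) r j
    rw [← hm] at h5
    have hZj : 0 ≤ ZZ j q := by linarith [one_le_ZZ (q := q) (by linarith) j]
    have hrm : (r : ℝ) ≤ m := by
      have : r ≤ m := by omega
      exact_mod_cast this
    calc (4 : ℝ) ^ r * ZZ j q ≤ ((2 * r + 1) * ZZ r q) * ZZ j q :=
          mul_le_mul_of_nonneg_right h4 hZj
      _ = (2 * r + 1) * (ZZ r q * ZZ j q) := by ring
      _ ≤ (2 * r + 1) * ZZ m q := mul_le_mul_of_nonneg_left h5 (by positivity)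
      _ ≤ (2 * m + 1) * ZZ m q := mul_le_mul_of_nonneg_right (by linarith) hZ
  · have h0 : ∀ c ∈ A, (RateB_a (2 * m) D t c : ℝ) ^ q = 0 := by
      intro c _
      unfold RateB_a
      rw [hni, RateB_MM_odd hpar, ite_self, Nat.cast_zero, Real.zero_rpow hq0]
    rw [Finset.sum_eq_zero h0]
    positivity

theorem RateB_pos {q : ℝ} (hq : 1 ≤ q) (m : ℕ) {D : ℤ} (hD : 1 ≤ D) (A : Finset ℤ) :
    ∑ c ∈ A, (FF (2 * m) D c : ℝ) ^ q ≤ (2 * m + 1) ^ (q + 1) * ZZ m q := by
  have hn : (0 : ℝ) < 2 * m + 1 := by positivity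
  have h1 : ∀ c ∈ A, (FF (2 * m) D c : ℝ) ^ q ≤
      (2 * m + 1) ^ (q - 1) * ∑ t ∈ Finset.range (2 * m + 1), (RateB_a (2 * m) D t c : ℝ) ^ q := by
    intro c _
    have h2 : (FF (2 * m) D c : ℝ) ≤
        ∑ t ∈ Finset.range (2 * m + 1), (RateB_a (2 * m) D t c : ℝ) := by
      exact_mod_cast RateB_FF_le hD (2 * m) c
    refine (Real.rpow_le_rpow (Nat.cast_nonneg _) h2 (by linarith)).trans ?_
    have h3 := Real.rpow_sum_le_const_mul_sum_rpow_of_nonneg (Finset.range (2 * m + 1))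
      (f := fun t => (RateB_a (2 * m) D t c : ℝ)) hq (fun i _ => Nat.cast_nonneg _)
    rw [Finset.card_range] at h3
    push_cast at h3
    exact h3
  refine (Finset.sum_le_sum h1).trans ?_
  rw [← Finset.mul_sum, Finset.sum_comm]
  have h4 : ∑ t ∈ Finset.range (2 * m + 1), ∑ c ∈ A, (RateB_a (2 * m) D t c : ℝ) ^ q ≤
      ∑ _t ∈ Finset.range (2 * m + 1), (2 * m + 1) * ZZ m q := by
    apply Finset.sum_le_sum
    intro t ht
    rw [Finset.mem_range] at ht
    exact RateB_sum_a hq m t (by omega) D A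
  rw [Finset.sum_const, Finset.card_range, nsmul_eq_mul] at h4
  push_cast at h4
  refine (mul_le_mul_of_nonneg_left h4 (Real.rpow_nonneg hn.le _)).trans (le_of_eq ?_)
  have h5 : ((2 : ℝ) * m + 1) ^ (q + 1) = (2 * m + 1) ^ (q - 1) * ((2 * m + 1) * (2 * m + 1)) := by
    rw [show q + 1 = (q - 1) + 2 by ring, Real.rpow_add hn, Real.rpow_two, sq]
  rw [h5]
  ring

theorem B_bound {q : ℝ} (hq : 1 ≤ q) (m : ℕ) (D : ℤ) (A : Finset ℤ) :
    ∑ c ∈ A, (FF (2 * m) D c : ℝ) ^ q ≤ (2 * m + 1) ^ (q + 1) * ZZ m q := by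
  rcases lt_trichotomy D 0 with hD | hD | hD
  · have h1 : ∑ c ∈ A, (FF (2 * m) D c : ℝ) ^ q =
        ∑ c ∈ A.image (fun c => c - D * 2 ^ (2 * m)), (FF (2 * m) (-D) c : ℝ) ^ q := by
      rw [Finset.sum_image]
      · apply Finset.sum_congr rfl
        intro c _
        rw [FF_compl]
      · intro c _ c' _ h
        simp only at h
        linarith
    rw [h1]
    exact RateB_pos hq m (by linarith) _
  · have hZ : 1 ≤ ZZ m q := one_le_ZZ (by linarith) m
    have h1 : ∑ c ∈ A, (FF (2 * m) D c : ℝ) ^ q = ∑ c ∈ A, (MM (2 * m) c 0 : ℝ) ^ q := by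
      apply Finset.sum_congr rfl
      intro c _
      congr 2
      unfold MM FF
      congr 1
      apply Finset.filter_congr
      intro k _
      rw [hD]
      simp only [zero_add, zero_mul, add_zero]
      exact and_comm
    rw [h1]
    refine (RateB_sum_MM hq m A).trans ?_
    have h2 : (1 : ℝ) ≤ (2 * m + 1) ^ (q + 1) := by
      apply Real.one_le_rpow _ (by linarith)
      have : (0 : ℝ) ≤ m := Nat.cast_nonneg m
      linarith
    nlinarith
  · exact RateB_pos hq m hD A

end H8TAK
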