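import Pool.Agent.H8.TAK.RateA
import Pool.Agent.H8.TAK.RateB

/-!
# Doubling inequality for the moment sums
-/

namespace H8TAK

theorem RateD_FF_support (n : ℕ) (D c : ℤ) (h : FF n D c ≠ 0) :
    min D 0 * 2 ^ n ≤ c ∧ c ≤ (max D 0 + 1) * 2 ^ n := by
  unfold FF at h
  obtain ⟨w, hw⟩ := Finset.card_ne_zero.mp h
  rw [Finset.mem_filter, Finset.mem_range] at hw
  obtain ⟨hw1, _, hw3⟩ := hw
  have h0 := ss_nonneg n w
  have h1 := ss_le n w
  have h2 : (w : ℤ) < 2 ^ n := by exact_mod_cast hw1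
  have h3 : (0 : ℤ) ≤ w := Int.natCast_nonneg w
  have h4 : (0 : ℤ) < 2 ^ n := by positivity
  rw [← hw3]
  rcases le_total 0 D with hD | hD
  · rw [min_eq_right hD, max_eq_left hD]
    constructor
    · nlinarith [mul_nonneg hD h3]
    · nlinarith [mul_le_mul_of_nonneg_left h2.le hD]
  · rw [min_eq_left hD, max_eq_right hD]
    constructor
    · nlinarith [mul_le_mul_of_nonpos_left h2.le hD]
    · nlinarith [mul_nonneg_of_nonpos_of_nonpos hD (by linarith : -(w : ℤ) ≤ 0)]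

theorem RateD_card_le (n : ℕ) (S : ℤ) (A : Finset ℤ) :
    ((Finset.Icc (-(n : ℤ)) n ×ˢ A).filter
      (fun p => FF n p.1 (S - 2 ^ n * p.2) ≠ 0)).card ≤ 3 * (n + 1) ^ 2 := by
  set s := S / 2 ^ n with hs
  have h4 : (0 : ℤ) < 2 ^ n := by positivity
  have hr0 : 0 ≤ S % 2 ^ n := Int.emod_nonneg _ h4.ne'
  have hr1 : S % 2 ^ n < 2 ^ n := Int.emod_lt_of_pos _ h4
  have hS : 2 ^ n * s + S % 2 ^ n = S := Int.mul_ediv_add_emod S (2 ^ n)
  have hsub : (Finset.Icc (-(n : ℤ)) n ×ˢ A).filter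
      (fun p => FF n p.1 (S - 2 ^ n * p.2) ≠ 0) ⊆
      (Finset.Icc (-(n : ℤ)) n).biUnion
        (fun D => (Finset.Icc (s - (max D 0 + 1)) (s - min D 0)).image (Prod.mk D)) := by
    rintro ⟨D, S1⟩ hp
    rw [Finset.mem_filter, Finset.mem_product] at hp
    obtain ⟨⟨hD, _⟩, hF⟩ := hp
    obtain ⟨h1, h2⟩ := RateD_FF_support n D _ hF
    rw [Finset.mem_biUnion]
    refine ⟨D, hD, ?_⟩
    rw [Finset.mem_image]
    refine ⟨S1, ?_, rfl⟩
    rw [Finset.mem_Icc]
    dsimp only at h1 h2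
    constructor
    · have : (s - S1) * 2 ^ n ≤ (max D 0 + 1) * 2 ^ n := by nlinarith
      have := le_of_mul_le_mul_right this h4
      linarith
    · have : min D 0 * 2 ^ n < (s - S1 + 1) * 2 ^ n := by nlinarith
      have := lt_of_mul_lt_mul_right this h4.le
      linarith
  refine (Finset.card_le_card hsub).trans ?_
  have hb := Finset.card_biUnion_le_card_mul (Finset.Icc (-(n : ℤ)) n)
    (fun D => (Finset.Icc (s - (max D 0 + 1)) (s - min D 0)).image (Prod.mk D)) (n + 2) (by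
      intro D hD
      refine Finset.card_image_le.trans ?_
      rw [Int.card_Icc]
      rw [Finset.mem_Icc] at hD
      have : max D 0 + 1 - min D 0 + 1 ≤ n + 2 := by
        rcases le_total 0 D with h | h
        · rw [min_eq_right h, max_eq_left h]; linarith [hD.2]
        · rw [min_eq_left h, max_eq_right h]; linarith [hD.1]
      omega)
  refine hb.trans ?_
  rw [Int.card_Icc]
  have : ((n : ℤ) + 1 - -(n : ℤ)).toNat = 2 * n + 1 := by omega
  rw [this]
  nlinarith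

theorem RateD_MM_le (n : ℕ) (S : ℤ) :
    MM (n + n) S 0 ≤ ∑ p ∈ Finset.Icc (-(n : ℤ)) n ×ˢ (Finset.range (2 ^ n)).image (ss n),
      MM n p.2 p.1 * FF n p.1 (S - 2 ^ n * p.2) := by
  classical
  unfold MM
  have hsub : (Finset.range (2 ^ (n + n))).filter (fun k => ss (n + n) k = S ∧ dd (n + n) k = 0) ⊆
      (Finset.Icc (-(n : ℤ)) n ×ˢ (Finset.range (2 ^ n)).image (ss n)).biUnion
        (fun p => (((Finset.range (2 ^ n)).filter (fun k => ss n k = p.2 ∧ dd n k = p.1)) ×ˢ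
          ((Finset.range (2 ^ n)).filter (fun k => p.1 + dd n k = 0 ∧
            ss n k + p.1 * (k : ℤ) = S - 2 ^ n * p.2))).image (fun t => t.1 * 2 ^ n + t.2)) := by
    intro k hk
    rw [Finset.mem_filter, Finset.mem_range] at hk
    obtain ⟨hk1, hk2, hk3⟩ := hk
    have hpos : 0 < 2 ^ n := by positivity
    have hu : k / 2 ^ n < 2 ^ n := by
      rw [Nat.div_lt_iff_lt_mul hpos, ← pow_add]
      exact hk1
    have hw : k % 2 ^ n < 2 ^ n := Nat.mod_lt _ hpos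
    have hk : k / 2 ^ n * 2 ^ n + k % 2 ^ n = k := Nat.div_add_mod' k (2 ^ n)
    have e1 := ss_append n n (k / 2 ^ n) (k % 2 ^ n) hw
    have e2 := dd_append n n (k / 2 ^ n) (k % 2 ^ n) hw
    rw [hk] at e1 e2
    rw [Finset.mem_biUnion]
    refine ⟨(dd n (k / 2 ^ n), ss n (k / 2 ^ n)), ?_, ?_⟩
    · rw [Finset.mem_product, Finset.mem_Icc]
      have := abs_le.mp (abs_dd_le n (k / 2 ^ n))
      exact ⟨this, Finset.mem_image_of_mem _ (Finset.mem_range.mpr hu)⟩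
    · rw [Finset.mem_image]
      refine ⟨(k / 2 ^ n, k % 2 ^ n), ?_, hk⟩
      rw [Finset.mem_product, Finset.mem_filter, Finset.mem_filter, Finset.mem_range,
        Finset.mem_range]
      refine ⟨⟨hu, rfl, rfl⟩, hw, ?_, ?_⟩
      · dsimp only
        rw [← e2]; exact hk3
      · dsimp only
        rw [hk2] at e1
        rw [e1]; ring
  refine (Finset.card_le_card hsub).trans (Finset.card_biUnion_le.trans ?_)
  apply Finset.sum_le_sum
  intro p _
  refine Finset.card_image_le.trans ?_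
  rw [Finset.card_product]
  rfl

theorem RateD_pow_le {q : ℝ} (hq : 1 ≤ q) (n : ℕ) (S : ℤ) :
    (MM (n + n) S 0 : ℝ) ^ q ≤ (3 * ((n : ℝ) + 1) ^ 2) ^ (q - 1) *
      ∑ p ∈ Finset.Icc (-(n : ℤ)) n ×ˢ (Finset.range (2 ^ n)).image (ss n),
        (MM n p.2 p.1 : ℝ) ^ q * (FF n p.1 (S - 2 ^ n * p.2) : ℝ) ^ q := by
  classical
  set P := Finset.Icc (-(n : ℤ)) n ×ˢ (Finset.range (2 ^ n)).image (ss n) with hP
  set J := P.filter (fun p => FF n p.1 (S - 2 ^ n * p.2) ≠ 0) with hJ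
  set f : ℤ × ℤ → ℝ := fun p => (MM n p.2 p.1 : ℝ) * (FF n p.1 (S - 2 ^ n * p.2) : ℝ) with hf
  have hf0 : ∀ p, 0 ≤ f p := fun p => by rw [hf]; positivity
  have h1 : (MM (n + n) S 0 : ℝ) ≤ ∑ p ∈ J, f p := by
    have h := RateD_MM_le n S
    rw [← hP] at h
    have h' : (MM (n + n) S 0 : ℝ) ≤ ∑ p ∈ P, f p := by
      have h2 : (MM (n + n) S 0 : ℝ) ≤
          ((∑ p ∈ P, MM n p.2 p.1 * FF n p.1 (S - 2 ^ n * p.2) : ℕ) : ℝ) := by exact_mod_cast h
      refine h2.trans (le_of_eq ?_)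
      rw [Nat.cast_sum]
      exact Finset.sum_congr rfl fun p _ => Nat.cast_mul _ _
    refine h'.trans (le_of_eq ?_)
    symm
    apply Finset.sum_subset (Finset.filter_subset _ _)
    intro p hp hpJ
    rw [Finset.mem_filter, not_and_not_right] at hpJ
    have := hpJ hp
    rw [hf]
    simp [this]
  have hcard : (J.card : ℝ) ≤ 3 * ((n : ℝ) + 1) ^ 2 := by
    have := RateD_card_le n S ((Finset.range (2 ^ n)).image (ss n))
    rw [← hP, ← hJ] at this
    exact_mod_cast this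
  calc (MM (n + n) S 0 : ℝ) ^ q ≤ (∑ p ∈ J, f p) ^ q :=
        Real.rpow_le_rpow (by positivity) h1 (by linarith)
    _ ≤ (J.card : ℝ) ^ (q - 1) * ∑ p ∈ J, f p ^ q :=
        Real.rpow_sum_le_const_mul_sum_rpow_of_nonneg J hq (fun p _ => hf0 p)
    _ ≤ (3 * ((n : ℝ) + 1) ^ 2) ^ (q - 1) * ∑ p ∈ P, f p ^ q := by
        apply mul_le_mul
        · exact Real.rpow_le_rpow (by positivity) hcard (by linarith)
        · apply Finset.sum_le_sum_of_subset_of_nonneg (Finset.filter_subset _ _)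
          intro p _ _
          exact Real.rpow_nonneg (hf0 p) _
        · exact Finset.sum_nonneg fun p _ => Real.rpow_nonneg (hf0 p) _
        · positivity
    _ = _ := by
        congr 1
        apply Finset.sum_congr rfl
        intro p _
        rw [hf]
        exact Real.mul_rpow (by positivity) (by positivity)

theorem ZZ_double {q : ℝ} (hq : 1 ≤ q) (m : ℕ) :
    ZZ (2 * m) q ≤ 3 ^ q * (2 * m + 1) ^ (4 * q + 1) * ZZ m q ^ 2 := by
  classical
  have hq0 : 0 ≤ q := by linarith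
  have hZ : 0 < ZZ m q := lt_of_lt_of_le one_pos (one_le_ZZ hq0 m)
  set n := 2 * m with hn
  have hnr : (n : ℝ) = 2 * m := by rw [hn]; push_cast; ring
  set A := (Finset.range (2 ^ n)).image (ss n) with hA
  set I := Finset.Icc (-(n : ℤ)) n with hI
  set C : ℝ := (2 * m + 1) ^ (q + 1) * ZZ m q with hC
  have hC0 : 0 ≤ C := by positivity
  have hIcard : (I.card : ℝ) = 2 * n + 1 := by
    rw [hI, Int.card_Icc]
    have : ((n : ℤ) + 1 - -(n : ℤ)).toNat = 2 * n + 1 := by omega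
    rw [this]; push_cast; ring
  have hFsum : ∀ D S1 : ℤ, ∑ S ∈ NN n 0, (FF n D (S - 2 ^ n * S1) : ℝ) ^ q ≤ C := by
    intro D S1
    have h1 : ∑ S ∈ NN n 0, (FF n D (S - 2 ^ n * S1) : ℝ) ^ q =
        ∑ c ∈ (NN n 0).image (fun S => S - 2 ^ n * S1), (FF n D c : ℝ) ^ q := by
      rw [Finset.sum_image]
      intro a _ b _ hab
      dsimp only at hab
      linarith
    rw [h1]
    exact B_bound hq m D _
  have hstep : ZZ n q ≤ (3 * ((n : ℝ) + 1) ^ 2) ^ (q - 1) * ((2 * n + 1) * (C * C)) := by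
    calc ZZ n q = ∑ S ∈ NN n 0, (MM (n + n) S 0 : ℝ) ^ q := by
          unfold ZZ
          rw [two_mul n]
      _ ≤ ∑ S ∈ NN n 0, (3 * ((n : ℝ) + 1) ^ 2) ^ (q - 1) *
            ∑ p ∈ I ×ˢ A, (MM n p.2 p.1 : ℝ) ^ q * (FF n p.1 (S - 2 ^ n * p.2) : ℝ) ^ q :=
          Finset.sum_le_sum fun S _ => RateD_pow_le hq n S
      _ = (3 * ((n : ℝ) + 1) ^ 2) ^ (q - 1) * ∑ p ∈ I ×ˢ A, (MM n p.2 p.1 : ℝ) ^ q *
            ∑ S ∈ NN n 0, (FF n p.1 (S - 2 ^ n * p.2) : ℝ) ^ q := by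
          rw [← Finset.mul_sum, Finset.sum_comm]
          congr 1
          apply Finset.sum_congr rfl
          intro p _
          rw [Finset.mul_sum]
      _ ≤ (3 * ((n : ℝ) + 1) ^ 2) ^ (q - 1) * ∑ p ∈ I ×ˢ A, (MM n p.2 p.1 : ℝ) ^ q * C := by
          apply mul_le_mul_of_nonneg_left _ (by positivity)
          apply Finset.sum_le_sum
          intro p _
          exact mul_le_mul_of_nonneg_left (hFsum p.1 p.2) (by positivity)
      _ = (3 * ((n : ℝ) + 1) ^ 2) ^ (q - 1) * ∑ D ∈ I, (∑ S1 ∈ A, (MM n S1 D : ℝ) ^ q) * C := by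
          rw [Finset.sum_product]
          congr 1
          apply Finset.sum_congr rfl
          intro D _
          rw [Finset.sum_mul]
      _ ≤ (3 * ((n : ℝ) + 1) ^ 2) ^ (q - 1) * ∑ _D ∈ I, C * C := by
          apply mul_le_mul_of_nonneg_left _ (by positivity)
          apply Finset.sum_le_sum
          intro D _
          exact mul_le_mul_of_nonneg_right (A_bound hq m D A) hC0
      _ = _ := by rw [Finset.sum_const, nsmul_eq_mul, hIcard]
  refine hstep.trans ?_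
  have hN : (0 : ℝ) < 2 * m + 1 := by positivity
  rw [hnr, hC]
  set N : ℝ := 2 * m + 1 with hNdef
  have e1 : (3 * N ^ 2) ^ (q - 1) = 3 ^ (q - 1) * N ^ (2 * (q - 1)) := by
    rw [Real.mul_rpow (by norm_num) (by positivity), ← Real.rpow_natCast N 2,
      ← Real.rpow_mul hN.le]
    norm_num
  have e2 : N ^ (4 * q + 1) = N ^ (2 * (q - 1)) * (N ^ (q + 1) * N ^ (q + 1)) * N := by
    rw [← Real.rpow_add hN, ← Real.rpow_add hN, ← Real.rpow_add_one hN.ne']
    congr 1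
    ring
  have e3 : (3 : ℝ) ^ q = 3 ^ (q - 1) * 3 := by
    rw [← Real.rpow_add_one (by norm_num)]
    congr 1
    ring
  rw [e1, e2, e3]
  have h5 : 2 * (2 * (m : ℝ)) + 1 ≤ 3 * N := by rw [hNdef]; nlinarith [(Nat.cast_nonneg m : (0 : ℝ) ≤ m)]
  have h6 : 0 ≤ 3 ^ (q - 1) * N ^ (2 * (q - 1)) * (N ^ (q + 1) * N ^ (q + 1)) * (ZZ m q) ^ 2 := by
    positivity
  calc 3 ^ (q - 1) * N ^ (2 * (q - 1)) *
        ((2 * (2 * (m : ℝ)) + 1) * (N ^ (q + 1) * ZZ m q * (N ^ (q + 1) * ZZ m q)))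
      = (3 ^ (q - 1) * N ^ (2 * (q - 1)) * (N ^ (q + 1) * N ^ (q + 1)) * (ZZ m q) ^ 2) *
          (2 * (2 * (m : ℝ)) + 1) := by ring
    _ ≤ (3 ^ (q - 1) * N ^ (2 * (q - 1)) * (N ^ (q + 1) * N ^ (q + 1)) * (ZZ m q) ^ 2) *
          (3 * N) := mul_le_mul_of_nonneg_left h5 h6
    _ = _ := by ring

end H8TAK
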