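import Pool.Agent.H8.TAK.RateD

/-!
# Rate of convergence of the pressure
-/

namespace H8TAK

open Filter

/-- logarithm of the moment sum -/
noncomputable def zz (q : ℝ) (m : ℕ) : ℝ := Real.logb 2 (ZZ m q)

theorem zz_nonneg {q : ℝ} (hq : 1 ≤ q) (m : ℕ) : 0 ≤ zz q m :=
  Real.logb_nonneg (by norm_num) (one_le_ZZ (by linarith) m)

theorem zz_add {q : ℝ} (hq : 1 ≤ q) (m m' : ℕ) : zz q m + zz q m' ≤ zz q (m + m') := by
  have h1 := one_le_ZZ (q := q) (by linarith) m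
  have h2 := one_le_ZZ (q := q) (by linarith) m'
  unfold zz
  rw [← Real.logb_mul (by linarith) (by linarith)]
  exact Real.logb_le_logb_of_le (by norm_num) (by nlinarith) (ZZ_mul_le (by linarith) m m')

theorem zz_mul {q : ℝ} (hq : 1 ≤ q) (m : ℕ) (a : ℕ) : (a : ℝ) * zz q m ≤ zz q (a * m) := by
  induction a with
  | zero => simpa using zz_nonneg hq 0
  | succ a ih =>
    have h := zz_add hq (a * m) m
    rw [Nat.succ_mul]
    push_cast
    linarith

theorem zz_mono {q : ℝ} (hq : 1 ≤ q) {m m' : ℕ} (h : m ≤ m') : zz q m ≤ zz q m' := by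
  obtain ⟨k, rfl⟩ := Nat.exists_eq_add_of_le h
  have := zz_add hq m k
  have := zz_nonneg hq k
  linarith

theorem zz_double {q : ℝ} (hq : 1 ≤ q) (m : ℕ) :
    zz q (2 * m) ≤ q * Real.logb 2 3 + (4 * q + 1) * Real.logb 2 (2 * m + 1) + 2 * zz q m := by
  have h0 := one_le_ZZ (q := q) (by linarith) m
  have h1 := one_le_ZZ (q := q) (by linarith) (2 * m)
  have h2 := ZZ_double hq m
  have h3 : (0 : ℝ) < 2 * m + 1 := by positivity
  have h4 := Real.logb_le_logb_of_le (b := 2) (by norm_num) (by linarith) h2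
  rw [Real.logb_mul (by positivity) (by positivity), Real.logb_mul (by positivity) (by positivity),
    Real.logb_rpow_eq_mul_logb_of_pos (by norm_num), Real.logb_rpow_eq_mul_logb_of_pos h3,
    Real.logb_pow] at h4
  unfold zz
  push_cast at h4 ⊢
  linarith

theorem logb_dbl (m i : ℕ) :
    Real.logb 2 (2 * ((2 ^ i * m : ℕ) : ℝ) + 1) ≤ i + Real.logb 2 (2 * m + 1) := by
  have h3 : (0 : ℝ) < 2 * m + 1 := by positivity
  have h1 : (i : ℝ) = Real.logb 2 (2 ^ i) := by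
    rw [Real.logb_pow, Real.logb_self_eq_one (by norm_num), mul_one]
  rw [h1, ← Real.logb_mul (by positivity) h3.ne']
  apply Real.logb_le_logb_of_le (by norm_num) (by positivity)
  push_cast
  have h2 : (1 : ℝ) ≤ 2 ^ i := one_le_pow₀ (by norm_num)
  nlinarith

theorem zz_dyadic {q : ℝ} (hq : 1 ≤ q) (m i : ℕ) :
    zz q (2 ^ i * m) / 2 ^ i ≤ zz q m + q * Real.logb 2 3 * (1 - 1 / 2 ^ i) +
      (4 * q + 1) * (Real.logb 2 (2 * m + 1) * (1 - 1 / 2 ^ i) + (1 - (i + 1) / 2 ^ i)) := by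
  induction i with
  | zero => simp
  | succ i ih =>
    have h1 := zz_double hq (2 ^ i * m)
    have h2 := logb_dbl m i
    have hp : (0 : ℝ) < 2 ^ i := by positivity
    have e1 : 2 ^ (i + 1) * m = 2 * (2 ^ i * m) := by ring
    rw [e1]
    have e2 : (2 : ℝ) ^ (i + 1) = 2 * 2 ^ i := by ring
    rw [e2]
    have h3 : zz q (2 * (2 ^ i * m)) ≤ q * Real.logb 2 3 +
        (4 * q + 1) * (i + Real.logb 2 (2 * m + 1)) + 2 * zz q (2 ^ i * m) := by
      have h4 : (4 * q + 1) * Real.logb 2 (2 * ((2 ^ i * m : ℕ) : ℝ) + 1) ≤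
          (4 * q + 1) * (i + Real.logb 2 (2 * m + 1)) :=
        mul_le_mul_of_nonneg_left h2 (by linarith)
      linarith
    have h5 : zz q (2 * (2 ^ i * m)) / (2 * 2 ^ i) ≤ (q * Real.logb 2 3 +
        (4 * q + 1) * (i + Real.logb 2 (2 * m + 1)) + 2 * zz q (2 ^ i * m)) / (2 * 2 ^ i) :=
      div_le_div_of_nonneg_right h3 (by positivity)
    refine h5.trans ?_
    have e3 : (q * Real.logb 2 3 +
        (4 * q + 1) * (i + Real.logb 2 (2 * m + 1)) + 2 * zz q (2 ^ i * m)) / (2 * 2 ^ i) =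
        (q * Real.logb 2 3 + (4 * q + 1) * (i + Real.logb 2 (2 * m + 1))) / (2 * 2 ^ i) +
          zz q (2 ^ i * m) / 2 ^ i := by
      field_simp
    rw [e3]
    have e4 : zz q m + q * Real.logb 2 3 * (1 - 1 / (2 * 2 ^ i)) +
      (4 * q + 1) * (Real.logb 2 (2 * m + 1) * (1 - 1 / (2 * 2 ^ i)) +
        (1 - (((i + 1 : ℕ) : ℝ) + 1) / (2 * 2 ^ i))) =
      (q * Real.logb 2 3 + (4 * q + 1) * (i + Real.logb 2 (2 * m + 1))) / (2 * 2 ^ i) +
      (zz q m + q * Real.logb 2 3 * (1 - 1 / 2 ^ i) +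
      (4 * q + 1) * (Real.logb 2 (2 * m + 1) * (1 - 1 / 2 ^ i) + (1 - (i + 1) / 2 ^ i))) := by
      push_cast
      field_simp
      ring
    rw [e4]
    linarith

theorem zz_dyadic_le {q : ℝ} (hq : 1 ≤ q) (m i : ℕ) :
    zz q (2 ^ i * m) ≤ 2 ^ i * (zz q m + (q * Real.logb 2 3 +
      (4 * q + 1) * (Real.logb 2 (2 * m + 1) + 1))) := by
  have h1 := zz_dyadic hq m i
  have hp : (0 : ℝ) < 2 ^ i := by positivity
  rw [div_le_iff₀ hp] at h1
  refine h1.trans ?_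
  rw [mul_comm]
  apply mul_le_mul_of_nonneg_left _ hp.le
  have h3 : 0 ≤ Real.logb 2 3 := Real.logb_nonneg (by norm_num) (by norm_num)
  have h4 : 0 ≤ Real.logb 2 (2 * m + 1) :=
    Real.logb_nonneg (by norm_num) (by linarith [Nat.cast_nonneg (α := ℝ) m])
  have h5 : (0 : ℝ) ≤ 1 / 2 ^ i := by positivity
  have h6 : (0 : ℝ) ≤ ((i : ℝ) + 1) / 2 ^ i := by positivity
  have h7 : q * Real.logb 2 3 * (1 - 1 / 2 ^ i) ≤ q * Real.logb 2 3 := by
    have : 0 ≤ q * Real.logb 2 3 * (1 / 2 ^ i) := by positivity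
    linarith
  have h8 : Real.logb 2 (2 * m + 1) * (1 - 1 / 2 ^ i) + (1 - ((i : ℝ) + 1) / 2 ^ i) ≤
      Real.logb 2 (2 * m + 1) + 1 := by
    have : 0 ≤ Real.logb 2 (2 * m + 1) * (1 / 2 ^ i) := mul_nonneg h4 h5
    linarith
  have h9 := mul_le_mul_of_nonneg_left h8 (by linarith : (0 : ℝ) ≤ 4 * q + 1)
  linarith

theorem zz_compare {q : ℝ} (hq : 1 ≤ q) {m m' : ℕ} (hm : 1 ≤ m) (hm' : 1 ≤ m') :
    zz q m' / m' ≤ (zz q m + (q * Real.logb 2 3 +
      (4 * q + 1) * (Real.logb 2 (2 * m + 1) + 1))) / m := by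
  set K : ℝ := zz q m + (q * Real.logb 2 3 +
      (4 * q + 1) * (Real.logb 2 (2 * m + 1) + 1)) with hK
  have hm0 : (0 : ℝ) < m := by exact_mod_cast hm
  have hm'0 : (0 : ℝ) < m' := by exact_mod_cast hm'
  have key : ∀ i : ℕ, zz q m' / m' ≤ K / m + zz q m' / m * (1 / 2) ^ i := by
    intro i
    have h1 := zz_dyadic_le hq m i
    rw [← hK] at h1
    have hp : (0 : ℝ) < 2 ^ i := by positivity
    set N : ℕ := 2 ^ i * m with hN
    have hNr : (N : ℝ) = 2 ^ i * m := by rw [hN]; push_cast; ring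
    have hN0 : (0 : ℝ) < N := by rw [hNr]; positivity
    have h2 := zz_mul hq m' (N / m')
    have h3 : zz q (N / m' * m') ≤ zz q N := zz_mono hq (Nat.div_mul_le_self N m')
    have h4 : (N : ℝ) / m' - 1 ≤ ((N / m' : ℕ) : ℝ) := by
      have h5 : N < (N / m' + 1) * m' := by
        rw [mul_comm]
        exact Nat.lt_mul_div_succ N (by omega)
      have h6 : (N : ℝ) < (((N / m' : ℕ) : ℝ) + 1) * m' := by exact_mod_cast h5
      rw [sub_le_iff_le_add, div_le_iff₀ hm'0]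
      exact h6.le
    have h7 : ((N : ℝ) / m' - 1) * zz q m' ≤ 2 ^ i * K :=
      (mul_le_mul_of_nonneg_right h4 (zz_nonneg hq m')).trans ((h2.trans h3).trans h1)
    have h8 : (N : ℝ) * (zz q m' / m') ≤ (N : ℝ) * (K / m + zz q m' / m * (1 / 2) ^ i) := by
      have e1 : (N : ℝ) * (zz q m' / m') = ((N : ℝ) / m' - 1) * zz q m' + zz q m' := by
        field_simp
        ring
      have e2 : (N : ℝ) * (K / m + zz q m' / m * (1 / 2) ^ i) = 2 ^ i * K + zz q m' := by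
        rw [hNr, one_div, inv_pow]
        field_simp
      rw [e1, e2]
      linarith
    exact le_of_mul_le_mul_left h8 hN0
  have hlim : Tendsto (fun i : ℕ => K / m + zz q m' / m * (1 / 2) ^ i) atTop
      (nhds (K / m + zz q m' / m * 0)) :=
    tendsto_const_nhds.add (tendsto_const_nhds.mul
      (tendsto_pow_atTop_nhds_zero_of_lt_one (by norm_num) (by norm_num)))
  rw [mul_zero, add_zero] at hlim
  exact ge_of_tendsto' hlim key

theorem PP_rate {q : ℝ} (hq : 1 ≤ q) {m : ℕ} (hm : 1 ≤ m) :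
    PP q ≤ Real.logb 2 (ZZ m q) / (2 * m) +
      (4 * q + 1) * Real.logb 2 (2 * m + 1) / m := by
  have hm0 : (0 : ℝ) < m := by exact_mod_cast hm
  unfold PP
  apply ciSup_le
  intro m'
  have h1 := zz_compare hq hm (m' := m' + 1) (by omega)
  have hm'0 : (0 : ℝ) < ((m' + 1 : ℕ) : ℝ) := by positivity
  have e1 : Real.logb 2 (ZZ (m' + 1) q) / (2 * ((m' + 1 : ℕ) : ℝ)) =
      zz q (m' + 1) / ((m' + 1 : ℕ) : ℝ) / 2 := by
    unfold zz
    field_simp
  rw [e1]
  have h2 : Real.logb 2 3 ≤ Real.logb 2 (2 * m + 1) := by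
    apply Real.logb_le_logb_of_le (by norm_num) (by norm_num)
    have : (1 : ℝ) ≤ m := by exact_mod_cast hm
    linarith
  have h3 : (3 / 2 : ℝ) ≤ Real.logb 2 3 := by
    rw [Real.le_logb_iff_rpow_le (by norm_num) (by norm_num)]
    have h4 : ((2 : ℝ) ^ (3 / 2 : ℝ)) ^ 2 = 8 := by
      rw [← Real.rpow_natCast, ← Real.rpow_mul (by norm_num)]
      norm_num
    have h5 : (0 : ℝ) ≤ 2 ^ (3 / 2 : ℝ) := by positivity
    nlinarith
  have h4 : Real.logb 2 3 ≤ 8 / 5 := by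
    rw [Real.logb_le_iff_le_rpow (by norm_num) (by norm_num)]
    have h5 : ((2 : ℝ) ^ (8 / 5 : ℝ)) ^ 5 = 256 := by
      rw [← Real.rpow_natCast, ← Real.rpow_mul (by norm_num)]
      norm_num
    by_contra hcon
    push Not at hcon
    have h6 : (0 : ℝ) ≤ 2 ^ (8 / 5 : ℝ) := by positivity
    have h7 : ((2 : ℝ) ^ (8 / 5 : ℝ)) ^ 5 < 3 ^ 5 := pow_lt_pow_left₀ hcon h6 (by norm_num)
    rw [h5] at h7
    norm_num at h7
  have h5 : q * Real.logb 2 3 + (4 * q + 1) * (Real.logb 2 (2 * m + 1) + 1) ≤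
      2 * ((4 * q + 1) * Real.logb 2 (2 * m + 1)) := by
    nlinarith
  have e2 : Real.logb 2 (ZZ m q) / (2 * m) + (4 * q + 1) * Real.logb 2 (2 * m + 1) / m =
      (zz q m + 2 * ((4 * q + 1) * Real.logb 2 (2 * m + 1))) / m / 2 := by
    unfold zz
    field_simp
  rw [e2]
  apply div_le_div_of_nonneg_right _ (by norm_num)
  refine h1.trans (div_le_div_of_nonneg_right ?_ hm0.le)
  linarith

end H8TAK
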