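import Pool.Agent.H8.TAK.Main
import Pool.Agent.H8.TAK.PressDefs

/-!
# Rate of convergence of the pressure: elementary properties of the moment sums
-/

namespace H8TAK

theorem MM_pos_of_mem {m : ℕ} {S : ℤ} (h : S ∈ NN m 0) : (1 : ℝ) ≤ (MM (2 * m) S 0 : ℝ) := by
  have h1 := Conc.mem_NN.mp h
  rw [zero_mul, Real.rpow_zero] at h1
  exact h1

theorem ZZ_mul_le {q : ℝ} (hq : 0 ≤ q) (m m' : ℕ) : ZZ m q * ZZ m' q ≤ ZZ (m + m') q := by
  unfold ZZ
  rw [Finset.sum_mul_sum, ← Finset.sum_product']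
  set φ : ℤ × ℤ → ℤ := fun p => 4 ^ m' * p.1 + p.2 with hφ
  have hinj : Set.InjOn φ ((NN m 0 ×ˢ NN m' 0 : Finset (ℤ × ℤ)) : Set (ℤ × ℤ)) := by
    rintro ⟨S, S'⟩ hp ⟨R, R'⟩ hr heq
    rw [Finset.mem_coe, Finset.mem_product] at hp hr
    obtain ⟨s0, s1⟩ := Conc.mem_NN_range hp.2
    obtain ⟨r0, r1⟩ := Conc.mem_NN_range hr.2
    have heq' : 4 ^ m' * S + S' = 4 ^ m' * R + R' := heq
    have hpos : (0 : ℤ) < 4 ^ m' := by positivity
    simp only at s0 s1 r0 r1
    have h1 : S = R := by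
      by_contra hne
      rcases lt_or_gt_of_ne hne with hlt | hlt
      · have : (4 : ℤ) ^ m' * (S + 1) ≤ 4 ^ m' * R := mul_le_mul_of_nonneg_left hlt hpos.le
        linarith
      · have : (4 : ℤ) ^ m' * (R + 1) ≤ 4 ^ m' * S := mul_le_mul_of_nonneg_left hlt hpos.le
        linarith
    subst h1
    have h2 : S' = R' := by linarith
    rw [h2]
  have hsub : (NN m 0 ×ˢ NN m' 0).image φ ⊆ NN (m + m') 0 := by
    intro T hT
    obtain ⟨⟨S, S'⟩, hp, rfl⟩ := Finset.mem_image.mp hT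
    rw [Finset.mem_product] at hp
    rw [Conc.mem_NN, zero_mul, Real.rpow_zero]
    have h1 := MM_pos_of_mem hp.1
    have h2 := MM_pos_of_mem hp.2
    have h3 : ((MM (2 * m) S 0 * MM (2 * m') S' 0 : ℕ) : ℝ) ≤
        (MM (2 * (m + m')) (4 ^ m' * S + S') 0 : ℝ) := by
      exact_mod_cast Conc.MM_mul_le m m' S S'
    rw [Nat.cast_mul] at h3
    refine le_trans ?_ h3
    nlinarith
  calc ∑ p ∈ NN m 0 ×ˢ NN m' 0, (MM (2 * m) p.1 0 : ℝ) ^ q * (MM (2 * m') p.2 0 : ℝ) ^ q
      ≤ ∑ p ∈ NN m 0 ×ˢ NN m' 0, (MM (2 * (m + m')) (φ p) 0 : ℝ) ^ q := by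
        refine Finset.sum_le_sum fun p _ => ?_
        rw [← Real.mul_rpow (by positivity) (by positivity)]
        refine Real.rpow_le_rpow (by positivity) ?_ hq
        have := Conc.MM_mul_le m m' p.1 p.2
        exact_mod_cast this
    _ = ∑ T ∈ (NN m 0 ×ˢ NN m' 0).image φ, (MM (2 * (m + m')) T 0 : ℝ) ^ q := by
        rw [Finset.sum_image hinj]
    _ ≤ ∑ T ∈ NN (m + m') 0, (MM (2 * (m + m')) T 0 : ℝ) ^ q :=
        Finset.sum_le_sum_of_subset_of_nonneg hsub fun _ _ _ => by positivity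

theorem one_le_ZZ {q : ℝ} (hq : 0 ≤ q) (m : ℕ) : 1 ≤ ZZ m q := by
  obtain ⟨S0, hS0⟩ := Conc.exists_S0' m
  have h1 : (1 : ℝ) ≤ (MM (2 * m) S0 0 : ℝ) := by
    have : 1 ≤ MM (2 * m) S0 0 := le_trans Nat.one_le_two_pow hS0
    exact_mod_cast this
  have hmem : S0 ∈ NN m 0 := by
    rw [Conc.mem_NN, zero_mul, Real.rpow_zero]
    exact h1
  unfold ZZ
  calc (1 : ℝ) ≤ (MM (2 * m) S0 0 : ℝ) ^ q := Real.one_le_rpow h1 hq
    _ ≤ _ := Finset.single_le_sum (f := fun S => (MM (2 * m) S 0 : ℝ) ^ q)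
      (fun _ _ => by positivity) hmem

theorem sum_range_two_mul (f : ℕ → ℕ) (N : ℕ) :
    ∑ k ∈ Finset.range (2 * N), f k = ∑ k ∈ Finset.range N, (f (2 * k) + f (2 * k + 1)) := by
  induction N with
  | zero => simp
  | succ N ih =>
    rw [show 2 * (N + 1) = 2 * N + 1 + 1 by ring, Finset.sum_range_succ, Finset.sum_range_succ, ih,
      Finset.sum_range_succ]
    ring

theorem card_dd_succ (n : ℕ) (D : ℤ) :
    ((Finset.range (2 ^ (n + 1))).filter (fun k => dd (n + 1) k = D)).card =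
      ((Finset.range (2 ^ n)).filter (fun k => dd n k = D - 1)).card +
        ((Finset.range (2 ^ n)).filter (fun k => dd n k = D + 1)).card := by
  rw [Finset.card_filter, Finset.card_filter, Finset.card_filter, pow_succ, mul_comm (2 ^ n) 2,
    sum_range_two_mul, ← Finset.sum_add_distrib]
  refine Finset.sum_congr rfl fun k _ => ?_
  have e1 : dd (n + 1) (2 * k) = dd n k + 1 := by
    simp only [dd]
    rw [Nat.mul_div_cancel_left k (by norm_num), Nat.mul_mod_right]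
    simp
  have e2 : dd (n + 1) (2 * k + 1) = dd n k - 1 := by
    simp only [dd]
    rw [show (2 * k + 1) / 2 = k by omega, show (2 * k + 1) % 2 = 1 by omega]
    push_cast; ring
  rw [e1, e2]
  congr 1
  · by_cases h : dd n k = D - 1
    · rw [if_pos h, if_pos (by linarith)]
    · rw [if_neg h, if_neg (fun h' => h (by linarith))]
  · by_cases h : dd n k = D + 1
    · rw [if_pos h, if_pos (by linarith)]
    · rw [if_neg h, if_neg (fun h' => h (by linarith))]

theorem card_dd_eq_choose (n : ℕ) : ∀ j : ℕ,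
    ((Finset.range (2 ^ n)).filter (fun k => dd n k = (n : ℤ) - 2 * j)).card = n.choose j := by
  induction n with
  | zero =>
    intro j
    cases j with
    | zero => decide
    | succ j =>
      rw [Nat.choose_zero_succ, Finset.card_eq_zero, Finset.filter_eq_empty_iff]
      intro k _ h
      simp only [dd] at h
      push_cast at h
      omega
  | succ n ih =>
    intro j
    rw [card_dd_succ]
    cases j with
    | zero =>
      have h1 := ih 0
      have e1 : ((n + 1 : ℕ) : ℤ) - 2 * ((0 : ℕ) : ℤ) - 1 = (n : ℤ) - 2 * ((0 : ℕ) : ℤ) := by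
        push_cast; ring
      rw [e1, h1]
      have h2 : ((Finset.range (2 ^ n)).filter
          (fun k => dd n k = ((n + 1 : ℕ) : ℤ) - 2 * ((0 : ℕ) : ℤ) + 1)).card = 0 := by
        rw [Finset.card_eq_zero, Finset.filter_eq_empty_iff]
        intro k _ h
        have h3 := abs_dd_le n k
        have h4 := le_trans (le_abs_self _) h3
        push_cast at h
        omega
      rw [h2]
      simp
    | succ j =>
      have e1 : ((n + 1 : ℕ) : ℤ) - 2 * ((j + 1 : ℕ) : ℤ) - 1 = (n : ℤ) - 2 * ((j + 1 : ℕ) : ℤ) := by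
        push_cast; ring
      have e2 : ((n + 1 : ℕ) : ℤ) - 2 * ((j + 1 : ℕ) : ℤ) + 1 = (n : ℤ) - 2 * (j : ℤ) := by
        push_cast; ring
      rw [e1, e2, ih, ih, Nat.choose_succ_succ]
      ring

theorem sum_MM_zero (m : ℕ) : ∑ S ∈ NN m 0, MM (2 * m) S 0 = (2 * m).choose m := by
  have h1 := card_dd_eq_choose (2 * m) m
  have e : ((2 * m : ℕ) : ℤ) - 2 * (m : ℤ) = 0 := by push_cast; ring
  rw [e] at h1
  rw [← h1]
  rw [Finset.card_eq_sum_card_fiberwise (f := ss (2 * m)) (t := NN m 0)]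
  · refine Finset.sum_congr rfl fun S _ => ?_
    unfold MM
    rw [Finset.filter_filter]
    congr 1
    ext k
    simp only [Finset.mem_filter, Finset.mem_range]
    tauto
  · intro k hk
    rw [Finset.mem_coe, Finset.mem_filter] at hk
    rw [Finset.mem_coe, Conc.mem_NN, zero_mul, Real.rpow_zero]
    have : 0 < MM (2 * m) (ss (2 * m) k) 0 := by
      unfold MM
      refine Finset.card_pos.mpr ⟨k, ?_⟩
      rw [Finset.mem_filter]
      exact ⟨hk.1, rfl, hk.2⟩
    exact_mod_cast this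

theorem four_pow_le_ZZ {q : ℝ} (hq : 1 ≤ q) (m : ℕ) : (4 : ℝ) ^ m ≤ (2 * m + 1) * ZZ m q := by
  have h1 := Nat.four_pow_le_two_mul_add_one_mul_central_binom m
  have h2 : ((2 * m).choose m : ℝ) ≤ ZZ m q := by
    rw [← sum_MM_zero, Nat.cast_sum]
    unfold ZZ
    refine Finset.sum_le_sum fun S hS => ?_
    have h3 := MM_pos_of_mem hS
    calc (MM (2 * m) S 0 : ℝ) = (MM (2 * m) S 0 : ℝ) ^ (1 : ℝ) := (Real.rpow_one _).symm
      _ ≤ _ := Real.rpow_le_rpow_of_exponent_le h3 hq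
  have h3 : ((4 ^ m : ℕ) : ℝ) ≤ (((2 * m + 1) * (2 * m).choose m : ℕ) : ℝ) := by
    exact_mod_cast h1
  push_cast at h3
  refine le_trans h3 ?_
  exact mul_le_mul_of_nonneg_left h2 (by positivity)

end H8TAK
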