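import Pool.Agent.H8.TAK.Final

/-!
# The growth exponent near the right end point
-/

namespace H8TAK

open Set

theorem GG_right {ε : ℝ} (h0 : 0 < ε) (h1 : ε ≤ 1 / 2) :
    GG (1 / 2 - ε) ≤ 11 * ε * Real.logb 2 (1 / ε) := by
  have hlog2 : 0 < Real.log 2 := Real.log_pos (by norm_num)
  have hl : 0 < Real.log (21 / 20) := Real.log_pos (by norm_num)
  have hl1 : 1 / 21 ≤ Real.log (21 / 20) := by
    have := Real.one_sub_inv_le_log_of_pos (show (0 : ℝ) < 21 / 20 by norm_num)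
    have e : (1 : ℝ) - (21 / 20)⁻¹ = 1 / 21 := by norm_num
    linarith
  have hl2 : Real.log 2 ≤ 0.6931471808 := Real.log_two_lt_d9.le
  have hl3 : 0.6931471803 ≤ Real.log 2 := Real.log_two_gt_d9.le
  set η : ℝ := 2 * ε * Real.log 2 / Real.log (21 / 20) with hη
  have hη0 : 0 ≤ η := by positivity
  have hηle : η ≤ 30 * ε := by
    rw [hη, div_le_iff₀ hl]
    have h2 : 30 * ε * (1 / 21) ≤ 30 * ε * Real.log (21 / 20) :=
      mul_le_mul_of_nonneg_left hl1 (by positivity)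
    nlinarith
  have hLpos : 1 ≤ Real.logb 2 (1 / ε) := by
    rw [Real.le_logb_iff_rpow_le (by norm_num) (by positivity), Real.rpow_one,
      le_div_iff₀ h0]
    linarith
  have hLlog : Real.log (1 / ε) = Real.logb 2 (1 / ε) * Real.log 2 := by
    unfold Real.logb
    rw [div_mul_cancel₀ _ hlog2.ne']
  have hβ : 1 / 2 - ε ≤ 1 / 2 := by linarith
  unfold GG
  apply ciSup_le
  intro m
  have hM : (0 : ℝ) < ((m + 1 : ℕ) : ℝ) := by positivity
  have hx : 0 < √ε := Real.sqrt_pos.mpr h0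
  have hx1 : √ε ≤ 1 := Real.sqrt_le_one.mpr (by linarith)
  have hc := card_NN_le MM_eq_WW WW_le (x := √ε) (η := η) (β := 1 / 2 - ε) hx hx1 hη0
    (by rw [hη]; field_simp; ring) (m + 1)
  have hpos : (0 : ℝ) < ((NN (m + 1) (1 / 2 - ε)).card : ℝ) := by
    have := Finset.card_pos.mpr (NN_nonempty (m + 1) hβ)
    exact_mod_cast this
  have hlogc := Real.log_le_log hpos hc
  have hp1 : 0 < √ε ^ (-(η * ((m + 1 : ℕ) : ℝ))) := Real.rpow_pos_of_pos hx _
  have hp2 : (0 : ℝ) < (1 + 4 * √ε ^ 2) ^ (m + 1) := by positivity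
  rw [Real.log_mul hp1.ne' hp2.ne', Real.log_rpow hx, Real.log_pow, Real.sq_sqrt h0.le,
    Real.log_sqrt h0.le] at hlogc
  have h4 : Real.log (1 + 4 * ε) ≤ 4 * ε := by
    have := Real.log_le_sub_one_of_pos (show 0 < 1 + 4 * ε by linarith)
    linarith
  have hlogε : Real.log ε = - Real.log (1 / ε) := by
    rw [one_div, Real.log_inv, neg_neg]
  unfold ee
  rw [div_le_iff₀ (by positivity)]
  unfold Real.logb
  rw [div_le_iff₀ hlog2]
  set L : ℝ := Real.log (1 / ε) with hLdef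
  rw [hlogε] at hlogc
  have hL0 : Real.log 2 ≤ L := by
    rw [hLlog]
    nlinarith
  have e1 : 11 * ε * (L / Real.log 2) * (2 * ((m + 1 : ℕ) : ℝ)) * Real.log 2
      = 22 * ε * L * ((m + 1 : ℕ) : ℝ) := by
    field_simp
    ring
  rw [e1]
  have e2 : -(η * ((m + 1 : ℕ) : ℝ)) * (-L / 2) + ((m + 1 : ℕ) : ℝ) * Real.log (1 + 4 * ε)
      ≤ ((m + 1 : ℕ) : ℝ) * (15 * ε * L + 4 * ε) := by
    have h5 : η * L ≤ 30 * ε * L := mul_le_mul_of_nonneg_right hηle (by linarith)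
    have h6 : η * L / 2 + Real.log (1 + 4 * ε) ≤ 15 * ε * L + 4 * ε := by linarith
    have h7 := mul_le_mul_of_nonneg_left h6 hM.le
    linarith
  have h8 : 4 * ε ≤ 7 * ε * L := by nlinarith
  have h9 : ((m + 1 : ℕ) : ℝ) * (15 * ε * L + 4 * ε) ≤ 22 * ε * L * ((m + 1 : ℕ) : ℝ) := by
    have : 15 * ε * L + 4 * ε ≤ 22 * ε * L := by linarith
    nlinarith
  linarith

end H8TAK
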