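import Pool.Agent.H8.TAK.Defs

/-!
# Basic properties of the Takagi function
-/

namespace H8TAK

theorem TakBasic_nonneg (t : ℝ) : 0 ≤ distInt t := abs_nonneg _

theorem TakBasic_le (t : ℝ) : distInt t ≤ 1 / 2 := abs_sub_round t

theorem TakBasic_int (k : ℤ) : distInt (k : ℝ) = 0 := by
  simp [distInt]

theorem TakBasic_int_add (k : ℤ) (t : ℝ) : distInt (k + t) = distInt t := by
  unfold distInt
  rw [round_intCast_add]
  push_cast
  congr 1
  ring

/-- `distInt` is the minimum of the distances to the two neighbouring integers. -/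
theorem TakBasic_min (t : ℝ) : distInt t = min (Int.fract t) (1 - Int.fract t) :=
  abs_sub_round_eq_min t

theorem TakBasic_lo {t : ℝ} (h0 : 0 ≤ t) (h1 : t ≤ 1 / 2) : distInt t = t := by
  have h : Int.fract t = t := Int.fract_eq_self.2 ⟨h0, by linarith⟩
  rw [TakBasic_min, h, min_eq_left (by linarith)]

theorem TakBasic_neg (t : ℝ) : distInt (-t) = distInt t := by
  rw [TakBasic_min, TakBasic_min]
  by_cases h : Int.fract t = 0
  · have h' : Int.fract (-t) = 0 := Int.fract_neg_eq_zero.2 h
    rw [h, h']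
  · rw [Int.fract_neg h, min_comm]
    congr 1
    ring

theorem TakBasic_hi {t : ℝ} (h0 : 1 / 2 ≤ t) (h1 : t ≤ 1) : distInt t = 1 - t := by
  have e : t = ((1 : ℤ) : ℝ) + (-(1 - t)) := by push_cast; ring
  rw [e, TakBasic_int_add, TakBasic_neg, TakBasic_lo (by linarith) (by linarith)]
  push_cast
  ring

theorem TakBasic_cont : Continuous distInt := by
  have h : distInt = fun t : ℝ => ‖(t : AddCircle (1 : ℝ))‖ := by
    funext t
    rw [AddCircle.norm_eq]
    simp [distInt]
  rw [h]
  exact continuous_norm.comp (AddCircle.continuous_mk' 1)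

theorem TakBasic_term_nonneg (x : ℝ) (n : ℕ) : 0 ≤ distInt (2 ^ n * x) / 2 ^ n :=
  div_nonneg (TakBasic_nonneg _) (by positivity)

theorem TakBasic_term_le (x : ℝ) (n : ℕ) : distInt (2 ^ n * x) / 2 ^ n ≤ (1 / 2) ^ n := by
  rw [div_le_iff₀ (by positivity), ← mul_pow]
  have := TakBasic_le (2 ^ n * x)
  norm_num
  linarith

theorem takagi_summable (x : ℝ) : Summable (fun n : ℕ => distInt (2 ^ n * x) / 2 ^ n) :=
  Summable.of_nonneg_of_le (TakBasic_term_nonneg x) (TakBasic_term_le x)
    (summable_geometric_of_lt_one (by norm_num) (by norm_num))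

theorem takagi_zero : takagi 0 = 0 := by
  unfold takagi
  have : ∀ n : ℕ, distInt (2 ^ n * 0) / 2 ^ n = 0 := by
    intro n
    have := TakBasic_int 0
    push_cast at this
    rw [mul_zero, this, zero_div]
  exact (tsum_congr this).trans tsum_zero

theorem takagi_nonneg (x : ℝ) : 0 ≤ takagi x := tsum_nonneg (TakBasic_term_nonneg x)

theorem TakBasic_step (x : ℝ) : takagi x = distInt x + takagi (2 * x) / 2 := by
  unfold takagi
  rw [(takagi_summable x).tsum_eq_zero_add, ← tsum_div_const]
  congr 1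
  · simp
  · apply tsum_congr
    intro n
    rw [pow_succ, div_div]
    congr 2
    ring

theorem TakBasic_int_add' (k : ℤ) (x : ℝ) : takagi (k + x) = takagi x := by
  unfold takagi
  apply tsum_congr
  intro n
  have : (2 : ℝ) ^ n * (k + x) = ((2 ^ n * k : ℤ) : ℝ) + 2 ^ n * x := by push_cast; ring
  rw [this, TakBasic_int_add]

theorem takagi_nat_add (k : ℕ) (x : ℝ) : takagi (k + x) = takagi x := by
  have := TakBasic_int_add' (k : ℤ) x
  push_cast at this
  exact this

theorem TakBasic_neg' (x : ℝ) : takagi (-x) = takagi x := by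
  unfold takagi
  apply tsum_congr
  intro n
  have : (2 : ℝ) ^ n * (-x) = -(2 ^ n * x) := by ring
  rw [this, TakBasic_neg]

theorem takagi_one_sub (x : ℝ) : takagi (1 - x) = takagi x := by
  have := TakBasic_int_add' 1 (-x)
  push_cast at this
  rw [sub_eq_add_neg, this, TakBasic_neg']

theorem takagi_half {t : ℝ} (h0 : 0 ≤ t) (h1 : t ≤ 1) :
    takagi (t / 2) = t / 2 + takagi t / 2 := by
  rw [TakBasic_step, TakBasic_lo (by linarith) (by linarith)]
  congr 3
  ring

theorem takagi_half' {t : ℝ} (h0 : 0 ≤ t) (h1 : t ≤ 1) :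
    takagi ((1 + t) / 2) = (1 - t) / 2 + takagi t / 2 := by
  rw [TakBasic_step, TakBasic_hi (by linarith) (by linarith)]
  have e : 2 * ((1 + t) / 2) = ((1 : ℕ) : ℝ) + t := by push_cast; ring
  rw [e, takagi_nat_add]
  congr 1
  ring

/-- `distInt x + distInt (2 x) / 2 ≤ 1 / 2`. -/
theorem TakBasic_pair (x : ℝ) : distInt x + distInt (2 * x) / 2 ≤ 1 / 2 := by
  have key : ∀ y : ℝ, 0 ≤ y → y ≤ 1 → distInt y + distInt (2 * y) / 2 ≤ 1 / 2 := by
    intro y h0 h1
    have hd : ∀ (z : ℝ) (k : ℤ), distInt z ≤ |z - k| := fun z k => round_le z k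
    rcases le_total y (1 / 2) with h | h
    · rw [TakBasic_lo h0 h]
      have := hd (2 * y) 1
      have h2 : |2 * y - ((1 : ℤ) : ℝ)| = 1 - 2 * y := by
        rw [abs_of_nonpos (by push_cast; linarith)]
        push_cast
        ring
      rw [h2] at this
      linarith
    · rw [TakBasic_hi h h1]
      have := hd (2 * y) 1
      have h2 : |2 * y - ((1 : ℤ) : ℝ)| = 2 * y - 1 := by
        rw [abs_of_nonneg (by push_cast; linarith)]
        push_cast
        ring
      rw [h2] at this
      linarith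
  have e : x = ((⌊x⌋ : ℤ) : ℝ) + Int.fract x := (Int.floor_add_fract x).symm
  have e2 : 2 * x = ((2 * ⌊x⌋ : ℤ) : ℝ) + 2 * Int.fract x := by
    push_cast
    linarith
  have h1 : distInt x = distInt (Int.fract x) := by
    conv_lhs => rw [e]
    rw [TakBasic_int_add]
  have h2 : distInt (2 * x) = distInt (2 * Int.fract x) := by
    rw [e2, TakBasic_int_add]
  rw [h1, h2]
  exact key _ (Int.fract_nonneg x) (Int.fract_lt_one x).le

theorem TakBasic_four (x : ℝ) : takagi x ≤ 1 / 2 + takagi (4 * x) / 4 := by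
  have h1 := TakBasic_step x
  have h2 := TakBasic_step (2 * x)
  have e : 2 * (2 * x) = 4 * x := by ring
  rw [e] at h2
  have h3 := TakBasic_pair x
  linarith

theorem TakBasic_le_two (x : ℝ) : takagi x ≤ 2 := by
  unfold takagi
  have h := (takagi_summable x).tsum_le_tsum (TakBasic_term_le x)
    (summable_geometric_of_lt_one (by norm_num) (by norm_num))
  rw [tsum_geometric_of_lt_one (by norm_num) (by norm_num)] at h
  linarith

theorem takagi_le (x : ℝ) : takagi x ≤ 2 / 3 := by
  have key : ∀ (n : ℕ) (y : ℝ), takagi y ≤ 2 / 3 + 2 / 4 ^ n := by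
    intro n
    induction n with
    | zero =>
      intro y
      have := TakBasic_le_two y
      norm_num
      linarith
    | succ n ih =>
      intro y
      have h1 := TakBasic_four y
      have h2 := ih (4 * y)
      have h3 : (2 : ℝ) / 4 ^ (n + 1) = 2 / 4 ^ n / 4 := by
        rw [pow_succ, div_div]
      rw [h3]
      linarith
  have hlim : Filter.Tendsto (fun n : ℕ => (2 : ℝ) / 3 + 2 / 4 ^ n) Filter.atTop
      (nhds (2 / 3 + 0)) := by
    apply Filter.Tendsto.const_add
    exact tendsto_const_nhds.div_atTop (tendsto_pow_atTop_atTop_of_one_lt (by norm_num))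
  rw [add_zero] at hlim
  exact ge_of_tendsto' hlim (fun n => key n x)

theorem takagi_continuous : Continuous takagi := by
  unfold takagi
  refine continuous_tsum (u := fun n : ℕ => (1 / 2 : ℝ) ^ n) (fun n => ?_)
    (summable_geometric_of_lt_one (by norm_num) (by norm_num)) (fun n x => ?_)
  · exact (TakBasic_cont.comp (continuous_const.mul continuous_id)).div_const _
  · rw [Real.norm_of_nonneg (TakBasic_term_nonneg x n)]
    exact TakBasic_term_le x n

theorem TakBasic_third : takagi (1 / 3) = 2 / 3 := by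
  have h1 : takagi (1 / 3) = 1 / 3 + takagi (2 / 3) / 2 := by
    have := TakBasic_step (1 / 3)
    rw [TakBasic_lo (by norm_num) (by norm_num)] at this
    rw [this]
    norm_num
  have h2 : takagi (2 / 3) = takagi (1 / 3) := by
    have := takagi_one_sub (1 / 3)
    rw [← this]
    norm_num
  rw [h2] at h1
  linarith

theorem takagi_surj {y : ℝ} (h0 : 0 ≤ y) (h1 : y ≤ 2 / 3) :
    ∃ x ∈ Set.Icc (0 : ℝ) 1, takagi x = y := by
  have h := intermediate_value_Icc (show (0 : ℝ) ≤ 1 / 3 by norm_num)
    takagi_continuous.continuousOn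
  rw [takagi_zero, TakBasic_third] at h
  obtain ⟨x, hx, hxy⟩ := h ⟨h0, h1⟩
  exact ⟨x, ⟨hx.1, hx.2.trans (by norm_num)⟩, hxy⟩

end H8TAK
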